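import Pool.Agent.Helper97.Scat.Exp

/-!
# The Green function of `-Δ + m²` in the plane, through the heat integral
-/

open MeasureTheory Filter Topology Set Real

namespace Pool.Agent.Helper97.Scat

/-- the integrand: the heat kernel at time `σ²`, times `exp (-m² σ²)`, times `2σ` -/
noncomputable def hk (m z σ : ℝ) : ℝ := Real.exp (-(m ^ 2 * σ ^ 2) - z / (4 * σ ^ 2)) / (2 * π * σ)

/-- the Green function `(1/2π) K₀(m r)` of `-Δ + m²` as a function of `z = r²` -/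
noncomputable def gk (m z : ℝ) : ℝ := ∫ σ in Ioi (0:ℝ), hk m z σ

lemma hk_nonneg (m z : ℝ) {σ : ℝ} (hσ : 0 < σ) : 0 ≤ hk m z σ := by unfold hk; positivity

lemma hk_anti (m : ℝ) {z₁ z₂ σ : ℝ} (hσ : 0 < σ) (h : z₁ ≤ z₂) : hk m z₂ σ ≤ hk m z₁ σ := by
  unfold hk
  gcongr

lemma measurable_hk (m : ℝ) : Measurable (fun p : ℝ × ℝ => hk m p.2 p.1) := by
  unfold hk; fun_prop

lemma exp_neg_le_inv {x : ℝ} (hx : 0 < x) : Real.exp (-x) ≤ 1 / x := by
  rw [Real.exp_neg, ← one_div]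
  exact one_div_le_one_div_of_le hx (by linarith [Real.add_one_le_exp x])

lemma hk_integrableOn {m z : ℝ} (hm : 0 < m) (hz : 0 < z) : IntegrableOn (hk m z) (Ioi 0) := by
  have h : Integrable (fun σ : ℝ => 2 / (π * z) * (σ * Real.exp (-(m ^ 2) * σ ^ 2)))
      (volume.restrict (Ioi 0)) :=
    ((integrable_mul_exp_neg_mul_sq (by positivity)).const_mul _).integrableOn
  refine Integrable.mono' h ?_ ?_
  · exact ((measurable_hk m).comp (measurable_id.prodMk measurable_const)).aestronglyMeasurable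
  · refine (ae_restrict_iff' measurableSet_Ioi).2 (Eventually.of_forall fun σ hσ => ?_)
    simp only [mem_Ioi] at hσ
    rw [Real.norm_of_nonneg (hk_nonneg m z hσ), hk, sub_eq_add_neg, Real.exp_add]
    have h1 : Real.exp (-(z / (4 * σ ^ 2))) ≤ 1 / (z / (4 * σ ^ 2)) :=
      exp_neg_le_inv (by positivity)
    calc Real.exp (-(m ^ 2 * σ ^ 2)) * Real.exp (-(z / (4 * σ ^ 2))) / (2 * π * σ)
        ≤ Real.exp (-(m ^ 2 * σ ^ 2)) * (1 / (z / (4 * σ ^ 2))) / (2 * π * σ) := by gcongr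
      _ = 2 / (π * z) * (σ * Real.exp (-(m ^ 2) * σ ^ 2)) := by
          rw [neg_mul]; field_simp; ring

lemma gk_nonneg (m z : ℝ) : 0 ≤ gk m z :=
  setIntegral_nonneg measurableSet_Ioi fun _ hσ => hk_nonneg m z hσ

lemma gk_anti {m : ℝ} (hm : 0 < m) {z₁ z₂ : ℝ} (hz : 0 < z₁) (h : z₁ ≤ z₂) : gk m z₂ ≤ gk m z₁ :=
  setIntegral_mono_on (hk_integrableOn hm (hz.trans_le h)) (hk_integrableOn hm hz)
    measurableSet_Ioi fun _ hσ => hk_anti m hσ h

lemma gauss_integrable {c : ℝ} (hc : 0 < c) (r₀ : ℝ) {σ : ℝ} (hσ : 0 < σ) :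
    Integrable (fun r : ℝ => Real.exp (-(c ^ 2 * (r - r₀) ^ 2 / (4 * σ ^ 2)))) := by
  have := (integrable_exp_neg_mul_sq (b := c ^ 2 / (4 * σ ^ 2)) (by positivity)).comp_sub_right r₀
  refine this.congr (Eventually.of_forall fun r => ?_)
  simp only
  congr 1
  ring

lemma gauss_integral {c : ℝ} (hc : 0 < c) (r₀ : ℝ) {σ : ℝ} (hσ : 0 < σ) :
    ∫ r : ℝ, Real.exp (-(c ^ 2 * (r - r₀) ^ 2 / (4 * σ ^ 2))) = 2 * σ * √π / c := by
  have e : (fun r : ℝ => Real.exp (-(c ^ 2 * (r - r₀) ^ 2 / (4 * σ ^ 2))))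
      = fun r => (fun x => Real.exp (-(c ^ 2 / (4 * σ ^ 2)) * x ^ 2)) (r - r₀) := by
    ext r
    simp only
    congr 1
    ring
  rw [e, integral_sub_right_eq_self (fun x => Real.exp (-(c ^ 2 / (4 * σ ^ 2)) * x ^ 2)) r₀,
    integral_gaussian]
  rw [show π / (c ^ 2 / (4 * σ ^ 2)) = (2 * σ / c) ^ 2 * π by field_simp; ring,
    Real.sqrt_mul (by positivity), Real.sqrt_sq (by positivity)]
  ring

lemma hk_split (m z w σ : ℝ) : hk m (w + z) σ
    = Real.exp (-(m ^ 2 * σ ^ 2) - z / (4 * σ ^ 2)) / (2 * π * σ)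
      * Real.exp (-(w / (4 * σ ^ 2))) := by
  rw [hk, div_mul_eq_mul_div, ← Real.exp_add]
  congr 2
  ring

lemma hk_integral_r (m : ℝ) {c : ℝ} (hc : 0 < c) (r₀ z : ℝ) {σ : ℝ} (hσ : 0 < σ) :
    ∫ r : ℝ, hk m (c ^ 2 * (r - r₀) ^ 2 + z) σ
      = Real.exp (-(m ^ 2 * σ ^ 2) - z / (4 * σ ^ 2)) / (c * √π) := by
  simp only [hk_split]
  rw [integral_const_mul, gauss_integral hc r₀ hσ]
  have : √π * √π = π := Real.mul_self_sqrt pi_pos.le
  field_simp
  nlinarith [this]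

lemma hk_integrable_r (m : ℝ) {c : ℝ} (hc : 0 < c) (r₀ z : ℝ) {σ : ℝ} (hσ : 0 < σ) :
    Integrable (fun r : ℝ => hk m (c ^ 2 * (r - r₀) ^ 2 + z) σ) := by
  simp only [hk_split]
  exact (gauss_integrable hc r₀ hσ).const_mul _

lemma exp_integrableOn {m : ℝ} (hm : 0 < m) {z : ℝ} (hz : 0 ≤ z) :
    IntegrableOn (fun σ : ℝ => Real.exp (-(m ^ 2 * σ ^ 2) - z / (4 * σ ^ 2))) (Ioi 0) := by
  have h : Integrable (fun σ : ℝ => Real.exp (-(m ^ 2) * σ ^ 2)) (volume.restrict (Ioi 0)) :=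
    (integrable_exp_neg_mul_sq (by positivity)).integrableOn
  refine Integrable.mono' h ?_ ?_
  · exact Measurable.aestronglyMeasurable (by fun_prop)
  · refine (ae_restrict_iff' measurableSet_Ioi).2 (Eventually.of_forall fun σ hσ => ?_)
    simp only [mem_Ioi] at hσ
    rw [Real.norm_of_nonneg (Real.exp_pos _).le]
    apply Real.exp_le_exp.2
    have : 0 ≤ z / (4 * σ ^ 2) := by positivity
    linarith

lemma hk_prod {m : ℝ} (hm : 0 < m) {c : ℝ} (hc : 0 < c) (r₀ : ℝ) :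
    Integrable (fun p : ℝ × ℝ => hk m (c ^ 2 * (p.2 - r₀) ^ 2) p.1)
      ((volume.restrict (Ioi 0)).prod volume) := by
  have hmeas : Measurable (fun p : ℝ × ℝ => hk m (c ^ 2 * (p.2 - r₀) ^ 2) p.1) :=
    (measurable_hk m).comp (measurable_fst.prodMk
      (by fun_prop : Measurable fun p : ℝ × ℝ => c ^ 2 * (p.2 - r₀) ^ 2))
  rw [integrable_prod_iff hmeas.aestronglyMeasurable]
  constructor
  · refine (ae_restrict_iff' measurableSet_Ioi).2 (Eventually.of_forall fun σ hσ => ?_)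
    have := hk_integrable_r m hc r₀ 0 (show 0 < σ from hσ)
    simpa using this
  · have h : IntegrableOn (fun σ : ℝ => Real.exp (-(m ^ 2 * σ ^ 2) - 0 / (4 * σ ^ 2)) / (c * √π))
        (Ioi 0) := (exp_integrableOn hm le_rfl).div_const _
    refine IntegrableOn.congr_fun h (fun σ hσ => ?_) measurableSet_Ioi
    simp only
    rw [← hk_integral_r m hc r₀ 0 (show 0 < σ from hσ)]
    refine integral_congr_ae (Eventually.of_forall fun r => ?_)
    simp only [add_zero]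
    rw [Real.norm_of_nonneg (hk_nonneg _ _ hσ)]

section fubini
variable {m c r₀ M : ℝ} {ρ : ℝ → ℝ} {F : ℝ → ℂ}

lemma hk_prod_gen (hm : 0 < m) (hc : 0 < c) (hρm : Measurable ρ)
    (hρ : ∀ r, c ^ 2 * (r - r₀) ^ 2 ≤ ρ r)
    (hF : AEStronglyMeasurable F volume) (hM : ∀ r, ‖F r‖ ≤ M) :
    Integrable (fun p : ℝ × ℝ => (hk m (ρ p.2) p.1 : ℂ) * F p.2)
      ((volume.restrict (Ioi 0)).prod volume) := by
  have h := (hk_prod hm hc r₀).mul_const M
  refine Integrable.mono' h ?_ ?_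
  · refine AEStronglyMeasurable.mul ?_ hF.comp_snd
    exact (Complex.measurable_ofReal.comp
      ((measurable_hk m).comp (measurable_fst.prodMk (hρm.comp measurable_snd)))).aestronglyMeasurable
  · have : ∀ᵐ p : ℝ × ℝ ∂((volume.restrict (Ioi (0:ℝ))).prod volume), 0 < p.1 := by
      have := (Measure.quasiMeasurePreserving_fst (μ := (volume : Measure ℝ).restrict (Ioi (0:ℝ)))
        (ν := (volume : Measure ℝ))).ae (ae_restrict_mem measurableSet_Ioi)
      exact this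
    filter_upwards [this] with p hp
    rw [norm_mul, Complex.norm_real, Real.norm_of_nonneg (hk_nonneg _ _ hp)]
    exact mul_le_mul (hk_anti m hp (hρ p.2)) (hM _) (norm_nonneg _) (hk_nonneg _ _ hp)

lemma gk_integrable (hm : 0 < m) (hc : 0 < c) (hρm : Measurable ρ)
    (hρ : ∀ r, c ^ 2 * (r - r₀) ^ 2 ≤ ρ r)
    (hF : AEStronglyMeasurable F volume) (hM : ∀ r, ‖F r‖ ≤ M) :
    Integrable (fun r => (gk m (ρ r) : ℂ) * F r) := by
  have := (hk_prod_gen hm hc hρm hρ hF hM).integral_prod_right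
  refine this.congr (Eventually.of_forall fun r => ?_)
  simp only
  rw [integral_mul_const, gk, integral_complex_ofReal]

lemma gk_fubini (hm : 0 < m) (hc : 0 < c) (hρm : Measurable ρ)
    (hρ : ∀ r, c ^ 2 * (r - r₀) ^ 2 ≤ ρ r)
    (hF : AEStronglyMeasurable F volume) (hM : ∀ r, ‖F r‖ ≤ M) :
    ∫ r, (gk m (ρ r) : ℂ) * F r = ∫ σ in Ioi (0:ℝ), ∫ r, (hk m (ρ r) σ : ℂ) * F r := by
  rw [integral_integral_swap (hk_prod_gen hm hc hρm hρ hF hM)]
  refine integral_congr_ae (Eventually.of_forall fun r => ?_)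
  simp only
  rw [integral_mul_const, gk, integral_complex_ofReal]

end fubini

lemma gk_integrable_real {m : ℝ} (hm : 0 < m) {c : ℝ} (hc : 0 < c) (r₀ : ℝ) :
    Integrable (fun r => gk m (c ^ 2 * (r - r₀) ^ 2)) :=
  (hk_prod hm hc r₀).integral_prod_right

lemma gk_integral {m : ℝ} (hm : 0 < m) {c : ℝ} (hc : 0 < c) (r₀ : ℝ) :
    ∫ r, gk m (c ^ 2 * (r - r₀) ^ 2) = 1 / (2 * m * c) := by
  have h1 : ∫ r, gk m (c ^ 2 * (r - r₀) ^ 2)
      = ∫ σ in Ioi (0:ℝ), ∫ r, hk m (c ^ 2 * (r - r₀) ^ 2) σ := by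
    rw [integral_integral_swap (hk_prod hm hc r₀)]
    rfl
  rw [h1]
  have h2 : ∫ σ in Ioi (0:ℝ), ∫ r, hk m (c ^ 2 * (r - r₀) ^ 2) σ
      = ∫ σ in Ioi (0:ℝ), Real.exp (-(m ^ 2) * σ ^ 2) / (c * √π) := by
    refine setIntegral_congr_fun measurableSet_Ioi fun σ hσ => ?_
    have := hk_integral_r m hc r₀ 0 (show 0 < σ from hσ)
    simp only [add_zero] at this
    rw [this]
    congr 2
    ring
  rw [h2, integral_div, integral_gaussian_Ioi]
  rw [Real.sqrt_div pi_pos.le, Real.sqrt_sq hm.le]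
  field_simp

lemma gk_bound {m c r₀ M : ℝ} {ρ : ℝ → ℝ} {F : ℝ → ℂ} (hm : 0 < m) (hc : 0 < c)
    (hρ : ∀ r, c ^ 2 * (r - r₀) ^ 2 ≤ ρ r) (hM : ∀ r, ‖F r‖ ≤ M) :
    ‖∫ r, (gk m (ρ r) : ℂ) * F r‖ ≤ M / (2 * m * c) := by
  have h0 : ∀ᵐ r : ℝ, r ≠ r₀ := by
    simp [ae_iff, measure_singleton]
  calc ‖∫ r, (gk m (ρ r) : ℂ) * F r‖ ≤ ∫ r, gk m (c ^ 2 * (r - r₀) ^ 2) * M := by
        refine norm_integral_le_of_norm_le ((gk_integrable_real hm hc r₀).mul_const M) ?_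
        filter_upwards [h0] with r hr
        rw [norm_mul, Complex.norm_real, Real.norm_of_nonneg (gk_nonneg _ _)]
        have hpos : 0 < c ^ 2 * (r - r₀) ^ 2 := by
          have : r - r₀ ≠ 0 := sub_ne_zero.2 hr
          positivity
        exact mul_le_mul (gk_anti hm hpos (hρ r)) (hM r) (norm_nonneg _) (gk_nonneg _ _)
    _ = M / (2 * m * c) := by
        rw [integral_mul_const, gk_integral hm hc]
        ring

end Pool.Agent.Helper97.Scat
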