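import Pool.Agent.Helper97.Scat.Geom
import Pool.Agent.Helper97.Scat.Kern

/-!
# The kernel of the bending perturbation
-/

open MeasureTheory Filter Topology Set Real
open scoped Nat

namespace Pool.Agent.Helper97.Scat

/-- absorbing powers and an exponential weight into the Gaussians -/
lemma maj {m c : ℝ} (hm : 0 < m) (hc : 0 < c) (hcm : 8 ≤ c * m) (i j : ℕ) (r : ℝ) {σ : ℝ}
    (hσ : 0 < σ) :
    hk m (c ^ 2 * r ^ 2) σ * (r ^ 2 / σ ^ 2) ^ i * (σ ^ 2) ^ j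
      ≤ (8 / c ^ 2) ^ i * i ! * j ! * (2 / m ^ 2) ^ j * Real.exp (-(2 * |r|))
        * hk (m / 2) ((c / 2) ^ 2 * r ^ 2) σ := by
  set X := c ^ 2 * r ^ 2 / (4 * σ ^ 2) with hX
  set Y := m ^ 2 * σ ^ 2 with hY
  have hX0 : 0 ≤ X := by positivity
  have hY0 : 0 ≤ Y := by positivity
  have e1 : hk m (c ^ 2 * r ^ 2) σ = Real.exp (-Y - X) / (2 * π * σ) := rfl
  have e2 : hk (m / 2) ((c / 2) ^ 2 * r ^ 2) σ = Real.exp (-(Y / 4) - X / 4) / (2 * π * σ) := by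
    rw [hk]
    congr 2
    rw [hX, hY]
    ring
  have e3 : r ^ 2 / σ ^ 2 = (8 / c ^ 2) * (X / 2) := by
    rw [hX]; field_simp; ring
  have e4 : σ ^ 2 = (2 / m ^ 2) * (Y / 2) := by
    rw [hY]; field_simp
  have h1 : (X / 2) ^ i ≤ i ! * Real.exp (X / 2) := by
    have := Real.pow_div_factorial_le_exp (X / 2) (by positivity) i
    rwa [div_le_iff₀ (by positivity), mul_comm] at this
  have h2 : (Y / 2) ^ j ≤ j ! * Real.exp (Y / 2) := by
    have := Real.pow_div_factorial_le_exp (Y / 2) (by positivity) j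
    rwa [div_le_iff₀ (by positivity), mul_comm] at this
  have h3 : 2 * |r| ≤ X / 4 + Y / 4 := by
    have h5 : (c * |r| / (2 * σ)) ^ 2 = X := by
      rw [div_pow, mul_pow, sq_abs, hX]; ring
    have h6 : (m * σ) ^ 2 = Y := by rw [hY]; ring
    have h7 := sq_nonneg (c * |r| / (2 * σ) - m * σ)
    have h8 : (c * |r| / (2 * σ)) * (m * σ) = c * m * |r| / 2 := by field_simp
    have h9 : 8 * |r| ≤ c * m * |r| := mul_le_mul_of_nonneg_right hcm (abs_nonneg r)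
    nlinarith
  have h4 : Real.exp (-Y - X) ≤ Real.exp (-(Y / 4) - X / 4) * Real.exp (-(X / 2))
      * Real.exp (-(Y / 2)) * Real.exp (-(2 * |r|)) := by
    rw [← Real.exp_add, ← Real.exp_add, ← Real.exp_add]
    apply Real.exp_le_exp.2
    linarith
  have h5 : Real.exp (X / 2) * Real.exp (-(X / 2)) = 1 := by rw [← Real.exp_add]; simp
  have h6 : Real.exp (Y / 2) * Real.exp (-(Y / 2)) = 1 := by rw [← Real.exp_add]; simp
  rw [e1, e2]
  calc Real.exp (-Y - X) / (2 * π * σ) * (r ^ 2 / σ ^ 2) ^ i * (σ ^ 2) ^ j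
      = Real.exp (-Y - X) / (2 * π * σ) * ((8 / c ^ 2) ^ i * (X / 2) ^ i)
          * ((2 / m ^ 2) ^ j * (Y / 2) ^ j) := by
        have e5 : (σ ^ 2) ^ j = (2 / m ^ 2) ^ j * (Y / 2) ^ j := by rw [← mul_pow, ← e4]
        rw [e3, e5, mul_pow]
    _ ≤ (Real.exp (-(Y / 4) - X / 4) * Real.exp (-(X / 2)) * Real.exp (-(Y / 2))
          * Real.exp (-(2 * |r|))) / (2 * π * σ) * ((8 / c ^ 2) ^ i * (i ! * Real.exp (X / 2)))
          * ((2 / m ^ 2) ^ j * (j ! * Real.exp (Y / 2))) := by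
        gcongr
    _ = (8 / c ^ 2) ^ i * i ! * j ! * (2 / m ^ 2) ^ j * Real.exp (-(2 * |r|))
          * (Real.exp (-(Y / 4) - X / 4) / (2 * π * σ)) * (Real.exp (X / 2) * Real.exp (-(X / 2)))
          * (Real.exp (Y / 2) * Real.exp (-(Y / 2))) := by ring
    _ = _ := by rw [h5, h6]; ring

/-- the majorant -/
noncomputable def Jm (m c r : ℝ) : ℝ := gk (m / 2) ((c / 2) ^ 2 * r ^ 2)

lemma Jm_nonneg (m c r : ℝ) : 0 ≤ Jm m c r := gk_nonneg _ _

lemma Jm_even (m c r : ℝ) : Jm m c (-r) = Jm m c r := by rw [Jm, Jm, neg_sq]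

lemma Jm_integrable {m c : ℝ} (hm : 0 < m) (hc : 0 < c) : Integrable (Jm m c) := by
  have := gk_integrable_real (m := m / 2) (by positivity) (c := c / 2) (by positivity) 0
  simp only [sub_zero] at this
  exact this

lemma Jm_integral {m c : ℝ} (hm : 0 < m) (hc : 0 < c) : ∫ r, Jm m c r = 2 / (m * c) := by
  have := gk_integral (m := m / 2) (by positivity) (c := c / 2) (by positivity) 0
  simp only [sub_zero] at this
  change ∫ r, Jm m c r = _ at this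
  rw [this]
  field_simp

/-- the first derivative kernel -/
noncomputable def gk1 (m z : ℝ) : ℝ := ∫ σ in Ioi (0:ℝ), hk m z σ / (4 * σ ^ 2)

lemma measurable_gk (m : ℝ) : Measurable (gk m) := by
  have h : StronglyMeasurable (fun p : ℝ × ℝ => hk m p.1 p.2) :=
    ((measurable_hk m).comp measurable_swap).stronglyMeasurable
  exact h.integral_prod_right'.measurable

lemma measurable_gk1 (m : ℝ) : Measurable (gk1 m) := by
  have h : StronglyMeasurable (fun p : ℝ × ℝ => hk m p.1 p.2 / (4 * p.2 ^ 2)) := by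
    apply Measurable.stronglyMeasurable
    exact ((measurable_hk m).comp measurable_swap).div (by fun_prop)
  exact h.integral_prod_right'.measurable

lemma gk1_nonneg (m z : ℝ) : 0 ≤ gk1 m z :=
  setIntegral_nonneg measurableSet_Ioi fun _ hσ => by
    have := hk_nonneg m z (show 0 < _ from hσ)
    positivity

section pointwise
variable {m c r : ℝ}

/-- comparison of an integral with the majorant -/
lemma int_maj (hm : 0 < m) (hc : 0 < c) (hr : r ≠ 0) {F : ℝ → ℝ} {C : ℝ}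
    (hF : AEStronglyMeasurable F (volume.restrict (Ioi 0)))
    (h : ∀ σ, 0 < σ → |F σ| ≤ C * hk (m / 2) ((c / 2) ^ 2 * r ^ 2) σ) :
    IntegrableOn F (Ioi 0) ∧ |∫ σ in Ioi (0:ℝ), F σ| ≤ C * Jm m c r := by
  have hI : IntegrableOn (fun σ => C * hk (m / 2) ((c / 2) ^ 2 * r ^ 2) σ) (Ioi 0) :=
    (hk_integrableOn (by positivity) (by positivity)).const_mul C
  refine ⟨Integrable.mono' hI hF ?_, ?_⟩
  · exact (ae_restrict_iff' measurableSet_Ioi).2 (Eventually.of_forall fun σ hσ => h σ hσ)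
  · have : ‖∫ σ in Ioi (0:ℝ), F σ‖ ≤ ∫ σ in Ioi (0:ℝ), C * hk (m / 2) ((c / 2) ^ 2 * r ^ 2) σ :=
      norm_integral_le_of_norm_le hI
        ((ae_restrict_iff' measurableSet_Ioi).2 (Eventually.of_forall fun σ hσ => h σ hσ))
    rw [integral_const_mul] at this
    exact this

lemma hk_meas (m z : ℝ) : AEStronglyMeasurable (hk m z) (volume.restrict (Ioi 0)) :=
  ((measurable_hk m).comp (measurable_id.prodMk measurable_const)).aestronglyMeasurable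

lemma hk_meas2 (m z : ℝ) :
    AEStronglyMeasurable (fun σ => hk m z σ / (4 * σ ^ 2)) (volume.restrict (Ioi 0)) :=
  (((measurable_hk m).comp (measurable_id.prodMk measurable_const)).div
    (by fun_prop)).aestronglyMeasurable

lemma exp_ineq1 (x : ℝ) : Real.exp x - 1 ≤ x * Real.exp x := by
  have := Real.add_one_le_exp (-x)
  have h2 : Real.exp x * Real.exp (-x) = 1 := by rw [← Real.exp_add]; simp
  nlinarith [Real.exp_pos x]

lemma exp_ineq2 {x : ℝ} (hx : 0 ≤ x) : Real.exp x - 1 - x ≤ x ^ 2 * Real.exp x := by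
  have h1 := Real.add_one_le_exp (-x)
  have h2 : Real.exp x * Real.exp (-x) = 1 := by rw [← Real.exp_add]; simp
  have h3 := Real.exp_pos x
  -- (1 + x) e^{-x} ≥ (1 + x)(1 - x)
  have h4 : (1 + x) * (1 - x) ≤ (1 + x) * Real.exp (-x) :=
    mul_le_mul_of_nonneg_left (by linarith) (by linarith)
  have h5 := mul_le_mul_of_nonneg_left h4 h3.le
  nlinarith

lemma hk_shift (m z Q σ : ℝ) : hk m (z - Q) σ = hk m z σ * Real.exp (Q / (4 * σ ^ 2)) := by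
  rw [hk, hk, div_mul_eq_mul_div, ← Real.exp_add]
  congr 2
  ring

end pointwise

/-- the kernel of the bending perturbation, `α (G(γ(s) - γ(t)) - G(s - t))` with `α = 2 a` -/
noncomputable def Dk (a m : ℝ) (γ : ℝ → ℂ) (s t : ℝ) : ℝ :=
  2 * a * (gk m (‖γ s - γ t‖ ^ 2) - gk m ((s - t) ^ 2))

/-- its first order part -/
noncomputable def D1 (a m : ℝ) (γ : ℝ → ℂ) (s t : ℝ) : ℝ :=
  2 * a * (Qd γ s t * gk1 m ((s - t) ^ 2))

/-- its main part -/
noncomputable def Mk (a m : ℝ) (g2 : ℝ → ℂ) (s t : ℝ) : ℝ :=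
  2 * a * (‖g2 ((s + t) / 2)‖ ^ 2 * (s - t) ^ 4 / 12 * gk1 m ((s - t) ^ 2))

/-- the weight -/
noncomputable def Wt (m c R s t : ℝ) : ℝ :=
  Real.exp (2 * R) * Real.exp (-|s|) * Real.exp (-|t|) * Jm m c (s - t)

lemma Wt_nonneg (m c R s t : ℝ) : 0 ≤ Wt m c R s t := by
  have := Jm_nonneg m c (s - t)
  unfold Wt; positivity

lemma exp_weight {R s t : ℝ} (h : |s| ≤ R + |s - t| ∧ |t| ≤ R + |s - t|) :
    Real.exp (-(2 * |s - t|)) ≤ Real.exp (2 * R) * Real.exp (-|s|) * Real.exp (-|t|) := by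
  rw [← Real.exp_add, ← Real.exp_add]
  apply Real.exp_le_exp.2
  linarith [h.1, h.2]

namespace Data
variable {γ g1 g2 g3 g4 : ℝ → ℂ} {R c K : ℝ} (D : Data γ g1 g2 g3 g4 R c K)
include D

omit D in
lemma Dk_eq_of_Q {a m s t : ℝ} (h : Qd γ s t = 0) : Dk a m γ s t = 0 := by
  have : ‖γ s - γ t‖ ^ 2 = (s - t) ^ 2 := by rw [Qd] at h; linarith
  rw [Dk, this, sub_self, mul_zero]

omit D in
lemma norm_sq (s t : ℝ) : ‖γ s - γ t‖ ^ 2 = (s - t) ^ 2 - Qd γ s t := by rw [Qd]; ring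

lemma hk_le_c {m s t σ : ℝ} (hσ : 0 < σ) :
    hk m ((s - t) ^ 2 - Qd γ s t) σ ≤ hk m (c ^ 2 * (s - t) ^ 2) σ :=
  hk_anti m hσ (D.Q_le_sq s t)

lemma hk_le_c' {m s t σ : ℝ} (hσ : 0 < σ) :
    hk m ((s - t) ^ 2) σ ≤ hk m (c ^ 2 * (s - t) ^ 2) σ := by
  refine hk_anti m hσ ?_
  have h1 := D.c_le
  have h2 := D.hc
  have : c ^ 2 ≤ 1 := by nlinarith
  nlinarith [sq_nonneg (s - t)]

lemma x_le (s t : ℝ) {σ : ℝ} (hσ : 0 < σ) :
    Qd γ s t / (4 * σ ^ 2) ≤ K ^ 2 / 16 * (((s - t) ^ 2 / σ ^ 2) ^ 2 * (σ ^ 2) ^ 1) := by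
  have h := D.Q_le s t
  rw [div_le_iff₀ (by positivity)]
  refine h.trans (le_of_eq ?_)
  field_simp
  ring

lemma x_nonneg (s t : ℝ) {σ : ℝ} (hσ : 0 < σ) : 0 ≤ Qd γ s t / (4 * σ ^ 2) := by
  have := D.Q_nonneg s t
  positivity

lemma gk1_integrableOn {m : ℝ} (hm : 0 < m) (hcm : 8 ≤ c * m) {r : ℝ} (hr : r ≠ 0) :
    IntegrableOn (fun σ => hk m (r ^ 2) σ / (4 * σ ^ 2)) (Ioi 0) := by
  have hc := D.hc
  have hc1 := D.c_le
  refine (int_maj (C := (8 / c ^ 2) ^ 1 * 1 ! * 0 ! * (2 / m ^ 2) ^ 0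
    * Real.exp (-(2 * |r|)) / (4 * r ^ 2)) hm hc hr (hk_meas2 m _) fun σ hσ => ?_).1
  have h0 : hk m (r ^ 2) σ ≤ hk m (c ^ 2 * r ^ 2) σ := by
    refine hk_anti m hσ ?_
    have : c ^ 2 ≤ 1 := by nlinarith
    nlinarith [sq_nonneg r]
  have h1 := maj hm hc hcm 1 0 r hσ
  have h2 := hk_nonneg m (r ^ 2) hσ
  rw [abs_of_nonneg (by positivity)]
  have h3 : hk m (r ^ 2) σ / (4 * σ ^ 2) ≤ hk m (c ^ 2 * r ^ 2) σ * (r ^ 2 / σ ^ 2) ^ 1 * (σ ^ 2) ^ 0
      / (4 * r ^ 2) := by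
    have hr2 : 0 < r ^ 2 := by positivity
    rw [pow_one, pow_zero, mul_one]
    have e : hk m (c ^ 2 * r ^ 2) σ * (r ^ 2 / σ ^ 2) / (4 * r ^ 2) = hk m (c ^ 2 * r ^ 2) σ / (4 * σ ^ 2) := by
      field_simp
    rw [e]
    gcongr
  refine h3.trans ?_
  rw [div_mul_eq_mul_div]
  gcongr

/-- the basic bound of the kernel -/
lemma Dk_le {a m : ℝ} (ha : 0 < a) (hm : 0 < m) (hcm : 8 ≤ c * m) (s t : ℝ) :
    0 ≤ Dk a m γ s t ∧
      Dk a m γ s t ≤ 32 * a * K ^ 2 / (c ^ 4 * m ^ 2) * Wt m c R s t := by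
  have hc := D.hc
  have hKK := D.hK
  rcases D.supp_cases s t with h0 | hsupp
  · rw [Dk_eq_of_Q h0]
    exact ⟨le_rfl, mul_nonneg (by positivity) (Wt_nonneg _ _ _ _ _)⟩
  rcases eq_or_ne s t with rfl | hst
  · have h0 : Qd γ s s = 0 := by simp [Qd]
    rw [Dk_eq_of_Q h0]
    exact ⟨le_rfl, mul_nonneg (by positivity) (Wt_nonneg _ _ _ _ _)⟩
  have hr : s - t ≠ 0 := sub_ne_zero.2 hst
  have hz : 0 < (s - t) ^ 2 := by positivity
  have hz' : 0 < (s - t) ^ 2 - Qd γ s t := lt_of_lt_of_le (by positivity) (D.Q_le_sq s t)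
  have i1 := hk_integrableOn hm hz
  have i2 := hk_integrableOn hm hz'
  have hdiff : gk m (‖γ s - γ t‖ ^ 2) - gk m ((s - t) ^ 2)
      = ∫ σ in Ioi (0:ℝ), (hk m ((s - t) ^ 2 - Qd γ s t) σ - hk m ((s - t) ^ 2) σ) := by
    rw [norm_sq, gk, gk, integral_sub i2 i1]
  have hpos : 0 ≤ gk m (‖γ s - γ t‖ ^ 2) - gk m ((s - t) ^ 2) := by
    rw [norm_sq, sub_nonneg]
    exact gk_anti hm hz' (by linarith [D.Q_nonneg s t])
  refine ⟨by rw [Dk]; positivity, ?_⟩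
  have hb := (int_maj (F := fun σ => hk m ((s - t) ^ 2 - Qd γ s t) σ - hk m ((s - t) ^ 2) σ)
    (C := K ^ 2 / 16 * ((8 / c ^ 2) ^ 2 * 2 ! * 1 ! * (2 / m ^ 2) ^ 1 * Real.exp (-(2 * |s - t|))))
    hm hc hr ((hk_meas _ _).sub (hk_meas _ _)) fun σ hσ => ?_).2
  · rw [← hdiff] at hb
    have h1 := (le_abs_self _).trans hb
    rw [Dk]
    have h2 := exp_weight hsupp
    calc 2 * a * (gk m (‖γ s - γ t‖ ^ 2) - gk m ((s - t) ^ 2))
        ≤ 2 * a * (K ^ 2 / 16 * ((8 / c ^ 2) ^ 2 * 2 ! * 1 ! * (2 / m ^ 2) ^ 1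
          * Real.exp (-(2 * |s - t|))) * Jm m c (s - t)) := by gcongr
      _ ≤ 2 * a * (K ^ 2 / 16 * ((8 / c ^ 2) ^ 2 * 2 ! * 1 ! * (2 / m ^ 2) ^ 1
          * (Real.exp (2 * R) * Real.exp (-|s|) * Real.exp (-|t|))) * Jm m c (s - t)) := by
          have := Jm_nonneg m c (s - t)
          gcongr
      _ = _ := by
          rw [Wt]
          simp only [Nat.factorial]
          push_cast
          field_simp
          ring
  · have hx0 := D.x_nonneg s t hσ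
    have hx := D.x_le s t hσ
    have hh := hk_nonneg m ((s - t) ^ 2) hσ
    have hh2 := hk_nonneg m (c ^ 2 * (s - t) ^ 2) hσ
    set x := Qd γ s t / (4 * σ ^ 2) with hxdef
    have e : hk m ((s - t) ^ 2 - Qd γ s t) σ - hk m ((s - t) ^ 2) σ
        = hk m ((s - t) ^ 2) σ * (Real.exp x - 1) := by rw [hk_shift]; ring
    have h1 : 1 ≤ Real.exp x := Real.one_le_exp hx0
    rw [abs_of_nonneg (by rw [e]; exact mul_nonneg hh (by linarith))]
    calc hk m ((s - t) ^ 2 - Qd γ s t) σ - hk m ((s - t) ^ 2) σ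
        = hk m ((s - t) ^ 2) σ * (Real.exp x - 1) := e
      _ ≤ hk m ((s - t) ^ 2) σ * (x * Real.exp x) := by
          have := exp_ineq1 x
          gcongr
      _ = x * hk m ((s - t) ^ 2 - Qd γ s t) σ := by rw [hk_shift]; ring
      _ ≤ (K ^ 2 / 16 * (((s - t) ^ 2 / σ ^ 2) ^ 2 * (σ ^ 2) ^ 1)) * hk m (c ^ 2 * (s - t) ^ 2) σ :=
          mul_le_mul hx (D.hk_le_c hσ) (hk_nonneg _ _ hσ) (by positivity)
      _ = K ^ 2 / 16 * (hk m (c ^ 2 * (s - t) ^ 2) σ * ((s - t) ^ 2 / σ ^ 2) ^ 2 * (σ ^ 2) ^ 1) := by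
          ring
      _ ≤ K ^ 2 / 16 * ((8 / c ^ 2) ^ 2 * 2 ! * 1 ! * (2 / m ^ 2) ^ 1 * Real.exp (-(2 * |s - t|))
            * hk (m / 2) ((c / 2) ^ 2 * (s - t) ^ 2) σ) := by
          have := maj hm hc hcm 2 1 (s - t) hσ
          gcongr
      _ = _ := by ring

/-- second order part of the kernel -/
lemma Dk_sub_D1 {a m : ℝ} (ha : 0 < a) (hm : 0 < m) (hcm : 8 ≤ c * m) (s t : ℝ) :
    |Dk a m γ s t - D1 a m γ s t| ≤ 6144 * a * K ^ 4 / (c ^ 8 * m ^ 4) * Wt m c R s t := by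
  have hc := D.hc
  have hKK := D.hK
  rcases D.supp_cases s t with h0 | hsupp
  · rw [Dk_eq_of_Q h0, D1, h0]
    simp only [zero_mul, mul_zero, sub_zero, abs_zero]
    exact mul_nonneg (by positivity) (Wt_nonneg _ _ _ _ _)
  rcases eq_or_ne s t with rfl | hst
  · have h0 : Qd γ s s = 0 := by simp [Qd]
    rw [Dk_eq_of_Q h0, D1, h0]
    simp only [zero_mul, mul_zero, sub_zero, abs_zero]
    exact mul_nonneg (by positivity) (Wt_nonneg _ _ _ _ _)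
  have hr : s - t ≠ 0 := sub_ne_zero.2 hst
  have hz : 0 < (s - t) ^ 2 := by positivity
  have hz' : 0 < (s - t) ^ 2 - Qd γ s t := lt_of_lt_of_le (by positivity) (D.Q_le_sq s t)
  have i1 := hk_integrableOn hm hz
  have i2 := hk_integrableOn hm hz'
  have i3 := D.gk1_integrableOn hm hcm hr
  have i4 : IntegrableOn (fun σ => hk m ((s - t) ^ 2 - Qd γ s t) σ - hk m ((s - t) ^ 2) σ) (Ioi 0) :=
    i2.sub i1
  have hdiff : gk m (‖γ s - γ t‖ ^ 2) - gk m ((s - t) ^ 2) - Qd γ s t * gk1 m ((s - t) ^ 2)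
      = ∫ σ in Ioi (0:ℝ), (hk m ((s - t) ^ 2 - Qd γ s t) σ - hk m ((s - t) ^ 2) σ
        - Qd γ s t * (hk m ((s - t) ^ 2) σ / (4 * σ ^ 2))) := by
    rw [norm_sq, gk, gk, gk1, ← integral_const_mul, ← integral_sub i2 i1,
      ← integral_sub i4 (i3.const_mul _)]
  have hb := (int_maj (F := fun σ => hk m ((s - t) ^ 2 - Qd γ s t) σ - hk m ((s - t) ^ 2) σ
        - Qd γ s t * (hk m ((s - t) ^ 2) σ / (4 * σ ^ 2)))
    (C := K ^ 4 / 256 * ((8 / c ^ 2) ^ 4 * 4 ! * 2 ! * (2 / m ^ 2) ^ 2 * Real.exp (-(2 * |s - t|))))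
    hm hc hr (((hk_meas _ _).sub (hk_meas _ _)).sub ((hk_meas2 _ _).const_mul _)) fun σ hσ => ?_).2
  · rw [← hdiff] at hb
    have h2 := exp_weight hsupp
    have e : Dk a m γ s t - D1 a m γ s t = 2 * a * (gk m (‖γ s - γ t‖ ^ 2) - gk m ((s - t) ^ 2)
        - Qd γ s t * gk1 m ((s - t) ^ 2)) := by rw [Dk, D1]; ring
    rw [e, abs_mul, abs_of_pos (by positivity : 0 < 2 * a)]
    calc 2 * a * |gk m (‖γ s - γ t‖ ^ 2) - gk m ((s - t) ^ 2) - Qd γ s t * gk1 m ((s - t) ^ 2)|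
        ≤ 2 * a * (K ^ 4 / 256 * ((8 / c ^ 2) ^ 4 * 4 ! * 2 ! * (2 / m ^ 2) ^ 2
          * Real.exp (-(2 * |s - t|))) * Jm m c (s - t)) := by gcongr
      _ ≤ 2 * a * (K ^ 4 / 256 * ((8 / c ^ 2) ^ 4 * 4 ! * 2 ! * (2 / m ^ 2) ^ 2
          * (Real.exp (2 * R) * Real.exp (-|s|) * Real.exp (-|t|))) * Jm m c (s - t)) := by
          have := Jm_nonneg m c (s - t)
          gcongr
      _ = _ := by
          rw [Wt]
          simp only [Nat.factorial]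
          push_cast
          field_simp
          ring
  · have hx0 := D.x_nonneg s t hσ
    have hx := D.x_le s t hσ
    have hh := hk_nonneg m ((s - t) ^ 2) hσ
    have hh2 := hk_nonneg m (c ^ 2 * (s - t) ^ 2) hσ
    set x := Qd γ s t / (4 * σ ^ 2) with hxdef
    have e : hk m ((s - t) ^ 2 - Qd γ s t) σ - hk m ((s - t) ^ 2) σ
        - Qd γ s t * (hk m ((s - t) ^ 2) σ / (4 * σ ^ 2))
        = hk m ((s - t) ^ 2) σ * (Real.exp x - 1 - x) := by rw [hk_shift, hxdef]; ring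
    have h1 : 0 ≤ Real.exp x - 1 - x := by linarith [Real.add_one_le_exp x]
    rw [e, abs_of_nonneg (mul_nonneg hh h1)]
    calc hk m ((s - t) ^ 2) σ * (Real.exp x - 1 - x)
        ≤ hk m ((s - t) ^ 2) σ * (x ^ 2 * Real.exp x) := by
          have := exp_ineq2 hx0
          gcongr
      _ = x ^ 2 * hk m ((s - t) ^ 2 - Qd γ s t) σ := by rw [hk_shift]; ring
      _ ≤ (K ^ 2 / 16 * (((s - t) ^ 2 / σ ^ 2) ^ 2 * (σ ^ 2) ^ 1)) ^ 2 * hk m (c ^ 2 * (s - t) ^ 2) σ :=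
          mul_le_mul (pow_le_pow_left₀ hx0 hx 2) (D.hk_le_c hσ) (hk_nonneg _ _ hσ) (by positivity)
      _ = K ^ 4 / 256 * (hk m (c ^ 2 * (s - t) ^ 2) σ * ((s - t) ^ 2 / σ ^ 2) ^ 4 * (σ ^ 2) ^ 2) := by
          ring
      _ ≤ K ^ 4 / 256 * ((8 / c ^ 2) ^ 4 * 4 ! * 2 ! * (2 / m ^ 2) ^ 2 * Real.exp (-(2 * |s - t|))
            * hk (m / 2) ((c / 2) ^ 2 * (s - t) ^ 2) σ) := by
          have := maj hm hc hcm 4 2 (s - t) hσ
          gcongr
      _ = _ := by ring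

/-- error of the main part -/
lemma D1_sub_Mk {a m : ℝ} (ha : 0 < a) (hm : 0 < m) (hcm : 8 ≤ c * m) (s t : ℝ) :
    |D1 a m γ s t - Mk a m g2 s t| ≤ 3072 * a * K ^ 2 / (c ^ 6 * m ^ 4) * Wt m c R s t := by
  have hc := D.hc
  have hKK := D.hK
  have hW : 0 ≤ 3072 * a * K ^ 2 / (c ^ 6 * m ^ 4) * Wt m c R s t :=
    mul_nonneg (by positivity) (Wt_nonneg _ _ _ _ _)
  -- support
  have hs : (Qd γ s t = 0 ∧ g2 ((s + t) / 2) = 0) ∨ (|s| ≤ R + |s - t| ∧ |t| ≤ R + |s - t|) := by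
    rcases D.supp_cases s t with h0 | h
    · rcases D.supp_mid s t with h1 | h
      · exact Or.inl ⟨h0, h1⟩
      · exact Or.inr h
    · exact Or.inr h
  rcases hs with ⟨h0, h1⟩ | hsupp
  · have : D1 a m γ s t - Mk a m g2 s t = 0 := by rw [D1, Mk, h0, h1]; simp
    rw [this, abs_zero]; exact hW
  rcases eq_or_ne s t with rfl | hst
  · have : D1 a m γ s s - Mk a m g2 s s = 0 := by rw [D1, Mk]; simp [Qd]
    rw [this, abs_zero]; exact hW
  have hr : s - t ≠ 0 := sub_ne_zero.2 hst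
  have i3 := D.gk1_integrableOn hm hcm hr
  set δ := Qd γ s t - ‖g2 ((s + t) / 2)‖ ^ 2 * (s - t) ^ 4 / 12 with hδ
  have hδb : |δ| ≤ K ^ 2 / 4 * (s - t) ^ 6 := D.Q_approx s t
  have hdiff : D1 a m γ s t - Mk a m g2 s t = 2 * a * ∫ σ in Ioi (0:ℝ),
      δ * (hk m ((s - t) ^ 2) σ / (4 * σ ^ 2)) := by
    rw [integral_const_mul]
    change _ = 2 * a * (δ * gk1 m ((s - t) ^ 2))
    rw [D1, Mk, hδ]; ring
  have hb := (int_maj (F := fun σ => δ * (hk m ((s - t) ^ 2) σ / (4 * σ ^ 2)))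
    (C := K ^ 2 / 16 * ((8 / c ^ 2) ^ 3 * 3 ! * 2 ! * (2 / m ^ 2) ^ 2 * Real.exp (-(2 * |s - t|))))
    hm hc hr ((hk_meas2 _ _).const_mul _) fun σ hσ => ?_).2
  · have h2 := exp_weight hsupp
    rw [hdiff, abs_mul, abs_of_pos (by positivity : 0 < 2 * a)]
    calc 2 * a * |∫ σ in Ioi (0:ℝ), δ * (hk m ((s - t) ^ 2) σ / (4 * σ ^ 2))|
        ≤ 2 * a * (K ^ 2 / 16 * ((8 / c ^ 2) ^ 3 * 3 ! * 2 ! * (2 / m ^ 2) ^ 2
          * Real.exp (-(2 * |s - t|))) * Jm m c (s - t)) := by gcongr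
      _ ≤ 2 * a * (K ^ 2 / 16 * ((8 / c ^ 2) ^ 3 * 3 ! * 2 ! * (2 / m ^ 2) ^ 2
          * (Real.exp (2 * R) * Real.exp (-|s|) * Real.exp (-|t|))) * Jm m c (s - t)) := by
          have := Jm_nonneg m c (s - t)
          gcongr
      _ = _ := by
          rw [Wt]
          simp only [Nat.factorial]
          push_cast
          field_simp
          ring
  · have hh := hk_nonneg m ((s - t) ^ 2) hσ
    have hh2 := hk_nonneg m (c ^ 2 * (s - t) ^ 2) hσ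
    have e : |δ * (hk m ((s - t) ^ 2) σ / (4 * σ ^ 2))| = |δ| * (hk m ((s - t) ^ 2) σ / (4 * σ ^ 2)) := by
      rw [abs_mul, abs_of_nonneg (by positivity : 0 ≤ hk m ((s - t) ^ 2) σ / (4 * σ ^ 2))]
    rw [e]
    calc |δ| * (hk m ((s - t) ^ 2) σ / (4 * σ ^ 2))
        ≤ (K ^ 2 / 4 * (s - t) ^ 6) * (hk m (c ^ 2 * (s - t) ^ 2) σ / (4 * σ ^ 2)) := by
          have := D.hk_le_c' (m := m) (s := s) (t := t) hσ
          have h6 : 0 ≤ (s - t) ^ 6 := by positivity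
          gcongr
      _ = K ^ 2 / 16 * (hk m (c ^ 2 * (s - t) ^ 2) σ * ((s - t) ^ 2 / σ ^ 2) ^ 3 * (σ ^ 2) ^ 2) := by
          field_simp
          ring
      _ ≤ K ^ 2 / 16 * ((8 / c ^ 2) ^ 3 * 3 ! * 2 ! * (2 / m ^ 2) ^ 2 * Real.exp (-(2 * |s - t|))
            * hk (m / 2) ((c / 2) ^ 2 * (s - t) ^ 2) σ) := by
          have := maj hm hc hcm 3 2 (s - t) hσ
          gcongr
      _ = _ := by ring

end Data

end Pool.Agent.Helper97.Scat
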