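import Pool.Agent.Helper97.Scat.PDE
import Pool.Agent.Helper97.Scat.DKer

/-!
# Weak solutions in the plane
-/

open MeasureTheory Filter Topology Set Real
open scoped ContDiff RealInnerProductSpace

namespace Pool.Agent.Helper97.Scat

lemma lap_comp_add (φ : ℂ → ℝ) (y p : ℂ) : lap (fun q => φ (q + y)) p = lap φ (p + y) := by
  unfold lap
  simp only [fderiv_comp_add_right]
  rw [fderiv_comp_add_right (f := fun q => fderiv ℝ φ q 1) y,
    fderiv_comp_add_right (f := fun q => fderiv ℝ φ q Complex.I) y]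

lemma laplacian_eq_lap {φ : ℂ → ℝ} (h : ContDiff ℝ 2 φ) (p : ℂ) :
    Laplacian.laplacian φ p = lap φ p := by
  have hd : DifferentiableAt ℝ (fderiv ℝ φ) p :=
    ((h.fderiv_right (m := 1) (by norm_num)).differentiable (by norm_num)) p
  rw [InnerProductSpace.laplacian_eq_iteratedFDeriv_complexPlane]
  simp only [iteratedFDeriv_two_apply, lap]
  rw [fderiv_clm_apply hd (differentiableAt_const _), fderiv_clm_apply hd (differentiableAt_const _)]
  simp

/-- convolution form of the Green identity -/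
lemma green' {m : ℝ} {φ : ℂ → ℝ} (hm : 0 < m) (h : IsTest φ) (x : ℂ) :
    ∫ u : ℂ, gk m (‖u‖ ^ 2) * (m ^ 2 * φ (x - u) - lap φ (x - u)) = φ x := by
  rw [← green hm h x, ← integral_neg_eq_self]
  simp

lemma helm_test {m : ℝ} {φ : ℂ → ℝ} (h : IsTest φ) : IsTest (fun p => m ^ 2 * φ p - lap φ p) := by
  have := (h.const_mul (m ^ 2)).add (h.lap_test.const_mul (-1))
  have e : (fun p => m ^ 2 * φ p + -1 * lap φ p) = fun p => m ^ 2 * φ p - lap φ p := by
    ext p; ring
  rwa [e] at this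

/-- uniqueness of bounded weak solutions -/
lemma weak_unique {m M : ℝ} (hm : 0 < m) {w : ℂ → ℂ} (hw : Continuous w) (hM : ∀ x, ‖w x‖ ≤ M)
    (h : ∀ φ : ℂ → ℝ, IsTest φ → ∫ x, w x * ((m ^ 2 * φ x - lap φ x : ℝ) : ℂ) = 0) (x : ℂ) :
    w x = 0 := by
  have key : ∀ ρ : ℂ → ℝ, IsTest ρ → ∫ x, w x * (ρ x : ℂ) = 0 := by
    intro ρ hρ
    set g : ℂ → ℝ := fun p => m ^ 2 * ρ p - lap ρ p with hg
    have hgt : IsTest g := helm_test hρ
    have i1 : Integrable (fun p : ℂ × ℂ => gk m (‖p.2‖ ^ 2) * g (p.1 - p.2)) (volume.prod volume) :=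
      (G_integrable hm).convolution_integrand (ContinuousLinearMap.mul ℝ ℝ) hgt.integrable
    have i2 : Integrable (fun p : ℂ × ℂ => w p.1 * ((gk m (‖p.2‖ ^ 2) * g (p.1 - p.2) : ℝ) : ℂ))
        (volume.prod volume) :=
      i1.ofReal.bdd_mul (c := M) (hw.comp continuous_fst).aestronglyMeasurable
        (Eventually.of_forall fun p => hM _)
    have e1 : ∫ x, w x * (ρ x : ℂ)
        = ∫ x, ∫ u, w x * ((gk m (‖u‖ ^ 2) * g (x - u) : ℝ) : ℂ) := by
      congr 1; ext x
      rw [integral_const_mul, integral_complex_ofReal]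
      rw [← green' hm hρ x]
    rw [e1, integral_integral_swap i2]
    have e2 : ∀ u : ℂ, ∫ x, w x * ((gk m (‖u‖ ^ 2) * g (x - u) : ℝ) : ℂ) = 0 := by
      intro u
      have h1 := h (fun p => ρ (p + (-u))) (hρ.comp_add (-u))
      have e3 : ∀ x, w x * ((gk m (‖u‖ ^ 2) * g (x - u) : ℝ) : ℂ)
          = (gk m (‖u‖ ^ 2) : ℂ) * (w x * ((m ^ 2 * ρ (x + (-u)) - lap (fun p => ρ (p + (-u))) x : ℝ) : ℂ)) := by
        intro x
        rw [lap_comp_add, hg, sub_eq_add_neg x u]
        push_cast; ring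
      simp only [e3]
      rw [integral_const_mul, h1, mul_zero]
    simp only [e2, integral_zero]
  have hae : ∀ᵐ x ∂(volume : Measure ℂ), w x = 0 := by
    refine ae_eq_zero_of_integral_contDiff_smul_eq_zero hw.locallyIntegrable fun g hg hgs => ?_
    have := key g ⟨hg, hgs⟩
    rw [← this]
    congr 1; ext x
    rw [Complex.real_smul, mul_comm]
  have : w = fun _ => 0 := by
    exact (Continuous.ae_eq_iff_eq volume hw continuous_const).1 hae
  rw [this]

section layer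
variable {m c M : ℝ} {γ f : ℝ → ℂ}

lemma layer_meas (m : ℝ) (hγ : Continuous γ) :
    Measurable (fun p : ℂ × ℝ => gk m (‖p.1 - γ p.2‖ ^ 2)) := by
  have h1 : Continuous fun p : ℂ × ℝ => ‖p.1 - γ p.2‖ ^ 2 := by fun_prop
  exact (measurable_gk m).comp h1.measurable

lemma lay_prod (hm : 0 < m) (hc : 0 < c) (hγ : Continuous γ) (hN : Near γ c) (hf : CB M f)
    {g : ℂ → ℝ} (hg : Integrable g) :
    Integrable (fun p : ℂ × ℝ => (gk m (‖p.1 - γ p.2‖ ^ 2) : ℂ) * f p.2 * (g p.1 : ℂ))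
      (volume.prod volume) := by
  have hmeas : AEStronglyMeasurable
      (fun p : ℂ × ℝ => (gk m (‖p.1 - γ p.2‖ ^ 2) : ℂ) * f p.2 * (g p.1 : ℂ))
      ((volume : Measure ℂ).prod (volume : Measure ℝ)) := by
    refine AEStronglyMeasurable.mul (AEStronglyMeasurable.mul ?_ ?_) ?_
    · exact (Complex.measurable_ofReal.comp (layer_meas m hγ)).aestronglyMeasurable
    · exact (hf.1.comp continuous_snd).aestronglyMeasurable
    · exact hg.ofReal.1.comp_fst
  rw [integrable_prod_iff hmeas]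
  constructor
  · refine Eventually.of_forall fun x => ?_
    exact (lay_integrable hm hc hγ hN hf.1.aestronglyMeasurable hf.2 x).mul_const (g x : ℂ)
  · refine Integrable.mono' (hg.norm.const_mul (M / (m * c))) hmeas.norm.integral_prod_right' ?_
    refine Eventually.of_forall fun x => ?_
    have hb := lay_bdd (M := M) (f := fun t => (‖f t‖ : ℂ)) hm hc hN (fun s => by simpa using hf.2 s) x
    have e1 : ∫ t, ‖(gk m (‖x - γ t‖ ^ 2) : ℂ) * f t * (g x : ℂ)‖
        = (∫ t, gk m (‖x - γ t‖ ^ 2) * ‖f t‖) * ‖g x‖ := by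
      rw [← integral_mul_const]
      congr 1; ext t
      rw [norm_mul, norm_mul, Complex.norm_real, Complex.norm_real,
        Real.norm_of_nonneg (gk_nonneg _ _)]
    have e2 : lay m γ (fun t => (‖f t‖ : ℂ)) x = ((∫ t, gk m (‖x - γ t‖ ^ 2) * ‖f t‖ : ℝ) : ℂ) := by
      rw [lay, ← integral_complex_ofReal]
      congr 1; ext t; push_cast; ring
    have hnn : 0 ≤ ∫ t, gk m (‖x - γ t‖ ^ 2) * ‖f t‖ :=
      integral_nonneg fun t => mul_nonneg (gk_nonneg _ _) (norm_nonneg _)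
    rw [e2, Complex.norm_real, Real.norm_of_nonneg hnn] at hb
    simp only
    rw [e1, norm_mul, Real.norm_of_nonneg hnn, norm_norm]
    exact mul_le_mul_of_nonneg_right hb (norm_nonneg _)

lemma lay_weak (hm : 0 < m) (hc : 0 < c) (hγ : Continuous γ) (hN : Near γ c) (hf : CB M f)
    {φ : ℂ → ℝ} (h : IsTest φ) :
    ∫ x, lay m γ f x * ((m ^ 2 * φ x - lap φ x : ℝ) : ℂ) = ∫ t, f t * (φ (γ t) : ℂ) := by
  set g : ℂ → ℝ := fun p => m ^ 2 * φ p - lap φ p with hg
  have hgt : IsTest g := helm_test h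
  have hI := lay_prod hm hc hγ hN hf hgt.integrable
  have e1 : ∫ x, lay m γ f x * (g x : ℂ)
      = ∫ x, ∫ t, (gk m (‖x - γ t‖ ^ 2) : ℂ) * f t * (g x : ℂ) := by
    congr 1; ext x
    rw [lay, integral_mul_const]
  have e2 : ∀ t, ∫ x, (gk m (‖x - γ t‖ ^ 2) : ℂ) * f t * (g x : ℂ) = f t * (φ (γ t) : ℂ) := by
    intro t
    have h1 := green hm h (γ t)
    have h2 : ∫ x, gk m (‖x - γ t‖ ^ 2) * g x = φ (γ t) := by
      rw [← h1, ← integral_sub_right_eq_self (fun u => gk m (‖u‖ ^ 2) * (m ^ 2 * φ (γ t + u) - lap φ (γ t + u))) (γ t)]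
      congr 1; ext x
      rw [add_sub_cancel, hg]
    rw [← h2, ← integral_complex_ofReal, ← integral_const_mul]
    congr 1; ext x
    push_cast; ring
  change ∫ x, lay m γ f x * (g x : ℂ) = _
  rw [e1, integral_integral_swap hI]
  simp only [e2]

/-- representation of weak solutions -/
lemma representation (hm : 0 < m) (hc : 0 < c) (hγ : Continuous γ) (hN : Near γ c)
    {ψ : ℂ → ℂ} {B α : ℝ} (hψ : Continuous ψ) (hB : ∀ x, ‖ψ x‖ ≤ B)
    (h : ∀ φ : ℂ → ℝ, IsTest φ →
      ∫ x, ψ x * ((m ^ 2 * φ x - lap φ x : ℝ) : ℂ) = α * ∫ t, ψ (γ t) * (φ (γ t) : ℂ)) (x : ℂ) :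
    ψ x = α * lay m γ (fun t => ψ (γ t)) x := by
  have hf : CB B (fun t => ψ (γ t)) := ⟨hψ.comp hγ, fun s => hB _⟩
  have hlc := lay_continuous hm hc hγ hN hf.1.aestronglyMeasurable hf.2
  have hlb := lay_bdd hm hc hN hf.2
  have := weak_unique (m := m) (M := B + |α| * (B / (m * c))) hm
    (w := fun x => ψ x - α * lay m γ (fun t => ψ (γ t)) x) (by fun_prop) (fun x => ?_)
    (fun φ hφ => ?_) x
  · exact sub_eq_zero.1 this
  · refine (norm_sub_le _ _).trans (add_le_add (hB x) ?_)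
    rw [norm_mul, Complex.norm_real, Real.norm_eq_abs]
    exact mul_le_mul_of_nonneg_left (hlb x) (abs_nonneg _)
  · have hgt : IsTest (fun p => m ^ 2 * φ p - lap φ p) := helm_test hφ
    have i1 : Integrable (fun x => ψ x * ((m ^ 2 * φ x - lap φ x : ℝ) : ℂ)) :=
      hgt.integrable.ofReal.bdd_mul (c := B) hψ.aestronglyMeasurable (Eventually.of_forall hB)
    have i2 : Integrable (fun x => lay m γ (fun t => ψ (γ t)) x * ((m ^ 2 * φ x - lap φ x : ℝ) : ℂ)) :=
      hgt.integrable.ofReal.bdd_mul (c := B / (m * c)) hlc.aestronglyMeasurable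
        (Eventually.of_forall hlb)
    have e : ∀ x, (ψ x - α * lay m γ (fun t => ψ (γ t)) x) * ((m ^ 2 * φ x - lap φ x : ℝ) : ℂ)
        = ψ x * ((m ^ 2 * φ x - lap φ x : ℝ) : ℂ)
          - α * (lay m γ (fun t => ψ (γ t)) x * ((m ^ 2 * φ x - lap φ x : ℝ) : ℂ)) := fun x => by ring
    simp only [e]
    rw [integral_sub i1 (i2.const_mul _), integral_const_mul, lay_weak hm hc hγ hN hf hφ, h φ hφ,
      sub_self]

end layer

end Pool.Agent.Helper97.Scat
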