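import Pool.Agent.Helper97.Scat.LineMain
import Pool.Agent.Helper97.Scat.PDE2

/-!
# Asymptotics in the leads
-/

open MeasureTheory Filter Topology Set Real

namespace Pool.Agent.Helper97.Scat

/-- convolution against a function tending to zero -/
lemma conv_tendsto {m κ M : ℝ} (hm : 0 < m) (hκ : 0 < κ) {h : ℝ → ℝ} (hh : Measurable h)
    (hM : ∀ s, |h s| ≤ M) (hl : Tendsto h atTop (𝓝 0)) :
    Tendsto (fun s => ∫ σ, gk m (κ ^ 2 * (s - σ) ^ 2) * h σ) atTop (𝓝 0) := by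
  have hN : Integrable (fun r : ℝ => gk m (κ ^ 2 * r ^ 2)) := by
    have := gk_integrable_real hm hκ 0
    simpa using this
  have e : ∀ s, ∫ σ, gk m (κ ^ 2 * (s - σ) ^ 2) * h σ = ∫ r, gk m (κ ^ 2 * r ^ 2) * h (s - r) := by
    intro s
    rw [← integral_sub_left_eq_self (fun r => gk m (κ ^ 2 * r ^ 2) * h (s - r)) _ s]
    simp
  simp only [e]
  have := tendsto_integral_filter_of_dominated_convergence (μ := volume) (l := (atTop : Filter ℝ))
    (F := fun s r => gk m (κ ^ 2 * r ^ 2) * h (s - r)) (f := fun _ => 0)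
    (fun r => gk m (κ ^ 2 * r ^ 2) * M) ?_ ?_ (hN.mul_const M) ?_
  · simp only [integral_zero] at this
    exact this
  · exact Eventually.of_forall fun s => hN.1.mul (hh.comp (by fun_prop)).aestronglyMeasurable
  · refine Eventually.of_forall fun s => Eventually.of_forall fun r => ?_
    rw [norm_mul, Real.norm_of_nonneg (gk_nonneg _ _)]
    exact mul_le_mul_of_nonneg_left (hM _) (gk_nonneg _ _)
  · refine Eventually.of_forall fun r => ?_
    have h1 : Tendsto (fun s : ℝ => s - r) atTop atTop := tendsto_atTop_add_const_right _ _ tendsto_id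
    simpa using (hl.comp h1).const_mul (gk m (κ ^ 2 * r ^ 2))

lemma gk_shift_integrable {m κ : ℝ} (hm : 0 < m) (hκ : 0 < κ) (s : ℝ) :
    Integrable (fun σ : ℝ => gk m (κ ^ 2 * (s - σ) ^ 2)) := by
  have := gk_integrable_real hm hκ s
  refine this.congr (Eventually.of_forall fun σ => ?_)
  simp only
  rw [show (σ - s) ^ 2 = (s - σ) ^ 2 by ring]

/-- plane waves are reproduced with the transverse profile -/
lemma wave_repro {a m k : ℝ} (hm : 0 < m) (ha : 0 < a) (hmk : m ^ 2 + k ^ 2 = a ^ 2) (s t : ℝ) :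
    ((2 * a : ℝ) : ℂ) * ∫ σ, (gk m ((s - σ) ^ 2 + t ^ 2) : ℂ) * ex k σ
      = (Real.exp (-(a * |t|)) : ℂ) * ex k s := by
  have e : ∫ σ, (gk m ((s - σ) ^ 2 + t ^ 2) : ℂ) * ex k σ
      = (∫ r, (gk m (r ^ 2 + t ^ 2) : ℂ) * ex (-k) r) * ex k s := by
    rw [← integral_sub_left_eq_self _ _ s, ← integral_mul_const]
    congr 1; ext r
    rw [sub_sub_cancel, sub_eq_add_neg s r, ex_add, ex_neg]
    ring
  rw [e, gk_fourier hm, neg_sq, hmk, Real.sqrt_sq ha.le]
  push_cast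
  have : (a:ℂ) ≠ 0 := by exact_mod_cast ha.ne'
  field_simp

lemma wave_int {m : ℝ} (hm : 0 < m) (s t : ℝ) {β : ℝ → ℂ} {M : ℝ} (hβ : AEStronglyMeasurable β volume)
    (hM : ∀ s, ‖β s‖ ≤ M) : Integrable (fun σ => (gk m ((s - σ) ^ 2 + t ^ 2) : ℂ) * β σ) := by
  refine gk_integrable (ρ := fun σ => (s - σ) ^ 2 + t ^ 2) (r₀ := s) (c := 1) hm one_pos (by fun_prop)
    (fun r => ?_) hβ hM
  nlinarith [sq_nonneg t]

/-- contribution of a straight lead -/
lemma half_line {a m k M : ℝ} (hm : 0 < m) (ha : 0 < a) (hmk : m ^ 2 + k ^ 2 = a ^ 2)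
    {f : ℝ → ℂ} (hf : CB M f) {c₁ c₂ : ℂ}
    (hβ : Tendsto (fun s => f s - (c₁ * ex k s + c₂ * ex (-k) s)) atTop (𝓝 0)) (b : ℝ)
    {ε : ℝ} (hε : 0 < ε) :
    ∀ᶠ s in atTop, ∀ t : ℝ,
      ‖((2 * a : ℝ) : ℂ) * (∫ σ in Ioi b, (gk m ((s - σ) ^ 2 + t ^ 2) : ℂ) * f σ)
        - (Real.exp (-(a * |t|)) : ℂ) * (c₁ * ex k s + c₂ * ex (-k) s)‖ ≤ ε := by
  set β : ℝ → ℂ := fun s => c₁ * ex k s + c₂ * ex (-k) s with hβdef
  have hβCB : CB (‖c₁‖ * 1 + ‖c₂‖ * 1) β := ((CB_ex k).const_mul c₁).add ((CB_ex (-k)).const_mul c₂)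
  set M' := ‖c₁‖ * 1 + ‖c₂‖ * 1 with hM'
  set F : ℝ → ℂ := (Ioi b).indicator f with hF
  have hFm : AEStronglyMeasurable F volume := hf.1.aestronglyMeasurable.indicator measurableSet_Ioi
  have hFb : ∀ s, ‖F s‖ ≤ M := fun s => (norm_indicator_le_norm_self _ _).trans (hf.2 s)
  set h : ℝ → ℝ := fun σ => ‖F σ - β σ‖ with hh
  have hhm : Measurable h :=
    ((hf.1.measurable.indicator measurableSet_Ioi).sub hβCB.1.measurable).norm
  have hhb : ∀ s, |h s| ≤ M + M' := fun s => by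
    rw [hh, abs_norm]
    exact (norm_sub_le _ _).trans (add_le_add (hFb s) (hβCB.2 s))
  have hh0 : Tendsto h atTop (𝓝 0) := by
    have h1 := hβ.norm
    rw [norm_zero] at h1
    refine h1.congr' ?_
    filter_upwards [Ioi_mem_atTop b] with σ hσ
    simp only [hh, hF, indicator_of_mem hσ]
    rfl
  have hconv := conv_tendsto hm one_pos hhm hhb hh0
  have hev : ∀ᶠ s in atTop, 2 * a * ∫ σ, gk m (1 ^ 2 * (s - σ) ^ 2) * h σ < ε := by
    have := hconv.const_mul (2 * a)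
    rw [mul_zero] at this
    exact (tendsto_order.1 this).2 ε hε
  filter_upwards [hev] with s hs t
  have i1 := wave_int hm s t hFm hFb
  have i2 := wave_int hm s t hβCB.1.aestronglyMeasurable hβCB.2
  have e1 : ∫ σ in Ioi b, (gk m ((s - σ) ^ 2 + t ^ 2) : ℂ) * f σ
      = ∫ σ, (gk m ((s - σ) ^ 2 + t ^ 2) : ℂ) * F σ := by
    rw [← integral_indicator measurableSet_Ioi]
    congr 1; ext σ
    by_cases hσ : σ ∈ Ioi b
    · simp [hF, indicator_of_mem hσ]
    · simp [hF, indicator_of_notMem hσ]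
  have e2 : (Real.exp (-(a * |t|)) : ℂ) * (c₁ * ex k s + c₂ * ex (-k) s)
      = ((2 * a : ℝ) : ℂ) * ∫ σ, (gk m ((s - σ) ^ 2 + t ^ 2) : ℂ) * β σ := by
    have w1 := wave_repro hm ha hmk s t
    have w2 := wave_repro (k := -k) hm ha (by rw [neg_sq]; exact hmk) s t
    have j1 := (wave_int hm s t (CB_ex k).1.aestronglyMeasurable (CB_ex k).2).const_mul c₁
    have j2 := (wave_int hm s t (CB_ex (-k)).1.aestronglyMeasurable (CB_ex (-k)).2).const_mul c₂
    have e3 : ∫ σ, (gk m ((s - σ) ^ 2 + t ^ 2) : ℂ) * β σ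
        = c₁ * (∫ σ, (gk m ((s - σ) ^ 2 + t ^ 2) : ℂ) * ex k σ)
          + c₂ * ∫ σ, (gk m ((s - σ) ^ 2 + t ^ 2) : ℂ) * ex (-k) σ := by
      rw [← integral_const_mul, ← integral_const_mul, ← integral_add j1 j2]
      congr 1; ext σ; rw [hβdef]; ring
    rw [e3]
    linear_combination (-c₁) * w1 - c₂ * w2
  rw [e1, e2, ← mul_sub, ← integral_sub i1 i2, norm_mul, Complex.norm_real,
    Real.norm_of_nonneg (by positivity)]
  refine le_trans ?_ hs.le
  refine mul_le_mul_of_nonneg_left ?_ (by positivity)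
  have i3 : Integrable (fun σ => gk m (1 ^ 2 * (s - σ) ^ 2) * h σ) :=
    (gk_shift_integrable hm one_pos s).mul_bdd (c := M + M') hhm.aestronglyMeasurable
      (Eventually.of_forall hhb)
  refine norm_integral_le_of_norm_le i3 ?_
  have h0 : ∀ᵐ r : ℝ, r ≠ s := by simp [ae_iff, measure_singleton]
  filter_upwards [h0] with σ hσ
  rw [← mul_sub, norm_mul, Complex.norm_real, Real.norm_of_nonneg (gk_nonneg _ _)]
  have hpos : 0 < (1:ℝ) ^ 2 * (s - σ) ^ 2 := by
    have : s - σ ≠ 0 := sub_ne_zero.2 hσ.symm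
    positivity
  exact mul_le_mul_of_nonneg_right (gk_anti hm hpos (by nlinarith [sq_nonneg t])) (norm_nonneg _)

/-- contribution of the part of the curve that is far away -/
lemma far_small {m κ M b : ℝ} (hm : 0 < m) (hκ : 0 < κ) (γ : ℝ → ℂ) {S : Set ℝ} (hS : MeasurableSet S)
    (hSb : S ⊆ Iic b) {f : ℝ → ℂ} (hf : CB M f) {ε : ℝ} (hε : 0 < ε) :
    ∀ᶠ s in atTop, ∀ x : ℂ, (∀ σ ∈ S, κ * (s - σ) ≤ ‖x - γ σ‖) →
      ‖∫ σ in S, (gk m (‖x - γ σ‖ ^ 2) : ℂ) * f σ‖ ≤ ε := by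
  have hM := hf.nonneg
  set h : ℝ → ℝ := (Iic b).indicator fun _ => M with hh
  have hhm : Measurable h := measurable_const.indicator measurableSet_Iic
  have hhb : ∀ s, |h s| ≤ M := fun s => by
    rw [← Real.norm_eq_abs]
    refine (norm_indicator_le_norm_self _ _).trans ?_
    rw [Real.norm_of_nonneg hM]
  have hh0 : Tendsto h atTop (𝓝 0) := by
    refine tendsto_const_nhds.congr' ?_
    filter_upwards [Ioi_mem_atTop b] with σ hσ
    simp only [mem_Ioi] at hσ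
    rw [hh, indicator_of_notMem (by simpa using hσ)]
  have hconv := conv_tendsto hm hκ hhm hhb hh0
  have hnn : ∀ σ, 0 ≤ h σ := fun σ => indicator_nonneg (fun _ _ => hM) σ
  filter_upwards [(tendsto_order.1 hconv).2 ε hε, Ioi_mem_atTop b] with s hs hsb x hx
  simp only [mem_Ioi] at hsb
  refine le_trans ?_ hs.le
  have i3 : Integrable (fun σ => gk m (κ ^ 2 * (s - σ) ^ 2) * h σ) :=
    (gk_shift_integrable hm hκ s).mul_bdd (c := M) hhm.aestronglyMeasurable (Eventually.of_forall hhb)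
  refine (norm_integral_le_of_norm_le i3.integrableOn ?_).trans
    (setIntegral_le_integral i3 (Eventually.of_forall fun σ => mul_nonneg (gk_nonneg _ _) (hnn σ)))
  refine (ae_restrict_iff' hS).2 (Eventually.of_forall fun σ hσ => ?_)
  have hσb : σ ≤ b := hSb hσ
  rw [norm_mul, Complex.norm_real, Real.norm_of_nonneg (gk_nonneg _ _)]
  have h1 : h σ = M := by rw [hh, indicator_of_mem (show σ ∈ Iic b from hσb)]
  rw [h1]
  have hpos : 0 < κ ^ 2 * (s - σ) ^ 2 := by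
    have : 0 < s - σ := by linarith
    positivity
  have h2 : κ ^ 2 * (s - σ) ^ 2 ≤ ‖x - γ σ‖ ^ 2 := by
    rw [← mul_pow]
    exact pow_le_pow_left₀ (mul_nonneg hκ.le (by linarith)) (hx σ hσ) 2
  exact mul_le_mul (gk_anti hm hpos h2) (hf.2 σ) (norm_nonneg _) (gk_nonneg _ _)

lemma lay_rev (m : ℝ) (γ f : ℝ → ℂ) (x : ℂ) :
    lay m (fun s => γ (-s)) (fun s => f (-s)) x = lay m γ f x := by
  rw [lay, lay, ← integral_neg_eq_self (fun t => (gk m (‖x - γ t‖ ^ 2) : ℂ) * f t)]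

namespace Data
variable {γ g1 g2 g3 g4 : ℝ → ℂ} {R c K : ℝ} (D : Data γ g1 g2 g3 g4 R c K)
include D

lemma rev : Data (fun s => γ (-s)) (fun s => -g1 (-s)) (fun s => g2 (-s)) (fun s => -g3 (-s))
    (fun s => g4 (-s)) R c K where
  d0 := fun s => by
    refine ((D.d0 (-s)).scomp s (hasDerivAt_neg s)).congr_deriv ?_
    simp
  d1 := fun s => by
    refine ((D.d1 (-s)).scomp s (hasDerivAt_neg s)).fun_neg.congr_deriv ?_
    simp
  d2 := fun s => by
    refine ((D.d2 (-s)).scomp s (hasDerivAt_neg s)).congr_deriv ?_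
    simp
  d3 := fun s => by
    refine ((D.d3 (-s)).scomp s (hasDerivAt_neg s)).fun_neg.congr_deriv ?_
    simp
  unit := fun s => by rw [norm_neg]; exact D.unit _
  b2 := fun s => D.b2 _
  b3 := fun s => by rw [norm_neg]; exact D.b3 _
  b4 := fun s => D.b4 _
  supp := fun s hs => D.supp _ (by rwa [abs_neg])
  hR := D.hR
  hc := D.hc
  chord := fun s t => by
    have := D.chord (-s) (-t)
    rwa [show -s - -t = -(s - t) by ring, abs_neg] at this

/-- from the trace equation to the scattering equation on the line -/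
lemma line_forward {a m k M : ℝ} (h : Reg a m k c) (hk : k ≠ 0) {f : ℝ → ℂ} (hf : CB M f)
    (hfeq : ∀ s, f s = L0 a m f s + Dop a m γ f s) :
    ∃ A : Fin 2 → ℂ, ∀ s, f s = eA k A s + Kop k a m γ f s := by
  obtain ⟨w', h1, h2⟩ := free_forward h.m_pos h.a_pos h.rel hf (D.Dop_CB h hf) hfeq
  obtain ⟨c₁, c₂, h3⟩ := R0_general hk (D.Vop_integrable h hf) (D.Vop_CB h hf).1 h1 h2
  refine ⟨![c₁, c₂], fun s => ?_⟩
  have h4 := h3 s
  simp only [eA, Kop, hop, Matrix.cons_val_zero, Matrix.cons_val_one]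
  linear_combination h4

/-- and back -/
lemma line_backward {a m k M : ℝ} (h : Reg a m k c) (hk : k ≠ 0) {f : ℝ → ℂ} (hf : CB M f)
    {A : Fin 2 → ℂ} (hfeq : ∀ s, f s = eA k A s + Kop k a m γ f s) (s : ℝ) :
    f s = L0 a m f s + Dop a m γ f s := by
  have hw := C2_wave hk A (D.Vop_integrable h hf) (D.Vop_CB h hf) (D.Vop_norm_integral h hf)
  have e : (fun s => eA k A s + R0 k (Vop a m γ f) s)
      = fun s => f s - (Dop a m γ f s + L0 a m (Dop a m γ f) s) := by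
    ext s
    have := hfeq s
    rw [Kop, hop] at this
    linear_combination -this
  have h1 := hw.d0
  have h2 := hw.d1
  rw [e] at h1
  refine free_backward h.m_pos h.a_pos h.rel hk hf (D.Dop_CB h hf) h1 (fun s => (h2 s).congr_deriv ?_) s
  have := congrFun e s
  rw [this, Vop, hop]

lemma Dop_tendsto {a m k M : ℝ} (h : Reg a m k c) {f : ℝ → ℂ} (hf : CB M f) {l : Filter ℝ}
    (hl : Tendsto (fun s : ℝ => |s|) l atTop) : Tendsto (Dop a m γ f) l (𝓝 0) := by
  have h1 : Tendsto (fun s : ℝ => C0 c R * K ^ 2 / a ^ 2 * M * Real.exp (-|s|)) l (𝓝 0) := by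
    have := (Real.tendsto_exp_neg_atTop_nhds_zero.comp hl).const_mul (C0 c R * K ^ 2 / a ^ 2 * M)
    simpa using this
  exact squeeze_zero_norm (fun s => D.Dop_le h hf s) h1

lemma hop_tendsto_top {a m k M : ℝ} (h : Reg a m k c) {f : ℝ → ℂ} (hf : CB M f) :
    Tendsto (hop a m γ f) atTop (𝓝 0) := by
  have h1 := D.Dop_tendsto h hf (l := atTop) tendsto_abs_atTop_atTop
  have h2 := A0_tendsto h.m_pos (D.Dop_CB h hf) (l := atTop)
    (fun a => tendsto_atTop_add_const_right _ _ tendsto_id) h1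
  have := h1.add (h2.const_mul ((2 * a : ℝ) : ℂ))
  rw [mul_zero, add_zero] at this
  exact this

lemma hop_tendsto_bot {a m k M : ℝ} (h : Reg a m k c) {f : ℝ → ℂ} (hf : CB M f) :
    Tendsto (hop a m γ f) atBot (𝓝 0) := by
  have h1 := D.Dop_tendsto h hf (l := atBot) tendsto_abs_atBot_atTop
  have h2 := A0_tendsto h.m_pos (D.Dop_CB h hf) (l := atBot)
    (fun a => tendsto_atBot_add_const_right _ _ tendsto_id) h1
  have := h1.add (h2.const_mul ((2 * a : ℝ) : ℂ))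
  rw [mul_zero, add_zero] at this
  exact this

lemma line_top {a m k M : ℝ} (h : Reg a m k c) {f : ℝ → ℂ} (hf : CB M f)
    {A : Fin 2 → ℂ} (hfeq : ∀ s, f s = eA k A s + Kop k a m γ f s) :
    Tendsto (fun s => f s - (outA k A (Vop a m γ f) 1 * ex k s + A 1 * ex (-k) s)) atTop (𝓝 0) := by
  have h1 := R0_tendsto_atTop k (D.Vop_integrable h hf)
  have h2 := h1.add (D.hop_tendsto_top h hf)
  rw [add_zero] at h2
  refine h2.congr fun s => ?_
  have h3 := hfeq s
  rw [Kop, eA] at h3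
  have e : outA k A (Vop a m γ f) 1
      = A 0 + (Complex.I / (2 * k)) * ∫ t, ex (-k) t * Vop a m γ f t := rfl
  rw [e]
  linear_combination -h3

lemma line_bot {a m k M : ℝ} (h : Reg a m k c) {f : ℝ → ℂ} (hf : CB M f)
    {A : Fin 2 → ℂ} (hfeq : ∀ s, f s = eA k A s + Kop k a m γ f s) :
    Tendsto (fun s => f s - (A 0 * ex k s + outA k A (Vop a m γ f) 0 * ex (-k) s)) atBot (𝓝 0) := by
  have h1 := R0_tendsto_atBot k (D.Vop_integrable h hf)
  have h2 := h1.add (D.hop_tendsto_bot h hf)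
  rw [add_zero] at h2
  refine h2.congr fun s => ?_
  have h3 := hfeq s
  rw [Kop, eA] at h3
  have e : outA k A (Vop a m γ f) 0
      = A 1 + (Complex.I / (2 * k)) * ∫ t, ex k t * Vop a m γ f t := rfl
  rw [e]
  linear_combination -h3

/-- asymptotics of the layer potential in the right lead -/
lemma lead_right {a m k M : ℝ} (h : Reg a m k c) {f : ℝ → ℂ} (hf : CB M f) {c₁ c₂ : ℂ}
    (hβ : Tendsto (fun s => f s - (c₁ * ex k s + c₂ * ex (-k) s)) atTop (𝓝 0)) (U : ℝ)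
    {ε : ℝ} (hε : 0 < ε) :
    ∀ᶠ s in atTop, ∀ t : ℝ, |t| ≤ U →
      ‖((2 * a : ℝ) : ℂ) * lay m γ f (γ s + t * (Complex.I * g1 s))
        - (Real.exp (-(a * |t|)) : ℂ) * (c₁ * ex k s + c₂ * ex (-k) s)‖ ≤ ε := by
  have ha := h.a_pos
  have hm := h.m_pos
  have hc := D.hc
  have h1 := half_line hm ha h.rel hf hβ R (show 0 < ε / 2 by positivity)
  have h2 := far_small (κ := c / 2) hm (by positivity) γ (measurableSet_Iic (a := R)) Subset.rfl hf
    (show 0 < ε / 2 / (2 * a) by positivity)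
  filter_upwards [h1, h2, Ici_mem_atTop (R + 2 * U / c), Ici_mem_atTop R] with s hs1 hs2 hs3 hs4 t ht
  simp only [mem_Ici] at hs3 hs4
  have hU : 0 ≤ U := (abs_nonneg t).trans ht
  set x : ℂ := γ s + t * (Complex.I * g1 s) with hx
  have hg : g1 s = g1 R := D.g1_right hs4
  have hi := lay_integrable hm (show 0 < c / 2 by positivity) D.continuous D.Nr hf.1.aestronglyMeasurable hf.2 x
  have e1 : lay m γ f x = (∫ σ in Iic R, (gk m (‖x - γ σ‖ ^ 2) : ℂ) * f σ)
      + ∫ σ in Ioi R, (gk m (‖x - γ σ‖ ^ 2) : ℂ) * f σ :=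
    (intervalIntegral.integral_Iic_add_Ioi hi.integrableOn hi.integrableOn).symm
  have e2 : ∫ σ in Ioi R, (gk m (‖x - γ σ‖ ^ 2) : ℂ) * f σ
      = ∫ σ in Ioi R, (gk m ((s - σ) ^ 2 + t ^ 2) : ℂ) * f σ := by
    refine setIntegral_congr_fun measurableSet_Ioi fun σ hσ => ?_
    simp only [mem_Ioi] at hσ
    have e3 : x - γ σ = (((s - σ : ℝ) : ℂ) + t * Complex.I) * g1 R := by
      rw [hx, hg, D.γ_right hs4, D.γ_right hσ.le]
      push_cast; ring
    rw [e3, norm_mul, D.unit, mul_one, ← Complex.normSq_eq_norm_sq, Complex.normSq_add_mul_I]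
  have h3 : ∀ σ ∈ Iic R, c / 2 * (s - σ) ≤ ‖x - γ σ‖ := by
    intro σ hσ
    simp only [mem_Iic] at hσ
    have h4 := D.chord s σ
    rw [abs_of_nonneg (by linarith)] at h4
    have h5 : ‖γ s - γ σ‖ ≤ ‖x - γ σ‖ + |t| := by
      have e4 : γ s - γ σ = (x - γ σ) - t * (Complex.I * g1 s) := by rw [hx]; ring
      rw [e4]
      refine (norm_sub_le _ _).trans (le_of_eq ?_)
      rw [norm_mul, norm_mul, D.unit, Complex.norm_I, Complex.norm_real, Real.norm_eq_abs]
      ring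
    have h6 : 2 * U ≤ c * (s - R) := by
      have : 2 * U / c ≤ s - R := by linarith
      rw [div_le_iff₀ hc] at this
      linarith
    nlinarith
  have h7 := hs2 x h3
  have h8 := hs1 t
  rw [e1, e2]
  have e5 : ((2 * a : ℝ) : ℂ) * ((∫ σ in Iic R, (gk m (‖x - γ σ‖ ^ 2) : ℂ) * f σ)
        + ∫ σ in Ioi R, (gk m ((s - σ) ^ 2 + t ^ 2) : ℂ) * f σ)
        - (Real.exp (-(a * |t|)) : ℂ) * (c₁ * ex k s + c₂ * ex (-k) s)
      = ((2 * a : ℝ) : ℂ) * (∫ σ in Iic R, (gk m (‖x - γ σ‖ ^ 2) : ℂ) * f σ)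
        + (((2 * a : ℝ) : ℂ) * (∫ σ in Ioi R, (gk m ((s - σ) ^ 2 + t ^ 2) : ℂ) * f σ)
        - (Real.exp (-(a * |t|)) : ℂ) * (c₁ * ex k s + c₂ * ex (-k) s)) := by ring
  rw [e5]
  refine (norm_add_le _ _).trans ?_
  have h9 : ‖((2 * a : ℝ) : ℂ) * (∫ σ in Iic R, (gk m (‖x - γ σ‖ ^ 2) : ℂ) * f σ)‖ ≤ ε / 2 := by
    rw [norm_mul, Complex.norm_real, Real.norm_of_nonneg (by positivity)]
    calc 2 * a * _ ≤ 2 * a * (ε / 2 / (2 * a)) := mul_le_mul_of_nonneg_left h7 (by positivity)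
      _ = ε / 2 := by field_simp
  linarith

/-- asymptotics of the layer potential in the left lead -/
lemma lead_left {a m k M : ℝ} (h : Reg a m k c) {f : ℝ → ℂ} (hf : CB M f) {c₁ c₂ : ℂ}
    (hβ : Tendsto (fun s => f s - (c₁ * ex k s + c₂ * ex (-k) s)) atBot (𝓝 0)) (U : ℝ)
    {ε : ℝ} (hε : 0 < ε) :
    ∀ᶠ s in atBot, ∀ t : ℝ, |t| ≤ U →
      ‖((2 * a : ℝ) : ℂ) * lay m γ f (γ s + t * (Complex.I * g1 s))
        - (Real.exp (-(a * |t|)) : ℂ) * (c₁ * ex k s + c₂ * ex (-k) s)‖ ≤ ε := by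
  have hf' : CB M (fun s => f (-s)) := ⟨hf.1.comp continuous_neg, fun s => hf.2 _⟩
  have hβ' : Tendsto (fun s => f (-s) - (c₂ * ex k s + c₁ * ex (-k) s)) atTop (𝓝 0) := by
    refine (hβ.comp tendsto_neg_atTop_atBot).congr fun s => ?_
    simp only [Function.comp, ex_neg, neg_neg]
    ring
  have h1 := D.rev.lead_right h hf' hβ' U hε
  have h2 := tendsto_neg_atBot_atTop.eventually h1
  filter_upwards [h2] with s hs t ht
  have h3 := hs (-t) (by rwa [abs_neg])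
  rw [lay_rev] at h3
  simp only [neg_neg, ex_neg, abs_neg] at h3
  have e1 : γ s + ((-t : ℝ) : ℂ) * (Complex.I * -g1 s) = γ s + t * (Complex.I * g1 s) := by
    push_cast; ring
  have e2 : c₂ * ex (-k) s + c₁ * ex k s = c₁ * ex k s + c₂ * ex (-k) s := by ring
  rw [e1, e2] at h3
  exact h3

end Data

end Pool.Agent.Helper97.Scat
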