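import Pool.Agent.Helper97.Scat.Weak

/-!
# The weak estimates in final form
-/

open MeasureTheory Filter Topology Set Real

namespace Pool.Agent.Helper97.Scat

/-- the range of the parameters: `a = α/2`, `m² = a² - k²` -/
structure Reg (a m k c : ℝ) : Prop where
  one_le : 1 ≤ a
  m_pos : 0 < m
  rel : m ^ 2 + k ^ 2 = a ^ 2
  large : 2 * k ^ 2 ≤ a ^ 2
  cm : 8 ≤ c * m

namespace Reg
variable {a m k c : ℝ} (h : Reg a m k c)
include h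

lemma a_pos : 0 < a := by linarith [h.one_le]

lemma m_le : m ≤ a := by
  have h1 := h.rel
  have h2 := h.a_pos
  have h3 := h.m_pos
  nlinarith [sq_nonneg k]

lemma a_sq_le : a ^ 2 ≤ 2 * m ^ 2 := by
  have h1 := h.rel
  have h2 := h.large
  linarith

lemma k_le : k ^ 2 ≤ m ^ 2 := by
  have h1 := h.rel
  have h2 := h.large
  linarith

lemma ratio_ge : 1 ≤ a / m := by rw [le_div_iff₀ h.m_pos]; linarith [h.m_le]

lemma ratio_sq : (a / m) ^ 2 ≤ 2 := by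
  have h3 := h.m_pos
  rw [div_pow, div_le_iff₀ (by positivity)]
  exact h.a_sq_le

lemma ratio3 : (a / m) ^ 3 ≤ 3 := by
  have h1 := h.ratio_sq
  have h2 := h.ratio_ge
  have h3 : a / m ≤ 3 / 2 := by nlinarith
  calc (a / m) ^ 3 = (a / m) ^ 2 * (a / m) := by ring
    _ ≤ 2 * (3 / 2) := by gcongr
    _ = 3 := by norm_num

lemma ratio5 : (a / m) ^ 5 ≤ 6 := by
  have h1 := h.ratio_sq
  have h2 := h.ratio3
  have h3 := h.ratio_ge
  calc (a / m) ^ 5 = (a / m) ^ 3 * (a / m) ^ 2 := by ring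
    _ ≤ 3 * 2 := by gcongr
    _ = 6 := by norm_num

lemma r35 : a ^ 3 / m ^ 5 ≤ 6 / a ^ 2 := by
  have h1 := h.ratio5
  have ha := h.a_pos
  have hm := h.m_pos
  have : a ^ 3 / m ^ 5 = (a / m) ^ 5 / a ^ 2 := by field_simp
  rw [this]
  gcongr

lemma r45 : a ^ 4 / m ^ 5 ≤ 6 / a := by
  have h1 := h.ratio5
  have ha := h.a_pos
  have hm := h.m_pos
  have : a ^ 4 / m ^ 5 = (a / m) ^ 5 / a := by field_simp
  rw [this]
  gcongr

lemma r23 : a ^ 2 / m ^ 3 ≤ 3 / a := by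
  have h1 := h.ratio3
  have ha := h.a_pos
  have hm := h.m_pos
  have : a ^ 2 / m ^ 3 = (a / m) ^ 3 / a := by field_simp
  rw [this]
  gcongr

lemma r33 : |a ^ 3 / (4 * m ^ 3) - 1 / 4| ≤ 3 * k ^ 2 / (2 * a ^ 2) := by
  have h1 := h.ratio_ge
  have ha := h.a_pos
  have hm := h.m_pos
  have hx : k ^ 2 / m ^ 2 ≤ 1 := by rw [div_le_one (by positivity)]; exact h.k_le
  have hx0 : 0 ≤ k ^ 2 / m ^ 2 := by positivity
  have hr : (a / m) ^ 2 = 1 + k ^ 2 / m ^ 2 := by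
    rw [div_pow, ← h.rel]; field_simp
  have e : a ^ 3 / (4 * m ^ 3) - 1 / 4 = ((a / m) ^ 3 - 1) / 4 := by field_simp
  have h3 : 1 ≤ (a / m) ^ 3 := one_le_pow₀ h1
  have h4 : (a / m) ^ 3 ≤ (a / m) ^ 4 := pow_le_pow_right₀ h1 (by norm_num)
  have h5 : (a / m) ^ 4 = (1 + k ^ 2 / m ^ 2) ^ 2 := by rw [← hr]; ring
  have h6 : (a / m) ^ 3 - 1 ≤ 3 * (k ^ 2 / m ^ 2) := by
    rw [h5] at h4
    nlinarith
  have h7 : k ^ 2 / m ^ 2 ≤ 2 * k ^ 2 / a ^ 2 := by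
    rw [div_le_div_iff₀ (by positivity) (by positivity)]
    have := h.a_sq_le
    nlinarith [sq_nonneg k]
  rw [e, abs_of_nonneg (by linarith)]
  calc ((a / m) ^ 3 - 1) / 4 ≤ 3 * (2 * k ^ 2 / a ^ 2) / 4 := by linarith
    _ = _ := by ring

lemma c_pos : 0 < c := by
  by_contra hc
  push Not at hc
  have := mul_nonpos_of_nonpos_of_nonneg hc h.m_pos.le
  linarith [h.cm]

end Reg

/-- the constant of the weak estimates -/
noncomputable def Cw (c R k : ℝ) : ℝ := 294912 * Real.exp (2 * R) / c ^ 9 + 48 * R + 3 * k ^ 2 * R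

namespace Data
variable {γ g1 g2 g3 g4 : ℝ → ℂ} {R c K : ℝ} (D : Data γ g1 g2 g3 g4 R c K)
include D

lemma Cw_nonneg (k : ℝ) : 0 ≤ Cw c R k := by
  have := D.hc
  have := D.hR
  unfold Cw; positivity

/-- replacing the kernel by its main part -/
lemma replace {a m k M : ℝ} (h : Reg a m k c) {F : ℝ → ℝ → ℂ}
    (hF : Continuous (Function.uncurry F)) (hM : ∀ s t, ‖F s t‖ ≤ M) :
    ‖(∫ s, ∫ t, ((2 * a ^ 2 * Dk a m γ s t : ℝ) : ℂ) * F s t)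
      - ∫ s, ∫ t, ((2 * a ^ 2 * Mk a m g2 s t : ℝ) : ℂ) * F s t‖
      ≤ (K ^ 2 + K ^ 4) * (294912 * Real.exp (2 * R) / c ^ 9) * M / a ^ 2 := by
  have ha := h.a_pos
  have hm := h.m_pos
  have hc := D.hc
  have hc1 := D.c_le
  have hM0 : 0 ≤ M := (norm_nonneg _).trans (hM 0 0)
  have hd := D.DkM_dom ha hm h.cm
  have i1 := (D.Dk_dom ha hm h.cm).integrable (by positivity) hm hc hF.aestronglyMeasurable hM
  have i2 := (D.Mk_dom ha hm h.cm).integrable (by positivity) hm hc hF.aestronglyMeasurable hM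
  have e : (∫ s, ∫ t, ((2 * a ^ 2 * Dk a m γ s t : ℝ) : ℂ) * F s t)
      - ∫ s, ∫ t, ((2 * a ^ 2 * Mk a m g2 s t : ℝ) : ℂ) * F s t
      = ((2 * a ^ 2 : ℝ) : ℂ) * ∫ s, ∫ t, ((Dk a m γ s t - Mk a m g2 s t : ℝ) : ℂ) * F s t := by
    have e1 : ∫ s, ∫ t, ((2 * a ^ 2 * Dk a m γ s t : ℝ) : ℂ) * F s t
        = ((2 * a ^ 2 : ℝ) : ℂ) * ∫ s, ∫ t, ((Dk a m γ s t : ℝ) : ℂ) * F s t := by
      rw [← integral_const_mul]
      congr 1; ext s
      rw [← integral_const_mul]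
      congr 1; ext t
      push_cast; ring
    have e2 : ∫ s, ∫ t, ((2 * a ^ 2 * Mk a m g2 s t : ℝ) : ℂ) * F s t
        = ((2 * a ^ 2 : ℝ) : ℂ) * ∫ s, ∫ t, ((Mk a m g2 s t : ℝ) : ℂ) * F s t := by
      rw [← integral_const_mul]
      congr 1; ext s
      rw [← integral_const_mul]
      congr 1; ext t
      push_cast; ring
    rw [e1, e2, ← mul_sub]
    congr 1
    have e3 : ∀ G : ℝ → ℝ → ℂ, Integrable (Function.uncurry G) ((volume : Measure ℝ).prod volume) →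
        ∫ s, ∫ t, G s t = ∫ p : ℝ × ℝ, Function.uncurry G p ∂((volume : Measure ℝ).prod volume) :=
      fun G hG => (integral_prod _ hG).symm
    have i3 := hd.integrable (by positivity) hm hc hF.aestronglyMeasurable hM
    rw [e3 _ i1, e3 _ i2, ← integral_sub i1 i2, e3 _ i3]
    congr 1; ext p
    simp only [Function.uncurry]
    push_cast; ring
  rw [e, norm_mul, Complex.norm_real, Real.norm_of_nonneg (by positivity)]
  have hb := hd.bound (by positivity) hm hc hF.aestronglyMeasurable hM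
  have hK2 : 0 ≤ K ^ 2 := by positivity
  have hK4 : 0 ≤ K ^ 4 := by positivity
  have hE := Real.exp_pos (2 * R)
  have h35 := h.r35
  have hc9 : 1 / c ^ 7 ≤ 1 / c ^ 9 := by
    apply one_div_le_one_div_of_le (by positivity)
    exact pow_le_pow_of_le_one hc.le hc1 (by norm_num)
  calc 2 * a ^ 2 * ‖∫ s, ∫ t, ((Dk a m γ s t - Mk a m g2 s t : ℝ) : ℂ) * F s t‖
      ≤ 2 * a ^ 2 * ((6144 * a * K ^ 4 / (c ^ 8 * m ^ 4) + 3072 * a * K ^ 2 / (c ^ 6 * m ^ 4)) * M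
          * (4 * Real.exp (2 * R) / (m * c))) := by gcongr
    _ = 8 * Real.exp (2 * R) * M * (a ^ 3 / m ^ 5)
          * (6144 * K ^ 4 * (1 / c ^ 9) + 3072 * K ^ 2 * (1 / c ^ 7)) := by
        field_simp
        ring
    _ ≤ 8 * Real.exp (2 * R) * M * (6 / a ^ 2)
          * (6144 * K ^ 4 * (1 / c ^ 9) + 6144 * K ^ 2 * (1 / c ^ 9)) := by
        have h7 : 0 ≤ 1 / c ^ 7 := by positivity
        have h8 : 3072 * K ^ 2 * (1 / c ^ 7) ≤ 6144 * K ^ 2 * (1 / c ^ 9) := by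
          calc 3072 * K ^ 2 * (1 / c ^ 7) ≤ 6144 * K ^ 2 * (1 / c ^ 7) := by gcongr; norm_num
            _ ≤ _ := by gcongr
        gcongr
    _ = _ := by ring

/-- the second order weak estimate -/
lemma weak2 {a m k M L : ℝ} (h : Reg a m k c) {F : ℝ → ℝ → ℂ}
    (hF : Continuous (Function.uncurry F)) (hM : ∀ s t, ‖F s t‖ ≤ M)
    (hL : ∀ x h, ‖F (x + h) (x - h) + F (x - h) (x + h) - 2 * F x x‖ ≤ L * h ^ 2) :
    ‖(∫ s, ∫ t, ((2 * a ^ 2 * Dk a m γ s t : ℝ) : ℂ) * F s t)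
      - ∫ x, ((‖g2 x‖ ^ 2 / 4 : ℝ) : ℂ) * F x x‖
      ≤ Cw c R k * (K ^ 2 + K ^ 4) * (M + L) / a ^ 2 := by
  have ha := h.a_pos
  have hm := h.m_pos
  have hc := D.hc
  have hR := D.hR
  have hM0 : 0 ≤ M := (norm_nonneg _).trans (hM 0 0)
  have hL0 : 0 ≤ L := by
    have := (norm_nonneg _).trans (hL 0 1)
    simpa using this
  have h1 := D.replace h hF hM
  have h2 := D.main_second ha hm h.cm hF hM hL
  set X := ∫ s, ∫ t, ((2 * a ^ 2 * Dk a m γ s t : ℝ) : ℂ) * F s t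
  set Y := ∫ s, ∫ t, ((2 * a ^ 2 * Mk a m g2 s t : ℝ) : ℂ) * F s t
  set I0 : ℂ := ∫ x, ((‖g2 x‖ ^ 2 : ℝ) : ℂ) * F x x with hI0
  have e : ∫ x, ((‖g2 x‖ ^ 2 / 4 : ℝ) : ℂ) * F x x = (1 / 4) * I0 := by
    rw [hI0, ← integral_const_mul]
    congr 1; ext x; push_cast; ring
  have h3 : ‖((a ^ 3 / (4 * m ^ 3) : ℝ) : ℂ) * I0 - (1 / 4) * I0‖
      ≤ 3 * k ^ 2 / (2 * a ^ 2) * (M * (2 * R * K ^ 2)) := by
    rw [← sub_mul, norm_mul]
    have e2 : ((a ^ 3 / (4 * m ^ 3) : ℝ) : ℂ) - 1 / 4 = ((a ^ 3 / (4 * m ^ 3) - 1 / 4 : ℝ) : ℂ) := by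
      push_cast; ring
    rw [e2, Complex.norm_real, Real.norm_eq_abs]
    exact mul_le_mul h.r33 (D.inner_bound fun x => hM x x) (norm_nonneg _) (by positivity)
  rw [e]
  have h4 : ‖X - (1 / 4) * I0‖ ≤ ‖X - Y‖ + ‖Y - ((a ^ 3 / (4 * m ^ 3) : ℝ) : ℂ) * I0‖
      + ‖((a ^ 3 / (4 * m ^ 3) : ℝ) : ℂ) * I0 - (1 / 4) * I0‖ := by
    have := norm_add₃_le (a := X - Y) (b := Y - ((a ^ 3 / (4 * m ^ 3) : ℝ) : ℂ) * I0)
      (c := ((a ^ 3 / (4 * m ^ 3) : ℝ) : ℂ) * I0 - (1 / 4) * I0)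
    refine le_trans (le_of_eq ?_) this
    congr 1; ring
  have h5 : 15 * L * R * K ^ 2 * a ^ 3 / (16 * m ^ 5) ≤ 6 * L * R * K ^ 2 / a ^ 2 := by
    have := h.r35
    calc 15 * L * R * K ^ 2 * a ^ 3 / (16 * m ^ 5) = 15 * L * R * K ^ 2 / 16 * (a ^ 3 / m ^ 5) := by
          field_simp
      _ ≤ 15 * L * R * K ^ 2 / 16 * (6 / a ^ 2) := by gcongr
      _ = (90 / 16) * (L * R * K ^ 2 / a ^ 2) := by ring
      _ ≤ 6 * (L * R * K ^ 2 / a ^ 2) := by gcongr; norm_num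
      _ = _ := by ring
  have hK2 : 0 ≤ K ^ 2 := by positivity
  have hK4 : 0 ≤ K ^ 4 := by positivity
  have hE : 0 ≤ 294912 * Real.exp (2 * R) / c ^ 9 := by positivity
  refine h4.trans ((add_le_add_three h1 (h2.trans h5) h3).trans ?_)
  rw [← sub_nonneg]
  have : Cw c R k * (K ^ 2 + K ^ 4) * (M + L) / a ^ 2
      - ((K ^ 2 + K ^ 4) * (294912 * Real.exp (2 * R) / c ^ 9) * M / a ^ 2 + 6 * L * R * K ^ 2 / a ^ 2
        + 3 * k ^ 2 / (2 * a ^ 2) * (M * (2 * R * K ^ 2)))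
      = ((294912 * Real.exp (2 * R) / c ^ 9) * (K ^ 2 + K ^ 4) * L
        + 48 * R * (K ^ 2 + K ^ 4) * M + 48 * R * K ^ 4 * L + 42 * L * R * K ^ 2
        + 3 * k ^ 2 * R * K ^ 4 * M + 3 * k ^ 2 * R * (K ^ 2 + K ^ 4) * L) / a ^ 2 := by
    unfold Cw
    field_simp
    ring
  rw [this]
  positivity

/-- the first order weak estimate -/
lemma weak1 {a m k M1 M2 L : ℝ} (h : Reg a m k c) {φ f : ℝ → ℂ}
    (hφ : CB M1 φ) (hf : CB M2 f) (hL : ∀ s t, ‖φ s - φ t‖ ≤ L * |s - t|) :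
    ‖(∫ s, ∫ t, ((2 * a ^ 2 * Dk a m γ s t : ℝ) : ℂ) * (φ s * f t))
      - ∫ x, ((‖g2 x‖ ^ 2 / 4 : ℝ) : ℂ) * (φ x * f x)‖
      ≤ Cw c R k * (K ^ 2 + K ^ 4) * M2 * (M1 + L) / a := by
  have ha := h.a_pos
  have h1a := h.one_le
  have hm := h.m_pos
  have hc := D.hc
  have hR := D.hR
  have hM1 := hφ.nonneg
  have hM2 := hf.nonneg
  have hL0 : 0 ≤ L := by
    have := (norm_nonneg _).trans (hL 1 0)
    simpa using this
  have hφc := hφ.1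
  have hfc := hf.1
  have hFc : Continuous (Function.uncurry fun s t => φ s * f t) := by
    unfold Function.uncurry; fun_prop
  have hFM : ∀ s t, ‖φ s * f t‖ ≤ M1 * M2 := fun s t => by
    rw [norm_mul]; exact mul_le_mul (hφ.2 s) (hf.2 t) (norm_nonneg _) hM1
  have h1 := D.replace h hFc hFM
  have h2 := D.main_first ha hm h.cm hφ hf hL
  set X := ∫ s, ∫ t, ((2 * a ^ 2 * Dk a m γ s t : ℝ) : ℂ) * (φ s * f t)
  set Y := ∫ s, ∫ t, ((2 * a ^ 2 * Mk a m g2 s t : ℝ) : ℂ) * (φ s * f t)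
  set I0 : ℂ := ∫ x, ((‖g2 x‖ ^ 2 : ℝ) : ℂ) * (φ x * f x) with hI0
  have e : ∫ x, ((‖g2 x‖ ^ 2 / 4 : ℝ) : ℂ) * (φ x * f x) = (1 / 4) * I0 := by
    rw [hI0, ← integral_const_mul]
    congr 1; ext x; push_cast; ring
  have h3 : ‖((a ^ 3 / (4 * m ^ 3) : ℝ) : ℂ) * I0 - (1 / 4) * I0‖
      ≤ 3 * k ^ 2 / (2 * a ^ 2) * (M1 * M2 * (2 * R * K ^ 2)) := by
    rw [← sub_mul, norm_mul]
    have e2 : ((a ^ 3 / (4 * m ^ 3) : ℝ) : ℂ) - 1 / 4 = ((a ^ 3 / (4 * m ^ 3) - 1 / 4 : ℝ) : ℂ) := by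
      push_cast; ring
    rw [e2, Complex.norm_real, Real.norm_eq_abs]
    exact mul_le_mul h.r33 (D.inner_bound fun x => hFM x x) (norm_nonneg _) (by positivity)
  rw [e]
  have h4 : ‖X - (1 / 4) * I0‖ ≤ ‖X - Y‖ + ‖Y - ((a ^ 3 / (4 * m ^ 3) : ℝ) : ℂ) * I0‖
      + ‖((a ^ 3 / (4 * m ^ 3) : ℝ) : ℂ) * I0 - (1 / 4) * I0‖ := by
    have := norm_add₃_le (a := X - Y) (b := Y - ((a ^ 3 / (4 * m ^ 3) : ℝ) : ℂ) * I0)
      (c := ((a ^ 3 / (4 * m ^ 3) : ℝ) : ℂ) * I0 - (1 / 4) * I0)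
    refine le_trans (le_of_eq ?_) this
    congr 1; ring
  have h6 : a ^ 2 / (8 * m ^ 3) + 15 * a ^ 4 / (8 * m ^ 5) ≤ 12 / a := by
    have r1 := h.r23
    have r2 := h.r45
    calc a ^ 2 / (8 * m ^ 3) + 15 * a ^ 4 / (8 * m ^ 5)
        = (1 / 8) * (a ^ 2 / m ^ 3) + (15 / 8) * (a ^ 4 / m ^ 5) := by field_simp
      _ ≤ (1 / 8) * (3 / a) + (15 / 8) * (6 / a) := by gcongr
      _ = (93 / 8) * (1 / a) := by ring
      _ ≤ 12 * (1 / a) := by gcongr; norm_num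
      _ = _ := by ring
  have h7 : 1 / a ^ 2 ≤ 1 / a := by
    apply one_div_le_one_div_of_le ha
    nlinarith
  have hK2 : 0 ≤ K ^ 2 := by positivity
  have hK4 : 0 ≤ K ^ 4 := by positivity
  have hE : 0 ≤ 294912 * Real.exp (2 * R) / c ^ 9 := by positivity
  have b1 : (K ^ 2 + K ^ 4) * (294912 * Real.exp (2 * R) / c ^ 9) * (M1 * M2) / a ^ 2
      ≤ (K ^ 2 + K ^ 4) * (294912 * Real.exp (2 * R) / c ^ 9) * (M1 * M2) * (1 / a) := by
    rw [div_eq_mul_one_div]; gcongr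
  have b2 : M2 * R * K ^ 2 * (2 * L + 4 * M1) * (a ^ 2 / (8 * m ^ 3) + 15 * a ^ 4 / (8 * m ^ 5))
      ≤ M2 * R * K ^ 2 * (2 * L + 4 * M1) * (12 / a) := by gcongr
  have b3 : 3 * k ^ 2 / (2 * a ^ 2) * (M1 * M2 * (2 * R * K ^ 2))
      ≤ 3 * k ^ 2 / 2 * (1 / a) * (M1 * M2 * (2 * R * K ^ 2)) := by
    have : 3 * k ^ 2 / (2 * a ^ 2) = 3 * k ^ 2 / 2 * (1 / a ^ 2) := by field_simp
    rw [this]; gcongr
  refine h4.trans ((add_le_add_three (h1.trans b1) (h2.trans b2) (h3.trans b3)).trans ?_)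
  rw [← sub_nonneg]
  have : Cw c R k * (K ^ 2 + K ^ 4) * M2 * (M1 + L) / a
      - ((K ^ 2 + K ^ 4) * (294912 * Real.exp (2 * R) / c ^ 9) * (M1 * M2) * (1 / a)
        + M2 * R * K ^ 2 * (2 * L + 4 * M1) * (12 / a)
        + 3 * k ^ 2 / 2 * (1 / a) * (M1 * M2 * (2 * R * K ^ 2)))
      = ((294912 * Real.exp (2 * R) / c ^ 9) * (K ^ 2 + K ^ 4) * M2 * L
        + 48 * R * K ^ 4 * M2 * (M1 + L) + 24 * R * K ^ 2 * M2 * L
        + 3 * k ^ 2 * R * K ^ 4 * M2 * M1 + 3 * k ^ 2 * R * (K ^ 2 + K ^ 4) * M2 * L) / a := by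
    unfold Cw
    field_simp
    ring
  rw [this]
  positivity

end Data

end Pool.Agent.Helper97.Scat
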