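import Pool.Agent.Helper97.Scat.Line

/-!
# The comparison problem: inversion of `1 - R₀ V` on bounded continuous functions
-/

open MeasureTheory Filter Topology Set Real
open scoped BoundedContinuousFunction

namespace Pool.Agent.Helper97.Scat

/-- the space of bounded continuous functions -/
abbrev X := ℝ →ᵇ ℂ

/-- element of `X` from a bounded continuous function -/
noncomputable def mkX {M : ℝ} (f : ℝ → ℂ) (h : CB M f) : X :=
  BoundedContinuousFunction.ofNormedAddCommGroup f h.1 M h.2

@[simp] lemma mkX_apply {M : ℝ} (f : ℝ → ℂ) (h : CB M f) (s : ℝ) : mkX f h s = f s := rfl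

lemma X_CB (f : X) : CB ‖f‖ f := ⟨f.continuous, f.norm_coe_le_norm⟩

lemma mkX_norm {M : ℝ} (f : ℝ → ℂ) (h : CB M f) : ‖mkX f h‖ ≤ M :=
  (BoundedContinuousFunction.norm_le h.nonneg).2 h.2

/-- a bounded linear operation on bounded continuous functions -/
structure BOp (T : (ℝ → ℂ) → ℝ → ℂ) (C : ℝ) : Prop where
  nonneg : 0 ≤ C
  map : ∀ (M : ℝ) (f : ℝ → ℂ), CB M f → CB (C * M) (T f)
  add : ∀ (M N : ℝ) (f g : ℝ → ℂ), CB M f → CB N g → ∀ s, T (fun s => f s + g s) s = T f s + T g s
  smul : ∀ (M : ℝ) (c : ℂ) (f : ℝ → ℂ), CB M f → ∀ s, T (fun s => c * f s) s = c * T f s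

/-- the associated continuous linear map -/
noncomputable def BOp.clm {T : (ℝ → ℂ) → ℝ → ℂ} {C : ℝ} (h : BOp T C) : X →L[ℂ] X :=
  LinearMap.mkContinuous
    { toFun := fun f => mkX (T f) (h.map ‖f‖ f (X_CB f))
      map_add' := fun f g => by
        ext s
        exact h.add _ _ f g (X_CB f) (X_CB g) s
      map_smul' := fun c f => by
        ext s
        exact h.smul _ c f (X_CB f) s } C
    (fun f => mkX_norm (T f) (h.map ‖f‖ f (X_CB f)))

@[simp] lemma BOp.clm_apply {T : (ℝ → ℂ) → ℝ → ℂ} {C : ℝ} (h : BOp T C) (f : X) (s : ℝ) :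
    h.clm f s = T f s := rfl

lemma BOp.norm_sub_le {T₁ T₂ : (ℝ → ℂ) → ℝ → ℂ} {C₁ C₂ ε : ℝ} (h₁ : BOp T₁ C₁) (h₂ : BOp T₂ C₂)
    (hε : 0 ≤ ε) (h : ∀ (M : ℝ) (f : ℝ → ℂ), CB M f → ∀ s, ‖T₁ f s - T₂ f s‖ ≤ ε * M) :
    ‖h₁.clm - h₂.clm‖ ≤ ε := by
  refine ContinuousLinearMap.opNorm_le_bound _ hε fun f => ?_
  refine (BoundedContinuousFunction.norm_le (by positivity)).2 fun s => ?_
  rw [sub_apply, BoundedContinuousFunction.sub_apply]
  exact h _ f (X_CB f) s

/-- a continuous real potential supported in `[-R, R]` -/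
structure Pot (V : ℝ → ℝ) (R : ℝ) : Prop where
  cont : Continuous V
  supp : ∀ s, R ≤ |s| → V s = 0
  hR : 0 ≤ R

namespace Pot
variable {V : ℝ → ℝ} {R : ℝ} (P : Pot V R)
include P

lemma integrable : Integrable V := by
  refine P.cont.integrable_of_hasCompactSupport ?_
  refine HasCompactSupport.of_support_subset_isCompact (isCompact_Icc (a := -R) (b := R)) ?_
  intro x hx
  by_contra hne
  apply hx
  apply P.supp
  by_contra hlt
  push Not at hlt
  exact hne ⟨(abs_lt.1 hlt).1.le, (abs_lt.1 hlt).2.le⟩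

lemma mul_integrable {f : ℝ → ℂ} {M : ℝ} (hf : CB M f) : Integrable (fun t => (V t : ℂ) * f t) :=
  P.integrable.ofReal.mul_bdd (c := M) hf.1.aestronglyMeasurable (Eventually.of_forall hf.2)

lemma mul_cont {f : ℝ → ℂ} {M : ℝ} (hf : CB M f) : Continuous (fun t => (V t : ℂ) * f t) := by
  have h1 := P.cont
  have h2 := hf.1
  fun_prop

lemma mul_norm_integral {f : ℝ → ℂ} {M : ℝ} (hf : CB M f) :
    ∫ t, ‖(V t : ℂ) * f t‖ ≤ (∫ t, |V t|) * M := by
  rw [← integral_mul_const]
  refine integral_mono (P.mul_integrable hf).norm (P.integrable.abs.mul_const M) fun t => ?_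
  simp only
  rw [norm_mul, Complex.norm_real, Real.norm_eq_abs]
  exact mul_le_mul_of_nonneg_left (hf.2 t) (abs_nonneg _)

/-- `R₀ V` -/
lemma bop {k : ℝ} (hk : k ≠ 0) :
    BOp (fun f => R0 k (fun t => (V t : ℂ) * f t)) (1 / (2 * |k|) * ∫ t, |V t|) where
  nonneg := mul_nonneg (by positivity) (integral_nonneg fun _ => abs_nonneg _)
  map := fun M f hf => by
    refine ⟨?_, fun s => ?_⟩
    · exact continuous_iff_continuousAt.2 fun s =>
        (R0_hasDerivAt hk (P.mul_integrable hf) (P.mul_cont hf) s).continuousAt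
    · refine (norm_R0_le k (P.mul_integrable hf) s).trans ?_
      rw [mul_assoc]
      exact mul_le_mul_of_nonneg_left (P.mul_norm_integral hf) (by positivity)
  add := fun M N f g hf hg s => by
    simp only [R0_eq_integral]
    have hb : ∀ {M : ℝ} {f : ℝ → ℂ}, CB M f → Integrable (fun t => rk k (s - t) * ((V t : ℂ) * f t)) :=
      fun {M f} hf => (P.mul_integrable hf).bdd_mul (c := 1 / (2 * |k|))
        (by have := continuous_rk k; fun_prop) (Eventually.of_forall fun t => (norm_rk k _).le)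
    rw [← integral_add (hb hf) (hb hg)]
    congr 1; ext t; ring
  smul := fun M c f hf s => by
    simp only [R0_eq_integral]
    rw [← integral_const_mul]
    congr 1; ext t; ring

/-- an outgoing solution of the comparison equation vanishes -/
lemma outgoing_zero {k : ℝ} (hk : k ≠ 0) {f : ℝ → ℂ} {M : ℝ} (hf : CB M f)
    (h : ∀ s, f s = R0 k (fun t => (V t : ℂ) * f t) s) : ∀ s, f s = 0 := by
  set q : ℝ → ℂ := fun t => (V t : ℂ) * f t with hq
  have iq := P.mul_integrable hf
  have cq := P.mul_cont hf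
  have hqR : ∀ t, R ≤ |t| → q t = 0 := fun t ht => by simp [hq, P.supp t ht]
  have hfeq : f = R0 k q := funext h
  have d1 : ∀ s, HasDerivAt f (R0' k q s) s := by
    intro s
    have := R0_hasDerivAt hk iq cq s
    rwa [← hfeq] at this
  have d2 : ∀ s, HasDerivAt (R0' k q) (-((k ^ 2 + V s : ℝ) : ℂ) * f s) s := by
    intro s
    refine (R0'_hasDerivAt iq cq s).congr_deriv ?_
    rw [← hfeq]
    push_cast; ring
  -- the flux
  set J : ℝ → ℝ := fun s => (f s).re * (R0' k q s).im - (f s).im * (R0' k q s).re with hJ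
  have dre : ∀ {g : ℝ → ℂ} {g' : ℂ} {s : ℝ}, HasDerivAt g g' s → HasDerivAt (fun s => (g s).re) g'.re s :=
    fun hg => (Complex.reCLM.hasFDerivAt.comp_hasDerivAt _ hg)
  have dim : ∀ {g : ℝ → ℂ} {g' : ℂ} {s : ℝ}, HasDerivAt g g' s → HasDerivAt (fun s => (g s).im) g'.im s :=
    fun hg => (Complex.imCLM.hasFDerivAt.comp_hasDerivAt _ hg)
  have dJ : ∀ s, HasDerivAt J 0 s := by
    intro s
    have h1 := ((dre (d1 s)).fun_mul (dim (d2 s))).fun_sub ((dim (d1 s)).fun_mul (dre (d2 s)))
    refine h1.congr_deriv ?_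
    have e1 : (-((k ^ 2 + V s : ℝ) : ℂ) * f s).re = -(k ^ 2 + V s) * (f s).re := by
      rw [← Complex.ofReal_neg, Complex.re_ofReal_mul]
    have e2 : (-((k ^ 2 + V s : ℝ) : ℂ) * f s).im = -(k ^ 2 + V s) * (f s).im := by
      rw [← Complex.ofReal_neg, Complex.im_ofReal_mul]
    rw [e1, e2]
    ring
  have hJc : ∀ s t, J s = J t := fun s t =>
    is_const_of_deriv_eq_zero (fun s => (dJ s).differentiableAt) (fun s => (dJ s).deriv) s t
  -- explicit form on the right
  set b : ℂ := ∫ t, ex (-k) t * q t with hb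
  set d : ℂ := ∫ t, ex k t * q t with hd
  have right1 : ∀ s, R ≤ s → ∫ t in Ioi s, ex k t * q t = 0 := by
    intro s hs
    rw [setIntegral_congr_fun (g := fun _ => (0:ℂ)) measurableSet_Ioi, integral_zero]
    intro t ht
    have ht : s < t := ht
    show ex k t * q t = 0
    rw [hqR t (by rw [abs_of_nonneg (by linarith [P.hR])]; linarith), mul_zero]
  have right2 : ∀ s, R ≤ s → ∫ t in Iic s, ex (-k) t * q t = b := by
    intro s hs
    have i1 := integrable_ex_mul (-k) iq
    have h3 := intervalIntegral.integral_Iic_add_Ioi (b := s) i1.integrableOn i1.integrableOn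
    have h4 : ∫ t in Ioi s, ex (-k) t * q t = 0 := by
      rw [setIntegral_congr_fun (g := fun _ => (0:ℂ)) measurableSet_Ioi, integral_zero]
      intro t ht
      have ht : s < t := ht
      show ex (-k) t * q t = 0
      rw [hqR t (by rw [abs_of_nonneg (by linarith [P.hR])]; linarith), mul_zero]
    rw [h4, add_zero] at h3
    exact h3
  have left1 : ∀ s, s ≤ -R → ∫ t in Iic s, ex (-k) t * q t = 0 := by
    intro s hs
    rw [setIntegral_congr_fun (g := fun _ => (0:ℂ)) measurableSet_Iic, integral_zero]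
    intro t ht
    have ht : t ≤ s := ht
    show ex (-k) t * q t = 0
    rw [hqR t (by rw [abs_of_nonpos (by linarith [P.hR])]; linarith), mul_zero]
  have left2 : ∀ s, s ≤ -R → ∫ t in Ioi s, ex k t * q t = d := by
    intro s hs
    have i1 := integrable_ex_mul k iq
    have h3 := intervalIntegral.integral_Iic_add_Ioi (b := s) i1.integrableOn i1.integrableOn
    have h4 : ∫ t in Iic s, ex k t * q t = 0 := by
      rw [setIntegral_congr_fun (g := fun _ => (0:ℂ)) measurableSet_Iic, integral_zero]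
      intro t ht
      have ht : t ≤ s := ht
      show ex k t * q t = 0
      rw [hqR t (by rw [abs_of_nonpos (by linarith [P.hR])]; linarith), mul_zero]
    rw [h4, zero_add] at h3
    exact h3
  have fR : f R = (Complex.I / (2 * k)) * (ex k R * b) := by
    rw [hfeq, R0_eq iq, right1 R le_rfl, right2 R le_rfl]; ring
  have fR' : R0' k q R = -(1 / 2) * (ex k R * b) := by
    rw [R0'_eq, right1 R le_rfl, right2 R le_rfl]; ring
  have fL : f (-R) = (Complex.I / (2 * k)) * (ex (-k) (-R) * d) := by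
    rw [hfeq, R0_eq iq, left1 (-R) le_rfl, left2 (-R) le_rfl]; ring
  have fL' : R0' k q (-R) = (1 / 2) * (ex (-k) (-R) * d) := by
    rw [R0'_eq, left1 (-R) le_rfl, left2 (-R) le_rfl]; ring
  have hk' : (k:ℂ) ≠ 0 := by exact_mod_cast hk
  -- flux values
  have flux : ∀ z : ℂ, ∀ σ : ℝ, ((Complex.I / (2 * k)) * z).re * (((σ / 2 : ℝ) : ℂ) * z).im
      - ((Complex.I / (2 * k)) * z).im * (((σ / 2 : ℝ) : ℂ) * z).re
      = -σ / (4 * k) * (z.re ^ 2 + z.im ^ 2) := by
    intro z σ
    have e1 : (Complex.I / (2 * k)) * z = ((1 / (2 * k) : ℝ) : ℂ) * (Complex.I * z) := by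
      push_cast; field_simp
    rw [e1, Complex.re_ofReal_mul, Complex.im_ofReal_mul, Complex.re_ofReal_mul,
      Complex.im_ofReal_mul, Complex.I_mul_re, Complex.I_mul_im]
    field_simp
    ring
  have J1 : J R = 1 / (4 * k) * ((ex k R * b).re ^ 2 + (ex k R * b).im ^ 2) := by
    rw [hJ]
    simp only
    rw [fR, fR']
    have := flux (ex k R * b) (-1)
    have e : (((-1 / 2 : ℝ)) : ℂ) = -(1 / 2) := by push_cast; ring
    rw [e] at this
    rw [this]; ring
  have J2 : J (-R) = -1 / (4 * k) * ((ex (-k) (-R) * d).re ^ 2 + (ex (-k) (-R) * d).im ^ 2) := by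
    rw [hJ]
    simp only
    rw [fL, fL']
    have := flux (ex (-k) (-R) * d) 1
    have e : (((1 / 2 : ℝ)) : ℂ) = (1 / 2) := by push_cast; ring
    rw [e] at this
    rw [this]
  have hsum : (ex k R * b).re ^ 2 + (ex k R * b).im ^ 2 = 0 := by
    have h5 := hJc R (-R)
    rw [J1, J2] at h5
    have h6 : (ex k R * b).re ^ 2 + (ex k R * b).im ^ 2
        = -((ex (-k) (-R) * d).re ^ 2 + (ex (-k) (-R) * d).im ^ 2) := by
      field_simp at h5
      linarith
    have h7 : 0 ≤ (ex (-k) (-R) * d).re ^ 2 + (ex (-k) (-R) * d).im ^ 2 := by positivity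
    have h8 : 0 ≤ (ex k R * b).re ^ 2 + (ex k R * b).im ^ 2 := by positivity
    linarith
  have hz : ex k R * b = 0 := by
    apply Complex.ext
    · have : (ex k R * b).re ^ 2 = 0 := by nlinarith [sq_nonneg (ex k R * b).re, sq_nonneg (ex k R * b).im]
      simpa using this
    · have : (ex k R * b).im ^ 2 = 0 := by nlinarith [sq_nonneg (ex k R * b).re, sq_nonneg (ex k R * b).im]
      simpa using this
  rw [hz, mul_zero] at fR fR'
  -- energy argument
  obtain ⟨B, hB⟩ : ∃ B, ∀ s, |V s| ≤ B := by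
    have hcs : HasCompactSupport V := by
      refine HasCompactSupport.of_support_subset_isCompact (isCompact_Icc (a := -R) (b := R)) ?_
      intro x hx
      by_contra hne
      apply hx
      apply P.supp
      by_contra hlt
      push Not at hlt
      exact hne ⟨(abs_lt.1 hlt).1.le, (abs_lt.1 hlt).2.le⟩
    obtain ⟨B, hB⟩ := P.cont.bounded_above_of_compact_support hcs
    exact ⟨B, fun s => by simpa using hB s⟩
  set E : ℝ → ℝ := fun s => ((f s).re ^ 2 + (f s).im ^ 2) + ((R0' k q s).re ^ 2 + (R0' k q s).im ^ 2)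
    with hE
  set C : ℝ := 1 + k ^ 2 + B with hC
  have hE0 : ∀ s, 0 ≤ E s := fun s => by simp only [hE]; positivity
  set E' : ℝ → ℝ := fun s => 2 * (1 - (k ^ 2 + V s)) * ((f s).re * (R0' k q s).re
      + (f s).im * (R0' k q s).im) with hE'
  have dE : ∀ s, HasDerivAt E (E' s) s := by
    intro s
    have h1 := (((dre (d1 s)).fun_pow 2).fun_add ((dim (d1 s)).fun_pow 2)).fun_add
      (((dre (d2 s)).fun_pow 2).fun_add ((dim (d2 s)).fun_pow 2))
    refine h1.congr_deriv ?_
    have e1 : (-((k ^ 2 + V s : ℝ) : ℂ) * f s).re = -(k ^ 2 + V s) * (f s).re := by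
      rw [← Complex.ofReal_neg, Complex.re_ofReal_mul]
    have e2 : (-((k ^ 2 + V s : ℝ) : ℂ) * f s).im = -(k ^ 2 + V s) * (f s).im := by
      rw [← Complex.ofReal_neg, Complex.im_ofReal_mul]
    rw [e1, e2, hE']
    push_cast
    ring
  have bE : ∀ s, |E' s| ≤ C * E s := by
    intro s
    have h1 : |(f s).re * (R0' k q s).re + (f s).im * (R0' k q s).im| ≤ E s / 2 := by
      rw [abs_le]
      simp only [hE]
      constructor
      · nlinarith [sq_nonneg ((f s).re + (R0' k q s).re), sq_nonneg ((f s).im + (R0' k q s).im)]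
      · nlinarith [sq_nonneg ((f s).re - (R0' k q s).re), sq_nonneg ((f s).im - (R0' k q s).im)]
    have h2 : |1 - (k ^ 2 + V s)| ≤ C := by
      rw [hC]
      have := abs_le.1 (hB s)
      rw [abs_le]
      constructor <;> nlinarith [sq_nonneg k, this.1, this.2]
    have hC0 : 0 ≤ C := (abs_nonneg _).trans h2
    rw [hE']
    simp only
    rw [abs_mul, abs_mul, abs_two]
    calc 2 * |1 - (k ^ 2 + V s)| * |(f s).re * (R0' k q s).re + (f s).im * (R0' k q s).im|
        ≤ 2 * C * (E s / 2) := by gcongr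
      _ = C * E s := by ring
  have hER : E R = 0 := by
    simp only [hE, fR, fR']; simp
  have hexp : ∀ c s : ℝ, HasDerivAt (fun s => Real.exp (c * s)) (c * Real.exp (c * s)) s := by
    intro c s
    have := ((hasDerivAt_id s).const_mul c).exp
    simpa [mul_comm] using this
  have mono1 : Monotone (fun s => E s * Real.exp (C * s)) := by
    refine monotone_of_hasDerivAt_nonneg (fun s => (dE s).fun_mul (hexp C s)) fun s => ?_
    have := (abs_le.1 (bE s)).1
    have h2 := Real.exp_pos (C * s)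
    change (0:ℝ) ≤ E' s * Real.exp (C * s) + E s * (C * Real.exp (C * s))
    nlinarith
  have mono2 : Antitone (fun s => E s * Real.exp (-C * s)) := by
    refine antitone_of_hasDerivAt_nonpos (fun s => (dE s).fun_mul (hexp (-C) s)) fun s => ?_
    have := (abs_le.1 (bE s)).2
    have h2 := Real.exp_pos (-C * s)
    change E' s * Real.exp (-C * s) + E s * (-C * Real.exp (-C * s)) ≤ (0:ℝ)
    nlinarith
  intro s
  have hEs : E s = 0 := by
    rcases le_total s R with hs | hs
    · have := mono1 hs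
      simp only [hER, zero_mul] at this
      have h2 := Real.exp_pos (C * s)
      have h3 := hE0 s
      by_contra hne
      have : 0 < E s := lt_of_le_of_ne h3 (Ne.symm hne)
      nlinarith [mul_pos this h2]
    · have := mono2 hs
      simp only [hER, zero_mul] at this
      have h2 := Real.exp_pos (-C * s)
      have h3 := hE0 s
      by_contra hne
      have : 0 < E s := lt_of_le_of_ne h3 (Ne.symm hne)
      nlinarith [mul_pos this h2]
  simp only [hE] at hEs
  have a1 := sq_nonneg (f s).re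
  have a2 := sq_nonneg (f s).im
  have a3 := sq_nonneg (R0' k q s).re
  have a4 := sq_nonneg (R0' k q s).im
  apply Complex.ext
  · have : (f s).re ^ 2 = 0 := le_antisymm (by linarith) a1
    simpa using this
  · have : (f s).im ^ 2 = 0 := le_antisymm (by linarith) a2
    simpa using this

end Pot

end Pool.Agent.Helper97.Scat
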