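import Mathlib

/-!
# Chord and arc
-/

open MeasureTheory Filter Topology Set
open scoped RealInnerProductSpace

namespace Pool.Agent.Helper97.Scat

/-- mean value estimate with powers -/
lemma mvt_pow {E E' : ℝ → ℂ} (h0 : E 0 = 0) (hd : ∀ z, HasDerivAt E (E' z) z) {C : ℝ} (n : ℕ)
    (hb : ∀ z, ‖E' z‖ ≤ C * |z| ^ n) (z : ℝ) : ‖E z‖ ≤ C * |z| ^ (n + 1) := by
  have hC : 0 ≤ C := by
    have := (norm_nonneg _).trans (hb 1)
    simpa using this
  have h := Convex.norm_image_sub_le_of_norm_hasDerivWithin_le (f := E)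
    (f' := E') (s := uIcc 0 z) (C := C * |z| ^ n) (x := 0) (y := z)
    (fun x _ => (hd x).hasDerivWithinAt)
    (fun x hx => (hb x).trans (by
      have h1 : |x| ≤ |z| := by
        have := abs_sub_left_of_mem_uIcc hx
        simpa using this
      gcongr)) (convex_uIcc 0 z) left_mem_uIcc right_mem_uIcc
  rw [h0, sub_zero, sub_zero, Real.norm_eq_abs] at h
  rw [pow_succ, ← mul_assoc]
  exact h

lemma mvt_pow_real {E E' : ℝ → ℝ} (h0 : E 0 = 0) (hd : ∀ z, HasDerivAt E (E' z) z) {C : ℝ} (n : ℕ)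
    (hb : ∀ z, |E' z| ≤ C * |z| ^ n) (z : ℝ) : |E z| ≤ C * |z| ^ (n + 1) := by
  have := mvt_pow (E := fun z => (E z : ℂ)) (E' := fun z => (E' z : ℂ)) (by simp [h0])
    (fun z => (hd z).ofReal_comp) n (fun z => by rw [Complex.norm_real]; exact hb z) z
  rw [Complex.norm_real] at this
  exact this

/-- quantitative data of a curve parametrised by arc length, straight for `|s| ≥ R` -/
structure Data (γ g1 g2 g3 g4 : ℝ → ℂ) (R c K : ℝ) : Prop where
  d0 : ∀ s, HasDerivAt γ (g1 s) s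
  d1 : ∀ s, HasDerivAt g1 (g2 s) s
  d2 : ∀ s, HasDerivAt g2 (g3 s) s
  d3 : ∀ s, HasDerivAt g3 (g4 s) s
  unit : ∀ s, ‖g1 s‖ = 1
  b2 : ∀ s, ‖g2 s‖ ≤ K
  b3 : ∀ s, ‖g3 s‖ ≤ K
  b4 : ∀ s, ‖g4 s‖ ≤ K
  supp : ∀ s, R ≤ |s| → g2 s = 0
  hR : 0 ≤ R
  hc : 0 < c
  chord : ∀ s t, c * |s - t| ≤ ‖γ s - γ t‖

/-- the defect of the chord -/
noncomputable def Qd (γ : ℝ → ℂ) (s t : ℝ) : ℝ := (s - t) ^ 2 - ‖γ s - γ t‖ ^ 2

namespace Data
variable {γ g1 g2 g3 g4 : ℝ → ℂ} {R c K : ℝ} (D : Data γ g1 g2 g3 g4 R c K)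
include D

lemma hK : 0 ≤ K := (norm_nonneg _).trans (D.b2 0)

lemma continuous : Continuous γ := continuous_iff_continuousAt.2 fun s => (D.d0 s).continuousAt
lemma continuous1 : Continuous g1 := continuous_iff_continuousAt.2 fun s => (D.d1 s).continuousAt
lemma continuous2 : Continuous g2 := continuous_iff_continuousAt.2 fun s => (D.d2 s).continuousAt

lemma arc_le (s t : ℝ) : ‖γ s - γ t‖ ≤ |s - t| := by
  have h := Convex.norm_image_sub_le_of_norm_hasDerivWithin_le (f := γ)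
    (f' := g1) (s := univ) (C := 1) (x := t) (y := s)
    (fun x _ => (D.d0 x).hasDerivWithinAt)
    (fun x _ => (D.unit x).le) convex_univ (mem_univ _) (mem_univ _)
  simpa using h

lemma c_le : c ≤ 1 := by
  have h1 := D.chord 1 0
  have h2 := D.arc_le 1 0
  have := h1.trans h2
  simpa using this

lemma Q_nonneg (s t : ℝ) : 0 ≤ Qd γ s t := by
  have := D.arc_le s t
  rw [Qd, ← sq_abs (s - t)]
  have h2 := pow_le_pow_left₀ (norm_nonneg _) this 2
  linarith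

lemma Q_le_sq (s t : ℝ) : c ^ 2 * (s - t) ^ 2 ≤ (s - t) ^ 2 - Qd γ s t := by
  have := D.chord s t
  have hc := D.hc
  rw [Qd, ← sq_abs (s - t)]
  have h2 := pow_le_pow_left₀ (by positivity) this 2
  rw [mul_pow] at h2
  linarith

/-- `y(z) = g1 (x + z) - g1 x` -/
lemma dy (x z : ℝ) : HasDerivAt (fun z => g1 (x + z) - g1 x) (g2 (x + z)) z := by
  have := (D.d1 (x + z)).comp_const_add x z
  simpa using this.sub_const (g1 x)

lemma y_le (x z : ℝ) : ‖g1 (x + z) - g1 x‖ ≤ K * |z| := by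
  have := mvt_pow (E := fun z => g1 (x + z) - g1 x) (E' := fun z => g2 (x + z)) (by simp)
    (D.dy x) 0 (fun z => by simpa using D.b2 _) z
  simpa using this

lemma y_le2 (x z : ℝ) : ‖g1 (x + z) - g1 x - z * g2 x‖ ≤ K * |z| ^ 2 := by
  have hd2 : ∀ z, HasDerivAt (fun z => g2 (x + z) - g2 x) (g3 (x + z)) z := fun z => by
    have := (D.d2 (x + z)).comp_const_add x z
    simpa using this.sub_const (g2 x)
  have h1 : ∀ z, ‖g2 (x + z) - g2 x‖ ≤ K * |z| ^ 1 := fun z =>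
    mvt_pow (E := fun z => g2 (x + z) - g2 x) (E' := fun z => g3 (x + z)) (by simp)
      hd2 0 (fun z => by simpa using D.b3 _) z
  refine mvt_pow (E := fun z : ℝ => g1 (x + z) - g1 x - z * g2 x)
    (E' := fun z => g2 (x + z) - g2 x) (by simp) (fun z => ?_) 1 h1 z
  have h3 : HasDerivAt (fun z : ℝ => (z : ℂ) * g2 x) (g2 x) z := by
    simpa using (Complex.ofRealCLM.hasDerivAt (x := z)).mul_const (g2 x)
  exact (D.dy x z).fun_sub h3

lemma y_le3 (x z : ℝ) : ‖g1 (x + z) - g1 x - z * g2 x - z ^ 2 / 2 * g3 x‖ ≤ K * |z| ^ 3 := by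
  have hd2 : ∀ z, HasDerivAt (fun z => g2 (x + z) - g2 x) (g3 (x + z)) z := fun z => by
    have := (D.d2 (x + z)).comp_const_add x z
    simpa using this.sub_const (g2 x)
  have hd3 : ∀ z, HasDerivAt (fun z => g3 (x + z) - g3 x) (g4 (x + z)) z := fun z => by
    have := (D.d3 (x + z)).comp_const_add x z
    simpa using this.sub_const (g3 x)
  have hz : ∀ z : ℝ, HasDerivAt (fun z : ℝ => (z : ℂ)) 1 z := fun z => by
    simpa using (hasDerivAt_id z).ofReal_comp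
  have h0 : ∀ z, ‖g3 (x + z) - g3 x‖ ≤ K * |z| ^ 1 := fun z =>
    mvt_pow (E := fun z => g3 (x + z) - g3 x) (E' := fun z => g4 (x + z)) (by simp)
      hd3 0 (fun z => by simpa using D.b4 _) z
  have h1 : ∀ z, ‖g2 (x + z) - g2 x - z * g3 x‖ ≤ K * |z| ^ 2 := by
    refine mvt_pow (E := fun z : ℝ => g2 (x + z) - g2 x - z * g3 x)
      (E' := fun z => g3 (x + z) - g3 x) (by simp) (fun z => ?_) 1 h0
    refine ((hd2 z).fun_sub ((hz z).mul_const (g3 x))).congr_deriv ?_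
    ring
  refine mvt_pow (E := fun z : ℝ => g1 (x + z) - g1 x - z * g2 x - z ^ 2 / 2 * g3 x)
    (E' := fun z => g2 (x + z) - g2 x - z * g3 x) (by simp) (fun z => ?_) 2 h1 z
  have h4 : HasDerivAt (fun z : ℝ => (z : ℂ) ^ 2 / 2 * g3 x) (z * g3 x) z := by
    have := (((hz z).fun_pow 2).div_const 2).mul_const (g3 x)
    refine this.congr_deriv ?_
    push_cast; ring
  refine (((D.dy x z).fun_sub ((hz z).mul_const (g2 x))).fun_sub h4).congr_deriv ?_
  ring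

/-- `2 ⟨g1 x, y⟩ = - ‖y‖²` -/
lemma inner_y (x z : ℝ) : 2 * ⟪g1 x, g1 (x + z) - g1 x⟫ = -‖g1 (x + z) - g1 x‖ ^ 2 := by
  have h1 := norm_add_sq_real (g1 x) (g1 (x + z) - g1 x)
  rw [add_sub_cancel, D.unit, D.unit] at h1
  linarith

/-- the function `J(h) = γ(x+h) - γ(x-h) - 2h g1(x)` -/
lemma dJ (x h : ℝ) : HasDerivAt (fun h : ℝ => γ (x + h) - γ (x + -h) - 2 * h * g1 x)
    ((g1 (x + h) - g1 x) + (g1 (x + -h) - g1 x)) h := by
  have e1 := (D.d0 (x + h)).comp_const_add x h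
  have e2 : HasDerivAt (fun h => γ (x + -h)) (-g1 (x + -h)) h := by
    have h5 := (D.d0 (x + -h)).comp_const_add x (-h)
    have h6 := h5.scomp h (hasDerivAt_neg h)
    simpa [Function.comp_def] using h6
  have hz : HasDerivAt (fun z : ℝ => 2 * (z : ℂ) * g1 x) (2 * g1 x) h := by
    have := ((Complex.ofRealCLM.hasDerivAt (x := h)).const_mul 2).mul_const (g1 x)
    simpa using this
  refine ((e1.fun_sub e2).fun_sub hz).congr_deriv ?_
  ring

lemma J_le (x h : ℝ) : ‖γ (x + h) - γ (x + -h) - 2 * h * g1 x‖ ≤ 2 * K * |h| ^ 3 := by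
  refine mvt_pow (E := fun h : ℝ => γ (x + h) - γ (x + -h) - 2 * h * g1 x)
    (by simp) (D.dJ x) 2 (fun z => ?_) h
  have h1 := D.y_le2 x z
  have h2 := D.y_le2 x (-z)
  rw [abs_neg] at h2
  have e : (g1 (x + z) - g1 x) + (g1 (x + -z) - g1 x)
      = (g1 (x + z) - g1 x - z * g2 x) + (g1 (x + -z) - g1 x - ((-z : ℝ) : ℂ) * g2 x) := by
    push_cast; ring
  rw [e]
  refine (norm_add_le _ _).trans ?_
  linarith

/-- the function `I(h) = -2 ⟨g1 x, J(h)⟩` -/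
lemma dI (x h : ℝ) :
    HasDerivAt (fun h : ℝ => -2 * ⟪g1 x, γ (x + h) - γ (x + -h) - 2 * h * g1 x⟫)
      (‖g1 (x + h) - g1 x‖ ^ 2 + ‖g1 (x + -h) - g1 x‖ ^ 2) h := by
  have h1 : HasDerivAt (fun h : ℝ => ⟪g1 x, γ (x + h) - γ (x + -h) - 2 * h * g1 x⟫)
      (⟪g1 x, (g1 (x + h) - g1 x) + (g1 (x + -h) - g1 x)⟫) h := by
    have := (innerSL ℝ (g1 x)).hasFDerivAt.comp_hasDerivAt h (D.dJ x h)
    exact this
  refine (h1.const_mul (-2)).congr_deriv ?_
  rw [inner_add_right]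
  have i1 := D.inner_y x h
  have i2 := D.inner_y x (-h)
  linarith

lemma I_nonneg_le (x h : ℝ) :
    |(-2 * ⟪g1 x, γ (x + h) - γ (x + -h) - 2 * h * g1 x⟫)| ≤ 2 * K ^ 2 * |h| ^ 3 := by
  refine mvt_pow_real (E := fun h : ℝ => -2 * ⟪g1 x, γ (x + h) - γ (x + -h) - 2 * h * g1 x⟫)
    (by simp) (D.dI x) 2 (fun z => ?_) h
  have h1 := pow_le_pow_left₀ (norm_nonneg _) (D.y_le x z) 2
  have h2 := pow_le_pow_left₀ (norm_nonneg _) (D.y_le x (-z)) 2
  rw [abs_neg] at h2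
  rw [abs_of_nonneg (by positivity)]
  rw [mul_pow] at h1 h2
  linarith

lemma I_approx (x h : ℝ) :
    |(-2 * ⟪g1 x, γ (x + h) - γ (x + -h) - 2 * h * g1 x⟫) - 2 / 3 * ‖g2 x‖ ^ 2 * h ^ 3|
      ≤ 6 * K ^ 2 * |h| ^ 5 := by
  have hKK := D.hK
  refine mvt_pow_real (E := fun h : ℝ => -2 * ⟪g1 x, γ (x + h) - γ (x + -h) - 2 * h * g1 x⟫
      - 2 / 3 * ‖g2 x‖ ^ 2 * h ^ 3)
    (E' := fun z => ‖g1 (x + z) - g1 x‖ ^ 2 + ‖g1 (x + -z) - g1 x‖ ^ 2 - 2 * ‖g2 x‖ ^ 2 * z ^ 2)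
    (by simp) (fun z => ?_) 4 (fun z => ?_) h
  · have h1 : HasDerivAt (fun z : ℝ => 2 / 3 * ‖g2 x‖ ^ 2 * z ^ 3) (2 * ‖g2 x‖ ^ 2 * z ^ 2) z := by
      refine ((hasDerivAt_pow 3 z).const_mul (2 / 3 * ‖g2 x‖ ^ 2)).congr_deriv ?_
      push_cast; ring
    exact (D.dI x z).fun_sub h1
  · set p := g1 (x + z) - g1 x - z * g2 x with hp
    set q := g1 (x + -z) - g1 x - ((-z : ℝ) : ℂ) * g2 x with hq
    have h1 : ‖p‖ ≤ K * |z| ^ 2 := D.y_le2 x z
    have h2 : ‖q‖ ≤ K * |z| ^ 2 := by have := D.y_le2 x (-z); rwa [abs_neg] at this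
    have h3 : ‖p - q‖ ≤ 2 * K * |z| ^ 3 := by
      have a1 := D.y_le3 x z
      have a2 := D.y_le3 x (-z)
      rw [abs_neg] at a2
      have e : p - q = (g1 (x + z) - g1 x - z * g2 x - z ^ 2 / 2 * g3 x)
          - (g1 (x + -z) - g1 x - ((-z : ℝ) : ℂ) * g2 x - ((-z : ℝ) : ℂ) ^ 2 / 2 * g3 x) := by
        rw [hp, hq]; push_cast; ring
      rw [e]
      refine (norm_sub_le _ _).trans ?_
      linarith
    have e1 : g1 (x + z) - g1 x = (z * g2 x) + p := by rw [hp]; ring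
    have e2 : g1 (x + -z) - g1 x = -(z * g2 x) + q := by rw [hq]; push_cast; ring
    have n1 := norm_add_sq_real ((z:ℂ) * g2 x) p
    have n2 := norm_add_sq_real (-((z:ℂ) * g2 x)) q
    rw [norm_neg, inner_neg_left] at n2
    have n3 : ‖(z:ℂ) * g2 x‖ ^ 2 = ‖g2 x‖ ^ 2 * z ^ 2 := by
      rw [norm_mul, Complex.norm_real, mul_pow, Real.norm_eq_abs, sq_abs]; ring
    rw [e1, e2, n1, n2, n3]
    clear_value p q
    have e3 : ‖g2 x‖ ^ 2 * z ^ 2 + 2 * ⟪(z:ℂ) * g2 x, p⟫ + ‖p‖ ^ 2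
        + (‖g2 x‖ ^ 2 * z ^ 2 + 2 * -⟪(z:ℂ) * g2 x, q⟫ + ‖q‖ ^ 2) - 2 * ‖g2 x‖ ^ 2 * z ^ 2
        = 2 * ⟪(z:ℂ) * g2 x, p - q⟫ + ‖p‖ ^ 2 + ‖q‖ ^ 2 := by
      rw [inner_sub_right]; ring
    rw [e3]
    have h4 : |⟪(z:ℂ) * g2 x, p - q⟫| ≤ K * |z| * (2 * K * |z| ^ 3) := by
      refine (abs_real_inner_le_norm _ _).trans ?_
      have : ‖(z:ℂ) * g2 x‖ ≤ K * |z| := by
        rw [norm_mul, Complex.norm_real, Real.norm_eq_abs, mul_comm]
        exact mul_le_mul_of_nonneg_right (D.b2 x) (abs_nonneg z)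
      exact mul_le_mul this h3 (norm_nonneg _) (by positivity)
    have h5 := pow_le_pow_left₀ (norm_nonneg _) h1 2
    have h6 := pow_le_pow_left₀ (norm_nonneg _) h2 2
    have h7 : (K * |z| ^ 2) ^ 2 = K ^ 2 * |z| ^ 4 := by ring
    have h8 : K * |z| * (2 * K * |z| ^ 3) = 2 * K ^ 2 * |z| ^ 4 := by ring
    rw [h7] at h5 h6
    rw [h8] at h4
    have h9 := abs_le.1 h4
    rw [abs_le]
    constructor
    · have := sq_nonneg ‖p‖
      have := sq_nonneg ‖q‖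
      have : 0 ≤ K ^ 2 * |z| ^ 4 := by positivity
      linarith [h9.1]
    · linarith [h9.2]

/-- the formula `Q = 2 h I - ‖J‖²` -/
lemma Q_formula (x h : ℝ) : Qd γ (x + h) (x + -h)
    = 2 * h * (-2 * ⟪g1 x, γ (x + h) - γ (x + -h) - 2 * h * g1 x⟫)
      - ‖γ (x + h) - γ (x + -h) - 2 * h * g1 x‖ ^ 2 := by
  set J := γ (x + h) - γ (x + -h) - 2 * h * g1 x with hJ
  have e : γ (x + h) - γ (x + -h) = ((2 * h : ℝ) : ℂ) * g1 x + J := by rw [hJ]; push_cast; ring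
  rw [Qd, e, norm_add_sq_real]
  have h1 : ‖((2 * h : ℝ) : ℂ) * g1 x‖ = |2 * h| := by
    rw [norm_mul, D.unit, mul_one, Complex.norm_real, Real.norm_eq_abs]
  have h2 : ⟪((2 * h : ℝ) : ℂ) * g1 x, J⟫ = 2 * h * ⟪g1 x, J⟫ := by
    have : ((2 * h : ℝ) : ℂ) * g1 x = (2 * h : ℝ) • g1 x := by rw [Complex.real_smul]
    rw [this, real_inner_smul_left]
  rw [h1, h2, sq_abs]
  ring

lemma Q_le_mid (x h : ℝ) : Qd γ (x + h) (x + -h) ≤ 4 * K ^ 2 * h ^ 4 := by
  rw [D.Q_formula]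
  have h1 := D.I_nonneg_le x h
  set I := (-2 * ⟪g1 x, γ (x + h) - γ (x + -h) - 2 * h * g1 x⟫)
  have h2 : 2 * h * I ≤ 2 * |h| * |I| := by
    have := le_abs_self (2 * h * I)
    rw [abs_mul, abs_mul, abs_two] at this
    exact this
  have h3 : 2 * |h| * |I| ≤ 2 * |h| * (2 * K ^ 2 * |h| ^ 3) := by gcongr
  have h4 : 2 * |h| * (2 * K ^ 2 * |h| ^ 3) = 4 * K ^ 2 * h ^ 4 := by
    rw [show h ^ 4 = |h| ^ 4 by rw [Even.pow_abs (by decide)]]; ring
  have := sq_nonneg ‖γ (x + h) - γ (x + -h) - 2 * h * g1 x‖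
  linarith

lemma Q_approx_mid (x h : ℝ) :
    |Qd γ (x + h) (x + -h) - 4 / 3 * ‖g2 x‖ ^ 2 * h ^ 4| ≤ 16 * K ^ 2 * h ^ 6 := by
  rw [D.Q_formula]
  have h1 := D.I_approx x h
  have h2 := pow_le_pow_left₀ (norm_nonneg _) (D.J_le x h) 2
  set I := (-2 * ⟪g1 x, γ (x + h) - γ (x + -h) - 2 * h * g1 x⟫)
  set J := ‖γ (x + h) - γ (x + -h) - 2 * h * g1 x‖
  have e : 2 * h * I - J ^ 2 - 4 / 3 * ‖g2 x‖ ^ 2 * h ^ 4
      = 2 * h * (I - 2 / 3 * ‖g2 x‖ ^ 2 * h ^ 3) - J ^ 2 := by ring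
  rw [e]
  have h3 : |2 * h * (I - 2 / 3 * ‖g2 x‖ ^ 2 * h ^ 3)| ≤ 2 * |h| * (6 * K ^ 2 * |h| ^ 5) := by
    rw [abs_mul, abs_mul, abs_two]
    gcongr
  have h4 : 2 * |h| * (6 * K ^ 2 * |h| ^ 5) = 12 * K ^ 2 * h ^ 6 := by
    rw [show h ^ 6 = |h| ^ 6 by rw [Even.pow_abs (by decide)]]; ring
  have h5 : (2 * K * |h| ^ 3) ^ 2 = 4 * K ^ 2 * h ^ 6 := by
    rw [show h ^ 6 = |h| ^ 6 by rw [Even.pow_abs (by decide)]]; ring
  rw [h4] at h3
  rw [h5] at h2
  have h6 := abs_le.1 h3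
  rw [abs_le]
  have := sq_nonneg J
  have : 0 ≤ K ^ 2 * h ^ 6 := by positivity
  constructor <;> linarith [h6.1, h6.2]

lemma Q_le (s t : ℝ) : Qd γ s t ≤ K ^ 2 / 4 * (s - t) ^ 4 := by
  have := D.Q_le_mid ((s + t) / 2) ((s - t) / 2)
  rw [show (s + t) / 2 + (s - t) / 2 = s by ring, show (s + t) / 2 + -((s - t) / 2) = t by ring] at this
  refine this.trans (le_of_eq ?_)
  ring

lemma Q_approx (s t : ℝ) :
    |Qd γ s t - ‖g2 ((s + t) / 2)‖ ^ 2 * (s - t) ^ 4 / 12| ≤ K ^ 2 / 4 * (s - t) ^ 6 := by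
  have := D.Q_approx_mid ((s + t) / 2) ((s - t) / 2)
  rw [show (s + t) / 2 + (s - t) / 2 = s by ring, show (s + t) / 2 + -((s - t) / 2) = t by ring] at this
  refine (le_of_eq ?_).trans (this.trans (le_of_eq ?_))
  · congr 1; ring
  · ring

lemma g1_right {s : ℝ} (hs : R ≤ s) : g1 s = g1 R := by
  have h := Convex.norm_image_sub_le_of_norm_hasDerivWithin_le (f := g1)
    (f' := g2) (s := Ici R) (C := 0) (x := R) (y := s)
    (fun x _ => (D.d1 x).hasDerivWithinAt)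
    (fun x hx => by
      rw [D.supp x (le_trans (show R ≤ x from hx) (le_abs_self x))]; simp)
    (convex_Ici R) self_mem_Ici hs
  have h2 : ‖g1 s - g1 R‖ ≤ 0 := by simpa using h
  exact sub_eq_zero.1 (norm_le_zero_iff.1 h2)

lemma g1_left {s : ℝ} (hs : s ≤ -R) : g1 s = g1 (-R) := by
  have h := Convex.norm_image_sub_le_of_norm_hasDerivWithin_le (f := g1)
    (f' := g2) (s := Iic (-R)) (C := 0) (x := -R) (y := s)
    (fun x _ => (D.d1 x).hasDerivWithinAt)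
    (fun x hx => by
      have hx' : x ≤ -R := hx
      rw [D.supp x (by rw [le_abs]; right; linarith)]; simp)
    (convex_Iic (-R)) self_mem_Iic hs
  have h2 : ‖g1 s - g1 (-R)‖ ≤ 0 := by simpa using h
  exact sub_eq_zero.1 (norm_le_zero_iff.1 h2)

lemma γ_right {s : ℝ} (hs : R ≤ s) : γ s = γ R + (s - R : ℝ) * g1 R := by
  have h := Convex.norm_image_sub_le_of_norm_hasDerivWithin_le (f := fun s => γ s - (s - R : ℝ) * g1 R)
    (f' := fun s => g1 s - g1 R) (s := Ici R) (C := 0) (x := R) (y := s)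
    (fun x _ => by
      have h1 : HasDerivAt (fun s : ℝ => ((s - R : ℝ) : ℂ) * g1 R) (g1 R) x := by
        have := (((hasDerivAt_id x).sub_const R).ofReal_comp).mul_const (g1 R)
        simpa using this
      exact ((D.d0 x).fun_sub h1).hasDerivWithinAt)
    (fun x hx => by rw [D.g1_right hx]; simp)
    (convex_Ici R) self_mem_Ici hs
  have h2 : ‖(γ s - (s - R : ℝ) * g1 R) - (γ R - (R - R : ℝ) * g1 R)‖ ≤ 0 := by simpa using h
  have h3 := sub_eq_zero.1 (norm_le_zero_iff.1 h2)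
  have : (((R - R : ℝ) : ℂ)) = 0 := by simp
  rw [this] at h3
  linear_combination h3

lemma γ_left {s : ℝ} (hs : s ≤ -R) : γ s = γ (-R) + (s + R : ℝ) * g1 (-R) := by
  have h := Convex.norm_image_sub_le_of_norm_hasDerivWithin_le (f := fun s => γ s - (s + R : ℝ) * g1 (-R))
    (f' := fun s => g1 s - g1 (-R)) (s := Iic (-R)) (C := 0) (x := -R) (y := s)
    (fun x _ => by
      have h1 : HasDerivAt (fun s : ℝ => ((s + R : ℝ) : ℂ) * g1 (-R)) (g1 (-R)) x := by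
        have := (((hasDerivAt_id x).add_const R).ofReal_comp).mul_const (g1 (-R))
        simpa using this
      exact ((D.d0 x).fun_sub h1).hasDerivWithinAt)
    (fun x hx => by rw [D.g1_left hx]; simp)
    (convex_Iic (-R)) self_mem_Iic hs
  have h2 : ‖(γ s - (s + R : ℝ) * g1 (-R)) - (γ (-R) - (-R + R : ℝ) * g1 (-R))‖ ≤ 0 := by simpa using h
  have h3 := sub_eq_zero.1 (norm_le_zero_iff.1 h2)
  have : (((-R + R : ℝ) : ℂ)) = 0 := by simp
  rw [this] at h3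
  linear_combination h3

lemma Q_zero_right {s t : ℝ} (hs : R ≤ s) (ht : R ≤ t) : Qd γ s t = 0 := by
  rw [Qd, D.γ_right hs, D.γ_right ht]
  have : γ R + (s - R : ℝ) * g1 R - (γ R + (t - R : ℝ) * g1 R) = ((s - t : ℝ) : ℂ) * g1 R := by
    push_cast; ring
  rw [this, norm_mul, D.unit, mul_one, Complex.norm_real, Real.norm_eq_abs, sq_abs, sub_self]

lemma Q_zero_left {s t : ℝ} (hs : s ≤ -R) (ht : t ≤ -R) : Qd γ s t = 0 := by
  rw [Qd, D.γ_left hs, D.γ_left ht]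
  have : γ (-R) + (s + R : ℝ) * g1 (-R) - (γ (-R) + (t + R : ℝ) * g1 (-R))
      = ((s - t : ℝ) : ℂ) * g1 (-R) := by
    push_cast; ring
  rw [this, norm_mul, D.unit, mul_one, Complex.norm_real, Real.norm_eq_abs, sq_abs, sub_self]

lemma supp_cases (s t : ℝ) : Qd γ s t = 0 ∨ (|s| ≤ R + |s - t| ∧ |t| ≤ R + |s - t|) := by
  by_cases h1 : R ≤ s ∧ R ≤ t
  · left; exact D.Q_zero_right h1.1 h1.2
  by_cases h2 : s ≤ -R ∧ t ≤ -R
  · left; exact D.Q_zero_left h2.1 h2.2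
  right
  have hR := D.hR
  rw [not_and_or, not_le, not_le] at h1 h2
  have h3 : |s| ≤ |t| + |s - t| := by
    have := abs_add_le t (s - t)
    simpa using this
  have h4 : |t| ≤ |s| + |s - t| := by
    have := abs_sub_abs_le_abs_sub t s
    rw [abs_sub_comm] at this
    linarith
  rcases h1 with h1 | h1 <;> rcases h2 with h2 | h2
  · have : |s| ≤ R := abs_le.2 ⟨h2.le, h1.le⟩
    constructor
    · linarith [abs_nonneg (s - t)]
    · linarith
  · -- s < R, -R < t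
    by_cases h5 : t ≤ R
    · have : |t| ≤ R := abs_le.2 ⟨h2.le, h5⟩
      constructor
      · linarith
      · linarith [abs_nonneg (s - t)]
    · push Not at h5
      by_cases h6 : -R ≤ s
      · have : |s| ≤ R := abs_le.2 ⟨h6, h1.le⟩
        constructor
        · linarith [abs_nonneg (s - t)]
        · linarith
      · push Not at h6
        have a1 : |s - t| = t - s := by rw [abs_of_nonpos (by linarith)]; ring
        have a2 : |t| = t := abs_of_nonneg (by linarith)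
        have a3 : |s| = -s := abs_of_nonpos (by linarith)
        rw [a1, a2, a3]
        constructor <;> linarith
  · -- t < R, -R < s
    by_cases h5 : s ≤ R
    · have : |s| ≤ R := abs_le.2 ⟨h2.le, h5⟩
      constructor
      · linarith [abs_nonneg (s - t)]
      · linarith
    · push Not at h5
      by_cases h6 : -R ≤ t
      · have : |t| ≤ R := abs_le.2 ⟨h6, h1.le⟩
        constructor
        · linarith
        · linarith [abs_nonneg (s - t)]
      · push Not at h6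
        have a1 : |s - t| = s - t := abs_of_nonneg (by linarith)
        have a2 : |t| = -t := abs_of_nonpos (by linarith)
        have a3 : |s| = s := abs_of_nonneg (by linarith)
        rw [a1, a2, a3]
        constructor <;> linarith
  · have : |t| ≤ R := abs_le.2 ⟨h2.le, h1.le⟩
    constructor
    · linarith
    · linarith [abs_nonneg (s - t)]

lemma supp_mid (s t : ℝ) : g2 ((s + t) / 2) = 0 ∨ (|s| ≤ R + |s - t| ∧ |t| ≤ R + |s - t|) := by
  by_cases h : R ≤ |(s + t) / 2|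
  · left; exact D.supp _ h
  right
  push Not at h
  have h1 : |s| ≤ |(s + t) / 2| + |(s - t) / 2| := by
    have := abs_add_le ((s + t) / 2) ((s - t) / 2)
    rwa [show (s + t) / 2 + (s - t) / 2 = s by ring] at this
  have h2 : |t| ≤ |(s + t) / 2| + |(s - t) / 2| := by
    have := abs_sub ((s + t) / 2) ((s - t) / 2)
    rwa [show (s + t) / 2 - (s - t) / 2 = t by ring] at this
  have h3 : |(s - t) / 2| = |s - t| / 2 := by rw [abs_div, abs_two]
  rw [h3] at h1 h2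
  have := abs_nonneg (s - t)
  constructor <;> linarith

end Data

end Pool.Agent.Helper97.Scat
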