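import Pool.Agent.Helper97.Scat.Line

/-!
# Single layer potentials of curves
-/

open MeasureTheory Filter Topology Set Real

namespace Pool.Agent.Helper97.Scat

/-- the single layer potential -/
noncomputable def lay (m : ℝ) (γ : ℝ → ℂ) (f : ℝ → ℂ) (x : ℂ) : ℂ :=
  ∫ t, (gk m (‖x - γ t‖ ^ 2) : ℂ) * f t

/-- nearest point property of the two halves of the curve -/
def Near (γ : ℝ → ℂ) (c : ℝ) : Prop :=
  ∀ x : ℂ, ∃ s₁ s₂ : ℝ, ∀ t : ℝ, (0 ≤ t → c * |t - s₁| ≤ ‖x - γ t‖) ∧ (t ≤ 0 → c * |t - s₂| ≤ ‖x - γ t‖)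

/-- squared form -/
lemma Near.sq {γ : ℝ → ℂ} {c : ℝ} (h : Near γ c) (hc : 0 < c) (x : ℂ) :
    ∃ s₁ s₂ : ℝ, ∀ t : ℝ, c ^ 2 * (t - s₁) ^ 2 ≤ ‖x - γ t‖ ^ 2 ∨ c ^ 2 * (t - s₂) ^ 2 ≤ ‖x - γ t‖ ^ 2 := by
  obtain ⟨s₁, s₂, hs⟩ := h x
  refine ⟨s₁, s₂, fun t => ?_⟩
  have key : ∀ s : ℝ, c * |t - s| ≤ ‖x - γ t‖ → c ^ 2 * (t - s) ^ 2 ≤ ‖x - γ t‖ ^ 2 := by
    intro s h1
    have h2 := pow_le_pow_left₀ (by positivity) h1 2
    rwa [mul_pow, sq_abs] at h2
  rcases le_total 0 t with ht | ht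
  · exact Or.inl (key _ ((hs t).1 ht))
  · exact Or.inr (key _ ((hs t).2 ht))

section gen
variable {m c r₁ r₂ M : ℝ} {ρ : ℝ → ℝ} {F : ℝ → ℂ}

lemma hk_le_two {z σ : ℝ} (hσ : 0 < σ) {r : ℝ} (h : c ^ 2 * (r - r₁) ^ 2 ≤ z ∨ c ^ 2 * (r - r₂) ^ 2 ≤ z) :
    hk m z σ ≤ hk m (c ^ 2 * (r - r₁) ^ 2) σ + hk m (c ^ 2 * (r - r₂) ^ 2) σ := by
  have h1 := hk_nonneg m (c ^ 2 * (r - r₁) ^ 2) hσ
  have h2 := hk_nonneg m (c ^ 2 * (r - r₂) ^ 2) hσ
  rcases h with h | h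
  · linarith [hk_anti m hσ h]
  · linarith [hk_anti m hσ h]

lemma hk_prod_two (hm : 0 < m) (hc : 0 < c) (hρm : Measurable ρ)
    (hρ : ∀ r, c ^ 2 * (r - r₁) ^ 2 ≤ ρ r ∨ c ^ 2 * (r - r₂) ^ 2 ≤ ρ r)
    (hF : AEStronglyMeasurable F volume) (hM : ∀ r, ‖F r‖ ≤ M) :
    Integrable (fun p : ℝ × ℝ => (hk m (ρ p.2) p.1 : ℂ) * F p.2)
      ((volume.restrict (Ioi 0)).prod volume) := by
  have h := ((hk_prod hm hc r₁).add (hk_prod hm hc r₂)).mul_const M
  refine Integrable.mono' h ?_ ?_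
  · refine AEStronglyMeasurable.mul ?_ hF.comp_snd
    exact (Complex.measurable_ofReal.comp
      ((measurable_hk m).comp (measurable_fst.prodMk (hρm.comp measurable_snd)))).aestronglyMeasurable
  · have : ∀ᵐ p : ℝ × ℝ ∂((volume.restrict (Ioi (0:ℝ))).prod volume), 0 < p.1 := by
      have := (Measure.quasiMeasurePreserving_fst (μ := (volume : Measure ℝ).restrict (Ioi (0:ℝ)))
        (ν := (volume : Measure ℝ))).ae (ae_restrict_mem measurableSet_Ioi)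
      exact this
    filter_upwards [this] with p hp
    rw [norm_mul, Complex.norm_real, Real.norm_of_nonneg (hk_nonneg _ _ hp)]
    have h1 := hk_nonneg m (c ^ 2 * (p.2 - r₁) ^ 2) hp
    have h2 := hk_nonneg m (c ^ 2 * (p.2 - r₂) ^ 2) hp
    exact mul_le_mul (hk_le_two hp (hρ p.2)) (hM _) (norm_nonneg _) (by simp only [Pi.add_apply]; linarith)

lemma gk_integrable_two (hm : 0 < m) (hc : 0 < c) (hρm : Measurable ρ)
    (hρ : ∀ r, c ^ 2 * (r - r₁) ^ 2 ≤ ρ r ∨ c ^ 2 * (r - r₂) ^ 2 ≤ ρ r)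
    (hF : AEStronglyMeasurable F volume) (hM : ∀ r, ‖F r‖ ≤ M) :
    Integrable (fun r => (gk m (ρ r) : ℂ) * F r) := by
  have := (hk_prod_two hm hc hρm hρ hF hM).integral_prod_right
  refine this.congr (Eventually.of_forall fun r => ?_)
  simp only
  rw [integral_mul_const, gk, integral_complex_ofReal]

lemma gk_fubini_two (hm : 0 < m) (hc : 0 < c) (hρm : Measurable ρ)
    (hρ : ∀ r, c ^ 2 * (r - r₁) ^ 2 ≤ ρ r ∨ c ^ 2 * (r - r₂) ^ 2 ≤ ρ r)
    (hF : AEStronglyMeasurable F volume) (hM : ∀ r, ‖F r‖ ≤ M) :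
    ∫ r, (gk m (ρ r) : ℂ) * F r = ∫ σ in Ioi (0:ℝ), ∫ r, (hk m (ρ r) σ : ℂ) * F r := by
  rw [integral_integral_swap (hk_prod_two hm hc hρm hρ hF hM)]
  refine integral_congr_ae (Eventually.of_forall fun r => ?_)
  simp only
  rw [integral_mul_const, gk, integral_complex_ofReal]

lemma hk_slice_bound (hc : 0 < c)
    (hρ : ∀ r, c ^ 2 * (r - r₁) ^ 2 ≤ ρ r ∨ c ^ 2 * (r - r₂) ^ 2 ≤ ρ r)
    (hM : ∀ r, ‖F r‖ ≤ M) {σ : ℝ} (hσ : 0 < σ) :
    ‖∫ r, (hk m (ρ r) σ : ℂ) * F r‖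
      ≤ 2 * M * (Real.exp (-(m ^ 2 * σ ^ 2) - 0 / (4 * σ ^ 2)) / (c * √π)) := by
  have i1 := hk_integrable_r m hc r₁ 0 hσ
  have i2 := hk_integrable_r m hc r₂ 0 hσ
  calc ‖∫ r, (hk m (ρ r) σ : ℂ) * F r‖
      ≤ ∫ r, (hk m (c ^ 2 * (r - r₁) ^ 2 + 0) σ + hk m (c ^ 2 * (r - r₂) ^ 2 + 0) σ) * M := by
        refine norm_integral_le_of_norm_le ((i1.add i2).mul_const M) (Eventually.of_forall fun r => ?_)
        rw [norm_mul, Complex.norm_real, Real.norm_of_nonneg (hk_nonneg _ _ hσ)]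
        simp only [add_zero]
        have h1 := hk_nonneg m (c ^ 2 * (r - r₁) ^ 2) hσ
        have h2 := hk_nonneg m (c ^ 2 * (r - r₂) ^ 2) hσ
        exact mul_le_mul (hk_le_two hσ (hρ r)) (hM _) (norm_nonneg _) (by linarith)
    _ = _ := by
        rw [integral_mul_const, integral_add i1 i2, hk_integral_r m hc r₁ 0 hσ,
          hk_integral_r m hc r₂ 0 hσ]
        ring

lemma gk_bound_two (hm : 0 < m) (hc : 0 < c)
    (hρ : ∀ r, c ^ 2 * (r - r₁) ^ 2 ≤ ρ r ∨ c ^ 2 * (r - r₂) ^ 2 ≤ ρ r)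
    (hM : ∀ r, ‖F r‖ ≤ M) :
    ‖∫ r, (gk m (ρ r) : ℂ) * F r‖ ≤ M / (m * c) := by
  have h1 : ∀ᵐ r : ℝ, r ≠ r₁ := by simp [ae_iff, measure_singleton]
  have h2 : ∀ᵐ r : ℝ, r ≠ r₂ := by simp [ae_iff, measure_singleton]
  calc ‖∫ r, (gk m (ρ r) : ℂ) * F r‖
      ≤ ∫ r, (gk m (c ^ 2 * (r - r₁) ^ 2) + gk m (c ^ 2 * (r - r₂) ^ 2)) * M := by
        refine norm_integral_le_of_norm_le (((gk_integrable_real hm hc r₁).add
          (gk_integrable_real hm hc r₂)).mul_const M) ?_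
        filter_upwards [h1, h2] with r hr1 hr2
        rw [norm_mul, Complex.norm_real, Real.norm_of_nonneg (gk_nonneg _ _)]
        have p1 : 0 < c ^ 2 * (r - r₁) ^ 2 := by
          have : r - r₁ ≠ 0 := sub_ne_zero.2 hr1
          positivity
        have p2 : 0 < c ^ 2 * (r - r₂) ^ 2 := by
          have : r - r₂ ≠ 0 := sub_ne_zero.2 hr2
          positivity
        have g1 := gk_nonneg m (c ^ 2 * (r - r₁) ^ 2)
        have g2 := gk_nonneg m (c ^ 2 * (r - r₂) ^ 2)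
        refine mul_le_mul ?_ (hM r) (norm_nonneg _) (by linarith)
        rcases hρ r with h | h
        · linarith [gk_anti hm p1 h]
        · linarith [gk_anti hm p2 h]
    _ = M / (m * c) := by
        rw [integral_mul_const, integral_add (gk_integrable_real hm hc r₁)
          (gk_integrable_real hm hc r₂), gk_integral hm hc, gk_integral hm hc]
        field_simp
        ring

end gen

section layer
variable {m c M : ℝ} {γ f : ℝ → ℂ}

lemma lay_meas (hγ : Continuous γ) (x : ℂ) : Measurable (fun t => ‖x - γ t‖ ^ 2) :=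
  (by fun_prop : Continuous fun t => ‖x - γ t‖ ^ 2).measurable

lemma lay_integrable (hm : 0 < m) (hc : 0 < c) (hγ : Continuous γ) (hN : Near γ c)
    (hf : AEStronglyMeasurable f volume) (hM : ∀ s, ‖f s‖ ≤ M) (x : ℂ) :
    Integrable (fun t => (gk m (‖x - γ t‖ ^ 2) : ℂ) * f t) := by
  obtain ⟨s₁, s₂, hs⟩ := hN.sq hc x
  exact gk_integrable_two hm hc (lay_meas hγ x) hs hf hM

lemma lay_bdd (hm : 0 < m) (hc : 0 < c) (hN : Near γ c) (hM : ∀ s, ‖f s‖ ≤ M) (x : ℂ) :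
    ‖lay m γ f x‖ ≤ M / (m * c) := by
  obtain ⟨s₁, s₂, hs⟩ := hN.sq hc x
  exact gk_bound_two hm hc hs hM

lemma slice_continuous (hc : 0 < c) (hγ : Continuous γ) (hN : Near γ c)
    (hf : AEStronglyMeasurable f volume) (hM : ∀ s, ‖f s‖ ≤ M) {σ : ℝ} (hσ : 0 < σ) :
    Continuous (fun x => ∫ t, (hk m (‖x - γ t‖ ^ 2) σ : ℂ) * f t) := by
  have hM0 : 0 ≤ M := (norm_nonneg _).trans (hM 0)
  rw [continuous_iff_continuousAt]
  intro x₀
  obtain ⟨s₁, s₂, hs⟩ := hN.sq hc x₀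
  set c' := c / 2 with hc'
  have hc'0 : 0 < c' := by positivity
  -- dominating function
  set B : ℝ → ℝ := fun t => Real.exp (1 / (4 * σ ^ 2)) * ((hk m (c' ^ 2 * (t - s₁) ^ 2 + 0) σ
    + hk m (c' ^ 2 * (t - s₂) ^ 2 + 0) σ) * M) with hB
  have iB : Integrable B :=
    (((hk_integrable_r m hc'0 s₁ 0 hσ).add (hk_integrable_r m hc'0 s₂ 0 hσ)).mul_const M).const_mul _
  refine tendsto_integral_filter_of_dominated_convergence B ?_ ?_ iB ?_
  · refine Eventually.of_forall fun x => ?_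
    refine AEStronglyMeasurable.mul ?_ hf
    exact (Complex.measurable_ofReal.comp ((measurable_hk m).comp
      (measurable_const.prodMk (lay_meas hγ x)))).aestronglyMeasurable
  · filter_upwards [Metric.ball_mem_nhds x₀ one_pos] with x hx
    refine Eventually.of_forall fun t => ?_
    rw [norm_mul, Complex.norm_real, Real.norm_of_nonneg (hk_nonneg _ _ hσ)]
    have hx1 : ‖x - x₀‖ < 1 := by rwa [mem_ball_iff_norm] at hx
    have h1 : ‖x₀ - γ t‖ ^ 2 / 2 - 1 ≤ ‖x - γ t‖ ^ 2 := by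
      have h2 : ‖x₀ - γ t‖ ≤ ‖x - x₀‖ + ‖x - γ t‖ := by
        have := norm_add_le (x₀ - x) (x - γ t)
        rw [sub_add_sub_cancel, norm_sub_rev x₀ x] at this
        exact this
      have h3 := norm_nonneg (x₀ - γ t)
      have h4 := norm_nonneg (x - x₀)
      have h5 := norm_nonneg (x - γ t)
      nlinarith [sq_nonneg (‖x - x₀‖ - ‖x - γ t‖)]
    have h2 : c' ^ 2 * (t - s₁) ^ 2 ≤ ‖x - γ t‖ ^ 2 + 1 ∨ c' ^ 2 * (t - s₂) ^ 2 ≤ ‖x - γ t‖ ^ 2 + 1 := by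
      rcases hs t with h | h
      · left
        rw [hc']
        nlinarith [mul_nonneg (sq_nonneg c) (sq_nonneg (t - s₁))]
      · right
        rw [hc']
        nlinarith [mul_nonneg (sq_nonneg c) (sq_nonneg (t - s₂))]
    have h3 : hk m (‖x - γ t‖ ^ 2) σ = Real.exp (1 / (4 * σ ^ 2)) * hk m (‖x - γ t‖ ^ 2 + 1) σ := by
      rw [hk, hk, ← mul_div_assoc, ← Real.exp_add]
      congr 2
      ring
    rw [h3, hB]
    simp only [add_zero]
    rw [mul_assoc]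
    have q1 := hk_nonneg m (c' ^ 2 * (t - s₁) ^ 2) hσ
    have q2 := hk_nonneg m (c' ^ 2 * (t - s₂) ^ 2) hσ
    exact mul_le_mul_of_nonneg_left (mul_le_mul (hk_le_two hσ h2) (hM t) (norm_nonneg _)
      (by linarith)) (Real.exp_pos _).le
  · refine Eventually.of_forall fun t => ?_
    have hcont : Continuous (fun x : ℂ => (hk m (‖x - γ t‖ ^ 2) σ : ℂ) * f t) := by
      unfold hk
      fun_prop
    exact hcont.tendsto x₀

lemma lay_continuous (hm : 0 < m) (hc : 0 < c) (hγ : Continuous γ) (hN : Near γ c)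
    (hf : AEStronglyMeasurable f volume) (hM : ∀ s, ‖f s‖ ≤ M) : Continuous (lay m γ f) := by
  have e : lay m γ f = fun x => ∫ σ in Ioi (0:ℝ), ∫ t, (hk m (‖x - γ t‖ ^ 2) σ : ℂ) * f t := by
    ext x
    obtain ⟨s₁, s₂, hs⟩ := hN.sq hc x
    exact gk_fubini_two hm hc (lay_meas hγ x) hs hf hM
  rw [e]
  have iB : IntegrableOn (fun σ : ℝ => 2 * M * (Real.exp (-(m ^ 2 * σ ^ 2) - 0 / (4 * σ ^ 2))
      / (c * √π))) (Ioi 0) := ((exp_integrableOn hm le_rfl).div_const _).const_mul _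
  refine continuous_of_dominated (fun x => ?_) (fun x => ?_) iB ?_
  · obtain ⟨s₁, s₂, hs⟩ := hN.sq hc x
    exact (hk_prod_two hm hc (lay_meas hγ x) hs hf hM).integral_prod_left.1
  · refine (ae_restrict_iff' measurableSet_Ioi).2 (Eventually.of_forall fun σ hσ => ?_)
    obtain ⟨s₁, s₂, hs⟩ := hN.sq hc x
    exact hk_slice_bound hc hs hM hσ
  · refine (ae_restrict_iff' measurableSet_Ioi).2 (Eventually.of_forall fun σ hσ => ?_)
    exact slice_continuous hc hγ hN hf hM hσ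

end layer

/-- nearest point property from the chord-arc property of the halves -/
lemma near_of_chord {γ : ℝ → ℂ} {c : ℝ} (hγ : Continuous γ) (hc : 0 < c)
    (h : ∀ s t : ℝ, 0 ≤ s → 0 ≤ t → c * |s - t| ≤ ‖γ s - γ t‖)
    (h' : ∀ s t : ℝ, s ≤ 0 → t ≤ 0 → c * |s - t| ≤ ‖γ s - γ t‖) : Near γ (c / 2) := by
  intro x
  -- generic half
  have half : ∀ β : ℝ → ℂ, Continuous β → (∀ s t : ℝ, 0 ≤ s → 0 ≤ t → c * |s - t| ≤ ‖β s - β t‖) →
      ∃ s₀ : ℝ, ∀ t, 0 ≤ t → c / 2 * |t - s₀| ≤ ‖x - β t‖ := by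
    intro β hβ hch
    have hcoer : Tendsto (fun s : ℝ => ‖x - β |s|‖) (cocompact ℝ) atTop := by
      rw [← Metric.cobounded_eq_cocompact]
      have h1 : Tendsto (fun s : ℝ => c * ‖s‖ - ‖x - β 0‖) (Bornology.cobounded ℝ) atTop :=
        tendsto_atTop_add_const_right _ _ (tendsto_norm_cobounded_atTop.const_mul_atTop hc)
      refine tendsto_atTop_mono (fun s => ?_) h1
      have h2 := hch |s| 0 (abs_nonneg s) le_rfl
      rw [sub_zero, abs_abs] at h2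
      have h3 : ‖β |s| - β 0‖ ≤ ‖x - β |s|‖ + ‖x - β 0‖ := by
        have := norm_sub_le (x - β 0) (x - β |s|)
        rw [sub_sub_sub_cancel_left] at this
        linarith
      rw [Real.norm_eq_abs]
      linarith
    obtain ⟨s₀, hs₀⟩ := (by fun_prop : Continuous fun s : ℝ => ‖x - β |s|‖).exists_forall_le hcoer
    refine ⟨|s₀|, fun t ht => ?_⟩
    have h1 := hs₀ t
    simp only [abs_of_nonneg ht] at h1
    have h2 := hch t |s₀| ht (abs_nonneg _)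
    have h3 : ‖β t - β |s₀|‖ ≤ ‖x - β t‖ + ‖x - β |s₀|‖ := by
      have := norm_sub_le (x - β |s₀|) (x - β t)
      rw [sub_sub_sub_cancel_left] at this
      linarith
    linarith
  obtain ⟨s₁, hs₁⟩ := half γ hγ h
  obtain ⟨s₂, hs₂⟩ := half (fun s => γ (-s)) (by fun_prop) (fun s t hs ht => by
    have := h' (-s) (-t) (by linarith) (by linarith)
    rwa [show -s - -t = -(s - t) by ring, abs_neg] at this)
  refine ⟨s₁, -s₂, fun t => ⟨fun ht => hs₁ t ht, fun ht => ?_⟩⟩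
  have := hs₂ (-t) (by linarith)
  rw [neg_neg, show -t - s₂ = -(t - -s₂) by ring, abs_neg] at this
  exact this

lemma near_of_full {γ : ℝ → ℂ} {c : ℝ} (hγ : Continuous γ) (hc : 0 < c)
    (hch : ∀ s t, c * |s - t| ≤ ‖γ s - γ t‖) : Near γ (c / 2) :=
  near_of_chord hγ hc (fun s t _ _ => hch s t) (fun s t _ _ => hch s t)

/-- the straight line -/
lemma near_line : Near (fun t : ℝ => (t : ℂ)) (1 / 2) := by
  refine near_of_chord (by fun_prop) one_pos ?_ ?_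
  all_goals
    intro s t _ _
    rw [← Complex.ofReal_sub, Complex.norm_real, Real.norm_eq_abs, one_mul]

end Pool.Agent.Helper97.Scat
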