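import Pool.Agent.Helper97.Scat.Defs
import Pool.Agent.Helper97.Scat.Geom
import Pool.Agent.Helper97.Scat.Layer

/-!
# Chord-arc properties of the curves
-/

open MeasureTheory Filter Topology Set
open scoped ContDiff

namespace Pool.Agent.Helper97.Scat

section compact
variable {γ g1 : ℝ → ℂ}

lemma arc_le' (hd : ∀ s, HasDerivAt γ (g1 s) s) (hu : ∀ s, ‖g1 s‖ = 1) (s t : ℝ) :
    ‖γ s - γ t‖ ≤ |s - t| := by
  have h := Convex.norm_image_sub_le_of_norm_hasDerivWithin_le (f := γ)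
    (f' := g1) (s := univ) (C := 1) (x := t) (y := s)
    (fun x _ => (hd x).hasDerivWithinAt)
    (fun x _ => (hu x).le) convex_univ (mem_univ _) (mem_univ _)
  simpa using h

lemma chord_compact (hd : ∀ s, HasDerivAt γ (g1 s) s) (hc : Continuous g1) (hu : ∀ s, ‖g1 s‖ = 1)
    (hi : Function.Injective γ) (S : ℝ) :
    ∃ c : ℝ, 0 < c ∧ ∀ s t, |s| ≤ S → |t| ≤ S → c * |s - t| ≤ ‖γ s - γ t‖ := by
  set Φ : ℝ × ℝ → ℂ := fun p => ∫ θ in (0:ℝ)..1, g1 (p.2 + θ * (p.1 - p.2)) with hΦ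
  have hΦc : Continuous Φ := by
    refine intervalIntegral.continuous_parametric_intervalIntegral_of_continuous' ?_ 0 1
    fun_prop
  have hΦe : ∀ p : ℝ × ℝ, γ p.1 - γ p.2 = ((p.1 - p.2 : ℝ) : ℂ) * Φ p := by
    intro p
    have h1 : ∀ θ ∈ uIcc (0:ℝ) 1, HasDerivAt (fun θ : ℝ => γ (p.2 + θ * (p.1 - p.2)))
        (((p.1 - p.2 : ℝ) : ℂ) * g1 (p.2 + θ * (p.1 - p.2))) θ := by
      intro θ _
      have h2 : HasDerivAt (fun θ : ℝ => p.2 + θ * (p.1 - p.2)) (p.1 - p.2) θ := by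
        simpa using ((hasDerivAt_id θ).mul_const (p.1 - p.2)).const_add p.2
      refine ((hd (p.2 + θ * (p.1 - p.2))).scomp θ h2).congr_deriv ?_
      simp
    have h4 := intervalIntegral.integral_eq_sub_of_hasDerivAt h1
      (Continuous.intervalIntegrable (by fun_prop) _ _)
    rw [intervalIntegral.integral_const_mul] at h4
    rw [hΦ]
    simp only
    rw [h4]
    simp
  have hpos : ∀ p, 0 < ‖Φ p‖ := by
    intro p
    rw [norm_pos_iff]
    by_cases hp : p.1 = p.2
    · rw [hΦ]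
      simp only [hp, sub_self, mul_zero, add_zero, intervalIntegral.integral_const, sub_zero, one_smul]
      rw [← norm_pos_iff, hu]; norm_num
    · intro h0
      have := hΦe p
      rw [h0, mul_zero, sub_eq_zero] at this
      exact hp (hi this)
  rcases lt_or_ge S 0 with hS | hS
  · exact ⟨1, one_pos, fun s t hs _ => absurd ((abs_nonneg s).trans hs) (by linarith)⟩
  have hK : IsCompact (Icc (-S) S ×ˢ Icc (-S) S : Set (ℝ × ℝ)) := isCompact_Icc.prod isCompact_Icc
  obtain ⟨p, hp, hmin⟩ := hK.exists_isMinOn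
    ⟨(0, 0), ⟨⟨by simpa using hS, hS⟩, ⟨by simpa using hS, hS⟩⟩⟩ (hΦc.norm.continuousOn)
  refine ⟨‖Φ p‖, hpos p, fun s t hs ht => ?_⟩
  have h1 : ‖Φ p‖ ≤ ‖Φ (s, t)‖ := hmin ⟨abs_le.1 hs, abs_le.1 ht⟩
  have h2 := hΦe (s, t)
  simp only at h2
  rw [h2, norm_mul, Complex.norm_real, Real.norm_eq_abs, mul_comm]
  exact mul_le_mul_of_nonneg_left h1 (abs_nonneg _)

variable {v : ℂ} {R : ℝ}

lemma chord_right (hd : ∀ s, HasDerivAt γ (g1 s) s) (hc : Continuous g1) (hu : ∀ s, ‖g1 s‖ = 1)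
    (hi : Function.Injective γ) (hR : 0 ≤ R) (hv : ‖v‖ = 1)
    (hl : ∀ s, R ≤ s → γ s = γ R + ((s - R : ℝ) : ℂ) * v) :
    ∃ c : ℝ, 0 < c ∧ c ≤ 1 / 2 ∧ ∀ s t, t ≤ s → -R ≤ t → c * (s - t) ≤ ‖γ s - γ t‖ := by
  obtain ⟨c, hc0, hcc⟩ := chord_compact hd hc hu hi (7 * R + 1)
  refine ⟨min c (1 / 2), lt_min hc0 (by norm_num), min_le_right _ _, fun s t hts ht => ?_⟩
  have hst : 0 ≤ s - t := by linarith
  rcases le_or_gt R t with h1 | h1
  · rw [hl s (h1.trans hts), hl t h1]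
    have e : γ R + ((s - R : ℝ) : ℂ) * v - (γ R + ((t - R : ℝ) : ℂ) * v) = ((s - t : ℝ) : ℂ) * v := by
      push_cast; ring
    rw [e, norm_mul, hv, mul_one, Complex.norm_real, Real.norm_of_nonneg hst]
    have := min_le_right c (1 / 2)
    nlinarith
  · rcases le_or_gt s (7 * R + 1) with h2 | h2
    · have h3 := hcc s t (abs_le.2 ⟨by linarith, h2⟩) (abs_le.2 ⟨by linarith, by linarith⟩)
      rw [abs_of_nonneg hst] at h3
      exact (mul_le_mul_of_nonneg_right (min_le_left _ _) hst).trans h3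
    · have h3 : ‖γ s - γ R‖ = s - R := by
        rw [hl s (by linarith), add_sub_cancel_left, norm_mul, hv, mul_one, Complex.norm_real,
          Real.norm_of_nonneg (by linarith)]
      have h4 := arc_le' hd hu R t
      rw [abs_of_nonneg (by linarith)] at h4
      have h5 : ‖γ s - γ R‖ ≤ ‖γ s - γ t‖ + ‖γ R - γ t‖ := by
        have := norm_sub_le (γ s - γ t) (γ R - γ t)
        rwa [sub_sub_sub_cancel_right] at this
      have := mul_le_mul_of_nonneg_right (min_le_right c (1 / 2)) hst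
      linarith

end compact

/-- opposite leads -/
lemma leads_far {u v : ℂ} (hu : ‖u‖ = 1) (hv : ‖v‖ = 1) {x y : ℝ} (hx : 0 ≤ x) (hy : 0 ≤ y) :
    ‖u - v‖ / 2 * (x + y) ≤ ‖(x : ℂ) * v - (y : ℂ) * u‖ := by
  apply le_of_sq_le_sq _ (norm_nonneg _)
  have e1 : ‖(x : ℂ) * v - (y : ℂ) * u‖ ^ 2 = x ^ 2 + y ^ 2 - 2 * x * y * (v.re * u.re + v.im * u.im) := by
    have h1 : v.re ^ 2 + v.im ^ 2 = 1 := by
      have := Complex.normSq_eq_norm_sq v
      rw [hv, Complex.normSq_apply] at this; linarith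
    have h2 : u.re ^ 2 + u.im ^ 2 = 1 := by
      have := Complex.normSq_eq_norm_sq u
      rw [hu, Complex.normSq_apply] at this; linarith
    rw [← Complex.normSq_eq_norm_sq, Complex.normSq_apply]
    simp only [Complex.sub_re, Complex.sub_im, Complex.mul_re, Complex.mul_im, Complex.ofReal_re,
      Complex.ofReal_im]
    linear_combination x ^ 2 * h1 + y ^ 2 * h2
  have e2 : ‖u - v‖ ^ 2 = 2 - 2 * (v.re * u.re + v.im * u.im) := by
    have h1 : v.re ^ 2 + v.im ^ 2 = 1 := by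
      have := Complex.normSq_eq_norm_sq v
      rw [hv, Complex.normSq_apply] at this; linarith
    have h2 : u.re ^ 2 + u.im ^ 2 = 1 := by
      have := Complex.normSq_eq_norm_sq u
      rw [hu, Complex.normSq_apply] at this; linarith
    rw [← Complex.normSq_eq_norm_sq, Complex.normSq_apply]
    simp only [Complex.sub_re, Complex.sub_im]
    linear_combination h1 + h2
  have h3 : -1 ≤ v.re * u.re + v.im * u.im := by
    have h1 : v.re ^ 2 + v.im ^ 2 = 1 := by
      have := Complex.normSq_eq_norm_sq v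
      rw [hv, Complex.normSq_apply] at this; linarith
    have h2 : u.re ^ 2 + u.im ^ 2 = 1 := by
      have := Complex.normSq_eq_norm_sq u
      rw [hu, Complex.normSq_apply] at this; linarith
    nlinarith [sq_nonneg (v.re + u.re), sq_nonneg (v.im + u.im)]
  rw [e1, mul_pow, div_pow, e2]
  nlinarith [mul_nonneg (by linarith : (0:ℝ) ≤ 1 + (v.re * u.re + v.im * u.im)) (sq_nonneg (x - y))]

/-- the data of an admissible curve without the chord-arc property -/
structure Pre (γ g1 g2 g3 g4 : ℝ → ℂ) (u v : ℂ) (R K : ℝ) : Prop where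
  d0 : ∀ s, HasDerivAt γ (g1 s) s
  d1 : ∀ s, HasDerivAt g1 (g2 s) s
  d2 : ∀ s, HasDerivAt g2 (g3 s) s
  d3 : ∀ s, HasDerivAt g3 (g4 s) s
  unit : ∀ s, ‖g1 s‖ = 1
  inj : Function.Injective γ
  b2 : ∀ s, ‖g2 s‖ ≤ K
  b3 : ∀ s, ‖g3 s‖ ≤ K
  b4 : ∀ s, ‖g4 s‖ ≤ K
  supp : ∀ s, R ≤ |s| → g2 s = 0
  hR : 0 ≤ R
  hu : ‖u‖ = 1
  hv : ‖v‖ = 1
  left : ∀ s, s ≤ -R → γ s = γ (-R) + ((-R - s : ℝ) : ℂ) * u
  right : ∀ s, R ≤ s → γ s = γ R + ((s - R : ℝ) : ℂ) * v

namespace Pre
variable {γ g1 g2 g3 g4 : ℝ → ℂ} {u v : ℂ} {R K : ℝ} (P : Pre γ g1 g2 g3 g4 u v R K)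
include P

lemma continuous : Continuous γ := continuous_iff_continuousAt.2 fun s => (P.d0 s).continuousAt
lemma continuous1 : Continuous g1 := continuous_iff_continuousAt.2 fun s => (P.d1 s).continuousAt

lemma rev : Pre (fun s => γ (-s)) (fun s => -g1 (-s)) (fun s => g2 (-s)) (fun s => -g3 (-s))
    (fun s => g4 (-s)) v u R K where
  d0 := fun s => by
    refine ((P.d0 (-s)).scomp s (hasDerivAt_neg s)).congr_deriv ?_
    simp
  d1 := fun s => by
    refine ((P.d1 (-s)).scomp s (hasDerivAt_neg s)).fun_neg.congr_deriv ?_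
    simp
  d2 := fun s => by
    refine ((P.d2 (-s)).scomp s (hasDerivAt_neg s)).congr_deriv ?_
    simp
  d3 := fun s => by
    refine ((P.d3 (-s)).scomp s (hasDerivAt_neg s)).fun_neg.congr_deriv ?_
    simp
  unit := fun s => by rw [norm_neg]; exact P.unit _
  inj := P.inj.comp neg_injective
  b2 := fun s => P.b2 _
  b3 := fun s => by rw [norm_neg]; exact P.b3 _
  b4 := fun s => P.b4 _
  supp := fun s hs => P.supp _ (by rwa [abs_neg])
  hR := P.hR
  hu := P.hv
  hv := P.hu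
  left := fun s hs => by
    rw [P.right (-s) (by linarith), neg_neg]
    push_cast; ring
  right := fun s hs => by
    rw [P.left (-s) (by linarith)]
    push_cast; ring

lemma chord_half : ∃ c : ℝ, 0 < c ∧ c ≤ 1 / 2 ∧
    ∀ s t, t ≤ s → (-R ≤ t ∨ s ≤ R) → c * (s - t) ≤ ‖γ s - γ t‖ := by
  obtain ⟨c, h1, h2, h3⟩ := chord_right P.d0 P.continuous1 P.unit P.inj P.hR P.hv P.right
  have P' := P.rev
  obtain ⟨c', h1', h2', h3'⟩ := chord_right P'.d0 P'.continuous1 P'.unit P'.inj P'.hR P'.hv P'.right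
  refine ⟨min c c', lt_min h1 h1', (min_le_left _ _).trans h2, fun s t hts h => ?_⟩
  have hst : 0 ≤ s - t := by linarith
  rcases h with h | h
  · exact (mul_le_mul_of_nonneg_right (min_le_left _ _) hst).trans (h3 s t hts h)
  · have h4 := h3' (-t) (-s) (by linarith) (by linarith)
    rw [neg_neg, neg_neg, norm_sub_rev] at h4
    refine le_trans ?_ h4
    have := mul_le_mul_of_nonneg_right (min_le_right c c') hst
    linarith

lemma near : ∃ c : ℝ, 0 < c ∧ Near γ c := by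
  obtain ⟨c, h1, h2, h3⟩ := P.chord_half
  have hR := P.hR
  refine ⟨c / 2, by positivity, near_of_chord P.continuous h1 (fun s t hs ht => ?_) (fun s t hs ht => ?_)⟩
  · rcases le_total t s with h | h
    · rw [abs_of_nonneg (by linarith)]; exact h3 s t h (Or.inl (by linarith))
    · rw [abs_of_nonpos (by linarith), norm_sub_rev, neg_sub]; exact h3 t s h (Or.inl (by linarith))
  · rcases le_total t s with h | h
    · rw [abs_of_nonneg (by linarith)]; exact h3 s t h (Or.inr (by linarith))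
    · rw [abs_of_nonpos (by linarith), norm_sub_rev, neg_sub]; exact h3 t s h (Or.inr (by linarith))

lemma chord_full (huv : u ≠ v) : ∃ c : ℝ, 0 < c ∧ ∀ s t, c * |s - t| ≤ ‖γ s - γ t‖ := by
  obtain ⟨c, h1, h2, h3⟩ := P.chord_half
  have hR := P.hR
  set c₀ := ‖u - v‖ / 2 with hc₀
  have hc₀pos : 0 < c₀ := by
    rw [hc₀]
    have : 0 < ‖u - v‖ := norm_pos_iff.2 (sub_ne_zero.2 huv)
    positivity
  have hc₀1 : c₀ ≤ 1 := by
    have := norm_sub_le u v
    rw [P.hu, P.hv] at this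
    rw [hc₀]; linarith
  obtain ⟨c', h1', h3'⟩ := chord_compact P.d0 P.continuous1 P.unit P.inj (4 * R / c₀ + R)
  have hT : 4 * R ≤ 4 * R / c₀ := by
    rw [le_div_iff₀ hc₀pos]; nlinarith
  set c'' := min c (min c' (c₀ / 4)) with hc''
  have hc''pos : 0 < c'' := lt_min h1 (lt_min h1' (by positivity))
  have key : ∀ s t, t ≤ s → c'' * (s - t) ≤ ‖γ s - γ t‖ := by
    intro s t hts
    have hst : 0 ≤ s - t := by linarith
    by_cases h : -R ≤ t ∨ s ≤ R
    · exact (mul_le_mul_of_nonneg_right (min_le_left _ _) hst).trans (h3 s t hts h)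
    · push Not at h
      obtain ⟨ht, hs⟩ := h
      by_cases h4 : s ≤ 4 * R / c₀ + R ∧ -(4 * R / c₀ + R) ≤ t
      · have h5 := h3' s t (abs_le.2 ⟨by linarith, h4.1⟩) (abs_le.2 ⟨h4.2, by linarith⟩)
        rw [abs_of_nonneg hst] at h5
        exact (mul_le_mul_of_nonneg_right ((min_le_right _ _).trans (min_le_left _ _)) hst).trans h5
      · have h5 : 4 * R / c₀ ≤ (s - R) + (-R - t) := by
          by_contra h6
          push Not at h6
          exact h4 ⟨by linarith, by linarith⟩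
        have h6 := leads_far P.hu P.hv (x := s - R) (y := -R - t) (by linarith) (by linarith)
        have h7 : γ s - γ t = (γ R - γ (-R)) + (((s - R : ℝ) : ℂ) * v - ((-R - t : ℝ) : ℂ) * u) := by
          rw [P.right s hs.le, P.left t ht.le]; ring
        have h8 := arc_le' P.d0 P.unit R (-R)
        rw [abs_of_nonneg (by linarith)] at h8
        have h9 : ‖((s - R : ℝ) : ℂ) * v - ((-R - t : ℝ) : ℂ) * u‖ ≤ ‖γ s - γ t‖ + ‖γ R - γ (-R)‖ := by
          have e : ((s - R : ℝ) : ℂ) * v - ((-R - t : ℝ) : ℂ) * u = (γ s - γ t) - (γ R - γ (-R)) := by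
            rw [h7]; ring
          rw [e]; exact norm_sub_le _ _
        have h10 : 4 * R ≤ c₀ * ((s - R) + (-R - t)) := by
          rw [div_le_iff₀ hc₀pos] at h5; linarith
        have h11 : c'' * (s - t) ≤ c₀ / 4 * (s - t) :=
          mul_le_mul_of_nonneg_right ((min_le_right _ _).trans (min_le_right _ _)) hst
        nlinarith
  refine ⟨c'', hc''pos, fun s t => ?_⟩
  rcases le_total t s with h | h
  · rw [abs_of_nonneg (by linarith)]; exact key s t h
  · rw [abs_of_nonpos (by linarith), norm_sub_rev, neg_sub]; exact key t s h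

lemma data (huv : u ≠ v) : ∃ c : ℝ, Data γ g1 g2 g3 g4 R c K := by
  obtain ⟨c, hc, h⟩ := P.chord_full huv
  exact ⟨c, P.d0, P.d1, P.d2, P.d3, P.unit, P.b2, P.b3, P.b4, P.supp, P.hR, hc, h⟩

end Pre

end Pool.Agent.Helper97.Scat
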