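import Pool.Agent.Helper97.Scat.Curve

/-!
# From the definition of the curves to quantitative data
-/

open MeasureTheory Filter Topology Set
open scoped ContDiff

namespace Pool.Agent.Helper97.Scat

lemma deriv_zero_of_zero {g : ℝ → ℂ} {R : ℝ} (h : ∀ s, R < |s| → g s = 0) :
    ∀ s, R < |s| → deriv g s = 0 := by
  intro s hs
  have ho : IsOpen {s : ℝ | R < |s|} := isOpen_lt continuous_const continuous_abs
  have he : g =ᶠ[𝓝 s] fun _ => 0 := by
    filter_upwards [ho.mem_nhds hs] with t ht
    exact h t ht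
  rw [he.deriv_eq]
  simp

lemma bdd_of_zero {g : ℝ → ℂ} {R : ℝ} (hc : Continuous g) (h : ∀ s, R < |s| → g s = 0) :
    ∃ K : ℝ, 0 ≤ K ∧ ∀ s, ‖g s‖ ≤ K := by
  obtain ⟨K, hK⟩ := (isCompact_Icc (a := -R) (b := R)).exists_bound_of_continuousOn hc.continuousOn
  refine ⟨max K 0, le_max_right _ _, fun s => ?_⟩
  by_cases hs : |s| ≤ R
  · exact (hK s (abs_le.1 hs)).trans (le_max_left _ _)
  · rw [h s (not_le.1 hs), norm_zero]; exact le_max_right _ _

theorem IsLeakyCurve.pre {γ : ℝ → ℂ} {u v : ℂ} (h : IsLeakyCurve γ u v) :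
    ∃ R K : ℝ, Pre γ (deriv γ) (deriv (deriv γ)) (deriv (deriv (deriv γ)))
      (deriv (deriv (deriv (deriv γ)))) u v R K := by
  obtain ⟨R, hR, hleft, hright⟩ := h.leads
  have h4 : ContDiff ℝ 4 γ := h.smooth
  have h3 : ContDiff ℝ 3 (deriv γ) := ((contDiff_succ_iff_deriv (n := 3)).1 h4).2.2
  have h2 : ContDiff ℝ 2 (deriv (deriv γ)) := ((contDiff_succ_iff_deriv (n := 2)).1 h3).2.2
  have h1 : ContDiff ℝ 1 (deriv (deriv (deriv γ))) := ((contDiff_succ_iff_deriv (n := 1)).1 h2).2.2
  have h0 : ContDiff ℝ 0 (deriv (deriv (deriv (deriv γ)))) :=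
    ((contDiff_succ_iff_deriv (n := 0)).1 (by simpa using h1)).2.2
  have e1 : ∀ s, R < s → deriv γ s = v := by
    intro s hs
    have he : γ =ᶠ[𝓝 s] fun s => γ R + ((s - R : ℝ) : ℂ) * v := by
      filter_upwards [Ioi_mem_nhds hs] with t ht
      exact hright t (le_of_lt ht)
    rw [he.deriv_eq]
    have : HasDerivAt (fun s : ℝ => γ R + ((s - R : ℝ) : ℂ) * v) v s := by
      have := ((((hasDerivAt_id s).sub_const R).ofReal_comp).mul_const v).const_add (γ R)
      simpa using this
    exact this.deriv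
  have e2 : ∀ s, s < -R → deriv γ s = -u := by
    intro s hs
    have he : γ =ᶠ[𝓝 s] fun s => γ (-R) + ((-R - s : ℝ) : ℂ) * u := by
      filter_upwards [Iio_mem_nhds hs] with t ht
      exact hleft t (le_of_lt ht)
    rw [he.deriv_eq]
    have : HasDerivAt (fun s : ℝ => γ (-R) + ((-R - s : ℝ) : ℂ) * u) (-u) s := by
      have := ((((hasDerivAt_id s).const_sub (-R)).ofReal_comp).mul_const u).const_add (γ (-R))
      simpa using this
    exact this.deriv
  have z2 : ∀ s, R < |s| → deriv (deriv γ) s = 0 := by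
    intro s hs
    rcases lt_abs.1 hs with hs | hs
    · have he : deriv γ =ᶠ[𝓝 s] fun _ => v := by
        filter_upwards [Ioi_mem_nhds hs] with t ht
        exact e1 t ht
      rw [he.deriv_eq]; simp
    · have he : deriv γ =ᶠ[𝓝 s] fun _ => -u := by
        filter_upwards [Iio_mem_nhds (show s < -R by linarith)] with t ht
        exact e2 t ht
      rw [he.deriv_eq]; simp
  have z3 := deriv_zero_of_zero z2
  have z4 := deriv_zero_of_zero z3
  obtain ⟨K2, hK2, b2⟩ := bdd_of_zero h2.continuous z2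
  obtain ⟨K3, hK3, b3⟩ := bdd_of_zero h1.continuous z3
  obtain ⟨K4, hK4, b4⟩ := bdd_of_zero h0.continuous z4
  refine ⟨R + 1, K2 + K3 + K4, ?_⟩
  exact {
    d0 := fun s => (h4.differentiable (by norm_num) s).hasDerivAt
    d1 := fun s => (h3.differentiable (by norm_num) s).hasDerivAt
    d2 := fun s => (h2.differentiable (by norm_num) s).hasDerivAt
    d3 := fun s => (h1.differentiable (by norm_num) s).hasDerivAt
    unit := h.unit_speed
    inj := h.injective
    b2 := fun s => (b2 s).trans (by linarith)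
    b3 := fun s => (b3 s).trans (by linarith)
    b4 := fun s => (b4 s).trans (by linarith)
    supp := fun s hs => z2 s (by linarith)
    hR := by linarith
    hu := by
      have := h.unit_speed (-R - 1)
      rwa [e2 _ (by linarith), norm_neg] at this
    hv := by
      have := h.unit_speed (R + 1)
      rwa [e1 _ (by linarith)] at this
    left := fun s hs => by
      rw [hleft s (by linarith), hleft (-(R + 1)) (by linarith)]
      push_cast; ring
    right := fun s hs => by
      rw [hright s (by linarith), hright (R + 1) (by linarith)]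
      push_cast; ring }

lemma curvature_sq {γ g1 g2 : ℝ → ℂ} (d0 : ∀ s, HasDerivAt γ (g1 s) s)
    (d1 : ∀ s, HasDerivAt g1 (g2 s) s) (unit : ∀ s, ‖g1 s‖ = 1) (s : ℝ) :
    curvature γ s ^ 2 = ‖g2 s‖ ^ 2 := by
  have e1 : deriv γ = g1 := funext fun s => (d0 s).deriv
  have e2 : deriv g1 = g2 := funext fun s => (d1 s).deriv
  rw [curvature, e1, e2]
  have hre : HasDerivAt (fun s => (g1 s).re) (g2 s).re s := by
    exact Complex.reCLM.hasFDerivAt.comp_hasDerivAt s (d1 s)
  have him : HasDerivAt (fun s => (g1 s).im) (g2 s).im s := by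
    exact Complex.imCLM.hasFDerivAt.comp_hasDerivAt s (d1 s)
  have hn : ∀ s, (g1 s).re ^ 2 + (g1 s).im ^ 2 = 1 := fun s => by
    have := Complex.normSq_eq_norm_sq (g1 s)
    rw [unit, Complex.normSq_apply] at this; linarith
  have hd : HasDerivAt (fun s => (g1 s).re ^ 2 + (g1 s).im ^ 2)
      (2 * (g1 s).re * (g2 s).re + 2 * (g1 s).im * (g2 s).im) s := by
    refine ((hre.fun_pow 2).fun_add (him.fun_pow 2)).congr_deriv ?_
    push_cast; ring
  have h0 : 2 * (g1 s).re * (g2 s).re + 2 * (g1 s).im * (g2 s).im = 0 := by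
    have e : (fun s => (g1 s).re ^ 2 + (g1 s).im ^ 2) = fun _ => 1 := funext hn
    rw [e] at hd
    exact hd.unique (hasDerivAt_const s 1)
  have h1 := hn s
  rw [← Complex.normSq_eq_norm_sq, Complex.normSq_apply, Complex.mul_im, Complex.conj_re,
    Complex.conj_im]
  nlinarith [h0, h1, sq_nonneg ((g1 s).re * (g2 s).re + (g1 s).im * (g2 s).im)]

end Pool.Agent.Helper97.Scat
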