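import Mathlib

/-!
# Scattering matrices of a leaky curve and of the comparison operator: definitions

The plane is `ℂ`.  Index `0` stands for the left lead (`s → -∞`), index `1` for the right one.
-/

open MeasureTheory Filter Topology
open scoped ContDiff

namespace Pool.Agent.Helper97.Scat

/-- An infinite curve in the plane, parametrised by arc length, of class `C⁴`, without
self-intersections, which coincides with two straight half-lines outside a compact set.
Here `u`, `v` are the outward directions of the left and of the right half-line. -/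
structure IsLeakyCurve (γ : ℝ → ℂ) (u v : ℂ) : Prop where
  smooth : ContDiff ℝ 4 γ
  unit_speed : ∀ s, ‖deriv γ s‖ = 1
  injective : Function.Injective γ
  leads : ∃ R : ℝ, 0 ≤ R ∧ (∀ s, s ≤ -R → γ s = γ (-R) + ((-R - s : ℝ) : ℂ) * u) ∧
    ∀ s, R ≤ s → γ s = γ R + ((s - R : ℝ) : ℂ) * v

/-- the signed curvature -/
noncomputable def curvature (γ : ℝ → ℂ) (s : ℝ) : ℝ :=
  ((starRingEnd ℂ) (deriv γ s) * deriv (deriv γ) s).im

/-- the momentum `p = √(λ + α²/4)` of the guided waves at energy `λ` -/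
noncomputable def momentum (α lam : ℝ) : ℝ := √(lam + α ^ 2 / 4)

/-- the transverse ground state `√(α/2) exp (-α |t| / 2)` -/
noncomputable def profile (α t : ℝ) : ℝ := √(α / 2) * Real.exp (-(α * |t| / 2))

/-- incoming amplitude `A 0` and outgoing amplitude `B 0` in the left lead -/
noncomputable def leftWave (p : ℝ) (A B : Fin 2 → ℂ) (s : ℝ) : ℂ :=
  A 0 * Complex.exp (Complex.I * p * s) + B 0 * Complex.exp (-(Complex.I * p * s))

/-- incoming amplitude `A 1` and outgoing amplitude `B 1` in the right lead -/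
noncomputable def rightWave (p : ℝ) (A B : Fin 2 → ℂ) (s : ℝ) : ℂ :=
  A 1 * Complex.exp (-(Complex.I * p * s)) + B 1 * Complex.exp (Complex.I * p * s)

/-- `ψ` is a generalized eigenfunction of `-Δ - α δ(x - Γ)` at energy `λ`: a bounded continuous
solution of `-Δψ - α ψ δ_Γ = λ ψ` in the sense of distributions, which in the two leads is
asymptotic to guided waves with incoming amplitudes `A` and outgoing amplitudes `B`. The point
`γ s + t i γ'(s)` is the point with tangential coordinate `s` and transverse coordinate `t`. -/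
structure IsScatteringSolution (γ : ℝ → ℂ) (α lam : ℝ) (ψ : ℂ → ℂ) (A B : Fin 2 → ℂ) : Prop where
  continuous : Continuous ψ
  bounded : ∃ M : ℝ, ∀ x, ‖ψ x‖ ≤ M
  weak : ∀ φ : ℂ → ℝ, ContDiff ℝ ∞ φ → HasCompactSupport φ →
    (∫ x, ψ x * ((-Laplacian.laplacian φ x : ℝ) : ℂ)) - α * (∫ s, ψ (γ s) * (φ (γ s) : ℂ))
      = lam * ∫ x, ψ x * (φ x : ℂ)
  left : ∀ U ε : ℝ, 0 < ε → ∀ᶠ s in atBot, ∀ t : ℝ, |t| ≤ U →
    ‖ψ (γ s + t * (Complex.I * deriv γ s)) - profile α t * leftWave (momentum α lam) A B s‖ ≤ ε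
  right : ∀ U ε : ℝ, 0 < ε → ∀ᶠ s in atTop, ∀ t : ℝ, |t| ≤ U →
    ‖ψ (γ s + t * (Complex.I * deriv γ s)) - profile α t * rightWave (momentum α lam) A B s‖ ≤ ε

/-- `S` is the scattering matrix of `-Δ - α δ(x - Γ)` at energy `λ`: a generalized eigenfunction
with incoming amplitudes `A` and outgoing amplitudes `B` exists exactly when `B = S A`. -/
def IsLeakySMatrix (γ : ℝ → ℂ) (α lam : ℝ) (S : Matrix (Fin 2) (Fin 2) ℂ) : Prop :=
  ∀ A B : Fin 2 → ℂ, (∃ ψ : ℂ → ℂ, IsScatteringSolution γ α lam ψ A B) ↔ B = S.mulVec A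

/-- `f` is a generalized eigenfunction of `-d²/ds² - κ²/4` at energy `E`, with incoming
amplitudes `A` and outgoing amplitudes `B`. -/
structure IsComparisonSolution (κ : ℝ → ℝ) (E : ℝ) (f : ℝ → ℂ) (A B : Fin 2 → ℂ) : Prop where
  smooth : ContDiff ℝ 2 f
  ode : ∀ s, -deriv (deriv f) s - ((κ s ^ 2 / 4 : ℝ) : ℂ) * f s = E * f s
  left : Tendsto (fun s => f s - leftWave (√E) A B s) atBot (𝓝 0)
  right : Tendsto (fun s => f s - rightWave (√E) A B s) atTop (𝓝 0)

/-- `S` is the scattering matrix of `-d²/ds² - κ²/4` at energy `E` -/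
def IsComparisonSMatrix (κ : ℝ → ℝ) (E : ℝ) (S : Matrix (Fin 2) (Fin 2) ℂ) : Prop :=
  ∀ A B : Fin 2 → ℂ, (∃ f : ℝ → ℂ, IsComparisonSolution κ E f A B) ↔ B = S.mulVec A

end Pool.Agent.Helper97.Scat
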