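import Mathlib

/-!
# The kernel `exp (-μ |r|) / (2 μ)` on the line
-/

open MeasureTheory Filter Topology Set

namespace Pool.Agent.Helper97.Scat

lemma hasDerivAt_integral_Iic {F : ℝ → ℂ} (hF : Continuous F)
    (hi : ∀ s, IntegrableOn F (Iic s)) (s : ℝ) :
    HasDerivAt (fun s => ∫ t in Iic s, F t) (F s) s := by
  have e : (fun s => ∫ t in Iic s, F t) = fun s => (∫ t in Iic (0:ℝ), F t) + ∫ t in (0:ℝ)..s, F t := by
    ext s
    rw [← intervalIntegral.integral_Iic_sub_Iic (hi 0) (hi s)]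
    ring
  rw [e]
  have := intervalIntegral.integral_hasDerivAt_right (hF.intervalIntegrable 0 s)
    hF.stronglyMeasurable.stronglyMeasurableAtFilter hF.continuousAt
  simpa using this.const_add (∫ t in Iic (0:ℝ), F t)

lemma hasDerivAt_integral_Ioi {F : ℝ → ℂ} (hF : Continuous F)
    (hi : ∀ s, IntegrableOn F (Ioi s)) (s : ℝ) :
    HasDerivAt (fun s => ∫ t in Ioi s, F t) (-F s) s := by
  have e : (fun s => ∫ t in Ioi s, F t) = fun s => (∫ t in Ioi (0:ℝ), F t) - ∫ t in (0:ℝ)..s, F t := by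
    ext s
    rw [← intervalIntegral.integral_Ioi_sub_Ioi' (hi 0) (hi s)]
    ring
  rw [e]
  have := intervalIntegral.integral_hasDerivAt_right (hF.intervalIntegrable 0 s)
    hF.stronglyMeasurable.stronglyMeasurableAtFilter hF.continuousAt
  simpa using this.const_sub (∫ t in Ioi (0:ℝ), F t)

/-- the kernel `exp (-μ |r|) / (2 μ)` -/
noncomputable def ek (μ : ℂ) (r : ℝ) : ℂ := Complex.exp (-μ * (|r| : ℝ)) / (2 * μ)

/-- the integral operator with kernel `exp (-μ |s - t|) / (2 μ)` -/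
noncomputable def eop (μ : ℂ) (f : ℝ → ℂ) (s : ℝ) : ℂ := ∫ t, ek μ (s - t) * f t

/-- its derivative -/
noncomputable def eop' (μ : ℂ) (f : ℝ → ℂ) (s : ℝ) : ℂ :=
  (1 / 2) * (-(Complex.exp (-μ * s) * ∫ t in Iic s, Complex.exp (μ * t) * f t)
    + Complex.exp (μ * s) * ∫ t in Ioi s, Complex.exp (-μ * t) * f t)

lemma continuous_ek (μ : ℂ) : Continuous (ek μ) := by
  unfold ek; fun_prop

section
variable {μ : ℂ} {f : ℝ → ℂ}
  (h1 : ∀ s, IntegrableOn (fun t : ℝ => Complex.exp (μ * t) * f t) (Iic s))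
  (h2 : ∀ s, IntegrableOn (fun t : ℝ => Complex.exp (-μ * t) * f t) (Ioi s))

include h1 h2

lemma eop_integrable (s : ℝ) : Integrable (fun t => ek μ (s - t) * f t) := by
  rw [← integrableOn_univ, ← Iic_union_Ioi (a := s)]
  refine IntegrableOn.union ?_ ?_
  · have := (h1 s).const_mul (Complex.exp (-μ * s) / (2 * μ))
    refine IntegrableOn.congr_fun this (fun t ht => ?_) measurableSet_Iic
    simp only [mem_Iic] at ht
    simp only [ek]
    rw [abs_of_nonneg (by linarith)]
    rw [show -μ * ((s - t : ℝ) : ℂ) = -μ * s + μ * t by push_cast; ring, Complex.exp_add]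
    ring
  · have := (h2 s).const_mul (Complex.exp (μ * s) / (2 * μ))
    refine IntegrableOn.congr_fun this (fun t ht => ?_) measurableSet_Ioi
    simp only [mem_Ioi] at ht
    simp only [ek]
    rw [abs_of_nonpos (by linarith)]
    rw [show -μ * ((-(s - t) : ℝ) : ℂ) = μ * s + -μ * t by push_cast; ring, Complex.exp_add]
    ring

lemma eop_eq (s : ℝ) :
    eop μ f s = (1 / (2 * μ)) * (Complex.exp (-μ * s) * (∫ t in Iic s, Complex.exp (μ * t) * f t)
      + Complex.exp (μ * s) * ∫ t in Ioi s, Complex.exp (-μ * t) * f t) := by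
  have hI := eop_integrable h1 h2 s
  rw [eop, ← intervalIntegral.integral_Iic_add_Ioi (b := s) hI.integrableOn hI.integrableOn]
  have e1 : ∫ t in Iic s, ek μ (s - t) * f t
      = (Complex.exp (-μ * s) / (2 * μ)) * ∫ t in Iic s, Complex.exp (μ * t) * f t := by
    rw [← integral_const_mul]
    refine setIntegral_congr_fun measurableSet_Iic fun t ht => ?_
    simp only [mem_Iic] at ht
    simp only [ek]
    rw [abs_of_nonneg (by linarith)]
    rw [show -μ * ((s - t : ℝ) : ℂ) = -μ * s + μ * t by push_cast; ring, Complex.exp_add]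
    ring
  have e2 : ∫ t in Ioi s, ek μ (s - t) * f t
      = (Complex.exp (μ * s) / (2 * μ)) * ∫ t in Ioi s, Complex.exp (-μ * t) * f t := by
    rw [← integral_const_mul]
    refine setIntegral_congr_fun measurableSet_Ioi fun t ht => ?_
    simp only [mem_Ioi] at ht
    simp only [ek]
    rw [abs_of_nonpos (by linarith)]
    rw [show -μ * ((-(s - t) : ℝ) : ℂ) = μ * s + -μ * t by push_cast; ring, Complex.exp_add]
    ring
  rw [e1, e2]
  ring

lemma eop_hasDerivAt (hf : Continuous f) (hμ : μ ≠ 0) (s : ℝ) :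
    HasDerivAt (eop μ f) (eop' μ f s) s := by
  have e : eop μ f = fun s : ℝ =>
      (1 / (2 * μ)) * (Complex.exp (-μ * s) * (∫ t in Iic s, Complex.exp (μ * t) * f t)
      + Complex.exp (μ * s) * ∫ t in Ioi s, Complex.exp (-μ * t) * f t) := by
    ext s; exact eop_eq h1 h2 s
  rw [e]
  have d1 := hasDerivAt_integral_Iic (F := fun t : ℝ => Complex.exp (μ * t) * f t)
    (by fun_prop) h1 s
  have d2 := hasDerivAt_integral_Ioi (F := fun t : ℝ => Complex.exp (-μ * t) * f t)
    (by fun_prop) h2 s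
  have c1 : HasDerivAt (fun s : ℝ => Complex.exp (-μ * s)) (Complex.exp (-μ * s) * (-μ)) s := by
    have := ((Complex.ofRealCLM.hasDerivAt (x := s)).const_mul (-μ)).cexp
    simpa using this
  have c2 : HasDerivAt (fun s : ℝ => Complex.exp (μ * s)) (Complex.exp (μ * s) * μ) s := by
    have := ((Complex.ofRealCLM.hasDerivAt (x := s)).const_mul μ).cexp
    simpa using this
  have := ((c1.fun_mul d1).fun_add (c2.fun_mul d2)).const_mul (1 / (2 * μ))
  refine this.congr_deriv ?_
  simp only [eop']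
  have e3 : Complex.exp (-μ * s) * (Complex.exp (μ * s) * f s) = f s := by
    rw [← mul_assoc, ← Complex.exp_add]; simp
  have e4 : Complex.exp (μ * s) * -(Complex.exp (-μ * s) * f s) = -f s := by
    rw [mul_neg, ← mul_assoc, ← Complex.exp_add]; simp
  rw [e3, e4]
  field_simp
  ring

lemma eop'_hasDerivAt (hf : Continuous f) (s : ℝ) :
    HasDerivAt (eop' μ f) (μ ^ 2 * eop μ f s - f s) s := by
  have d1 := hasDerivAt_integral_Iic (F := fun t : ℝ => Complex.exp (μ * t) * f t)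
    (by fun_prop) h1 s
  have d2 := hasDerivAt_integral_Ioi (F := fun t : ℝ => Complex.exp (-μ * t) * f t)
    (by fun_prop) h2 s
  have c1 : HasDerivAt (fun s : ℝ => Complex.exp (-μ * s)) (Complex.exp (-μ * s) * (-μ)) s := by
    have := ((Complex.ofRealCLM.hasDerivAt (x := s)).const_mul (-μ)).cexp
    simpa using this
  have c2 : HasDerivAt (fun s : ℝ => Complex.exp (μ * s)) (Complex.exp (μ * s) * μ) s := by
    have := ((Complex.ofRealCLM.hasDerivAt (x := s)).const_mul μ).cexp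
    simpa using this
  have := (((c1.fun_mul d1).fun_neg).fun_add (c2.fun_mul d2)).const_mul (1 / 2 : ℂ)
  refine this.congr_deriv ?_
  rw [eop_eq h1 h2]
  have e3 : Complex.exp (-μ * s) * (Complex.exp (μ * s) * f s) = f s := by
    rw [← mul_assoc, ← Complex.exp_add]; simp
  have e4 : Complex.exp (μ * s) * -(Complex.exp (-μ * s) * f s) = -f s := by
    rw [mul_neg, ← mul_assoc, ← Complex.exp_add]; simp
  rw [e3, e4]
  field_simp
  ring

end

/-- solutions of `z'' = μ² z` -/
lemma ode_const {μ : ℂ} (hμ : μ ≠ 0) {z z' : ℝ → ℂ} (h1 : ∀ s, HasDerivAt z (z' s) s)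
    (h2 : ∀ s, HasDerivAt z' (μ ^ 2 * z s) s) :
    ∃ c₁ c₂ : ℂ, ∀ s : ℝ, z s = c₁ * Complex.exp (μ * s) + c₂ * Complex.exp (-μ * s) := by
  have c1 : ∀ s : ℝ, HasDerivAt (fun s : ℝ => Complex.exp (-μ * s)) (Complex.exp (-μ * s) * (-μ)) s := by
    intro s
    have := ((Complex.ofRealCLM.hasDerivAt (x := s)).const_mul (-μ)).cexp
    simpa using this
  have c2 : ∀ s : ℝ, HasDerivAt (fun s : ℝ => Complex.exp (μ * s)) (Complex.exp (μ * s) * μ) s := by
    intro s
    have := ((Complex.ofRealCLM.hasDerivAt (x := s)).const_mul μ).cexp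
    simpa using this
  have k1 : ∀ s : ℝ, (z' s + μ * z s) * Complex.exp (-μ * s) = z' 0 + μ * z 0 := by
    have hd : ∀ s : ℝ, HasDerivAt (fun s : ℝ => (z' s + μ * z s) * Complex.exp (-μ * s)) 0 s := by
      intro s
      have := ((h2 s).fun_add ((h1 s).const_mul μ)).fun_mul (c1 s)
      exact this.congr_deriv (by ring)
    have := is_const_of_deriv_eq_zero (fun s => (hd s).differentiableAt) (fun s => (hd s).deriv)
    intro s
    have h := this s 0
    simpa using h
  have k2 : ∀ s : ℝ, (z' s - μ * z s) * Complex.exp (μ * s) = z' 0 - μ * z 0 := by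
    have hd : ∀ s : ℝ, HasDerivAt (fun s : ℝ => (z' s - μ * z s) * Complex.exp (μ * s)) 0 s := by
      intro s
      have := ((h2 s).fun_sub ((h1 s).const_mul μ)).fun_mul (c2 s)
      exact this.congr_deriv (by ring)
    have := is_const_of_deriv_eq_zero (fun s => (hd s).differentiableAt) (fun s => (hd s).deriv)
    intro s
    have h := this s 0
    simpa using h
  refine ⟨(z' 0 + μ * z 0) / (2 * μ), -(z' 0 - μ * z 0) / (2 * μ), fun s => ?_⟩
  rw [← k1 s, ← k2 s]
  have e : Complex.exp (-μ * s) * Complex.exp (μ * s) = 1 := by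
    rw [← Complex.exp_add]; simp
  have h2μ : (2 * μ) ≠ 0 := by simpa using hμ
  rw [div_mul_eq_mul_div, div_mul_eq_mul_div, ← add_div, eq_div_iff h2μ]
  linear_combination (-2 * μ * z s) * e

/-- `f` is continuous and bounded by `M` -/
def CB (M : ℝ) (f : ℝ → ℂ) : Prop := Continuous f ∧ ∀ s, ‖f s‖ ≤ M

lemma CB.nonneg {M : ℝ} {f : ℝ → ℂ} (h : CB M f) : 0 ≤ M := (norm_nonneg _).trans (h.2 0)

section bounded
variable {m M : ℝ} {f : ℝ → ℂ}

lemma integrableOn_Iic_exp (hm : 0 < m) (hf : CB M f) (s : ℝ) :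
    IntegrableOn (fun t : ℝ => Complex.exp ((m:ℂ) * t) * f t) (Iic s) := by
  have h : IntegrableOn (fun t : ℝ => Real.exp (m * t) * M) (Iic s) :=
    (integrableOn_exp_mul_Iic hm s).mul_const M
  refine Integrable.mono' h (Continuous.aestronglyMeasurable (by have := hf.1; fun_prop)) ?_
  refine Eventually.of_forall fun t => ?_
  rw [norm_mul, Complex.norm_exp]
  have : ((m:ℂ) * t).re = m * t := by simp
  rw [this]
  exact mul_le_mul_of_nonneg_left (hf.2 t) (Real.exp_pos _).le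

lemma integrableOn_Ioi_exp (hm : 0 < m) (hf : CB M f) (s : ℝ) :
    IntegrableOn (fun t : ℝ => Complex.exp (-(m:ℂ) * t) * f t) (Ioi s) := by
  have h : IntegrableOn (fun t : ℝ => Real.exp (-m * t) * M) (Ioi s) :=
    (integrableOn_exp_mul_Ioi (by linarith) s).mul_const M
  refine Integrable.mono' h (Continuous.aestronglyMeasurable (by have := hf.1; fun_prop)) ?_
  refine Eventually.of_forall fun t => ?_
  rw [norm_mul, Complex.norm_exp]
  have : (-(m:ℂ) * t).re = -m * t := by simp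
  rw [this]
  exact mul_le_mul_of_nonneg_left (hf.2 t) (Real.exp_pos _).le

lemma integrable_exp_abs (hm : 0 < m) (s : ℝ) : Integrable (fun t : ℝ => Real.exp (-m * |s - t|)) := by
  rw [← integrableOn_univ, ← Iic_union_Ioi (a := s)]
  refine IntegrableOn.union ?_ ?_
  · have := (integrableOn_exp_mul_Iic hm s).const_mul (Real.exp (-m * s))
    refine IntegrableOn.congr_fun this (fun t ht => ?_) measurableSet_Iic
    simp only [mem_Iic] at ht
    simp only [abs_of_nonneg (show 0 ≤ s - t by linarith)]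
    rw [← Real.exp_add]; ring_nf
  · have := (integrableOn_exp_mul_Ioi (show -m < 0 by linarith) s).const_mul (Real.exp (m * s))
    refine IntegrableOn.congr_fun this (fun t ht => ?_) measurableSet_Ioi
    simp only [mem_Ioi] at ht
    simp only [abs_of_nonpos (show s - t ≤ 0 by linarith)]
    rw [← Real.exp_add]; ring_nf

lemma integral_exp_abs (hm : 0 < m) (s : ℝ) : ∫ t : ℝ, Real.exp (-m * |s - t|) = 2 / m := by
  have hI := integrable_exp_abs hm s
  rw [← intervalIntegral.integral_Iic_add_Ioi (b := s) hI.integrableOn hI.integrableOn]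
  have e1 : ∫ t in Iic s, Real.exp (-m * |s - t|) = Real.exp (-m * s) * ∫ t in Iic s, Real.exp (m * t) := by
    rw [← integral_const_mul]
    refine setIntegral_congr_fun measurableSet_Iic fun t ht => ?_
    simp only [mem_Iic] at ht
    simp only [abs_of_nonneg (show 0 ≤ s - t by linarith)]
    rw [← Real.exp_add]; ring_nf
  have e2 : ∫ t in Ioi s, Real.exp (-m * |s - t|) = Real.exp (m * s) * ∫ t in Ioi s, Real.exp (-m * t) := by
    rw [← integral_const_mul]
    refine setIntegral_congr_fun measurableSet_Ioi fun t ht => ?_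
    simp only [mem_Ioi] at ht
    simp only [abs_of_nonpos (show s - t ≤ 0 by linarith)]
    rw [← Real.exp_add]; ring_nf
  rw [e1, e2, integral_exp_mul_Iic hm, integral_exp_mul_Ioi (by linarith)]
  have h1 : Real.exp (-m * s) * Real.exp (m * s) = 1 := by rw [← Real.exp_add]; simp
  field_simp
  rw [show -(m * s) = -m * s by ring]
  linear_combination (2:ℝ) * h1

lemma norm_ek_le (hm : 0 < m) (r : ℝ) : ‖ek (m:ℂ) r‖ = Real.exp (-m * |r|) / (2 * m) := by
  rw [ek, norm_div, Complex.norm_exp]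
  simp [abs_of_pos hm]

lemma eop_bdd (hm : 0 < m) (hf : CB M f) (s : ℝ) : ‖eop (m:ℂ) f s‖ ≤ M / m ^ 2 := by
  have hI : Integrable (fun t => Real.exp (-m * |s - t|) / (2 * m) * M) :=
    ((integrable_exp_abs hm s).div_const _).mul_const M
  calc ‖eop (m:ℂ) f s‖ ≤ ∫ t, Real.exp (-m * |s - t|) / (2 * m) * M := by
        refine norm_integral_le_of_norm_le hI (Eventually.of_forall fun t => ?_)
        rw [norm_mul, norm_ek_le hm]
        exact mul_le_mul_of_nonneg_left (hf.2 t) (by positivity)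
    _ = M / m ^ 2 := by
        rw [integral_mul_const, integral_div, integral_exp_abs hm]
        field_simp

/-- a bounded solution of `w'' = m² w - f` is `eop m f` -/
lemma bounded_unique (hm : 0 < m) (hf : CB M f) {w w' : ℝ → ℂ}
    (h1 : ∀ s, HasDerivAt w (w' s) s) (h2 : ∀ s, HasDerivAt w' ((m:ℂ) ^ 2 * w s - f s) s)
    {C : ℝ} (hw : ∀ s, ‖w s‖ ≤ C) : w = eop (m:ℂ) f := by
  have hm' : (m:ℂ) ≠ 0 := by exact_mod_cast hm.ne'
  have a1 := integrableOn_Iic_exp hm hf
  have a2 := integrableOn_Ioi_exp hm hf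
  have d1 : ∀ s, HasDerivAt (fun s => w s - eop (m:ℂ) f s) (w' s - eop' (m:ℂ) f s) s :=
    fun s => (h1 s).fun_sub (eop_hasDerivAt a1 a2 hf.1 hm' s)
  have d2 : ∀ s, HasDerivAt (fun s => w' s - eop' (m:ℂ) f s)
      ((m:ℂ) ^ 2 * (w s - eop (m:ℂ) f s)) s :=
    fun s => ((h2 s).fun_sub (eop'_hasDerivAt a1 a2 hf.1 s)).congr_deriv (by ring)
  obtain ⟨c₁, c₂, hc⟩ := ode_const hm' d1 d2
  have hb : ∀ s : ℝ, ‖c₁ * Complex.exp ((m:ℂ) * s) + c₂ * Complex.exp (-(m:ℂ) * s)‖
      ≤ C + M / m ^ 2 := by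
    intro s
    rw [← hc s]
    exact (norm_sub_le _ _).trans (add_le_add (hw s) (eop_bdd hm hf s))
  have hn1 : ∀ s : ℝ, ‖Complex.exp ((m:ℂ) * s)‖ = Real.exp (m * s) := by
    intro s; rw [Complex.norm_exp]; simp
  have hn2 : ∀ s : ℝ, ‖Complex.exp (-(m:ℂ) * s)‖ = Real.exp (-m * s) := by
    intro s; rw [Complex.norm_exp]; simp
  have hC : 0 ≤ C := (norm_nonneg _).trans (hw 0)
  have hM := hf.nonneg
  -- c₁ = 0
  have hc1 : c₁ = 0 := by
    by_contra hne
    have hpos : 0 < ‖c₁‖ := norm_pos_iff.2 hne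
    have key : ∀ s : ℝ, 0 ≤ s → ‖c₁‖ * Real.exp (m * s) ≤ C + M / m ^ 2 + ‖c₂‖ := by
      intro s hs
      have h3 : ‖c₁ * Complex.exp ((m:ℂ) * s)‖ ≤ ‖c₁ * Complex.exp ((m:ℂ) * s)
          + c₂ * Complex.exp (-(m:ℂ) * s)‖ + ‖c₂ * Complex.exp (-(m:ℂ) * s)‖ := by
        have := norm_sub_le (c₁ * Complex.exp ((m:ℂ) * s) + c₂ * Complex.exp (-(m:ℂ) * s))
          (c₂ * Complex.exp (-(m:ℂ) * s))
        simpa using this
      rw [norm_mul, hn1, norm_mul, hn2] at h3
      have h4 : Real.exp (-m * s) ≤ 1 := Real.exp_le_one_iff.2 (by nlinarith)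
      have h5 := hb s
      have h6 : ‖c₂‖ * Real.exp (-m * s) ≤ ‖c₂‖ := by
        simpa using mul_le_mul_of_nonneg_left h4 (norm_nonneg c₂)
      linarith
    have ht : Tendsto (fun s : ℝ => ‖c₁‖ * Real.exp (m * s)) atTop atTop :=
      (Real.tendsto_exp_atTop.comp (tendsto_id.const_mul_atTop hm)).const_mul_atTop hpos
    obtain ⟨s, hs0, hs⟩ := ((eventually_ge_atTop (0:ℝ)).and
      (ht.eventually_gt_atTop (C + M / m ^ 2 + ‖c₂‖))).exists
    exact absurd (key s hs0) (not_le.2 hs)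
  have hc2 : c₂ = 0 := by
    by_contra hne
    have hpos : 0 < ‖c₂‖ := norm_pos_iff.2 hne
    have key : ∀ s : ℝ, 0 ≤ s → ‖c₂‖ * Real.exp (m * s) ≤ C + M / m ^ 2 := by
      intro s hs
      have h5 := hb (-s)
      rw [hc1, zero_mul, zero_add, norm_mul, hn2] at h5
      rwa [show -m * -s = m * s by ring] at h5
    have ht : Tendsto (fun s : ℝ => ‖c₂‖ * Real.exp (m * s)) atTop atTop :=
      (Real.tendsto_exp_atTop.comp (tendsto_id.const_mul_atTop hm)).const_mul_atTop hpos
    obtain ⟨s, hs0, hs⟩ := ((eventually_ge_atTop (0:ℝ)).and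
      (ht.eventually_gt_atTop (C + M / m ^ 2))).exists
    exact absurd (key s hs0) (not_le.2 hs)
  ext s
  have := hc s
  rw [hc1, hc2, zero_mul, zero_mul, add_zero, sub_eq_zero] at this
  exact this

end bounded


section limits
variable {F : ℝ → ℂ}

lemma tendsto_Iic_atTop (hF : Integrable F) :
    Tendsto (fun s => ∫ t in Iic s, F t) atTop (𝓝 (∫ t, F t)) :=
  (aecover_Iic tendsto_id).integral_tendsto_of_countably_generated hF

lemma tendsto_Ioi_atBot (hF : Integrable F) :
    Tendsto (fun s => ∫ t in Ioi s, F t) atBot (𝓝 (∫ t, F t)) :=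
  (aecover_Ioi tendsto_id).integral_tendsto_of_countably_generated hF

lemma tendsto_Ioi_atTop (hF : Integrable F) :
    Tendsto (fun s => ∫ t in Ioi s, F t) atTop (𝓝 0) := by
  have e : (fun s => ∫ t in Ioi s, F t) = fun s => (∫ t, F t) - ∫ t in Iic s, F t := by
    ext s
    rw [← intervalIntegral.integral_Iic_add_Ioi (b := s) hF.integrableOn hF.integrableOn]
    ring
  rw [e]
  simpa using (tendsto_const_nhds (x := ∫ t, F t)).sub (tendsto_Iic_atTop hF)

lemma tendsto_Iic_atBot (hF : Integrable F) :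
    Tendsto (fun s => ∫ t in Iic s, F t) atBot (𝓝 0) := by
  have e : (fun s => ∫ t in Iic s, F t) = fun s => (∫ t, F t) - ∫ t in Ioi s, F t := by
    ext s
    rw [← intervalIntegral.integral_Iic_add_Ioi (b := s) hF.integrableOn hF.integrableOn]
    ring
  rw [e]
  simpa using (tendsto_const_nhds (x := ∫ t, F t)).sub (tendsto_Ioi_atBot hF)

end limits

/-- the plane wave `exp (i k s)` -/
noncomputable def ex (k : ℝ) (s : ℝ) : ℂ := Complex.exp (k * Complex.I * s)

lemma continuous_ex (k : ℝ) : Continuous (ex k) := by unfold ex; fun_prop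

lemma norm_ex (k s : ℝ) : ‖ex k s‖ = 1 := by
  rw [ex, Complex.norm_exp]; simp

lemma ex_mul_ex_neg (k s : ℝ) : ex k s * ex (-k) s = 1 := by
  rw [ex, ex, ← Complex.exp_add]; simp

lemma ex_hasDerivAt (k s : ℝ) : HasDerivAt (ex k) (k * Complex.I * ex k s) s := by
  have := ((Complex.ofRealCLM.hasDerivAt (x := s)).const_mul (k * Complex.I)).cexp
  refine (this.congr_deriv ?_)
  simp only [ex]
  simp
  ring

lemma ex_add (k s t : ℝ) : ex k (s + t) = ex k s * ex k t := by
  simp only [ex]; rw [← Complex.exp_add]; push_cast; ring_nf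

lemma ex_neg (k s : ℝ) : ex k (-s) = ex (-k) s := by
  simp only [ex]; push_cast; ring_nf

/-- the outgoing resolvent of `-d²/ds²` at `k²` -/
noncomputable def R0 (k : ℝ) (q : ℝ → ℂ) : ℝ → ℂ := eop (-(k * Complex.I)) q

/-- its derivative -/
noncomputable def R0' (k : ℝ) (q : ℝ → ℂ) : ℝ → ℂ := eop' (-(k * Complex.I)) q

/-- the kernel `(i / 2k) exp (i k |r|)` -/
noncomputable def rk (k r : ℝ) : ℂ := ek (-(k * Complex.I)) r

lemma rk_eq (k r : ℝ) : rk k r = (Complex.I / (2 * k)) * ex k |r| := by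
  rcases eq_or_ne k 0 with rfl | hk
  · simp [rk, ek]
  have hk' : (k:ℂ) ≠ 0 := by exact_mod_cast hk
  rw [rk, ek, ex, neg_neg]
  have hI := Complex.I_ne_zero
  field_simp
  rw [Complex.I_sq]

lemma R0_eq_integral (k : ℝ) (q : ℝ → ℂ) (s : ℝ) : R0 k q s = ∫ t, rk k (s - t) * q t := rfl

lemma norm_rk (k r : ℝ) : ‖rk k r‖ = 1 / (2 * |k|) := by
  rw [rk_eq, norm_mul, norm_ex, norm_div]; simp

lemma continuous_rk (k : ℝ) : Continuous (rk k) := continuous_ek _

lemma rk_symm (k s t : ℝ) : rk k (s - t) = rk k (t - s) := by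
  rw [rk_eq, rk_eq, abs_sub_comm]

lemma ex_lip (k s t : ℝ) : ‖ex k s - ex k t‖ ≤ |k| * |s - t| := by
  have h := Convex.norm_image_sub_le_of_norm_hasDerivWithin_le (f := ex k)
    (f' := fun s => k * Complex.I * ex k s) (s := univ) (C := |k|) (x := t) (y := s)
    (fun x _ => (ex_hasDerivAt k x).hasDerivWithinAt)
    (fun x _ => by rw [norm_mul, norm_ex]; simp) convex_univ (mem_univ _) (mem_univ _)
  simpa using h

lemma rk_lip {k : ℝ} (hk : k ≠ 0) (s t : ℝ) : ‖rk k s - rk k t‖ ≤ |s - t| / 2 := by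
  rw [rk_eq, rk_eq, ← mul_sub, norm_mul]
  have h1 : ‖Complex.I / (2 * (k:ℂ))‖ = 1 / (2 * |k|) := by rw [norm_div]; simp
  rw [h1]
  have h2 := ex_lip k |s| |t|
  have h3 : |(|s| - |t|)| ≤ |s - t| := abs_abs_sub_abs_le_abs_sub s t
  have hk' : 0 < |k| := abs_pos.2 hk
  calc 1 / (2 * |k|) * ‖ex k |s| - ex k |t|‖ ≤ 1 / (2 * |k|) * (|k| * |s - t|) := by
        apply mul_le_mul_of_nonneg_left _ (by positivity)
        exact h2.trans (mul_le_mul_of_nonneg_left h3 hk'.le)
    _ = |s - t| / 2 := by field_simp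

section r0
variable {k : ℝ} {q : ℝ → ℂ}

lemma mu_mul (k s : ℝ) : Complex.exp (-(k * Complex.I) * s) = ex (-k) s := by
  simp only [ex]; push_cast; ring_nf

lemma neg_mu_mul (k s : ℝ) : Complex.exp (-(-(k * Complex.I)) * s) = ex k s := by
  simp only [ex]; ring_nf

lemma integrable_ex_mul (k : ℝ) (hq : Integrable q) : Integrable (fun t => ex k t * q t) := by
  refine hq.bdd_mul (c := 1) (continuous_ex k).aestronglyMeasurable ?_
  exact Eventually.of_forall fun t => (norm_ex k t).le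

lemma R0_h1 (hq : Integrable q) (s : ℝ) :
    IntegrableOn (fun t : ℝ => Complex.exp (-(k * Complex.I) * t) * q t) (Iic s) := by
  simp only [mu_mul]
  exact (integrable_ex_mul _ hq).integrableOn

lemma R0_h2 (hq : Integrable q) (s : ℝ) :
    IntegrableOn (fun t : ℝ => Complex.exp (-(-(k * Complex.I)) * t) * q t) (Ioi s) := by
  simp only [neg_mu_mul]
  exact (integrable_ex_mul _ hq).integrableOn

lemma mu_ne (hk : k ≠ 0) : (-(k * Complex.I) : ℂ) ≠ 0 := by
  simpa using hk

lemma R0_hasDerivAt (hk : k ≠ 0) (hq : Integrable q) (hc : Continuous q) (s : ℝ) :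
    HasDerivAt (R0 k q) (R0' k q s) s :=
  eop_hasDerivAt (R0_h1 hq) (R0_h2 hq) hc (mu_ne hk) s

lemma R0'_hasDerivAt (hq : Integrable q) (hc : Continuous q) (s : ℝ) :
    HasDerivAt (R0' k q) (-(k:ℂ) ^ 2 * R0 k q s - q s) s := by
  have := eop'_hasDerivAt (R0_h1 (k := k) hq) (R0_h2 hq) hc s
  refine this.congr_deriv ?_
  rw [R0]
  have : (-(k * Complex.I) : ℂ) ^ 2 = -(k:ℂ) ^ 2 := by
    rw [neg_sq, mul_pow, Complex.I_sq]; ring
  rw [this]

lemma R0_eq (hq : Integrable q) (s : ℝ) :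
    R0 k q s = (Complex.I / (2 * k)) * (ex k s * (∫ t in Iic s, ex (-k) t * q t)
      + ex (-k) s * ∫ t in Ioi s, ex k t * q t) := by
  rw [R0, eop_eq (R0_h1 hq) (R0_h2 hq)]
  simp only [mu_mul, neg_mu_mul]
  rcases eq_or_ne k 0 with rfl | hk
  · simp
  have hk' : (k:ℂ) ≠ 0 := by exact_mod_cast hk
  have hI := Complex.I_ne_zero
  have : 1 / (2 * -(k * Complex.I)) = Complex.I / (2 * k) := by
    field_simp
    rw [Complex.I_sq]
  rw [this]

lemma R0'_eq (s : ℝ) :
    R0' k q s = (1 / 2) * (-(ex k s * ∫ t in Iic s, ex (-k) t * q t)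
      + ex (-k) s * ∫ t in Ioi s, ex k t * q t) := by
  rw [R0', eop']
  simp only [mu_mul, neg_mu_mul]

lemma norm_R0_le (k : ℝ) (hq : Integrable q) (s : ℝ) : ‖R0 k q s‖ ≤ 1 / (2 * |k|) * ∫ t, ‖q t‖ := by
  rw [R0_eq_integral, ← integral_const_mul]
  refine norm_integral_le_of_norm_le (hq.norm.const_mul _) (Eventually.of_forall fun t => ?_)
  rw [norm_mul, norm_rk]

lemma norm_R0'_le (hq : Integrable q) (s : ℝ) : ‖R0' k q s‖ ≤ 1 / 2 * ∫ t, ‖q t‖ := by
  rw [R0'_eq]
  have h1 : ‖ex k s * ∫ t in Iic s, ex (-k) t * q t‖ ≤ ∫ t in Iic s, ‖q t‖ := by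
    rw [norm_mul, norm_ex, one_mul]
    refine (norm_integral_le_integral_norm _).trans (le_of_eq ?_)
    congr 1; ext t; rw [norm_mul, norm_ex, one_mul]
  have h2 : ‖ex (-k) s * ∫ t in Ioi s, ex k t * q t‖ ≤ ∫ t in Ioi s, ‖q t‖ := by
    rw [norm_mul, norm_ex, one_mul]
    refine (norm_integral_le_integral_norm _).trans (le_of_eq ?_)
    congr 1; ext t; rw [norm_mul, norm_ex, one_mul]
  have h3 := intervalIntegral.integral_Iic_add_Ioi (b := s) hq.norm.integrableOn hq.norm.integrableOn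
  rw [← h3, norm_mul]
  have h4 := norm_add_le (-(ex k s * ∫ t in Iic s, ex (-k) t * q t))
    (ex (-k) s * ∫ t in Ioi s, ex k t * q t)
  rw [norm_neg] at h4
  have h5 : ‖(1 / 2 : ℂ)‖ = 1 / 2 := by norm_num
  rw [h5]
  apply mul_le_mul_of_nonneg_left _ (by norm_num)
  linarith

lemma R0_tendsto_atTop (k : ℝ) (hq : Integrable q) :
    Tendsto (fun s => R0 k q s - (Complex.I / (2 * k)) * (∫ t, ex (-k) t * q t) * ex k s)
      atTop (𝓝 0) := by
  have h1 := tendsto_Iic_atTop (integrable_ex_mul (-k) hq)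
  have h2 := tendsto_Ioi_atTop (integrable_ex_mul k hq)
  have h3 : Tendsto (fun s => ((∫ t in Iic s, ex (-k) t * q t) - ∫ t, ex (-k) t * q t)) atTop (𝓝 0) := by
    simpa using h1.sub_const (∫ t, ex (-k) t * q t)
  have e : (fun s => R0 k q s - (Complex.I / (2 * k)) * (∫ t, ex (-k) t * q t) * ex k s)
      = fun s => (Complex.I / (2 * k)) * (ex k s * ((∫ t in Iic s, ex (-k) t * q t)
        - ∫ t, ex (-k) t * q t) + ex (-k) s * ∫ t in Ioi s, ex k t * q t) := by
    ext s
    rw [R0_eq hq]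
    ring
  rw [e]
  have bd : ∀ (k : ℝ) (g : ℝ → ℂ), Tendsto g atTop (𝓝 0) →
      Tendsto (fun s => ex k s * g s) atTop (𝓝 0) := by
    intro k g hg
    rw [tendsto_zero_iff_norm_tendsto_zero] at hg ⊢
    simpa [norm_mul, norm_ex] using hg
  simpa using ((bd k _ h3).add (bd (-k) _ h2)).const_mul (Complex.I / (2 * (k:ℂ)))

lemma R0_tendsto_atBot (k : ℝ) (hq : Integrable q) :
    Tendsto (fun s => R0 k q s - (Complex.I / (2 * k)) * (∫ t, ex k t * q t) * ex (-k) s)
      atBot (𝓝 0) := by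
  have h1 := tendsto_Iic_atBot (integrable_ex_mul (-k) hq)
  have h2 := tendsto_Ioi_atBot (integrable_ex_mul k hq)
  have h3 : Tendsto (fun s => ((∫ t in Ioi s, ex k t * q t) - ∫ t, ex k t * q t)) atBot (𝓝 0) := by
    simpa using h2.sub_const (∫ t, ex k t * q t)
  have e : (fun s => R0 k q s - (Complex.I / (2 * k)) * (∫ t, ex k t * q t) * ex (-k) s)
      = fun s => (Complex.I / (2 * k)) * (ex k s * (∫ t in Iic s, ex (-k) t * q t)
        + ex (-k) s * ((∫ t in Ioi s, ex k t * q t) - ∫ t, ex k t * q t)) := by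
    ext s
    rw [R0_eq hq]
    ring
  rw [e]
  have bd : ∀ (k : ℝ) (g : ℝ → ℂ), Tendsto g atBot (𝓝 0) →
      Tendsto (fun s => ex k s * g s) atBot (𝓝 0) := by
    intro k g hg
    rw [tendsto_zero_iff_norm_tendsto_zero] at hg ⊢
    simpa [norm_mul, norm_ex] using hg
  simpa using ((bd k _ h1).add (bd (-k) _ h3)).const_mul (Complex.I / (2 * (k:ℂ)))

/-- solutions of `w'' = -k² w - q` -/
lemma R0_general (hk : k ≠ 0) (hq : Integrable q) (hc : Continuous q) {w w' : ℝ → ℂ}
    (h1 : ∀ s, HasDerivAt w (w' s) s) (h2 : ∀ s, HasDerivAt w' (-(k:ℂ) ^ 2 * w s - q s) s) :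
    ∃ c₁ c₂ : ℂ, ∀ s : ℝ, w s = c₁ * ex k s + c₂ * ex (-k) s + R0 k q s := by
  have hμ : ((k * Complex.I) : ℂ) ≠ 0 := by simpa using hk
  have d1 : ∀ s, HasDerivAt (fun s => w s - R0 k q s) (w' s - R0' k q s) s :=
    fun s => (h1 s).fun_sub (R0_hasDerivAt hk hq hc s)
  have d2 : ∀ s, HasDerivAt (fun s => w' s - R0' k q s)
      ((k * Complex.I) ^ 2 * (w s - R0 k q s)) s := by
    intro s
    refine ((h2 s).fun_sub (R0'_hasDerivAt hq hc s)).congr_deriv ?_
    rw [mul_pow, Complex.I_sq]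
    ring
  obtain ⟨c₁, c₂, hcc⟩ := ode_const hμ d1 d2
  refine ⟨c₁, c₂, fun s => ?_⟩
  have := hcc s
  rw [show Complex.exp (-(k * Complex.I) * s) = ex (-k) s from mu_mul k s] at this
  change w s - R0 k q s = c₁ * ex k s + c₂ * ex (-k) s at this
  rw [← this]
  ring

end r0

/-- a combination of plane waves tending to zero vanishes -/
lemma waves_zero {k : ℝ} (hk : k ≠ 0) {c₁ c₂ : ℂ} {l : Filter ℝ} [l.NeBot]
    (hl : ∀ a : ℝ, Tendsto (fun s => s + a) l l)
    (h : Tendsto (fun s => c₁ * ex k s + c₂ * ex (-k) s) l (𝓝 0)) : c₁ = 0 ∧ c₂ = 0 := by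
  have h' := h.comp (hl (Real.pi / (2 * k)))
  have e1 : ex k (Real.pi / (2 * k)) = Complex.I := by
    rw [ex]
    have hk' : (k:ℂ) ≠ 0 := by exact_mod_cast hk
    rw [show (k:ℂ) * Complex.I * ((Real.pi / (2 * k) : ℝ) : ℂ) = (Real.pi / 2) * Complex.I by
      push_cast; field_simp]
    exact Complex.exp_pi_div_two_mul_I
  have e2 : ex (-k) (Real.pi / (2 * k)) = -Complex.I := by
    have := ex_mul_ex_neg k (Real.pi / (2 * k))
    rw [e1] at this
    have hI := Complex.I_mul_I
    linear_combination (-Complex.I) * this + (ex (-k) (Real.pi / (2 * k))) * hI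
  have e3 : ((fun s => c₁ * ex k s + c₂ * ex (-k) s) ∘ fun s => s + Real.pi / (2 * k))
      = fun s => Complex.I * (c₁ * ex k s - c₂ * ex (-k) s) := by
    ext s
    simp only [Function.comp]
    rw [ex_add, ex_add, e1, e2]
    ring
  rw [e3] at h'
  have h4 : Tendsto (fun s => c₁ * ex k s - c₂ * ex (-k) s) l (𝓝 0) := by
    have := h'.const_mul (-Complex.I)
    simp only [mul_zero] at this
    refine this.congr fun s => ?_
    rw [← mul_assoc, neg_mul, Complex.I_mul_I]
    ring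
  have h5 : Tendsto (fun s => 2 * c₁ * ex k s) l (𝓝 0) := by
    have := h.add h4
    simp only [add_zero] at this
    refine this.congr fun s => ?_
    ring
  have h6 : Tendsto (fun s => 2 * c₂ * ex (-k) s) l (𝓝 0) := by
    have := h.sub h4
    simp only [sub_zero] at this
    refine this.congr fun s => ?_
    ring
  have fin : ∀ (k : ℝ) (c : ℂ), Tendsto (fun s => 2 * c * ex k s) l (𝓝 0) → c = 0 := by
    intro k c hc
    rw [tendsto_zero_iff_norm_tendsto_zero] at hc
    simp only [norm_mul, norm_ex, mul_one] at hc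
    have := tendsto_nhds_unique hc tendsto_const_nhds
    simpa using this.symm
  exact ⟨fin k c₁ h5, fin (-k) c₂ h6⟩

end Pool.Agent.Helper97.Scat
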