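import Pool.Agent.Helper97.Scat.Kern

/-!
# Fourier transform of the Green function along lines
-/

open MeasureTheory Filter Topology Set Real

namespace Pool.Agent.Helper97.Scat

/-- the error integral -/
noncomputable def erfi (x : ℝ) : ℝ := ∫ y in (0:ℝ)..x, Real.exp (-(y ^ 2))

lemma erfi_hasDerivAt (x : ℝ) : HasDerivAt erfi (Real.exp (-(x ^ 2))) x := by
  have hc : Continuous fun y : ℝ => Real.exp (-(y ^ 2)) := by fun_prop
  exact intervalIntegral.integral_hasDerivAt_right (hc.intervalIntegrable _ _)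
    hc.stronglyMeasurable.stronglyMeasurableAtFilter hc.continuousAt

lemma erfi_tendsto : Tendsto erfi atTop (𝓝 (√π / 2)) := by
  have h : IntegrableOn (fun y : ℝ => Real.exp (-(y ^ 2))) (Ioi 0) := by
    have := (integrable_exp_neg_mul_sq (b := 1) one_pos).integrableOn (s := Ioi 0)
    simpa using this
  have := intervalIntegral_tendsto_integral_Ioi 0 h tendsto_id
  have e : ∫ y in Ioi (0:ℝ), Real.exp (-(y ^ 2)) = √π / 2 := by
    have := integral_gaussian_Ioi 1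
    simpa using this
  rw [e] at this
  exact this

lemma erfi_neg (x : ℝ) : erfi (-x) = -erfi x := by
  have hd : ∀ x, HasDerivAt (fun x => erfi (-x) + erfi x) 0 x := by
    intro x
    have h1 := (erfi_hasDerivAt (-x)).comp x (hasDerivAt_neg x)
    refine (h1.fun_add (erfi_hasDerivAt x)).congr_deriv ?_
    simp
  have h := is_const_of_deriv_eq_zero (fun s => (hd s).differentiableAt) (fun s => (hd s).deriv) x 0
  have h0 : erfi 0 = 0 := by simp [erfi]
  simp only [neg_zero, h0, add_zero] at h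
  linarith

lemma erfi_tendsto_atBot : Tendsto erfi atBot (𝓝 (-(√π / 2))) := by
  have : erfi = fun x => -erfi (-x) := by
    ext x; rw [erfi_neg]; ring
  rw [this]
  exact (erfi_tendsto.comp tendsto_neg_atBot_atTop).neg

/-- the Cauchy-Schlömilch (Glasser) integral -/
lemma glasser {a u : ℝ} (ha : 0 < a) (hu : 0 ≤ u) :
    ∫ σ in Ioi (0:ℝ), Real.exp (-(a ^ 2 * σ ^ 2) - u ^ 2 / (4 * σ ^ 2))
      = √π / (2 * a) * Real.exp (-(a * u)) := by
  rcases hu.eq_or_lt with rfl | hu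
  · have e : ∀ σ : ℝ, Real.exp (-(a ^ 2 * σ ^ 2) - 0 ^ 2 / (4 * σ ^ 2))
        = Real.exp (-(a ^ 2) * σ ^ 2) := by
      intro σ; congr 1; simp
    simp only [e]
    rw [integral_gaussian_Ioi, Real.sqrt_div pi_pos.le, Real.sqrt_sq ha.le]
    simp
    field_simp
  -- the antiderivative
  set H : ℝ → ℝ := fun σ => (1 / (2 * a)) *
    (Real.exp (-(a * u)) * erfi (a * σ - u / (2 * σ)) + Real.exp (a * u) * erfi (a * σ + u / (2 * σ)))
    with hH
  set H0 : ℝ := (1 / (2 * a)) * (Real.exp (-(a * u)) * (-(√π / 2)) + Real.exp (a * u) * (√π / 2))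
    with hH0
  set G : ℝ → ℝ := Function.update H 0 H0 with hG
  have hGH : ∀ σ : ℝ, 0 < σ → G σ = H σ := fun σ hσ => Function.update_of_ne hσ.ne' _ _
  have hderiv : ∀ σ ∈ Ioi (0:ℝ), HasDerivAt G
      (Real.exp (-(a ^ 2 * σ ^ 2) - u ^ 2 / (4 * σ ^ 2))) σ := by
    intro σ hσ
    have hσ : 0 < σ := hσ
    have hd1 : HasDerivAt (fun σ : ℝ => a * σ - u / (2 * σ)) (a + u / (2 * σ ^ 2)) σ := by
      have h1 : HasDerivAt (fun σ : ℝ => a * σ) (a * 1) σ := (hasDerivAt_id σ).const_mul a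
      have h2 : HasDerivAt (fun σ : ℝ => u / (2 * σ)) ((0 * (2 * σ) - u * (2 * 1)) / (2 * σ) ^ 2) σ :=
        (hasDerivAt_const σ u).fun_div ((hasDerivAt_id σ).const_mul 2) (by positivity)
      refine (h1.fun_sub h2).congr_deriv ?_
      field_simp
      ring
    have hd2 : HasDerivAt (fun σ : ℝ => a * σ + u / (2 * σ)) (a - u / (2 * σ ^ 2)) σ := by
      have h1 : HasDerivAt (fun σ : ℝ => a * σ) (a * 1) σ := (hasDerivAt_id σ).const_mul a
      have h2 : HasDerivAt (fun σ : ℝ => u / (2 * σ)) ((0 * (2 * σ) - u * (2 * 1)) / (2 * σ) ^ 2) σ :=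
        (hasDerivAt_const σ u).fun_div ((hasDerivAt_id σ).const_mul 2) (by positivity)
      refine (h1.fun_add h2).congr_deriv ?_
      field_simp
      ring
    have hHd : HasDerivAt H (Real.exp (-(a ^ 2 * σ ^ 2) - u ^ 2 / (4 * σ ^ 2))) σ := by
      have h3 := (((erfi_hasDerivAt (a * σ - u / (2 * σ))).comp σ hd1).const_mul
        (Real.exp (-(a * u)))).fun_add (((erfi_hasDerivAt (a * σ + u / (2 * σ))).comp σ hd2).const_mul
        (Real.exp (a * u)))
      refine (h3.const_mul (1 / (2 * a))).congr_deriv ?_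
      have k1 : Real.exp (-(a * u)) * Real.exp (-((a * σ - u / (2 * σ)) ^ 2))
          = Real.exp (-(a ^ 2 * σ ^ 2) - u ^ 2 / (4 * σ ^ 2)) := by
        rw [← Real.exp_add]; congr 1; field_simp; ring
      have k2 : Real.exp (a * u) * Real.exp (-((a * σ + u / (2 * σ)) ^ 2))
          = Real.exp (-(a ^ 2 * σ ^ 2) - u ^ 2 / (4 * σ ^ 2)) := by
        rw [← Real.exp_add]; congr 1; field_simp; ring
      calc 1 / (2 * a) * (Real.exp (-(a * u)) * (Real.exp (-(a * σ - u / (2 * σ)) ^ 2)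
              * (a + u / (2 * σ ^ 2))) + Real.exp (a * u) * (Real.exp (-(a * σ + u / (2 * σ)) ^ 2)
              * (a - u / (2 * σ ^ 2))))
          = 1 / (2 * a) * ((Real.exp (-(a * u)) * Real.exp (-((a * σ - u / (2 * σ)) ^ 2)))
              * (a + u / (2 * σ ^ 2)) + (Real.exp (a * u) * Real.exp (-((a * σ + u / (2 * σ)) ^ 2)))
              * (a - u / (2 * σ ^ 2))) := by ring
        _ = _ := by rw [k1, k2]; field_simp; ring
    refine hHd.congr_of_eventuallyEq ?_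
    filter_upwards [lt_mem_nhds hσ] with x hx
    exact hGH x hx
  have t1 : Tendsto (fun σ : ℝ => u / (2 * σ)) (𝓝[>] 0) atTop := by
    have h0 : Tendsto (fun σ : ℝ => 2 * σ) (𝓝[>] 0) (𝓝[>] 0) := by
      refine tendsto_nhdsWithin_iff.2 ⟨?_, ?_⟩
      · have : Tendsto (fun σ : ℝ => 2 * σ) (𝓝 0) (𝓝 (2 * 0)) := (continuous_const.mul continuous_id).tendsto 0
        rw [mul_zero] at this
        exact this.mono_left nhdsWithin_le_nhds
      · filter_upwards [self_mem_nhdsWithin] with σ hσ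
        simp only [mem_Ioi] at hσ ⊢
        linarith
    have := (tendsto_inv_nhdsGT_zero.comp h0).const_mul_atTop hu
    refine this.congr fun σ => ?_
    simp [Function.comp, div_eq_mul_inv]
  have t0 : Tendsto (fun σ : ℝ => a * σ) (𝓝[>] 0) (𝓝 0) := by
    have : Tendsto (fun σ : ℝ => a * σ) (𝓝 0) (𝓝 (a * 0)) := (continuous_const.mul continuous_id).tendsto 0
    rw [mul_zero] at this
    exact this.mono_left nhdsWithin_le_nhds
  have hlim0 : Tendsto H (𝓝[>] 0) (𝓝 H0) := by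
    have l1 : Tendsto (fun σ : ℝ => a * σ + u / (2 * σ)) (𝓝[>] 0) atTop := t0.add_atTop t1
    have l2 : Tendsto (fun σ : ℝ => a * σ - u / (2 * σ)) (𝓝[>] 0) atBot := by
      have := t0.add_atBot (tendsto_neg_atTop_atBot.comp t1)
      refine this.congr fun σ => ?_
      simp [Function.comp, sub_eq_add_neg]
    exact (((erfi_tendsto_atBot.comp l2).const_mul _).add
      ((erfi_tendsto.comp l1).const_mul _)).const_mul _
  have hcont : ContinuousWithinAt G (Ici 0) 0 := by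
    rw [ContinuousWithinAt, ← Ioi_insert, nhdsWithin_insert]
    have hG0 : G 0 = H0 := Function.update_self _ _ _
    rw [hG0]
    refine Tendsto.sup ?_ ?_
    · rw [tendsto_pure_left]
      intro s hs
      rw [hG0]
      exact mem_of_mem_nhds hs
    · refine hlim0.congr' ?_
      filter_upwards [self_mem_nhdsWithin] with σ hσ
      exact (hGH σ hσ).symm
  have hlim : Tendsto G atTop (𝓝 ((1 / (2 * a)) *
      (Real.exp (-(a * u)) * (√π / 2) + Real.exp (a * u) * (√π / 2)))) := by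
    have s1 : Tendsto (fun σ : ℝ => u / (2 * σ)) atTop (𝓝 0) := by
      have : Tendsto (fun σ : ℝ => 2 * σ) atTop atTop := tendsto_id.const_mul_atTop (by norm_num)
      exact tendsto_const_nhds.div_atTop this
    have s2 : Tendsto (fun σ : ℝ => a * σ) atTop atTop := tendsto_id.const_mul_atTop ha
    have l1 : Tendsto (fun σ : ℝ => a * σ + u / (2 * σ)) atTop atTop := s2.atTop_add s1
    have l2 : Tendsto (fun σ : ℝ => a * σ - u / (2 * σ)) atTop atTop := by
      have := s2.atTop_add s1.neg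
      refine this.congr fun σ => ?_
      simp [sub_eq_add_neg]
    have : Tendsto H atTop (𝓝 ((1 / (2 * a)) *
      (Real.exp (-(a * u)) * (√π / 2) + Real.exp (a * u) * (√π / 2)))) :=
      (((erfi_tendsto.comp l2).const_mul _).add ((erfi_tendsto.comp l1).const_mul _)).const_mul _
    refine this.congr' ?_
    filter_upwards [eventually_gt_atTop 0] with σ hσ
    exact (hGH σ hσ).symm
  have := integral_Ioi_of_hasDerivAt_of_nonneg hcont hderiv
    (fun σ _ => (Real.exp_pos _).le) hlim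
  rw [this]
  have hG0 : G 0 = H0 := Function.update_self _ _ _
  rw [hG0, hH0]
  field_simp
  ring


lemma gauss_fourier {σ : ℝ} (hσ : 0 < σ) (ξ : ℝ) :
    ∫ r : ℝ, ((Real.exp (-(r ^ 2 / (4 * σ ^ 2))) : ℝ) : ℂ) * ex ξ r
      = ((2 * σ * √π * Real.exp (-(ξ ^ 2 * σ ^ 2)) : ℝ) : ℂ) := by
  have hb : 0 < (((1 / (4 * σ ^ 2) : ℝ) : ℂ)).re := by
    rw [Complex.ofReal_re]; positivity
  have h := fourierIntegral_gaussian hb (ξ : ℂ)
  have e : ∀ r : ℝ, Complex.exp (Complex.I * ξ * r) * Complex.exp (-((1 / (4 * σ ^ 2) : ℝ) : ℂ) * r ^ 2)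
      = ((Real.exp (-(r ^ 2 / (4 * σ ^ 2))) : ℝ) : ℂ) * ex ξ r := by
    intro r
    rw [ex, mul_comm]
    congr 1
    · push_cast
      congr 1
      ring
    · congr 1
      ring
  simp only [e] at h
  rw [h]
  have hσ' : (σ : ℂ) ≠ 0 := by exact_mod_cast hσ.ne'
  have h1 : (π : ℂ) / ((1 / (4 * σ ^ 2) : ℝ) : ℂ) = (((2 * σ * √π) ^ 2 : ℝ) : ℂ) := by
    have : (2 * σ * √π) ^ 2 = π / (1 / (4 * σ ^ 2)) := by
      rw [mul_pow, Real.sq_sqrt pi_pos.le]; field_simp; ring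
    rw [this]; push_cast; rfl
  rw [h1]
  have h2 : ((((2 * σ * √π) ^ 2 : ℝ) : ℂ)) ^ (1 / 2 : ℂ) = ((2 * σ * √π : ℝ) : ℂ) := by
    rw [show (1 / 2 : ℂ) = ((1 / 2 : ℝ) : ℂ) by push_cast; rfl,
      ← Complex.ofReal_cpow (by positivity), ← Real.sqrt_eq_rpow, Real.sqrt_sq (by positivity)]
  rw [h2]
  push_cast
  congr 2
  field_simp

lemma gk_fourier {m : ℝ} (hm : 0 < m) (ξ u : ℝ) :
    ∫ r : ℝ, (gk m (r ^ 2 + u ^ 2) : ℂ) * ex ξ r
      = ((Real.exp (-(√(m ^ 2 + ξ ^ 2) * |u|)) / (2 * √(m ^ 2 + ξ ^ 2)) : ℝ) : ℂ) := by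
  have hρ : ∀ r : ℝ, (1:ℝ) ^ 2 * (r - 0) ^ 2 ≤ r ^ 2 + u ^ 2 := by
    intro r; nlinarith [sq_nonneg u]
  rw [gk_fubini (ρ := fun r => r ^ 2 + u ^ 2) (M := 1) hm one_pos (by fun_prop) hρ
    (continuous_ex ξ).aestronglyMeasurable (fun r => (norm_ex ξ r).le)]
  set a := √(m ^ 2 + ξ ^ 2) with ha
  have ha0 : 0 < a := Real.sqrt_pos.2 (by positivity)
  have ha2 : a ^ 2 = m ^ 2 + ξ ^ 2 := Real.sq_sqrt (by positivity)
  have h1 : ∫ σ in Ioi (0:ℝ), ∫ r : ℝ, (hk m (r ^ 2 + u ^ 2) σ : ℂ) * ex ξ r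
      = ∫ σ in Ioi (0:ℝ), ((Real.exp (-(a ^ 2 * σ ^ 2) - |u| ^ 2 / (4 * σ ^ 2)) / √π : ℝ) : ℂ) := by
    refine setIntegral_congr_fun measurableSet_Ioi fun σ hσ => ?_
    have hσ : 0 < σ := hσ
    have e : ∀ r : ℝ, (hk m (r ^ 2 + u ^ 2) σ : ℂ) * ex ξ r
        = ((Real.exp (-(m ^ 2 * σ ^ 2) - u ^ 2 / (4 * σ ^ 2)) / (2 * π * σ) : ℝ) : ℂ)
          * (((Real.exp (-(r ^ 2 / (4 * σ ^ 2))) : ℝ) : ℂ) * ex ξ r) := by
      intro r
      rw [hk_split]; push_cast; ring
    simp only [e]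
    rw [integral_const_mul, gauss_fourier hσ, ← Complex.ofReal_mul]
    congr 1
    rw [ha2, sq_abs]
    have h3 : Real.exp (-((m ^ 2 + ξ ^ 2) * σ ^ 2) - u ^ 2 / (4 * σ ^ 2))
        = Real.exp (-(m ^ 2 * σ ^ 2) - u ^ 2 / (4 * σ ^ 2)) * Real.exp (-(ξ ^ 2 * σ ^ 2)) := by
      rw [← Real.exp_add]; congr 1; ring
    rw [h3]
    have : √π * √π = π := Real.mul_self_sqrt pi_pos.le
    field_simp
    nlinarith [this]
  rw [h1, integral_complex_ofReal, integral_div, glasser ha0 (abs_nonneg u)]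
  congr 1
  have : √π ≠ 0 := (Real.sqrt_pos.2 pi_pos).ne'
  field_simp

/-- the convolution operator with kernel `gk m (r²)` -/
noncomputable def A0 (m : ℝ) (f : ℝ → ℂ) (s : ℝ) : ℂ := ∫ r, (gk m (r ^ 2) : ℂ) * f (s - r)

lemma A0_eq (m : ℝ) (f : ℝ → ℂ) (s : ℝ) : A0 m f s = ∫ t, (gk m ((s - t) ^ 2) : ℂ) * f t := by
  rw [A0, ← integral_sub_left_eq_self _ _ s]
  simp

lemma A0_ex {m : ℝ} (hm : 0 < m) (ξ s : ℝ) :
    A0 m (ex ξ) s = ((1 / (2 * √(m ^ 2 + ξ ^ 2)) : ℝ) : ℂ) * ex ξ s := by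
  have e : ∀ r : ℝ, (gk m (r ^ 2) : ℂ) * ex ξ (s - r) = ((gk m (r ^ 2 + 0 ^ 2) : ℂ) * ex (-ξ) r) * ex ξ s := by
    intro r
    rw [sub_eq_add_neg, ex_add, ex_neg]
    simp
    ring
  rw [A0]
  simp only [e]
  rw [integral_mul_const, gk_fourier hm]
  simp

lemma sq_form (r : ℝ) : (1:ℝ) ^ 2 * (r - 0) ^ 2 = r ^ 2 := by ring

lemma N_integrable {m : ℝ} (hm : 0 < m) : Integrable (fun r : ℝ => gk m (r ^ 2)) := by
  have := gk_integrable_real hm one_pos 0
  simpa only [sq_form] using this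

lemma N_integral {m : ℝ} (hm : 0 < m) : ∫ r : ℝ, gk m (r ^ 2) = 1 / (2 * m) := by
  have := gk_integral hm one_pos 0
  simpa only [sq_form, mul_one] using this

lemma A0_integrable {m M : ℝ} (hm : 0 < m) {f : ℝ → ℂ} (hf : AEStronglyMeasurable f volume)
    (hM : ∀ s, ‖f s‖ ≤ M) (s : ℝ) : Integrable (fun r => (gk m (r ^ 2) : ℂ) * f (s - r)) := by
  refine (N_integrable hm).ofReal.mul_bdd (c := M) ?_ (Eventually.of_forall fun r => hM _)
  exact hf.comp_quasiMeasurePreserving (quasiMeasurePreserving_sub_left volume s)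

lemma A0_bdd {m M : ℝ} (hm : 0 < m) {f : ℝ → ℂ} (hM : ∀ s, ‖f s‖ ≤ M) (s : ℝ) :
    ‖A0 m f s‖ ≤ M / (2 * m) := by
  calc ‖A0 m f s‖ ≤ ∫ r, gk m (r ^ 2) * M := by
        refine norm_integral_le_of_norm_le ((N_integrable hm).mul_const M)
          (Eventually.of_forall fun r => ?_)
        rw [norm_mul, Complex.norm_real, Real.norm_of_nonneg (gk_nonneg _ _)]
        exact mul_le_mul_of_nonneg_left (hM _) (gk_nonneg _ _)
    _ = M / (2 * m) := by rw [integral_mul_const, N_integral hm]; ring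

lemma A0_continuous {m M : ℝ} (hm : 0 < m) {f : ℝ → ℂ} (hf : CB M f) : Continuous (A0 m f) := by
  have hc := hf.1
  refine continuous_of_dominated (bound := fun r => gk m (r ^ 2) * M) ?_ ?_
    ((N_integrable hm).mul_const M) ?_
  · intro s; exact (A0_integrable hm hf.1.aestronglyMeasurable hf.2 s).1
  · intro s
    refine Eventually.of_forall fun r => ?_
    rw [norm_mul, Complex.norm_real, Real.norm_of_nonneg (gk_nonneg _ _)]
    exact mul_le_mul_of_nonneg_left (hf.2 _) (gk_nonneg _ _)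
  · refine Eventually.of_forall fun r => ?_
    fun_prop

lemma A0_CB {m M : ℝ} (hm : 0 < m) {f : ℝ → ℂ} (hf : CB M f) : CB (M / (2 * m)) (A0 m f) :=
  ⟨A0_continuous hm hf, A0_bdd hm hf.2⟩

lemma CB_ex (k : ℝ) : CB 1 (ex k) := ⟨continuous_ex k, fun s => (norm_ex k s).le⟩

/-- `eop m` on plane waves -/
lemma eop_ex {m : ℝ} (hm : 0 < m) (ξ s : ℝ) :
    eop (m:ℂ) (ex ξ) s = ((1 / (m ^ 2 + ξ ^ 2) : ℝ) : ℂ) * ex ξ s := by
  have hpos : (0:ℝ) < m ^ 2 + ξ ^ 2 := by positivity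
  have hne : ((m:ℂ) ^ 2 + (ξ:ℂ) ^ 2) ≠ 0 := by exact_mod_cast hpos.ne'
  have h1 : ∀ s, HasDerivAt (fun s => ((1 / (m ^ 2 + ξ ^ 2) : ℝ) : ℂ) * ex ξ s)
      (((1 / (m ^ 2 + ξ ^ 2) : ℝ) : ℂ) * (ξ * Complex.I * ex ξ s)) s :=
    fun s => (ex_hasDerivAt ξ s).const_mul _
  have h2 : ∀ s, HasDerivAt (fun s => ((1 / (m ^ 2 + ξ ^ 2) : ℝ) : ℂ) * (ξ * Complex.I * ex ξ s))
      ((m:ℂ) ^ 2 * (((1 / (m ^ 2 + ξ ^ 2) : ℝ) : ℂ) * ex ξ s) - ex ξ s) s := by
    intro s
    refine (((ex_hasDerivAt ξ s).const_mul ((ξ:ℂ) * Complex.I)).const_mul _).congr_deriv ?_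
    push_cast
    field_simp
    rw [Complex.I_sq]
    ring
  have := bounded_unique hm (CB_ex ξ) h1 h2 (C := ‖((1 / (m ^ 2 + ξ ^ 2) : ℝ) : ℂ)‖)
    (fun s => by rw [norm_mul, norm_ex, mul_one])
  rw [← this]

section conv

/-- the finite measure with density `gk m (r²)` -/
noncomputable def gmeas (m : ℝ) : Measure ℝ :=
  volume.withDensity fun r => ENNReal.ofReal (gk m (r ^ 2))

/-- the finite measure with density `exp (-m |r|) / (8 m)` -/
noncomputable def emeas (m : ℝ) : Measure ℝ :=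
  volume.withDensity fun r => ENNReal.ofReal (Real.exp (-m * |r|) / (8 * m))

lemma gmeas_finite {m : ℝ} (hm : 0 < m) : IsFiniteMeasure (gmeas m) :=
  isFiniteMeasure_withDensity_ofReal (N_integrable hm).2

lemma E_integrable {m : ℝ} (hm : 0 < m) : Integrable (fun r : ℝ => Real.exp (-m * |r|) / (8 * m)) := by
  have := (integrable_exp_abs hm 0).div_const (8 * m)
  simpa using this

lemma emeas_finite {m : ℝ} (hm : 0 < m) : IsFiniteMeasure (emeas m) :=
  isFiniteMeasure_withDensity_ofReal (E_integrable hm).2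

lemma integral_wd {w : ℝ → ℝ} (hw : AEStronglyMeasurable w volume) (h0 : ∀ r, 0 ≤ w r)
    (F : ℝ → ℂ) :
    ∫ r, F r ∂(volume.withDensity fun r => ENNReal.ofReal (w r)) = ∫ r, (w r : ℂ) * F r := by
  rw [integral_withDensity_eq_integral_toReal_smul₀ hw.aemeasurable.ennreal_ofReal
    (Eventually.of_forall fun r => ENNReal.ofReal_lt_top)]
  refine integral_congr_ae (Eventually.of_forall fun r => ?_)
  simp only
  rw [ENNReal.toReal_ofReal (h0 r), Complex.real_smul]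

lemma integral_gmeas {m : ℝ} (hm : 0 < m) (F : ℝ → ℂ) :
    ∫ r, F r ∂(gmeas m) = ∫ r, (gk m (r ^ 2) : ℂ) * F r :=
  integral_wd (N_integrable hm).1 (fun _ => gk_nonneg _ _) F

lemma integral_emeas {m : ℝ} (hm : 0 < m) (F : ℝ → ℂ) :
    ∫ r, F r ∂(emeas m) = ∫ r, ((Real.exp (-m * |r|) / (8 * m) : ℝ) : ℂ) * F r :=
  integral_wd (E_integrable hm).1 (fun _ => by positivity) F

lemma gmeas_conv {m : ℝ} (hm : 0 < m) : (gmeas m).conv (gmeas m) = emeas m := by
  have := gmeas_finite hm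
  have := emeas_finite hm
  refine Measure.ext_of_charFun (funext fun ξ => ?_)
  rw [charFun_conv, charFun_apply_real, charFun_apply_real, integral_gmeas hm, integral_emeas hm]
  have e1 : ∫ r : ℝ, (gk m (r ^ 2) : ℂ) * Complex.exp (ξ * r * Complex.I)
      = ((1 / (2 * √(m ^ 2 + ξ ^ 2)) : ℝ) : ℂ) := by
    have h := gk_fourier hm ξ 0
    simp only [ne_eq, OfNat.ofNat_ne_zero, not_false_eq_true, zero_pow, add_zero, abs_zero,
      mul_zero, neg_zero, Real.exp_zero] at h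
    rw [← h]
    refine integral_congr_ae (Eventually.of_forall fun r => ?_)
    simp only [ex]
    congr 2
    ring
  have e2 : ∫ r : ℝ, ((Real.exp (-m * |r|) / (8 * m) : ℝ) : ℂ) * Complex.exp (ξ * r * Complex.I)
      = ((1 / (4 * (m ^ 2 + ξ ^ 2)) : ℝ) : ℂ) := by
    have h := eop_ex hm ξ 0
    have hm' : (m:ℂ) ≠ 0 := by exact_mod_cast hm.ne'
    have e3 : ∀ r : ℝ, ((Real.exp (-m * |r|) / (8 * m) : ℝ) : ℂ) * Complex.exp (ξ * r * Complex.I)
        = (1 / 4) * (ek (m:ℂ) (0 - r) * ex ξ r) := by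
      intro r
      simp only [ek, ex, zero_sub, abs_neg]
      rw [show (ξ:ℂ) * r * Complex.I = ξ * Complex.I * r by ring]
      push_cast
      field_simp
      ring
    simp only [e3]
    rw [integral_const_mul]
    change (1 / 4 : ℂ) * eop (m:ℂ) (ex ξ) 0 = _
    rw [h]
    simp only [ex, Complex.ofReal_zero, mul_zero, Complex.exp_zero, mul_one]
    have hpos : (0:ℝ) < m ^ 2 + ξ ^ 2 := by positivity
    have hne : ((m:ℂ) ^ 2 + (ξ:ℂ) ^ 2) ≠ 0 := by exact_mod_cast hpos.ne'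
    push_cast
    field_simp
  rw [e1, e2, ← Complex.ofReal_mul]
  congr 1
  have hs : √(m ^ 2 + ξ ^ 2) * √(m ^ 2 + ξ ^ 2) = m ^ 2 + ξ ^ 2 := Real.mul_self_sqrt (by positivity)
  have hpos : (0:ℝ) < √(m ^ 2 + ξ ^ 2) := Real.sqrt_pos.2 (by positivity)
  rw [div_mul_div_comm, one_mul]
  congr 1
  nlinarith [hs]

/-- `A0² = (1/4) (-d²/ds² + m²)⁻¹` -/
lemma A0_sq {m M : ℝ} (hm : 0 < m) {f : ℝ → ℂ} (hf : CB M f) (s : ℝ) :
    A0 m (A0 m f) s = (1 / 4) * eop (m:ℂ) f s := by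
  have := gmeas_finite hm
  have := emeas_finite hm
  have hc := hf.1
  have h1 : A0 m (A0 m f) s = ∫ x, ∫ y, f (s - (x + y)) ∂(gmeas m) ∂(gmeas m) := by
    rw [integral_gmeas hm, A0]
    refine integral_congr_ae (Eventually.of_forall fun x => ?_)
    simp only
    rw [integral_gmeas hm, A0]
    congr 2
    ext y
    congr 2
    ring
  have hint : Integrable (fun z => f (s - z)) ((gmeas m).conv (gmeas m)) := by
    refine Integrable.of_bound (C := M) ?_ (Eventually.of_forall fun z => hf.2 _)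
    exact Continuous.aestronglyMeasurable (by fun_prop)
  rw [h1, ← integral_conv hint, gmeas_conv hm, integral_emeas hm, eop,
    ← integral_sub_left_eq_self _ _ s, ← integral_const_mul]
  refine integral_congr_ae (Eventually.of_forall fun x => ?_)
  simp only [ek, sub_sub_cancel]
  have hm' : (m:ℂ) ≠ 0 := by exact_mod_cast hm.ne'
  rw [abs_sub_comm]
  push_cast
  field_simp
  ring

end conv

end Pool.Agent.Helper97.Scat
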