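import Pool.Agent.Helper97.Scat.Comp

/-!
# Compactness of `R₀ V` and invertibility of `1 - R₀ V`
-/

open MeasureTheory Filter Topology Set Real
open scoped BoundedContinuousFunction

namespace Pool.Agent.Helper97.Scat

namespace Pot
variable {V : ℝ → ℝ} {R : ℝ} (P : Pot V R)
include P

lemma set_integrable (S : Set ℝ) {f : ℝ → ℂ} {M : ℝ} (hf : CB M f) :
    IntegrableOn (fun t => (V t : ℂ) * f t) S := (P.mul_integrable hf).integrableOn

/-- the functional `f ↦ ∫_S V f` -/
noncomputable def fun_on (S : Set ℝ) : X →L[ℂ] ℂ :=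
  LinearMap.mkContinuous
    { toFun := fun f => ∫ t in S, (V t : ℂ) * f t
      map_add' := fun f g => by
        rw [← integral_add (P.set_integrable S (X_CB f)) (P.set_integrable S (X_CB g))]
        congr 1; ext t
        rw [BoundedContinuousFunction.add_apply]; ring
      map_smul' := fun c f => by
        rw [RingHom.id_apply, smul_eq_mul, ← integral_const_mul]
        congr 1; ext t
        rw [BoundedContinuousFunction.smul_apply, smul_eq_mul]; ring } (∫ t, |V t|)
    (fun f => by
      refine le_trans ?_ (P.mul_norm_integral (X_CB f))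
      refine (norm_integral_le_integral_norm _).trans ?_
      exact setIntegral_le_integral (P.mul_integrable (X_CB f)).norm
        (Eventually.of_forall fun t => norm_nonneg _))

lemma fun_on_apply (S : Set ℝ) (f : X) : P.fun_on S f = ∫ t in S, (V t : ℂ) * f t := rfl

omit P in
lemma rk_CB (k t₀ : ℝ) : CB (1 / (2 * |k|)) (fun s => rk k (s - t₀)) :=
  ⟨by have := continuous_rk k; fun_prop, fun s => (norm_rk k _).le⟩

/-- the cell of index `j` -/
def cell (N : ℕ) (j : ℤ) : Set ℝ := {t : ℝ | ⌊(N : ℝ) * t⌋ = j}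

omit P in
lemma cell_meas (N : ℕ) (j : ℤ) : MeasurableSet (cell N j) := by
  have : Measurable (fun t : ℝ => ⌊(N : ℝ) * t⌋) := by fun_prop
  exact this (measurableSet_singleton j)

/-- finite rank approximation of `R₀ V` -/
noncomputable def approx (k : ℝ) (N : ℕ) : X →L[ℂ] X :=
  ∑ j ∈ Finset.Icc (-(⌈(N : ℝ) * R⌉ + 1)) (⌈(N : ℝ) * R⌉ + 1),
    (P.fun_on (cell N j)).smulRight (mkX _ (rk_CB k (j / N)))

lemma approx_compact (k : ℝ) (N : ℕ) : IsCompactOperator (P.approx k N) := by
  unfold approx
  have : (∑ j ∈ Finset.Icc (-(⌈(N : ℝ) * R⌉ + 1)) (⌈(N : ℝ) * R⌉ + 1),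
    (P.fun_on (cell N j)).smulRight (mkX _ (rk_CB k (j / N)))) ∈ compactOperator (RingHom.id ℂ) X X := by
    refine Submodule.sum_mem _ fun j _ => ?_
    have h1 : IsCompactOperator ((ContinuousLinearMap.toSpanSingleton ℂ (mkX _ (rk_CB k (j / N))) : ℂ →L[ℂ] X)) :=
      isCompactOperator_of_locallyCompactSpace_rng _
    exact h1.comp_clm (P.fun_on (cell N j))
  exact this

lemma approx_apply (k : ℝ) (N : ℕ) (f : X) (s : ℝ) : P.approx k N f s
    = ∑ j ∈ Finset.Icc (-(⌈(N : ℝ) * R⌉ + 1)) (⌈(N : ℝ) * R⌉ + 1),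
      ∫ t, (cell N j).indicator (fun t => (V t : ℂ) * f t * rk k (s - j / N)) t := by
  unfold approx
  rw [sum_apply, BoundedContinuousFunction.coe_sum, Finset.sum_apply]
  refine Finset.sum_congr rfl fun j _ => ?_
  rw [ContinuousLinearMap.smulRight_apply, BoundedContinuousFunction.smul_apply, mkX_apply,
    fun_on_apply, integral_indicator (cell_meas N j), smul_eq_mul, integral_mul_const]

lemma approx_close {k : ℝ} (hk : k ≠ 0) {N : ℕ} (hN : 0 < N) :
    ‖P.approx k N - (P.bop hk).clm‖ ≤ 1 / (2 * N) * ∫ t, |V t| := by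
  have hI0 : 0 ≤ ∫ t, |V t| := integral_nonneg fun _ => abs_nonneg _
  have hN' : (0:ℝ) < N := by exact_mod_cast hN
  refine ContinuousLinearMap.opNorm_le_bound _ (by positivity) fun f => ?_
  refine (BoundedContinuousFunction.norm_le (by positivity)).2 fun s => ?_
  rw [sub_apply, BoundedContinuousFunction.sub_apply, approx_apply, BOp.clm_apply, R0_eq_integral]
  have hc := X_CB f
  have hi : ∀ j : ℤ, Integrable ((cell N j).indicator
      (fun t => (V t : ℂ) * f t * rk k (s - j / N))) := fun j =>
    ((P.mul_integrable hc).mul_const _).indicator (cell_meas N j)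
  have hi2 : Integrable (fun t => rk k (s - t) * ((V t : ℂ) * f t)) :=
    (P.mul_integrable hc).bdd_mul (c := 1 / (2 * |k|))
        (by have := continuous_rk k; fun_prop) (Eventually.of_forall fun t => (norm_rk k _).le)
  rw [← integral_finsetSum _ (fun j _ => hi j), ← integral_sub (integrable_finsetSum _
    (fun j _ => hi j)) hi2]
  calc ‖∫ t, ((∑ j ∈ Finset.Icc (-(⌈(N : ℝ) * R⌉ + 1)) (⌈(N : ℝ) * R⌉ + 1),
        (cell N j).indicator (fun t => (V t : ℂ) * f t * rk k (s - j / N)) t)
          - rk k (s - t) * ((V t : ℂ) * f t))‖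
      ≤ ∫ t, |V t| * (1 / (2 * N) * ‖f‖) := by
        refine norm_integral_le_of_norm_le (P.integrable.abs.mul_const _)
          (Eventually.of_forall fun t => ?_)
        by_cases hV : V t = 0
        · have : ∀ j : ℤ, (cell N j).indicator (fun t => (V t : ℂ) * f t * rk k (s - j / N)) t = 0 := by
            intro j
            by_cases hj : t ∈ cell N j
            · rw [indicator_of_mem hj, hV]; simp
            · rw [indicator_of_notMem hj]
          simp only [this]
          simp [hV]
        have ht : |t| < R := by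
          by_contra hlt
          exact hV (P.supp t (not_lt.1 hlt))
        have hfl1 : (⌊(N : ℝ) * t⌋ : ℝ) ≤ N * t := Int.floor_le _
        have hfl2 : (N : ℝ) * t < ⌊(N : ℝ) * t⌋ + 1 := Int.lt_floor_add_one _
        have hce : (N : ℝ) * R ≤ ⌈(N : ℝ) * R⌉ := Int.le_ceil _
        have habs := abs_lt.1 ht
        have hmem : ⌊(N : ℝ) * t⌋ ∈ Finset.Icc (-(⌈(N : ℝ) * R⌉ + 1)) (⌈(N : ℝ) * R⌉ + 1) := by
          rw [Finset.mem_Icc]
          constructor
          · have : (-(⌈(N : ℝ) * R⌉ + 1 : ℤ) : ℝ) ≤ ⌊(N : ℝ) * t⌋ := by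
              push_cast
              nlinarith
            exact_mod_cast this
          · have : ((⌊(N : ℝ) * t⌋ : ℤ) : ℝ) ≤ ((⌈(N : ℝ) * R⌉ + 1 : ℤ) : ℝ) := by
              push_cast
              nlinarith
            exact_mod_cast this
        rw [Finset.sum_eq_single_of_mem _ hmem]
        · rw [indicator_of_mem (show t ∈ cell N ⌊(N : ℝ) * t⌋ from rfl)]
          have e : (V t : ℂ) * f t * rk k (s - ⌊(N : ℝ) * t⌋ / N) - rk k (s - t) * ((V t : ℂ) * f t)
              = (V t : ℂ) * ((rk k (s - ⌊(N : ℝ) * t⌋ / N) - rk k (s - t)) * f t) := by ring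
          rw [e, norm_mul, norm_mul, Complex.norm_real, Real.norm_eq_abs]
          have h1 := rk_lip hk (s - ⌊(N : ℝ) * t⌋ / N) (s - t)
          have h2 : |s - ⌊(N : ℝ) * t⌋ / N - (s - t)| ≤ 1 / N := by
            rw [show s - (⌊(N : ℝ) * t⌋ : ℝ) / N - (s - t) = (N * t - ⌊(N : ℝ) * t⌋) / N by
              field_simp; ring]
            rw [abs_of_nonneg (div_nonneg (by linarith) hN'.le)]
            gcongr
            linarith
          have h3 : ‖rk k (s - ⌊(N : ℝ) * t⌋ / N) - rk k (s - t)‖ ≤ 1 / (2 * N) := by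
            refine h1.trans ?_
            calc |s - ⌊(N : ℝ) * t⌋ / N - (s - t)| / 2 ≤ (1 / N) / 2 := by gcongr
              _ = _ := by field_simp
          gcongr
          exact hc.2 t
        · intro j _ hj
          rw [indicator_of_notMem]
          intro hmem2
          exact hj (show ⌊(N : ℝ) * t⌋ = j from hmem2).symm
    _ = _ := by rw [integral_mul_const]; ring

lemma compact {k : ℝ} (hk : k ≠ 0) : IsCompactOperator (P.bop hk).clm := by
  have hlim : Tendsto (fun N : ℕ => P.approx k N) atTop (𝓝 (P.bop hk).clm) := by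
    rw [tendsto_iff_norm_sub_tendsto_zero]
    have h1 : Tendsto (fun N : ℕ => 1 / (2 * (N:ℝ)) * ∫ t, |V t|) atTop (𝓝 0) := by
      have : Tendsto (fun N : ℕ => 1 / (2 * (N:ℝ))) atTop (𝓝 0) := by
        have h2 : Tendsto (fun N : ℕ => 2 * (N:ℝ)) atTop atTop :=
          tendsto_natCast_atTop_atTop.const_mul_atTop two_pos
        exact tendsto_const_nhds.div_atTop h2
      simpa using this.mul_const (∫ t, |V t|)
    refine squeeze_zero' (Eventually.of_forall fun N => norm_nonneg _) ?_ h1
    filter_upwards [eventually_gt_atTop 0] with N hN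
    exact P.approx_close hk hN
  exact isCompactOperator_of_tendsto hlim (Eventually.of_forall fun N => P.approx_compact k N)

/-- `1 - R₀ V` is invertible -/
lemma isUnit {k : ℝ} (hk : k ≠ 0) : IsUnit (1 - (P.bop hk).clm) := by
  rcases (P.compact hk).hasEigenvalue_or_mem_resolventSet (μ := (1:ℂ)) one_ne_zero with h | h
  · exfalso
    obtain ⟨f, hf⟩ := h.exists_hasEigenvector
    have h1 : (P.bop hk).clm f = f := by
      have := hf.apply_eq_smul
      simpa using this
    apply hf.2
    ext s
    exact P.outgoing_zero hk (X_CB f) (fun s => by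
      have := congrArg (fun g : X => g s) h1
      exact this.symm) s
  · rw [spectrum.mem_resolventSet_iff] at h
    simpa using h

end Pot

end Pool.Agent.Helper97.Scat
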