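import Pool.Agent.Helper97.Scat.Neu

/-!
# The operator `K_α` and its limit `R₀ V`
-/

open MeasureTheory Filter Topology Set Real
open scoped BoundedContinuousFunction

namespace Pool.Agent.Helper97.Scat

/-- the constant bounding the perturbation -/
noncomputable def C0 (c R : ℝ) : ℝ := 192 * Real.exp (2 * R) / c ^ 5

/-- `D f` -/
noncomputable def Dop (a m : ℝ) (γ : ℝ → ℂ) (f : ℝ → ℂ) : ℝ → ℂ := kop (Dk a m γ) f

/-- `h = (1 + A₀) D f` -/
noncomputable def hop (a m : ℝ) (γ : ℝ → ℂ) (f : ℝ → ℂ) (s : ℝ) : ℂ :=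
  Dop a m γ f s + L0 a m (Dop a m γ f) s

/-- `V_α f = a² h` -/
noncomputable def Vop (a m : ℝ) (γ : ℝ → ℂ) (f : ℝ → ℂ) (s : ℝ) : ℂ := (a:ℂ) ^ 2 * hop a m γ f s

/-- `K_α f = R₀ V_α f + h` -/
noncomputable def Kop (k a m : ℝ) (γ : ℝ → ℂ) (f : ℝ → ℂ) (s : ℝ) : ℂ :=
  R0 k (Vop a m γ f) s + hop a m γ f s

lemma exp_abs_le_one (s : ℝ) : Real.exp (-|s|) ≤ 1 := Real.exp_le_one_iff.2 (by simp)

lemma exp_abs_integrable : Integrable (fun s : ℝ => Real.exp (-|s|)) := by
  have := integrable_exp_abs one_pos 0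
  simpa using this

namespace Data
variable {γ g1 g2 g3 g4 : ℝ → ℂ} {R c K : ℝ} (D : Data γ g1 g2 g3 g4 R c K)
include D

lemma C0_nonneg : 0 ≤ C0 c R := by
  have := D.hc
  unfold C0; positivity

lemma Nr : Near γ (c / 2) := near_of_full D.continuous D.hc D.chord

lemma Dop_le {a m k M : ℝ} (h : Reg a m k c) {f : ℝ → ℂ} (hf : CB M f) (s : ℝ) :
    ‖Dop a m γ f s‖ ≤ C0 c R * K ^ 2 / a ^ 2 * M * Real.exp (-|s|) := by
  have ha := h.a_pos
  have hm := h.m_pos
  have hc := D.hc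
  have hM := hf.nonneg
  have h1 := (D.Dk_dom ha hm h.cm).kop_le (by positivity) hm hc hf.2 s
  refine h1.trans ?_
  have r3 := h.ratio3
  have hE := Real.exp_pos (2 * R)
  have hE2 := Real.exp_pos (-|s|)
  calc 32 * a * K ^ 2 / (c ^ 4 * m ^ 2) * M * (2 * Real.exp (2 * R) / (m * c)) * Real.exp (-|s|)
      = 64 * Real.exp (2 * R) / c ^ 5 * K ^ 2 / a ^ 2 * M * Real.exp (-|s|) * (a / m) ^ 3 := by
        field_simp
        ring
    _ ≤ 64 * Real.exp (2 * R) / c ^ 5 * K ^ 2 / a ^ 2 * M * Real.exp (-|s|) * 3 := by gcongr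
    _ = _ := by unfold C0; ring

lemma Dop_cont {a m k M : ℝ} (h : Reg a m k c) {f : ℝ → ℂ} (hf : CB M f) :
    Continuous (Dop a m γ f) := by
  have ha := h.a_pos
  have hm := h.m_pos
  have hc := D.hc
  have hc2 : 0 < c / 2 := by positivity
  have e : Dop a m γ f = fun s => ((2 * a : ℝ) : ℂ) * lay m γ f (γ s) - L0 a m f s := by
    ext s
    rw [Dop, kop, lay, L0, A0_eq, ← mul_sub]
    have i1 := lay_integrable hm hc2 D.continuous D.Nr hf.1.aestronglyMeasurable hf.2 (γ s)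
    have i2 : Integrable (fun t => (gk m ((s - t) ^ 2) : ℂ) * f t) := by
      have hρ : ∀ r : ℝ, (1:ℝ) ^ 2 * (r - s) ^ 2 ≤ (s - r) ^ 2 := fun r => by
        rw [one_pow, one_mul]; exact le_of_eq (by ring)
      exact gk_integrable hm one_pos (by fun_prop) hρ hf.1.aestronglyMeasurable hf.2
    rw [← integral_sub i1 i2, ← integral_const_mul]
    congr 1; ext t
    rw [Dk]
    push_cast
    ring
  rw [e]
  have h1 := lay_continuous hm hc2 D.continuous D.Nr hf.1.aestronglyMeasurable hf.2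
  exact (continuous_const.mul (h1.comp D.continuous)).sub (L0_CB hm ha hf).1

lemma Dop_CB {a m k M : ℝ} (h : Reg a m k c) {f : ℝ → ℂ} (hf : CB M f) :
    CB (C0 c R * K ^ 2 / a ^ 2 * M) (Dop a m γ f) := by
  refine ⟨D.Dop_cont h hf, fun s => (D.Dop_le h hf s).trans ?_⟩
  have h1 := exp_abs_le_one s
  have h2 := D.C0_nonneg
  have h3 := hf.nonneg
  exact mul_le_of_le_one_right (by positivity) h1

lemma Dop_integrable {a m k M : ℝ} (h : Reg a m k c) {f : ℝ → ℂ} (hf : CB M f) :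
    Integrable (Dop a m γ f) :=
  (D.Dk_dom h.a_pos h.m_pos h.cm).kop_integrable (by
    have := h.a_pos
    have := h.m_pos
    have := D.hc
    positivity) h.m_pos D.hc hf.1.aestronglyMeasurable hf.2

lemma Dop_norm_integral {a m k M : ℝ} (h : Reg a m k c) {f : ℝ → ℂ} (hf : CB M f) :
    ∫ s, ‖Dop a m γ f s‖ ≤ 2 * (C0 c R * K ^ 2 / a ^ 2 * M) := by
  calc ∫ s, ‖Dop a m γ f s‖ ≤ ∫ s, C0 c R * K ^ 2 / a ^ 2 * M * Real.exp (-|s|) :=
        integral_mono (D.Dop_integrable h hf).norm (exp_abs_integrable.const_mul _)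
          (fun s => D.Dop_le h hf s)
    _ = _ := by rw [integral_const_mul, integral_exp_neg_abs]; ring

lemma hop_CB {a m k M : ℝ} (h : Reg a m k c) {f : ℝ → ℂ} (hf : CB M f) :
    CB (5 / 2 * (C0 c R * K ^ 2 / a ^ 2 * M)) (hop a m γ f) := by
  have h1 := D.Dop_CB h hf
  have h2 := h1.add (L0_CB (a := a) h.m_pos h.a_pos h1)
  refine ⟨h2.1, fun s => (h2.2 s).trans ?_⟩
  have r1 := h.am
  have h3 := h1.nonneg
  nlinarith

lemma hop_integrable {a m k M : ℝ} (h : Reg a m k c) {f : ℝ → ℂ} (hf : CB M f) :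
    Integrable (hop a m γ f) := by
  have h1 := D.Dop_integrable h hf
  exact h1.add ((A0_integrable' h.m_pos h1).const_mul _)

lemma hop_norm_integral {a m k M : ℝ} (h : Reg a m k c) {f : ℝ → ℂ} (hf : CB M f) :
    ∫ s, ‖hop a m γ f s‖ ≤ 5 * (C0 c R * K ^ 2 / a ^ 2 * M) := by
  have ha := h.a_pos
  have hm := h.m_pos
  have h1 := D.Dop_integrable h hf
  have h2 := D.Dop_norm_integral h hf
  have h3 := A0_norm_integral hm h1
  have hnn : 0 ≤ C0 c R * K ^ 2 / a ^ 2 * M := (D.Dop_CB h hf).nonneg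
  have hi := (A0_integrable' hm h1)
  calc ∫ s, ‖hop a m γ f s‖ ≤ ∫ s, (‖Dop a m γ f s‖ + 2 * a * ‖A0 m (Dop a m γ f) s‖) := by
        refine integral_mono (D.hop_integrable h hf).norm (h1.norm.add (hi.norm.const_mul _)) fun s => ?_
        simp only [hop, L0]
        refine (norm_add_le _ _).trans ?_
        rw [norm_mul, Complex.norm_real, Real.norm_of_nonneg (by positivity)]
    _ = (∫ s, ‖Dop a m γ f s‖) + 2 * a * ∫ s, ‖A0 m (Dop a m γ f) s‖ := by
        rw [integral_add h1.norm (hi.norm.const_mul _), integral_const_mul]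
    _ ≤ (∫ s, ‖Dop a m γ f s‖) + 2 * a * (1 / (2 * m) * ∫ s, ‖Dop a m γ f s‖) := by gcongr
    _ = (1 + a / m) * ∫ s, ‖Dop a m γ f s‖ := by field_simp
    _ ≤ (1 + 3 / 2) * (2 * (C0 c R * K ^ 2 / a ^ 2 * M)) := by
        have r1 := h.am
        have : 0 ≤ ∫ s, ‖Dop a m γ f s‖ := integral_nonneg fun _ => norm_nonneg _
        have r2 := h.ratio_ge
        gcongr
    _ = _ := by ring

lemma Vop_CB {a m k M : ℝ} (h : Reg a m k c) {f : ℝ → ℂ} (hf : CB M f) :
    CB (5 / 2 * (C0 c R * K ^ 2 * M)) (Vop a m γ f) := by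
  have ha := h.a_pos
  have h1 := (D.hop_CB h hf).const_mul ((a:ℂ) ^ 2)
  refine ⟨h1.1, fun s => (h1.2 s).trans (le_of_eq ?_)⟩
  rw [norm_pow, Complex.norm_real, Real.norm_of_nonneg ha.le]
  field_simp

lemma Vop_integrable {a m k M : ℝ} (h : Reg a m k c) {f : ℝ → ℂ} (hf : CB M f) :
    Integrable (Vop a m γ f) := (D.hop_integrable h hf).const_mul _

lemma Vop_norm_integral {a m k M : ℝ} (h : Reg a m k c) {f : ℝ → ℂ} (hf : CB M f) :
    ∫ s, ‖Vop a m γ f s‖ ≤ 5 * (C0 c R * K ^ 2 * M) := by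
  have ha := h.a_pos
  have h1 := D.hop_norm_integral h hf
  have e : ∀ s, ‖Vop a m γ f s‖ = a ^ 2 * ‖hop a m γ f s‖ := by
    intro s
    rw [Vop, norm_mul, norm_pow, Complex.norm_real, Real.norm_of_nonneg ha.le]
  simp only [e]
  rw [integral_const_mul]
  calc a ^ 2 * ∫ s, ‖hop a m γ f s‖ ≤ a ^ 2 * (5 * (C0 c R * K ^ 2 / a ^ 2 * M)) := by gcongr
    _ = _ := by field_simp

lemma Dop_add {a m k M N : ℝ} (h : Reg a m k c) {f g : ℝ → ℂ} (hf : CB M f) (hg : CB N g) :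
    Dop a m γ (fun s => f s + g s) = fun s => Dop a m γ f s + Dop a m γ g s := by
  have ha := h.a_pos
  have hm := h.m_pos
  have hc := D.hc
  have hd := D.Dk_dom ha hm h.cm
  ext s
  rw [Dop, Dop, Dop, kop, kop, kop, ← integral_add
    (hd.section_integrable (by positivity) hm hc hf.1.aestronglyMeasurable hf.2 s)
    (hd.section_integrable (by positivity) hm hc hg.1.aestronglyMeasurable hg.2 s)]
  congr 1; ext t; ring

omit D in
lemma Dop_smul (a m : ℝ) (z : ℂ) (f : ℝ → ℂ) :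
    Dop a m γ (fun s => z * f s) = fun s => z * Dop a m γ f s := by
  ext s
  rw [Dop, Dop, kop, kop, ← integral_const_mul]
  congr 1; ext t; ring

lemma hop_add {a m k M N : ℝ} (h : Reg a m k c) {f g : ℝ → ℂ} (hf : CB M f) (hg : CB N g) :
    hop a m γ (fun s => f s + g s) = fun s => hop a m γ f s + hop a m γ g s := by
  ext s
  rw [hop, D.Dop_add h hf hg, L0_add h.m_pos (D.Dop_CB h hf) (D.Dop_CB h hg), hop, hop]
  ring

omit D in
lemma hop_smul (a m : ℝ) (z : ℂ) (f : ℝ → ℂ) :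
    hop a m γ (fun s => z * f s) = fun s => z * hop a m γ f s := by
  ext s
  rw [hop, Dop_smul, L0_const_mul, hop]
  ring

omit D in
lemma R0_add' {k : ℝ} {p q : ℝ → ℂ} (hp : Integrable p) (hq : Integrable q) (s : ℝ) :
    R0 k (fun s => p s + q s) s = R0 k p s + R0 k q s := by
  have hb : ∀ {p : ℝ → ℂ}, Integrable p → Integrable (fun t => rk k (s - t) * p t) :=
    fun {p} hp => hp.bdd_mul (c := 1 / (2 * |k|))
      (by have := continuous_rk k; fun_prop) (Eventually.of_forall fun t => (norm_rk k _).le)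
  simp only [R0_eq_integral]
  rw [← integral_add (hb hp) (hb hq)]
  congr 1; ext t; ring

omit D in
lemma R0_smul' (k : ℝ) (z : ℂ) (q : ℝ → ℂ) (s : ℝ) :
    R0 k (fun s => z * q s) s = z * R0 k q s := by
  simp only [R0_eq_integral]
  rw [← integral_const_mul]
  congr 1; ext t; ring

/-- the constant of `K_α` -/
lemma Kop_bop {a m k : ℝ} (h : Reg a m k c) (hk : k ≠ 0) :
    BOp (Kop k a m γ) ((5 / (2 * |k|) + 5 / 2) * (C0 c R * K ^ 2)) where
  nonneg := by
    have := D.C0_nonneg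
    positivity
  map := fun M f hf => by
    have ha := h.a_pos
    have h1a := h.one_le
    have hV := D.Vop_integrable h hf
    have hVc := (D.Vop_CB h hf).1
    have hh := D.hop_CB h hf
    refine ⟨?_, fun s => ?_⟩
    · have : Continuous (R0 k (Vop a m γ f)) := continuous_iff_continuousAt.2 fun s =>
        (R0_hasDerivAt hk hV hVc s).continuousAt
      exact this.add hh.1
    · have h1 := (norm_R0_le k hV s).trans (mul_le_mul_of_nonneg_left (D.Vop_norm_integral h hf)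
        (by positivity))
      have h2 := hh.2 s
      have h3 : C0 c R * K ^ 2 / a ^ 2 * M ≤ C0 c R * K ^ 2 * M := by
        have := D.C0_nonneg
        have hM := hf.nonneg
        have : C0 c R * K ^ 2 / a ^ 2 ≤ C0 c R * K ^ 2 := div_le_self (by positivity) (by nlinarith)
        gcongr
      refine (norm_add_le _ _).trans ((add_le_add h1 h2).trans ?_)
      have e : (5 / (2 * |k|) + 5 / 2) * (C0 c R * K ^ 2) * M
          = 1 / (2 * |k|) * (5 * (C0 c R * K ^ 2 * M)) + 5 / 2 * (C0 c R * K ^ 2 * M) := by ring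
      rw [e]
      linarith
  add := fun M N f g hf hg s => by
    rw [Kop, Kop, Kop]
    have e : Vop a m γ (fun s => f s + g s) = fun s => Vop a m γ f s + Vop a m γ g s := by
      ext s
      rw [Vop, D.hop_add h hf hg, Vop, Vop]; ring
    rw [e, R0_add' (D.Vop_integrable h hf) (D.Vop_integrable h hg), D.hop_add h hf hg]
    ring
  smul := fun M z f hf s => by
    rw [Kop, Kop]
    have e : Vop a m γ (fun s => z * f s) = fun s => z * Vop a m γ f s := by
      ext s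
      rw [Vop, hop_smul, Vop]; ring
    rw [e, R0_smul', hop_smul]
    ring

/-- the curvature potential -/
noncomputable def _root_.Pool.Agent.Helper97.Scat.Vc (g2 : ℝ → ℂ) (s : ℝ) : ℝ := ‖g2 s‖ ^ 2 / 4

lemma pot : Pot (Vc g2) R where
  cont := by
    have := D.continuous2
    unfold Vc; fun_prop
  supp := fun s hs => by simp [Vc, D.supp s hs]
  hR := D.hR

/-- pairing with `V_α f` -/
lemma pair_Vop {a m k M N : ℝ} (h : Reg a m k c) {φ f : ℝ → ℂ} (hφ : CB N φ) (hf : CB M f) :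
    ∫ s, φ s * Vop a m γ f s
      = (∫ s, ∫ t, ((2 * a ^ 2 * Dk a m γ s t : ℝ) : ℂ) * (φ s * f t))
        + (a:ℂ) ^ 2 * ∫ s, (L0 a m φ s - φ s) * Dop a m γ f s := by
  have ha := h.a_pos
  have hm := h.m_pos
  have hd := D.Dop_integrable h hf
  have i1 : Integrable (fun s => φ s * Dop a m γ f s) :=
    hd.bdd_mul (c := N) hφ.1.aestronglyMeasurable (Eventually.of_forall hφ.2)
  have i2 : Integrable (fun s => φ s * L0 a m (Dop a m γ f) s) :=
    ((A0_integrable' hm hd).const_mul _).bdd_mul (c := N) hφ.1.aestronglyMeasurable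
      (Eventually.of_forall hφ.2)
  have hL := L0_CB (a := a) hm ha hφ
  have i3 : Integrable (fun s => L0 a m φ s * Dop a m γ f s) :=
    hd.bdd_mul (c := a / m * N) hL.1.aestronglyMeasurable (Eventually.of_forall hL.2)
  have e1 : ∫ s, φ s * L0 a m (Dop a m γ f) s = ∫ s, L0 a m φ s * Dop a m γ f s := by
    have h1 := A0_symm hm hd hφ.1.aestronglyMeasurable hφ.2
    simp only [L0]
    have e2 : ∀ s, φ s * (((2 * a : ℝ) : ℂ) * A0 m (Dop a m γ f) s)
        = ((2 * a : ℝ) : ℂ) * (φ s * A0 m (Dop a m γ f) s) := fun s => by ring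
    have e3 : ∀ s, ((2 * a : ℝ) : ℂ) * A0 m φ s * Dop a m γ f s
        = ((2 * a : ℝ) : ℂ) * (A0 m φ s * Dop a m γ f s) := fun s => by ring
    simp only [e2, e3]
    rw [integral_const_mul, integral_const_mul, h1]
  have e4 : ∫ s, φ s * Vop a m γ f s
      = (a:ℂ) ^ 2 * ((∫ s, φ s * Dop a m γ f s) + ∫ s, L0 a m φ s * Dop a m γ f s) := by
    rw [← e1, ← integral_add i1 i2, ← integral_const_mul]
    congr 1; ext s
    rw [Vop, hop]; ring
  have e5 : ∫ s, (L0 a m φ s - φ s) * Dop a m γ f s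
      = (∫ s, L0 a m φ s * Dop a m γ f s) - ∫ s, φ s * Dop a m γ f s := by
    rw [← integral_sub i3 i1]
    congr 1; ext s; ring
  have e6 : ∫ s, ∫ t, ((2 * a ^ 2 * Dk a m γ s t : ℝ) : ℂ) * (φ s * f t)
      = 2 * (a:ℂ) ^ 2 * ∫ s, φ s * Dop a m γ f s := by
    rw [← integral_const_mul]
    congr 1; ext s
    rw [Dop, kop, ← integral_const_mul, ← integral_const_mul]
    congr 1; ext t
    push_cast; ring
  rw [e4, e5, e6]
  ring

/-- the remainder of the pairing -/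
lemma pair_rem {a m k M E : ℝ} (h : Reg a m k c) {φ f : ℝ → ℂ} (hE : 0 ≤ E) (hf : CB M f)
    (hφ : ∀ s, ‖L0 a m φ s - φ s‖ ≤ E) :
    ‖(a:ℂ) ^ 2 * ∫ s, (L0 a m φ s - φ s) * Dop a m γ f s‖ ≤ 2 * E * (C0 c R * K ^ 2 * M) := by
  have ha := h.a_pos
  have hd := D.Dop_integrable h hf
  rw [norm_mul, norm_pow, Complex.norm_real, Real.norm_of_nonneg ha.le]
  have h1 : ‖∫ s, (L0 a m φ s - φ s) * Dop a m γ f s‖ ≤ E * ∫ s, ‖Dop a m γ f s‖ := by
    rw [← integral_const_mul]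
    refine norm_integral_le_of_norm_le (hd.norm.const_mul E) (Eventually.of_forall fun s => ?_)
    rw [norm_mul]
    exact mul_le_mul_of_nonneg_right (hφ s) (norm_nonneg _)
  calc a ^ 2 * ‖∫ s, (L0 a m φ s - φ s) * Dop a m γ f s‖
      ≤ a ^ 2 * (E * (2 * (C0 c R * K ^ 2 / a ^ 2 * M))) := by
        have := D.Dop_norm_integral h hf
        gcongr
        exact h1.trans (by gcongr)
    _ = _ := by field_simp

/-- the constant of the norm convergence -/
noncomputable def _root_.Pool.Agent.Helper97.Scat.CK (c R k K : ℝ) : ℝ :=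
  Cw c R k * (K ^ 2 + K ^ 4) * (1 / (2 * |k|) + 1 / 2)
    + 2 * (3 * (1 / 2) + 2 * k ^ 2 * (1 / (2 * |k|))) * (C0 c R * K ^ 2)
    + 5 / 2 * (C0 c R * K ^ 2)

/-- norm convergence `K_α → R₀ V` with rate `1/a` -/
lemma Kop_close {a m k M : ℝ} (h : Reg a m k c) (hk : k ≠ 0) {f : ℝ → ℂ} (hf : CB M f) (s : ℝ) :
    ‖Kop k a m γ f s - R0 k (fun t => (Vc g2 t : ℂ) * f t) s‖ ≤ CK c R k K / a * M := by
  have ha := h.a_pos
  have h1a := h.one_le
  have hM := hf.nonneg
  have hC0 := D.C0_nonneg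
  have hk' : 0 < |k| := abs_pos.2 hk
  set φ : ℝ → ℂ := fun t => rk k (s - t) with hφ
  have hφc : CB (1 / (2 * |k|)) φ :=
    ⟨by have := continuous_rk k; fun_prop, fun t => (norm_rk k _).le⟩
  have hφl : ∀ x y, ‖φ x - φ y‖ ≤ 1 / 2 * |x - y| := fun x y => by
    have := rk_lip hk (s - x) (s - y)
    rw [show s - x - (s - y) = -(x - y) by ring, abs_neg] at this
    refine this.trans (le_of_eq (by ring))
  have h1 := D.weak1 h hφc hf hφl
  have h2 := D.pair_rem h (E := (3 * (1 / 2) + 2 * k ^ 2 * (1 / (2 * |k|))) / a) (by positivity) hf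
    (L0_lip h hφc hφl)
  have h3 := (D.hop_CB h hf).2 s
  have e : Kop k a m γ f s - R0 k (fun t => (Vc g2 t : ℂ) * f t) s
      = ((∫ x, ∫ t, ((2 * a ^ 2 * Dk a m γ x t : ℝ) : ℂ) * (φ x * f t))
          - ∫ x, ((‖g2 x‖ ^ 2 / 4 : ℝ) : ℂ) * (φ x * f x))
        + (a:ℂ) ^ 2 * (∫ x, (L0 a m φ x - φ x) * Dop a m γ f x) + hop a m γ f s := by
    rw [Kop, R0_eq_integral, R0_eq_integral]
    have e1 : ∫ t, rk k (s - t) * Vop a m γ f t = ∫ t, φ t * Vop a m γ f t := rfl
    have e2 : ∫ t, rk k (s - t) * ((Vc g2 t : ℂ) * f t)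
        = ∫ x, ((‖g2 x‖ ^ 2 / 4 : ℝ) : ℂ) * (φ x * f x) := by
      congr 1; ext t
      rw [Vc, hφ]; ring
    rw [e1, e2, D.pair_Vop h hφc hf]
    ring
  rw [e]
  refine (norm_add₃_le).trans ((add_le_add_three h1 h2 h3).trans ?_)
  have h4 : 5 / 2 * (C0 c R * K ^ 2 / a ^ 2 * M) ≤ 5 / 2 * (C0 c R * K ^ 2) / a * M := by
    have : C0 c R * K ^ 2 / a ^ 2 ≤ C0 c R * K ^ 2 / a := by
      apply div_le_div_of_nonneg_left (by positivity) ha
      nlinarith
    calc 5 / 2 * (C0 c R * K ^ 2 / a ^ 2 * M) ≤ 5 / 2 * (C0 c R * K ^ 2 / a * M) := by gcongr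
      _ = _ := by ring
  have e3 : CK c R k K / a * M = Cw c R k * (K ^ 2 + K ^ 4) * M * (1 / (2 * |k|) + 1 / 2) / a
      + 2 * ((3 * (1 / 2) + 2 * k ^ 2 * (1 / (2 * |k|))) / a) * (C0 c R * K ^ 2 * M)
      + 5 / 2 * (C0 c R * K ^ 2) / a * M := by
    unfold CK; ring
  rw [e3]
  linarith

end Data

end Pool.Agent.Helper97.Scat
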