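import Pool.Agent.Helper97.Scat.SMat

/-!
# Generalized eigenfunctions of the leaky curve
-/

open MeasureTheory Filter Topology Set Real
open scoped ContDiff

namespace Pool.Agent.Helper97.Scat

lemma momentum_eq {a p : ℝ} (hp : 0 < p) : momentum (2 * a) (p ^ 2 - (2 * a) ^ 2 / 4) = p := by
  rw [momentum, show p ^ 2 - (2 * a) ^ 2 / 4 + (2 * a) ^ 2 / 4 = p ^ 2 by ring, Real.sqrt_sq hp.le]

lemma profile_eq (a t : ℝ) : profile (2 * a) t = √a * Real.exp (-(a * |t|)) := by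
  rw [profile, show 2 * a / 2 = a by ring, show 2 * a * |t| / 2 = a * |t| by ring]

/-- the two forms of the weak equation -/
lemma weak_iff {a m p : ℝ} (hmk : m ^ 2 + p ^ 2 = a ^ 2) {ψ : ℂ → ℂ} {B : ℝ} (hψ : Continuous ψ)
    (hB : ∀ x, ‖ψ x‖ ≤ B) (γ : ℝ → ℂ) {φ : ℂ → ℝ} (hφ : IsTest φ) :
    ((∫ x, ψ x * ((-Laplacian.laplacian φ x : ℝ) : ℂ)) - (2 * a : ℝ) * (∫ s, ψ (γ s) * (φ (γ s) : ℂ))
      = (p ^ 2 - (2 * a) ^ 2 / 4 : ℝ) * ∫ x, ψ x * (φ x : ℂ)) ↔
    ∫ x, ψ x * ((m ^ 2 * φ x - lap φ x : ℝ) : ℂ) = (2 * a : ℝ) * ∫ t, ψ (γ t) * (φ (γ t) : ℂ) := by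
  have i1 : Integrable (fun x => ψ x * ((-lap φ x : ℝ) : ℂ)) :=
    (hφ.lap_test.integrable.neg.ofReal).bdd_mul (c := B) hψ.aestronglyMeasurable (Eventually.of_forall hB)
  have i2 : Integrable (fun x => ψ x * (φ x : ℂ)) :=
    hφ.integrable.ofReal.bdd_mul (c := B) hψ.aestronglyMeasurable (Eventually.of_forall hB)
  have e1 : ∀ x, Laplacian.laplacian φ x = lap φ x :=
    fun x => laplacian_eq_lap (hφ.smooth.of_le (by norm_cast)) x
  have e2 : ∫ x, ψ x * ((m ^ 2 * φ x - lap φ x : ℝ) : ℂ)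
      = (m:ℂ) ^ 2 * (∫ x, ψ x * (φ x : ℂ)) + ∫ x, ψ x * ((-lap φ x : ℝ) : ℂ) := by
    rw [← integral_const_mul, ← integral_add (i2.const_mul _) i1]
    congr 1; ext x; push_cast; ring
  have e3 : ((p ^ 2 - (2 * a) ^ 2 / 4 : ℝ) : ℂ) = -(m:ℂ) ^ 2 := by
    have : p ^ 2 - (2 * a) ^ 2 / 4 = -m ^ 2 := by linear_combination hmk
    rw [this]; push_cast; ring
  simp only [e1]
  rw [e2, e3]
  constructor
  · intro h; linear_combination h
  · intro h; linear_combination h

namespace Data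
variable {γ g1 g2 g3 g4 : ℝ → ℂ} {R c K : ℝ} (D : Data γ g1 g2 g3 g4 R c K)
include D

lemma deriv_eq : deriv γ = g1 := funext fun s => (D.d0 s).deriv

/-- the trace of the layer potential -/
lemma trace_eq {a m k M : ℝ} (h : Reg a m k c) {f : ℝ → ℂ} (hf : CB M f) (s : ℝ) :
    ((2 * a : ℝ) : ℂ) * lay m γ f (γ s) = L0 a m f s + Dop a m γ f s := by
  have ha := h.a_pos
  have hm := h.m_pos
  have hc := D.hc
  have i1 := (lay_integrable hm (show 0 < c / 2 by positivity) D.continuous D.Nr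
    hf.1.aestronglyMeasurable hf.2 (γ s))
  have i2 : Integrable (fun t => (gk m ((s - t) ^ 2) : ℂ) * f t) := by
    have := wave_int hm s 0 hf.1.aestronglyMeasurable hf.2
    refine this.congr (Eventually.of_forall fun t => ?_)
    simp
  rw [Dop, kop, lay, L0, A0_eq, ← integral_const_mul, ← integral_const_mul, ← integral_add (i2.const_mul _)]
  · congr 1; ext t
    rw [Dk]
    push_cast; ring
  · have := ((i1.const_mul ((2 * a : ℝ) : ℂ)).sub (i2.const_mul ((2 * a : ℝ) : ℂ)))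
    refine this.congr (Eventually.of_forall fun t => ?_)
    simp only [Pi.sub_apply]
    rw [Dk]
    push_cast; ring

lemma kop_src {a m k : ℝ} (h : Reg a m k c) : Src (Vop a m γ) where
  int := fun M f hf => D.Vop_integrable h hf
  add := fun M N f g hf hg s => by
    rw [Vop, D.hop_add h hf hg, Vop, Vop]; ring
  smul := fun M z f _ s => by
    rw [Vop, hop_smul, Vop]; ring

/-- generalized eigenfunctions solve the line equation -/
lemma leaky_forward {a m p : ℝ} (h : Reg a m p c) (hp : 0 < p) {ψ : ℂ → ℂ} {A B : Fin 2 → ℂ}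
    (hs : IsScatteringSolution γ (2 * a) (p ^ 2 - (2 * a) ^ 2 / 4) ψ A B) :
    ∃ f, LSol p (Kop p a m γ) A f ∧ B = outA p A (Vop a m γ f) := by
  have ha := h.a_pos
  have hm := h.m_pos
  have hc := D.hc
  obtain ⟨M, hM⟩ := hs.bounded
  set f₀ : ℝ → ℂ := fun s => ψ (γ s) with hf₀
  have hf₀c : CB M f₀ := ⟨hs.continuous.comp D.continuous, fun s => hM _⟩
  have hrep := representation hm (show 0 < c / 2 by positivity) D.continuous D.Nr hs.continuous hM
    (α := 2 * a) (fun φ hφ => (weak_iff h.rel hs.continuous hM γ hφ).1 (hs.weak φ hφ.smooth hφ.supp))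
  have hline : ∀ s, f₀ s = L0 a m f₀ s + Dop a m γ f₀ s := fun s => by
    rw [← D.trace_eq h hf₀c s]
    exact hrep (γ s)
  obtain ⟨A', hA'⟩ := D.line_forward h hp.ne' hf₀c hline
  have ht := D.line_top h hf₀c hA'
  have hb := D.line_bot h hf₀c hA'
  have hsa : 0 < √a := Real.sqrt_pos.2 ha
  have hsa' : ((√a : ℝ) : ℂ) ≠ 0 := by exact_mod_cast hsa.ne'
  -- asymptotics from the definition
  have hl : Tendsto (fun s => f₀ s - ((√a * A 0) * ex p s + (√a * B 0) * ex (-p) s)) atBot (𝓝 0) := by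
    rw [Metric.tendsto_nhds]
    intro ε hε
    filter_upwards [hs.left 0 (ε / 2) (by positivity)] with s hs'
    have := hs' 0 (by simp)
    rw [momentum_eq hp, leftWave_eq, profile_eq] at this
    simp only [Complex.ofReal_zero, zero_mul, add_zero, abs_zero, mul_zero, neg_zero, Real.exp_zero,
      mul_one] at this
    rw [dist_zero_right]
    refine lt_of_le_of_lt (le_of_eq ?_) (lt_of_le_of_lt this (by linarith))
    congr 1; ring
  have hr : Tendsto (fun s => f₀ s - ((√a * B 1) * ex p s + (√a * A 1) * ex (-p) s)) atTop (𝓝 0) := by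
    rw [Metric.tendsto_nhds]
    intro ε hε
    filter_upwards [hs.right 0 (ε / 2) (by positivity)] with s hs'
    have := hs' 0 (by simp)
    rw [momentum_eq hp, rightWave_eq, profile_eq] at this
    simp only [Complex.ofReal_zero, zero_mul, add_zero, abs_zero, mul_zero, neg_zero, Real.exp_zero,
      mul_one] at this
    rw [dist_zero_right]
    refine lt_of_le_of_lt (le_of_eq ?_) (lt_of_le_of_lt this (by linarith))
    congr 1; ring
  obtain ⟨m1, m2⟩ := match_waves hp.ne' add_top hr ht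
  obtain ⟨m3, m4⟩ := match_waves hp.ne' add_bot hl hb
  have hS : LSol p (Kop p a m γ) A' f₀ := ⟨⟨M, hf₀c⟩, hA'⟩
  have hS' := hS.lin (D.Kop_bop h hp.ne') hS (√a : ℂ)⁻¹ 0
  have hout := outA_lin (k := p) (D.kop_src h) hf₀c hf₀c A' A' (√a : ℂ)⁻¹ 0
  have hA : (√a : ℂ)⁻¹ • A' + (0:ℂ) • A' = A := by
    ext i
    fin_cases i
    · simp only [Fin.zero_eta, Pi.add_apply, Pi.smul_apply, smul_eq_mul, zero_mul, add_zero]
      rw [← m3]; field_simp
    · simp only [Fin.mk_one, Pi.add_apply, Pi.smul_apply, smul_eq_mul, zero_mul, add_zero]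
      rw [← m2]; field_simp
  rw [hA] at hS' hout
  refine ⟨_, hS', ?_⟩
  rw [hout]
  ext i
  fin_cases i
  · simp only [Fin.zero_eta, Pi.add_apply, Pi.smul_apply, smul_eq_mul, zero_mul, add_zero]
    rw [← m4]; field_simp
  · simp only [Fin.mk_one, Pi.add_apply, Pi.smul_apply, smul_eq_mul, zero_mul, add_zero]
    rw [← m1]; field_simp

/-- solutions of the line equation give generalized eigenfunctions -/
lemma leaky_backward {a m p : ℝ} (h : Reg a m p c) (hp : 0 < p) {f : ℝ → ℂ} {A : Fin 2 → ℂ}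
    (hf : LSol p (Kop p a m γ) A f) :
    ∃ ψ, IsScatteringSolution γ (2 * a) (p ^ 2 - (2 * a) ^ 2 / 4) ψ A (outA p A (Vop a m γ f)) := by
  have ha := h.a_pos
  have hm := h.m_pos
  have hc := D.hc
  have hc2 : 0 < c / 2 := by positivity
  obtain ⟨⟨M, hM⟩, hfe⟩ := hf
  have hfb := D.line_backward h hp.ne' hM hfe
  have hlc := lay_continuous hm hc2 D.continuous D.Nr hM.1.aestronglyMeasurable hM.2
  have hlb := lay_bdd hm hc2 D.Nr hM.2
  have ht := D.line_top h hM hfe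
  have hb := D.line_bot h hM hfe
  have hsa : 0 < √a := Real.sqrt_pos.2 ha
  set ψ : ℂ → ℂ := fun x => (√a : ℂ) * (((2 * a : ℝ) : ℂ) * lay m γ f x) with hψ
  have hψc : Continuous ψ := continuous_const.mul (continuous_const.mul hlc)
  have hψb : ∀ x, ‖ψ x‖ ≤ √a * (2 * a * (M / (m * (c / 2)))) := fun x => by
    rw [hψ]
    simp only
    rw [norm_mul, norm_mul, Complex.norm_real, Complex.norm_real, Real.norm_of_nonneg hsa.le,
      Real.norm_of_nonneg (by positivity)]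
    gcongr
    exact hlb x
  have htr : ∀ s, ψ (γ s) = (√a : ℂ) * f s := fun s => by
    rw [hψ]
    simp only
    rw [D.trace_eq h hM, ← hfb s]
  refine ⟨ψ, hψc, ⟨_, hψb⟩, fun φ hφ hφs => ?_, fun U ε hε => ?_, fun U ε hε => ?_⟩
  · have hT : IsTest φ := ⟨hφ, hφs⟩
    refine (weak_iff h.rel hψc hψb γ hT).2 ?_
    simp only [htr]
    have e1 : ∫ x, ψ x * ((m ^ 2 * φ x - lap φ x : ℝ) : ℂ)
        = (√a : ℂ) * (((2 * a : ℝ) : ℂ) * ∫ x, lay m γ f x * ((m ^ 2 * φ x - lap φ x : ℝ) : ℂ)) := by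
      rw [← integral_const_mul, ← integral_const_mul]
      congr 1; ext x; rw [hψ]; ring
    have e2 : ∫ t, (√a : ℂ) * f t * (φ (γ t) : ℂ) = (√a : ℂ) * ∫ t, f t * (φ (γ t) : ℂ) := by
      rw [← integral_const_mul]
      congr 1; ext t; ring
    rw [e1, e2, lay_weak hm hc2 D.continuous D.Nr hM hT]
    ring
  · filter_upwards [D.lead_left h hM hb U (show 0 < ε / √a by positivity)] with s hs t ht
    have h1 := hs t ht
    rw [D.deriv_eq, momentum_eq hp, leftWave_eq, profile_eq]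
    have e : ψ (γ s + t * (Complex.I * g1 s)) - ((√a * Real.exp (-(a * |t|)) : ℝ) : ℂ)
        * (A 0 * ex p s + outA p A (Vop a m γ f) 0 * ex (-p) s)
        = (√a : ℂ) * (((2 * a : ℝ) : ℂ) * lay m γ f (γ s + t * (Complex.I * g1 s))
          - (Real.exp (-(a * |t|)) : ℂ) * (A 0 * ex p s + outA p A (Vop a m γ f) 0 * ex (-p) s)) := by
      rw [hψ]; push_cast; ring
    rw [e, norm_mul, Complex.norm_real, Real.norm_of_nonneg hsa.le]
    calc √a * _ ≤ √a * (ε / √a) := mul_le_mul_of_nonneg_left h1 hsa.le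
      _ = ε := by field_simp
  · filter_upwards [D.lead_right h hM ht U (show 0 < ε / √a by positivity)] with s hs t ht
    have h1 := hs t ht
    rw [D.deriv_eq, momentum_eq hp, rightWave_eq, profile_eq]
    have e : ψ (γ s + t * (Complex.I * g1 s)) - ((√a * Real.exp (-(a * |t|)) : ℝ) : ℂ)
        * (outA p A (Vop a m γ f) 1 * ex p s + A 1 * ex (-p) s)
        = (√a : ℂ) * (((2 * a : ℝ) : ℂ) * lay m γ f (γ s + t * (Complex.I * g1 s))
          - (Real.exp (-(a * |t|)) : ℂ) * (outA p A (Vop a m γ f) 1 * ex p s + A 1 * ex (-p) s)) := by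
      rw [hψ]; push_cast; ring
    rw [e, norm_mul, Complex.norm_real, Real.norm_of_nonneg hsa.le]
    calc √a * _ ≤ √a * (ε / √a) := mul_le_mul_of_nonneg_left h1 hsa.le
      _ = ε := by field_simp

/-- the scattering matrix of the leaky curve -/
lemma leaky_matrix {a m p N : ℝ} (h : Reg a m p c) (hp : 0 < p) (hN1 : 1 ≤ N)
    (hN : ∀ g : X, ‖g‖ ≤ N * ‖g - (D.pot.bop hp.ne').clm g‖) (ha : 2 * N * CK c R p K ≤ a) :
    ∃ S, IsLeakySMatrix γ (2 * a) (p ^ 2 - (2 * a) ^ 2 / 4) S ∧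
      ∀ A f, LSol p (Kop p a m γ) A f → outA p A (Vop a m γ f) = S.mulVec A := by
  have hex : ∀ A, ∃ f, LSol p (Kop p a m γ) A f := fun A => by
    obtain ⟨f, hf, hfe⟩ := D.exists_line h hp.ne' hN1 hN ha A
    exact ⟨f, ⟨_, hf⟩, hfe⟩
  have huniq : ∀ (M : ℝ) (f : ℝ → ℂ), CB M f → (∀ s, f s = Kop p a m γ f s) → ∀ s, f s = 0 := by
    intro M f hf hfe s
    have h1 := D.apriori' h hp.ne' hN1 hN ha (fun _ => 0) hf (fun s => by
      rw [eA]; simp only [zero_mul, zero_add]; exact hfe s)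
    have h2 := h1.2 s
    simp only [nA, norm_zero, add_zero, mul_zero] at h2
    exact norm_le_zero_iff.1 h2
  obtain ⟨S, hS⟩ := exists_matrix (D.Kop_bop h hp.ne') (D.kop_src h) hex huniq
  refine ⟨S, fun A B => ⟨?_, ?_⟩, hS⟩
  · rintro ⟨ψ, hψ⟩
    obtain ⟨f, h1, h2⟩ := D.leaky_forward h hp hψ
    rw [h2, hS A f h1]
  · rintro rfl
    obtain ⟨f, hf⟩ := hex A
    rw [← hS A f hf]
    exact D.leaky_backward h hp hf

end Data

end Pool.Agent.Helper97.Scat
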