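import Pool.Agent.Helper97.Scat.Four

/-!
# The convolution operator of a straight line and the free equation
-/

open MeasureTheory Filter Topology Set Real

namespace Pool.Agent.Helper97.Scat

lemma CB.add {M N : ℝ} {f g : ℝ → ℂ} (hf : CB M f) (hg : CB N g) :
    CB (M + N) (fun s => f s + g s) :=
  ⟨hf.1.add hg.1, fun s => (norm_add_le _ _).trans (add_le_add (hf.2 s) (hg.2 s))⟩

lemma CB.sub {M N : ℝ} {f g : ℝ → ℂ} (hf : CB M f) (hg : CB N g) :
    CB (M + N) (fun s => f s - g s) :=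
  ⟨hf.1.sub hg.1, fun s => (norm_sub_le _ _).trans (add_le_add (hf.2 s) (hg.2 s))⟩

lemma CB.const_mul {M : ℝ} {f : ℝ → ℂ} (c : ℂ) (hf : CB M f) : CB (‖c‖ * M) (fun s => c * f s) :=
  ⟨continuous_const.mul hf.1, fun s => by
    rw [norm_mul]; exact mul_le_mul_of_nonneg_left (hf.2 s) (norm_nonneg _)⟩

lemma A0_add {m M N : ℝ} (hm : 0 < m) {f g : ℝ → ℂ} (hf : CB M f) (hg : CB N g) (s : ℝ) :
    A0 m (fun s => f s + g s) s = A0 m f s + A0 m g s := by
  rw [A0, A0, A0, ← integral_add (A0_integrable hm hf.1.aestronglyMeasurable hf.2 s)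
    (A0_integrable hm hg.1.aestronglyMeasurable hg.2 s)]
  congr 1; ext r; ring

lemma A0_sub {m M N : ℝ} (hm : 0 < m) {f g : ℝ → ℂ} (hf : CB M f) (hg : CB N g) (s : ℝ) :
    A0 m (fun s => f s - g s) s = A0 m f s - A0 m g s := by
  rw [A0, A0, A0, ← integral_sub (A0_integrable hm hf.1.aestronglyMeasurable hf.2 s)
    (A0_integrable hm hg.1.aestronglyMeasurable hg.2 s)]
  congr 1; ext r; ring

lemma A0_const_mul (m : ℝ) (c : ℂ) (f : ℝ → ℂ) (s : ℝ) :
    A0 m (fun s => c * f s) s = c * A0 m f s := by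
  rw [A0, A0, ← integral_const_mul]
  congr 1; ext r; ring

lemma eop_const_mul (μ c : ℂ) (f : ℝ → ℂ) (s : ℝ) :
    eop μ (fun s => c * f s) s = c * eop μ f s := by
  rw [eop, eop, ← integral_const_mul]
  congr 1; ext r; ring

/-- the operator with kernel `α G(s - s')`, `α = 2 a` -/
noncomputable def L0 (a m : ℝ) (f : ℝ → ℂ) (s : ℝ) : ℂ := (2 * a : ℝ) * A0 m f s

section
variable {a m k : ℝ}

lemma L0_CB {M : ℝ} (hm : 0 < m) (ha : 0 < a) {f : ℝ → ℂ} (hf : CB M f) :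
    CB (a / m * M) (L0 a m f) := by
  have := (A0_CB hm hf).const_mul ((2 * a : ℝ) : ℂ)
  refine ⟨this.1, fun s => (this.2 s).trans (le_of_eq ?_)⟩
  rw [Complex.norm_real, Real.norm_of_nonneg (by positivity)]
  field_simp

lemma L0_add {M N : ℝ} (hm : 0 < m) {f g : ℝ → ℂ} (hf : CB M f) (hg : CB N g) (s : ℝ) :
    L0 a m (fun s => f s + g s) s = L0 a m f s + L0 a m g s := by
  rw [L0, A0_add hm hf hg, L0, L0]; ring

lemma L0_sub {M N : ℝ} (hm : 0 < m) {f g : ℝ → ℂ} (hf : CB M f) (hg : CB N g) (s : ℝ) :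
    L0 a m (fun s => f s - g s) s = L0 a m f s - L0 a m g s := by
  rw [L0, A0_sub hm hf hg, L0, L0]; ring

lemma L0_const_mul (c : ℂ) (f : ℝ → ℂ) (s : ℝ) :
    L0 a m (fun s => c * f s) s = c * L0 a m f s := by
  rw [L0, A0_const_mul, L0]; ring

lemma L0_sq {M : ℝ} (hm : 0 < m) {f : ℝ → ℂ} (hf : CB M f) (s : ℝ) :
    L0 a m (L0 a m f) s = (a:ℂ) ^ 2 * eop (m:ℂ) f s := by
  have e : L0 a m f = fun s => ((2 * a : ℝ) : ℂ) * A0 m f s := rfl
  rw [L0, e, A0_const_mul, A0_sq hm hf]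
  push_cast
  ring

lemma L0_ex (hm : 0 < m) (ha : 0 < a) (hmk : m ^ 2 + k ^ 2 = a ^ 2) (s : ℝ) :
    L0 a m (ex k) s = ex k s := by
  rw [L0, A0_ex hm, hmk, Real.sqrt_sq ha.le, ← mul_assoc, ← Complex.ofReal_mul]
  have : 2 * a * (1 / (2 * a)) = 1 := by field_simp
  rw [this]; simp

lemma L0_ex_neg (hm : 0 < m) (ha : 0 < a) (hmk : m ^ 2 + k ^ 2 = a ^ 2) (s : ℝ) :
    L0 a m (ex (-k)) s = ex (-k) s := L0_ex hm ha (by rw [neg_sq]; exact hmk) s

/-- from `f = L0 f + d` to the differential equation -/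
lemma free_forward {M N : ℝ} (hm : 0 < m) (ha : 0 < a) (hmk : m ^ 2 + k ^ 2 = a ^ 2)
    {f d : ℝ → ℂ} (hf : CB M f) (hd : CB N d) (h : ∀ s, f s = L0 a m f s + d s) :
    ∃ w' : ℝ → ℂ, (∀ s, HasDerivAt (fun s => f s - (d s + L0 a m d s)) (w' s) s) ∧
      ∀ s, HasDerivAt w' (-(k:ℂ) ^ 2 * (f s - (d s + L0 a m d s))
        - (a:ℂ) ^ 2 * (d s + L0 a m d s)) s := by
  have hm' : (m:ℂ) ≠ 0 := by exact_mod_cast hm.ne'
  have hmk' : (m:ℂ) ^ 2 + (k:ℂ) ^ 2 = (a:ℂ) ^ 2 := by exact_mod_cast hmk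
  have hLf := L0_CB hm ha hf
  have key : ∀ s, f s - (d s + L0 a m d s) = (a:ℂ) ^ 2 * eop (m:ℂ) f s := by
    intro s
    have h1 : L0 a m (fun s => f s - d s) s = (a:ℂ) ^ 2 * eop (m:ℂ) f s := by
      have : (fun s => f s - d s) = L0 a m f := by
        ext s; rw [h s]; ring
      rw [this, L0_sq hm hf]
    rw [L0_sub hm hf hd] at h1
    rw [← h1]
    have := h s
    linear_combination this
  refine ⟨fun s => (a:ℂ) ^ 2 * eop' (m:ℂ) f s, fun s => ?_, fun s => ?_⟩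
  · have e : (fun s => f s - (d s + L0 a m d s)) = fun s => (a:ℂ) ^ 2 * eop (m:ℂ) f s := by
      ext s; exact key s
    rw [e]
    exact (eop_hasDerivAt (integrableOn_Iic_exp hm hf) (integrableOn_Ioi_exp hm hf) hf.1 hm' s).const_mul _
  · refine ((eop'_hasDerivAt (integrableOn_Iic_exp hm hf) (integrableOn_Ioi_exp hm hf)
      hf.1 s).const_mul _).congr_deriv ?_
    have := key s
    linear_combination (-(m:ℂ) ^ 2) * this + (f s - (d s + L0 a m d s)) * hmk'

/-- `1 + L0` is injective on bounded continuous functions -/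
lemma L0_inj {M : ℝ} (hm : 0 < m) (ha : 0 < a) (hmk : m ^ 2 + k ^ 2 = a ^ 2) (hk : k ≠ 0)
    {y : ℝ → ℂ} (hy : CB M y) (h : ∀ s, y s = -L0 a m y s) : ∀ s, y s = 0 := by
  have hm' : (m:ℂ) ≠ 0 := by exact_mod_cast hm.ne'
  have hmk' : (m:ℂ) ^ 2 + (k:ℂ) ^ 2 = (a:ℂ) ^ 2 := by exact_mod_cast hmk
  have key : ∀ s, y s = (a:ℂ) ^ 2 * eop (m:ℂ) y s := by
    intro s
    rw [← L0_sq hm hy]
    have e : L0 a m y = fun s => (-1:ℂ) * y s := by
      ext s; rw [h s]; ring
    rw [e, L0_const_mul]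
    rw [h s]; ring
  have d1 : ∀ s, HasDerivAt y ((a:ℂ) ^ 2 * eop' (m:ℂ) y s) s := by
    intro s
    have e : y = fun s => (a:ℂ) ^ 2 * eop (m:ℂ) y s := funext key
    have := (eop_hasDerivAt (integrableOn_Iic_exp hm hy) (integrableOn_Ioi_exp hm hy) hy.1 hm' s).const_mul
      ((a:ℂ) ^ 2)
    rw [← e] at this
    exact this
  have d2 : ∀ s, HasDerivAt (fun s => (a:ℂ) ^ 2 * eop' (m:ℂ) y s) ((k * Complex.I) ^ 2 * y s) s := by
    intro s
    refine ((eop'_hasDerivAt (integrableOn_Iic_exp hm hy) (integrableOn_Ioi_exp hm hy)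
      hy.1 s).const_mul _).congr_deriv ?_
    rw [mul_pow, Complex.I_sq]
    have := key s
    linear_combination (-(m:ℂ) ^ 2) * this + y s * hmk'
  have hμ : ((k * Complex.I) : ℂ) ≠ 0 := by simpa using hk
  obtain ⟨c₁, c₂, hc⟩ := ode_const hμ d1 d2
  have hc' : ∀ s, y s = c₁ * ex k s + c₂ * ex (-k) s := by
    intro s
    rw [hc s, ← mu_mul k s]; rfl
  intro s
  have e : y = fun s => c₁ * ex k s + c₂ * ex (-k) s := funext hc'
  have h2 : L0 a m y s = y s := by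
    rw [e, L0_add hm ((CB_ex k).const_mul c₁) ((CB_ex (-k)).const_mul c₂), L0_const_mul, L0_const_mul,
      L0_ex hm ha hmk, L0_ex_neg hm ha hmk]
  have h3 := h s
  rw [h2] at h3
  linear_combination (1/2 : ℂ) * h3

/-- from the differential equation back to `f = L0 f + d` -/
lemma free_backward {M N : ℝ} (hm : 0 < m) (ha : 0 < a) (hmk : m ^ 2 + k ^ 2 = a ^ 2) (hk : k ≠ 0)
    {f d w' : ℝ → ℂ} (hf : CB M f) (hd : CB N d)
    (h1 : ∀ s, HasDerivAt (fun s => f s - (d s + L0 a m d s)) (w' s) s)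
    (h2 : ∀ s, HasDerivAt w' (-(k:ℂ) ^ 2 * (f s - (d s + L0 a m d s))
        - (a:ℂ) ^ 2 * (d s + L0 a m d s)) s) :
    ∀ s, f s = L0 a m f s + d s := by
  have hmk' : (m:ℂ) ^ 2 + (k:ℂ) ^ 2 = (a:ℂ) ^ 2 := by exact_mod_cast hmk
  have hLd := L0_CB hm ha hd
  have hh := hd.add hLd
  have hw := hf.sub hh
  have hLf := L0_CB hm ha hf
  have h3 : ∀ s, HasDerivAt w' ((m:ℂ) ^ 2 * (f s - (d s + L0 a m d s)) - (a:ℂ) ^ 2 * f s) s := by
    intro s
    refine (h2 s).congr_deriv ?_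
    linear_combination (-(f s - (d s + L0 a m d s))) * hmk'
  have key := bounded_unique hm (hf.const_mul ((a:ℂ) ^ 2)) h1 h3 hw.2
  have key' : ∀ s, f s - (d s + L0 a m d s) = L0 a m (L0 a m f) s := by
    intro s
    rw [L0_sq hm hf, ← eop_const_mul]
    exact congrFun key s
  have hy := (hf.sub hLf).sub hd
  have := L0_inj hm ha hmk hk hy (fun s => ?_)
  · intro s
    have := this s
    linear_combination this
  · rw [L0_sub hm (hf.sub hLf) hd, L0_sub hm hf hLf, ← key' s]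
    ring

end

section integrable
variable {m : ℝ} {d : ℝ → ℂ}

lemma conv_integrable (hm : 0 < m) (hd : Integrable d) :
    Integrable (fun p : ℝ × ℝ => (gk m (p.2 ^ 2) : ℂ) * d (p.1 - p.2)) (volume.prod volume) :=
  (N_integrable hm).ofReal.convolution_integrand (ContinuousLinearMap.mul ℝ ℂ) hd

lemma A0_integrable' (hm : 0 < m) (hd : Integrable d) : Integrable (A0 m d) :=
  (conv_integrable hm hd).integral_prod_left

lemma A0_norm_integral (hm : 0 < m) (hd : Integrable d) :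
    ∫ s, ‖A0 m d s‖ ≤ 1 / (2 * m) * ∫ s, ‖d s‖ := by
  have hc := (conv_integrable hm hd).norm
  have h1 : ∀ s, ‖A0 m d s‖ ≤ ∫ r, ‖(gk m (r ^ 2) : ℂ) * d (s - r)‖ :=
    fun s => norm_integral_le_integral_norm _
  calc ∫ s, ‖A0 m d s‖ ≤ ∫ s, ∫ r, ‖(gk m (r ^ 2) : ℂ) * d (s - r)‖ :=
        integral_mono (A0_integrable' hm hd).norm hc.integral_prod_left h1
    _ = ∫ r, ∫ s, ‖(gk m (r ^ 2) : ℂ) * d (s - r)‖ := integral_integral_swap hc
    _ = ∫ r, gk m (r ^ 2) * ∫ s, ‖d s‖ := by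
        congr 1; ext r
        have : ∀ s, ‖(gk m (r ^ 2) : ℂ) * d (s - r)‖ = gk m (r ^ 2) * ‖d (s - r)‖ := by
          intro s
          rw [norm_mul, Complex.norm_real, Real.norm_of_nonneg (gk_nonneg _ _)]
        simp only [this]
        rw [integral_const_mul, integral_sub_right_eq_self (fun s => ‖d s‖) r]
    _ = 1 / (2 * m) * ∫ s, ‖d s‖ := by
        rw [integral_mul_const, N_integral hm]

/-- symmetry of the convolution operator -/
lemma A0_symm (hm : 0 < m) (hd : Integrable d) {φ : ℝ → ℂ} {M : ℝ}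
    (hφ : AEStronglyMeasurable φ volume) (hM : ∀ s, ‖φ s‖ ≤ M) :
    ∫ s, φ s * A0 m d s = ∫ s, A0 m φ s * d s := by
  have hI : Integrable (fun p : ℝ × ℝ => φ p.1 * ((gk m (p.2 ^ 2) : ℂ) * d (p.1 - p.2)))
      (volume.prod volume) :=
    (conv_integrable hm hd).bdd_mul (c := M) hφ.comp_fst (Eventually.of_forall fun p => hM _)
  have e1 : ∫ s, φ s * A0 m d s = ∫ s, ∫ r, φ s * ((gk m (r ^ 2) : ℂ) * d (s - r)) := by
    congr 1; ext s
    rw [A0, integral_const_mul]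
  have hI2 : Integrable (fun p : ℝ × ℝ => ((gk m (p.2 ^ 2) : ℂ) * φ (p.1 - p.2)) * d p.1)
      (volume.prod volume) := by
    have : Integrable (fun p : ℝ × ℝ => d p.1 * (gk m (p.2 ^ 2) : ℂ)) (volume.prod volume) :=
      Integrable.mul_prod (f := d) (g := fun r => (gk m (r ^ 2) : ℂ)) hd (N_integrable hm).ofReal
    have hmeas : AEStronglyMeasurable (fun p : ℝ × ℝ => φ (p.1 - p.2)) (volume.prod volume) :=
      hφ.comp_quasiMeasurePreserving
        (quasiMeasurePreserving_sub_of_right_invariant volume volume)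
    have h2 := this.mul_bdd (c := M) hmeas (Eventually.of_forall fun p => hM _)
    refine h2.congr (Eventually.of_forall fun p => ?_)
    simp only
    ring
  rw [e1, integral_integral_swap hI]
  have e2 : ∀ r, ∫ s, φ s * ((gk m (r ^ 2) : ℂ) * d (s - r))
      = ∫ t, φ (t + r) * ((gk m (r ^ 2) : ℂ) * d t) := by
    intro r
    rw [← integral_add_right_eq_self _ r]
    simp
  simp only [e2]
  rw [← integral_neg_eq_self]
  have e3 : ∀ r t : ℝ, φ (t + -r) * ((gk m ((-r) ^ 2) : ℂ) * d t)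
      = ((gk m (r ^ 2) : ℂ) * φ (t - r)) * d t := by
    intro r t
    rw [neg_sq, ← sub_eq_add_neg]; ring
  simp only [e3]
  rw [← integral_integral_swap hI2]
  congr 1; ext s
  rw [integral_mul_const, A0]

lemma A0_tendsto {M : ℝ} (hm : 0 < m) {f : ℝ → ℂ} (hf : CB M f) {l : Filter ℝ}
    [l.IsCountablyGenerated] (hl : ∀ a : ℝ, Tendsto (fun s => s - a) l l) (h : Tendsto f l (𝓝 0)) :
    Tendsto (A0 m f) l (𝓝 0) := by
  have hc := hf.1
  have := tendsto_integral_filter_of_dominated_convergence (μ := volume) (l := l)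
    (F := fun s r => (gk m (r ^ 2) : ℂ) * f (s - r)) (f := fun _ => 0)
    (fun r => gk m (r ^ 2) * M) ?_ ?_ ((N_integrable hm).mul_const M) ?_
  · simp only [integral_zero] at this
    exact this
  · exact Eventually.of_forall fun s => (A0_integrable hm hf.1.aestronglyMeasurable hf.2 s).1
  · refine Eventually.of_forall fun s => Eventually.of_forall fun r => ?_
    rw [norm_mul, Complex.norm_real, Real.norm_of_nonneg (gk_nonneg _ _)]
    exact mul_le_mul_of_nonneg_left (hf.2 _) (gk_nonneg _ _)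
  · refine Eventually.of_forall fun r => ?_
    simpa using (h.comp (hl r)).const_mul (gk m (r ^ 2) : ℂ)

end integrable

end Pool.Agent.Helper97.Scat
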