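import Pool.Agent.Helper97.Scat.Sol

/-!
# Existence, uniqueness and convergence for the equation on the line
-/

open MeasureTheory Filter Topology Set Real
open scoped BoundedContinuousFunction

namespace Pool.Agent.Helper97.Scat

/-- the value of `m` -/
noncomputable def mm (a k : ℝ) : ℝ := √(a ^ 2 - k ^ 2)

lemma reg_of_large {a k c : ℝ} (hc : 0 < c) (h1 : 1 ≤ a) (h2 : 2 * |k| ≤ a) (h3 : 12 / c ≤ a) :
    Reg a (mm a k) k c := by
  have hk2 : 4 * k ^ 2 ≤ a ^ 2 := by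
    rw [← sq_abs k]
    have := abs_nonneg k
    nlinarith
  have hpos : 0 < a ^ 2 - k ^ 2 := by nlinarith [sq_nonneg k]
  have hm : mm a k ^ 2 = a ^ 2 - k ^ 2 := Real.sq_sqrt hpos.le
  have hm0 : 0 < mm a k := Real.sqrt_pos.2 hpos
  refine ⟨h1, hm0, by rw [hm]; ring, by nlinarith [sq_nonneg k], ?_⟩
  have h4 : 12 ≤ a * c := by rwa [div_le_iff₀ hc] at h3
  have h5 : (3 * a / 4) ^ 2 ≤ mm a k ^ 2 := by rw [hm]; nlinarith [sq_nonneg k]
  have h6 : 3 * a / 4 ≤ mm a k := by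
    apply le_of_sq_le_sq _ hm0.le
    exact h5
  nlinarith

lemma C2.mono {N N' : ℝ} {φ φ' φ'' : ℝ → ℂ} (h : C2 N φ φ' φ'') (hN : N ≤ N') : C2 N' φ φ' φ'' :=
  ⟨h.d0, h.d1, fun s => (h.b0 s).trans hN, fun s => (h.b1 s).trans hN, fun s => (h.b2 s).trans hN⟩

lemma isUnit_one_sub_clm (S : X →L[ℂ] X) (hS : ‖S‖ < 1) : IsUnit (1 - S) := by
  have := isUnit_one_sub_of_norm_lt_one (R := X →L[ℂ] X) (x := S) hS
  exact this

/-- inverse bound of `1 - R₀ V` -/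
lemma Pot.inverse {V : ℝ → ℝ} {R : ℝ} (P : Pot V R) {k : ℝ} (hk : k ≠ 0) :
    ∃ N : ℝ, 1 ≤ N ∧ ∀ g : X, ‖g‖ ≤ N * ‖g - (P.bop hk).clm g‖ := by
  obtain ⟨u, hu⟩ := P.isUnit hk
  refine ⟨max 1 ‖(↑u⁻¹ : X →L[ℂ] X)‖, le_max_left _ _, fun g => ?_⟩
  have h1 : (↑u⁻¹ : X →L[ℂ] X) (g - (P.bop hk).clm g) = g := by
    have h2 : (↑u⁻¹ : X →L[ℂ] X) * (1 - (P.bop hk).clm) = 1 := by
      rw [← hu]; exact u.inv_mul
    have h3 := congrArg (fun T : X →L[ℂ] X => T g) h2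
    simpa using h3
  calc ‖g‖ = ‖(↑u⁻¹ : X →L[ℂ] X) (g - (P.bop hk).clm g)‖ := by rw [h1]
    _ ≤ ‖(↑u⁻¹ : X →L[ℂ] X)‖ * ‖g - (P.bop hk).clm g‖ := ContinuousLinearMap.le_opNorm _ _
    _ ≤ _ := mul_le_mul_of_nonneg_right (le_max_right _ _) (norm_nonneg _)

/-- comparison solutions -/
lemma Pot.exists_sol {V : ℝ → ℝ} {R : ℝ} (P : Pot V R) {k : ℝ} (hk : k ≠ 0) {N : ℝ}
    (hN : ∀ g : X, ‖g‖ ≤ N * ‖g - (P.bop hk).clm g‖) (hN0 : 0 ≤ N) (A : Fin 2 → ℂ) :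
    ∃ f : ℝ → ℂ, CB (N * nA A) f ∧ ∀ s, f s = eA k A s + R0 k (fun t => (V t : ℂ) * f t) s := by
  obtain ⟨u, hu⟩ := P.isUnit hk
  set e : X := mkX (eA k A) (eA_CB k A) with he
  set f : X := (↑u⁻¹ : X →L[ℂ] X) e with hf
  have h1 : f - (P.bop hk).clm f = e := by
    have h2 : (1 - (P.bop hk).clm) * (↑u⁻¹ : X →L[ℂ] X) = 1 := by
      rw [← hu]; exact u.mul_inv
    have h3 := congrArg (fun T : X →L[ℂ] X => T e) h2
    simpa using h3
  refine ⟨f, ⟨f.continuous, fun s => ?_⟩, fun s => ?_⟩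
  · have h4 := hN f
    rw [h1] at h4
    refine (f.norm_coe_le_norm s).trans (h4.trans ?_)
    exact mul_le_mul_of_nonneg_left (mkX_norm _ _) hN0
  · have h5 := congrArg (fun g : X => g s) h1
    simp only [BoundedContinuousFunction.sub_apply, BOp.clm_apply] at h5
    have h6 : e s = eA k A s := rfl
    rw [h6] at h5
    rw [← h5]; ring

namespace Data
variable {γ g1 g2 g3 g4 : ℝ → ℂ} {R c K : ℝ} (D : Data γ g1 g2 g3 g4 R c K)
include D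

/-- smallness of the perturbation -/
lemma clm_close {a m k : ℝ} (h : Reg a m k c) (hk : k ≠ 0) (hC : 0 ≤ CK c R k K) :
    ‖(D.Kop_bop h hk).clm - (D.pot.bop hk).clm‖ ≤ CK c R k K / a := by
  have ha := h.a_pos
  exact BOp.norm_sub_le _ _ (by positivity) (fun M f hf s => D.Kop_close h hk hf s)

lemma CK_nonneg {k : ℝ} (hk : k ≠ 0) : 0 ≤ CK c R k K := by
  have h1 := D.C0_nonneg
  have h2 := D.Cw_nonneg k
  have h3 : 0 < |k| := abs_pos.2 hk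
  unfold CK
  positivity

/-- a priori bound -/
lemma apriori {a m k N : ℝ} (h : Reg a m k c) (hk : k ≠ 0) (hN1 : 1 ≤ N)
    (hN : ∀ g : X, ‖g‖ ≤ N * ‖g - (D.pot.bop hk).clm g‖) (ha : 2 * N * CK c R k K ≤ a)
    (A : Fin 2 → ℂ) (f : X) (hf : f - (D.Kop_bop h hk).clm f = mkX (eA k A) (eA_CB k A)) :
    ‖f‖ ≤ 2 * N * nA A := by
  have ha0 := h.a_pos
  have h1 := hN f
  have h2 : f - (D.pot.bop hk).clm f
      = mkX (eA k A) (eA_CB k A) + ((D.Kop_bop h hk).clm - (D.pot.bop hk).clm) f := by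
    rw [← hf, sub_apply]; abel
  have h3 : ‖f - (D.pot.bop hk).clm f‖ ≤ nA A + CK c R k K / a * ‖f‖ := by
    rw [h2]
    refine (norm_add_le _ _).trans (add_le_add (mkX_norm _ _) ?_)
    exact (ContinuousLinearMap.le_opNorm _ _).trans (mul_le_mul_of_nonneg_right
      (D.clm_close h hk (D.CK_nonneg hk)) (norm_nonneg _))
  have h4 : N * (CK c R k K / a) ≤ 1 / 2 := by
    rw [← mul_div_assoc, div_le_iff₀ ha0]
    linarith
  have h5 : ‖f‖ ≤ N * (nA A + CK c R k K / a * ‖f‖) :=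
    h1.trans (mul_le_mul_of_nonneg_left h3 (by linarith))
  have h6 := norm_nonneg f
  nlinarith

/-- existence -/
lemma exists_line {a m k N : ℝ} (h : Reg a m k c) (hk : k ≠ 0) (hN1 : 1 ≤ N)
    (hN : ∀ g : X, ‖g‖ ≤ N * ‖g - (D.pot.bop hk).clm g‖) (ha : 2 * N * CK c R k K ≤ a)
    (A : Fin 2 → ℂ) : ∃ f : ℝ → ℂ, CB (2 * N * nA A) f ∧ ∀ s, f s = eA k A s + Kop k a m γ f s := by
  have ha0 := h.a_pos
  obtain ⟨u, hu⟩ := D.pot.isUnit hk
  set T := (D.Kop_bop h hk).clm with hT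
  -- norm of the inverse
  have hinv : ‖(↑u⁻¹ : X →L[ℂ] X)‖ ≤ N := by
    refine ContinuousLinearMap.opNorm_le_bound _ (by linarith) fun g => ?_
    have h1 := hN ((↑u⁻¹ : X →L[ℂ] X) g)
    have h2 : (1 - (D.pot.bop hk).clm) * (↑u⁻¹ : X →L[ℂ] X) = 1 := by
      rw [← hu]; exact u.mul_inv
    have h3 := congrArg (fun T : X →L[ℂ] X => T g) h2
    have h4 : (↑u⁻¹ : X →L[ℂ] X) g - (D.pot.bop hk).clm ((↑u⁻¹ : X →L[ℂ] X) g) = g := by
      simpa using h3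
    rwa [h4] at h1
  have hsmall : ‖(D.pot.bop hk).clm - T‖ * ‖(↑u⁻¹ : X →L[ℂ] X)‖ < 1 := by
    have h1 := D.clm_close h hk (D.CK_nonneg hk)
    rw [norm_sub_rev] at h1
    have h4 : CK c R k K / a * N ≤ 1 / 2 := by
      rw [div_mul_eq_mul_div, div_le_iff₀ ha0]
      linarith
    have h5 : ‖(D.pot.bop hk).clm - T‖ * ‖(↑u⁻¹ : X →L[ℂ] X)‖ ≤ CK c R k K / a * N :=
      mul_le_mul h1 hinv (norm_nonneg _) (div_nonneg (D.CK_nonneg hk) ha0.le)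
    linarith
  have hunit : IsUnit (1 - T) := by
    set S : X →L[ℂ] X := -((↑u⁻¹ : X →L[ℂ] X) * ((D.pot.bop hk).clm - T)) with hS
    have e : 1 - T = (u : X →L[ℂ] X) * (1 - S) := by
      rw [hS, sub_neg_eq_add, mul_add, mul_one, ← mul_assoc, u.mul_inv, one_mul, hu]
      abel
    have hSn : ‖S‖ < 1 := by
      rw [hS, norm_neg]
      refine (norm_mul_le _ _).trans_lt ?_
      rw [mul_comm]
      exact hsmall
    rw [e]
    exact (u.isUnit).mul (isUnit_one_sub_clm S hSn)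
  obtain ⟨v, hv⟩ := hunit
  set e : X := mkX (eA k A) (eA_CB k A) with he
  set f : X := (↑v⁻¹ : X →L[ℂ] X) e with hf
  have h1 : f - T f = e := by
    have h2 : (1 - T) * (↑v⁻¹ : X →L[ℂ] X) = 1 := by
      rw [← hv]; exact v.mul_inv
    have h3 := congrArg (fun T : X →L[ℂ] X => T e) h2
    simpa using h3
  have h7 := D.apriori h hk hN1 hN ha A f h1
  refine ⟨f, ⟨f.continuous, fun s => (f.norm_coe_le_norm s).trans h7⟩, fun s => ?_⟩
  have h5 := congrArg (fun g : X => g s) h1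
  simp only [BoundedContinuousFunction.sub_apply, BOp.clm_apply, hT] at h5
  have h6 : e s = eA k A s := rfl
  rw [h6] at h5
  rw [← h5]; ring

/-- every bounded solution obeys the a priori bound -/
lemma apriori' {a m k N M : ℝ} (h : Reg a m k c) (hk : k ≠ 0) (hN1 : 1 ≤ N)
    (hN : ∀ g : X, ‖g‖ ≤ N * ‖g - (D.pot.bop hk).clm g‖) (ha : 2 * N * CK c R k K ≤ a)
    (A : Fin 2 → ℂ) {f : ℝ → ℂ} (hf : CB M f) (hfeq : ∀ s, f s = eA k A s + Kop k a m γ f s) :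
    CB (2 * N * nA A) f := by
  have h1 := D.apriori h hk hN1 hN ha A (mkX f hf) (by
    ext s
    change f s - Kop k a m γ f s = eA k A s
    rw [hfeq s]
    have : Kop k a m γ f s = Kop k a m γ f s := rfl
    nth_rewrite 1 [← hfeq s]
    rw [hfeq s]; ring)
  exact ⟨hf.1, fun s => ((mkX f hf).norm_coe_le_norm s).trans h1⟩

/-- the constant of the amplitude error -/
noncomputable def _root_.Pool.Agent.Helper97.Scat.CE (c R k K N : ℝ) : ℝ :=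
  let N₁ := (1 + |k| + k ^ 2) * (1 + (1 / (2 * |k|) + 1 / 2) * (R * K ^ 2 / 2 * N)) + K ^ 2 / 4 * N
  let N₂ := (1 + |k| + k ^ 2) * (1 + (1 / (2 * |k|) + 1 / 2) * (10 * (C0 c R * K ^ 2 * N)))
    + 5 * (C0 c R * K ^ 2 * N)
  1 / (2 * |k|) * ((9 * Cw c R k * (K ^ 2 + K ^ 4) + 2 * (3 + 2 * k ^ 2) * (C0 c R * K ^ 2)) * (N₁ * N₂)
    + N₁ * (25 * (C0 c R * K ^ 2) ^ 2 * N))

lemma Vc_integral : ∫ t, |Vc g2 t| ≤ R * K ^ 2 / 2 := by
  have h1 := D.g2_sq_integral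
  have e : ∀ t, |Vc g2 t| = ‖g2 t‖ ^ 2 / 4 := fun t => by
    rw [Vc, abs_of_nonneg (by positivity)]
  simp only [e]
  rw [integral_div]
  linarith

lemma Vc_le (t : ℝ) : |Vc g2 t| ≤ K ^ 2 / 4 := by
  rw [Vc, abs_of_nonneg (by positivity)]
  have := pow_le_pow_left₀ (norm_nonneg _) (D.b2 t) 2
  linarith

/-- bound for comparison solutions as test functions -/
lemma phi_C2 {k N : ℝ} (hk : k ≠ 0) (hN : 0 ≤ N) (A : Fin 2 → ℂ) (hA : nA A ≤ 1) {φ : ℝ → ℂ}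
    (hφ : CB N φ) (hφeq : ∀ s, φ s = eA k A s + R0 k (fun t => (Vc g2 t : ℂ) * φ t) s) :
    ∃ φ' φ'' : ℝ → ℂ, C2 ((1 + |k| + k ^ 2) * (1 + (1 / (2 * |k|) + 1 / 2) * (R * K ^ 2 / 2 * N))
      + K ^ 2 / 4 * N) φ φ' φ'' := by
  have P := D.pot
  have hR := D.hR
  have hk' : 0 < |k| := abs_pos.2 hk
  have hVi := P.mul_integrable hφ
  have hVc : CB (K ^ 2 / 4 * N) (fun t => (Vc g2 t : ℂ) * φ t) := by
    refine ⟨P.mul_cont hφ, fun t => ?_⟩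
    rw [norm_mul, Complex.norm_real, Real.norm_eq_abs]
    exact mul_le_mul (D.Vc_le t) (hφ.2 t) (norm_nonneg _) (by positivity)
  have hI : ∫ t, ‖(Vc g2 t : ℂ) * φ t‖ ≤ R * K ^ 2 / 2 * N :=
    (P.mul_norm_integral hφ).trans (mul_le_mul_of_nonneg_right D.Vc_integral hN)
  have h1 := C2_wave hk A hVi hVc hI
  have e : φ = fun s => eA k A s + R0 k (fun t => (Vc g2 t : ℂ) * φ t) s := funext hφeq
  rw [← e] at h1
  have hle : (1 + |k| + k ^ 2) * (nA A + (1 / (2 * |k|) + 1 / 2) * (R * K ^ 2 / 2 * N)) + K ^ 2 / 4 * N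
      ≤ (1 + |k| + k ^ 2) * (1 + (1 / (2 * |k|) + 1 / 2) * (R * K ^ 2 / 2 * N)) + K ^ 2 / 4 * N := by
    gcongr
  exact ⟨_, _, h1.mono hle⟩

omit D in
lemma nA_uv (j : Fin 2) : nA (uv j) = 1 := by
  fin_cases j <;> simp [nA, uv]

/-- convergence of the amplitudes on the line with rate `a⁻²` -/
lemma line_error {a m k N : ℝ} (h : Reg a m k c) (hk : k ≠ 0) (hN1 : 1 ≤ N)
    (hN : ∀ g : X, ‖g‖ ≤ N * ‖g - (D.pot.bop hk).clm g‖)
    (A : Fin 2 → ℂ) {f f₀ : ℝ → ℂ} (hf : CB (2 * N * nA A) f)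
    (hfeq : ∀ s, f s = eA k A s + Kop k a m γ f s)
    (hf₀ : CB (N * nA A) f₀)
    (hf₀eq : ∀ s, f₀ s = eA k A s + R0 k (fun t => (Vc g2 t : ℂ) * f₀ t) s) (j : Fin 2) :
    ‖outA k A (Vop a m γ f) j - outA k A (fun t => (Vc g2 t : ℂ) * f₀ t) j‖
      ≤ CE c R k K N * nA A / a ^ 2 := by
  have ha := h.a_pos
  have P := D.pot
  have hk' : 0 < |k| := abs_pos.2 hk
  have hn := nA_nonneg A
  have hC0 := D.C0_nonneg
  have hN0 : 0 ≤ N := by linarith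
  obtain ⟨φ, hφ, hφeq⟩ := P.exists_sol hk hN hN0 (uv j)
  rw [nA_uv j, mul_one] at hφ
  obtain ⟨φ', φ'', hφ2⟩ := D.phi_C2 hk hN0 (uv j) (nA_uv j).le hφ hφeq
  have hw := C2_wave hk A (D.Vop_integrable h hf) (D.Vop_CB h hf) (D.Vop_norm_integral h hf)
  have hamp := D.amp_error h hf hfeq hφ2 hφeq hw
  have hsym := P.comp_symm hf₀ hφ hf₀eq hφeq
  rw [outA_apply, outA_apply]
  have e1 : A (1 - j) + (Complex.I / (2 * k)) * (∫ t, eA k (uv j) t * Vop a m γ f t)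
      - (A (1 - j) + (Complex.I / (2 * k)) * ∫ t, eA k (uv j) t * ((Vc g2 t : ℂ) * f₀ t))
      = (Complex.I / (2 * k)) * ((∫ t, eA k (uv j) t * Vop a m γ f t)
        - ∫ t, eA k A t * ((Vc g2 t : ℂ) * φ t)) := by
    rw [hsym]; ring
  rw [e1, norm_mul]
  have e2 : ‖Complex.I / (2 * (k:ℂ))‖ = 1 / (2 * |k|) := by rw [norm_div]; simp
  rw [e2]
  refine (mul_le_mul_of_nonneg_left hamp (by positivity)).trans (le_of_eq ?_)
  unfold CE
  field_simp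
  ring

end Data

end Pool.Agent.Helper97.Scat
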