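import Pool.Agent.Helper97.Scat.UShape

/-!
# Convergence of the scattering matrices
-/

open MeasureTheory Filter Topology Set Real
open scoped ContDiff

namespace Pool.Agent.Helper97.Scat

lemma mulVec_uv (S : Matrix (Fin 2) (Fin 2) ℂ) (i j : Fin 2) : S.mulVec (uv j) i = S i j := by
  simp [uv]

lemma Pre.pot {γ g1 g2 g3 g4 : ℝ → ℂ} {u v : ℂ} {R K : ℝ} (P : Pre γ g1 g2 g3 g4 u v R K) :
    Pot (Vc g2) R where
  cont := by
    have : Continuous g2 := continuous_iff_continuousAt.2 fun s => (P.d2 s).continuousAt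
    unfold Vc; fun_prop
  supp := fun s hs => by simp [Vc, P.supp s hs]
  hR := P.hR

namespace Data
variable {γ g1 g2 g3 g4 : ℝ → ℂ} {R c K : ℝ} (D : Data γ g1 g2 g3 g4 R c K)
include D

/-- for large coupling everything is in the perturbative regime -/
lemma large {p : ℝ} (hp : 0 < p) {N : ℝ} (hN1 : 1 ≤ N)
    (hN : ∀ g : X, ‖g‖ ≤ N * ‖g - (D.pot.bop hp.ne').clm g‖)
    {S : Matrix (Fin 2) (Fin 2) ℂ}
    (hS : ∀ A f, LSol p (fun f => R0 p fun t => (Vc g2 t : ℂ) * f t) A f →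
        outA p A (fun t => (Vc g2 t : ℂ) * f t) = S.mulVec A)
    {a : ℝ} (h1 : 1 ≤ a) (h2 : 2 * p ≤ a) (h3 : 12 / c ≤ a) (h4 : 2 * N * CK c R p K ≤ a) :
    ∃ Sα, IsLeakySMatrix γ (2 * a) (p ^ 2 - (2 * a) ^ 2 / 4) Sα ∧
      ∀ i j, ‖Sα i j - S i j‖ ≤ CE c R p K N / a ^ 2 := by
  have hreg : Reg a (mm a p) p c := reg_of_large D.hc h1 (by rwa [abs_of_pos hp]) h3
  obtain ⟨Sα, hSα, hSα'⟩ := D.leaky_matrix hreg hp hN1 hN h4
  refine ⟨Sα, hSα, fun i j => ?_⟩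
  obtain ⟨f, hf, hfe⟩ := D.exists_line hreg hp.ne' hN1 hN h4 (uv j)
  obtain ⟨f₀, hf₀, hf₀e⟩ := D.pot.exists_sol hp.ne' hN (by linarith) (uv j)
  have h5 := D.line_error hreg hp.ne' hN1 hN (uv j) hf hfe hf₀ hf₀e i
  rw [hSα' _ f ⟨⟨_, hf⟩, hfe⟩, hS _ f₀ ⟨⟨_, hf₀⟩, hf₀e⟩, mulVec_uv, mulVec_uv, nA_uv, mul_one] at h5
  exact h5

end Data

theorem main1 {γ : ℝ → ℂ} {u v : ℂ} (h : IsLeakyCurve γ u v) {k : ℝ} (hk : k ≠ 0) :
    ∃ S : Matrix (Fin 2) (Fin 2) ℂ, IsComparisonSMatrix (curvature γ) (k ^ 2) S ∧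
      (u ≠ v → ∃ C α₀ : ℝ, 0 < α₀ ∧ ∀ α : ℝ, α₀ ≤ α →
        ∃ Sα : Matrix (Fin 2) (Fin 2) ℂ, IsLeakySMatrix γ α (k ^ 2 - α ^ 2 / 4) Sα ∧
          ∀ i j, ‖Sα i j - S i j‖ ≤ C / α ^ 2) ∧
      (u = v → ∀ α : ℝ, 2 * |k| < α → ∀ (ψ : ℂ → ℂ) (A B : Fin 2 → ℂ),
        IsScatteringSolution γ α (k ^ 2 - α ^ 2 / 4) ψ A B → A = 0 ∧ B = 0) := by
  obtain ⟨R, K, P⟩ := h.pre
  set p := |k| with hp'
  have hp : 0 < p := abs_pos.2 hk
  have hk2 : k ^ 2 = p ^ 2 := by rw [hp', sq_abs]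
  rw [hk2]
  have hV : ∀ s, curvature γ s ^ 2 / 4 = Vc (deriv (deriv γ)) s := fun s => by
    rw [curvature_sq P.d0 P.d1 P.unit, Vc]
  obtain ⟨S, hS, hS'⟩ := P.pot.comp_matrix hV hp
  refine ⟨S, hS, fun huv => ?_, fun huv α hα ψ A B hs => ?_⟩
  · obtain ⟨c, D⟩ := P.data huv
    obtain ⟨N, hN1, hN⟩ := D.pot.inverse hp.ne'
    refine ⟨4 * CE c R p K N, 2 * (1 + 2 * p + 12 / c + 2 * N * CK c R p K), ?_, fun α hα => ?_⟩
    · have := D.hc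
      have := D.CK_nonneg hp.ne'
      positivity
    · have hc := D.hc
      have hCK := D.CK_nonneg hp.ne'
      have q1 : 0 ≤ 12 / c := by positivity
      have q2 : 0 ≤ 2 * N * CK c R p K := by positivity
      obtain ⟨Sα, h1, h2⟩ := D.large hp hN1 hN hS' (a := α / 2) (by linarith) (by linarith)
        (by linarith) (by linarith)
      have e : 2 * (α / 2) = α := by ring
      rw [e] at h1
      refine ⟨Sα, h1, fun i j => (h2 i j).trans (le_of_eq ?_)⟩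
      have hα0 : 0 < α := by linarith
      field_simp
      ring
  · subst huv
    exact P.ushape hp hα hs

end Pool.Agent.Helper97.Scat
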