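import Pool.Agent.Helper97.Scat.DKer

/-!
# Moments of the kernels
-/

open MeasureTheory Filter Topology Set Real
open scoped Nat

namespace Pool.Agent.Helper97.Scat

lemma pow_gauss_integrable {b : ℝ} (hb : 0 < b) (n : ℕ) :
    Integrable (fun x : ℝ => x ^ n * Real.exp (-b * x ^ 2)) := by
  have := integrable_rpow_mul_exp_neg_mul_sq hb (s := (n:ℝ)) (by
    have : (0:ℝ) ≤ n := Nat.cast_nonneg n
    linarith)
  simpa only [Real.rpow_natCast] using this

lemma pow_gauss_Ioi {b : ℝ} (hb : 0 < b) (n : ℕ) :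
    ∫ x in Ioi (0:ℝ), x ^ n * Real.exp (-b * x ^ 2)
      = b ^ (-((n:ℝ) + 1) / 2) * (1 / 2) * Real.Gamma (((n:ℝ) + 1) / 2) := by
  have h := integral_rpow_mul_exp_neg_mul_rpow (p := 2) (q := (n:ℝ)) (b := b) two_pos (by
    have : (0:ℝ) ≤ n := Nat.cast_nonneg n
    linarith) hb
  rw [← h]
  refine setIntegral_congr_fun measurableSet_Ioi fun x _ => ?_
  simp only [Real.rpow_natCast, Real.rpow_two]

lemma pow_gauss_even {b : ℝ} (hb : 0 < b) (n : ℕ) :
    ∫ x : ℝ, x ^ (2 * n) * Real.exp (-b * x ^ 2)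
      = b ^ (-((2 * n : ℕ) + 1 : ℝ) / 2) * Real.Gamma (((2 * n : ℕ) + 1 : ℝ) / 2) := by
  have e : (fun x : ℝ => x ^ (2 * n) * Real.exp (-b * x ^ 2))
      = fun x => (fun y : ℝ => y ^ (2 * n) * Real.exp (-b * y ^ 2)) |x| := by
    ext x
    simp only [sq_abs]
    rw [Even.pow_abs (even_two_mul n)]
  rw [e, integral_comp_abs (f := fun y : ℝ => y ^ (2 * n) * Real.exp (-b * y ^ 2)), pow_gauss_Ioi hb]
  ring

lemma Gamma_three_half : Real.Gamma (3 / 2) = √π / 2 := by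
  have := Real.Gamma_add_one (s := 1 / 2) (by norm_num)
  rw [Real.Gamma_one_half_eq] at this
  rw [show (3 / 2 : ℝ) = 1 / 2 + 1 by norm_num, this]
  ring

lemma Gamma_five_half : Real.Gamma (5 / 2) = 3 * √π / 4 := by
  have := Real.Gamma_add_one (s := 3 / 2) (by norm_num)
  rw [Gamma_three_half] at this
  rw [show (5 / 2 : ℝ) = 3 / 2 + 1 by norm_num, this]
  ring

lemma Gamma_seven_half : Real.Gamma (7 / 2) = 15 * √π / 8 := by
  have := Real.Gamma_add_one (s := 5 / 2) (by norm_num)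
  rw [Gamma_five_half] at this
  rw [show (7 / 2 : ℝ) = 5 / 2 + 1 by norm_num, this]
  ring

/-- integrability of the product `r^(2n) hk (r²) / (4 σ²)`, `n ≥ 1`, and the value of its integral -/
lemma mom_general {m : ℝ} (hm : 0 < m) (n : ℕ) :
    Integrable (fun p : ℝ × ℝ => p.2 ^ (2 * (n + 1)) * (hk m (p.2 ^ 2) p.1 / (4 * p.1 ^ 2)))
      ((volume.restrict (Ioi 0)).prod volume) ∧
    ∫ r : ℝ, r ^ (2 * (n + 1)) * gk1 m (r ^ 2)
      = 2 ^ (2 * n + 3) * Real.Gamma (((2 * (n + 1) : ℕ) + 1 : ℝ) / 2) / (8 * π)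
        * ((m ^ 2) ^ (-((2 * n : ℕ) + 1 : ℝ) / 2) * (1 / 2) * Real.Gamma (((2 * n : ℕ) + 1 : ℝ) / 2)) := by
  have hmeas : Measurable (fun p : ℝ × ℝ => p.2 ^ (2 * (n + 1)) * (hk m (p.2 ^ 2) p.1 / (4 * p.1 ^ 2))) := by
    have h1 : Measurable (fun p : ℝ × ℝ => hk m (p.2 ^ 2) p.1) :=
      (measurable_hk m).comp (measurable_fst.prodMk (by fun_prop : Measurable fun p : ℝ × ℝ => p.2 ^ 2))
    exact (by fun_prop : Measurable fun p : ℝ × ℝ => p.2 ^ (2 * (n + 1))).mul
      (h1.div (by fun_prop))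
  have hsplit : ∀ σ r : ℝ, r ^ (2 * (n + 1)) * (hk m (r ^ 2) σ / (4 * σ ^ 2))
      = Real.exp (-(m ^ 2) * σ ^ 2) / (8 * π * σ ^ 3)
        * (r ^ (2 * (n + 1)) * Real.exp (-(1 / (4 * σ ^ 2)) * r ^ 2)) := by
    intro σ r
    rw [hk, sub_eq_add_neg, Real.exp_add]
    rw [show -(m ^ 2) * σ ^ 2 = -(m ^ 2 * σ ^ 2) by ring,
      show -(1 / (4 * σ ^ 2)) * r ^ 2 = -(r ^ 2 / (4 * σ ^ 2)) by ring]
    rcases eq_or_ne σ 0 with rfl | hσ
    · simp
    · field_simp
      ring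
  have hin : ∀ σ, 0 < σ → ∫ r : ℝ, r ^ (2 * (n + 1)) * (hk m (r ^ 2) σ / (4 * σ ^ 2))
      = 2 ^ (2 * n + 3) * Real.Gamma (((2 * (n + 1) : ℕ) + 1 : ℝ) / 2) / (8 * π)
        * (σ ^ (2 * n) * Real.exp (-(m ^ 2) * σ ^ 2)) := by
    intro σ hσ
    simp only [hsplit]
    rw [integral_const_mul, pow_gauss_even (by positivity)]
    have hpw : (1 / (4 * σ ^ 2)) ^ (-((2 * (n + 1) : ℕ) + 1 : ℝ) / 2) = (2 * σ) ^ (2 * n + 3) := by
      rw [show (1 / (4 * σ ^ 2)) = ((2 * σ) ^ (2:ℝ))⁻¹ by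
        rw [Real.rpow_two]; field_simp; ring]
      rw [← Real.rpow_neg (by positivity), ← Real.rpow_mul (by positivity), ← Real.rpow_natCast]
      congr 1
      push_cast
      ring
    rw [hpw, mul_pow]
    have : σ ^ (2 * n + 3) = σ ^ (2 * n) * σ ^ 3 := pow_add _ _ _
    rw [this]
    field_simp
  have hint : Integrable (fun p : ℝ × ℝ => p.2 ^ (2 * (n + 1)) * (hk m (p.2 ^ 2) p.1 / (4 * p.1 ^ 2)))
      ((volume.restrict (Ioi 0)).prod volume) := by
    rw [integrable_prod_iff hmeas.aestronglyMeasurable]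
    constructor
    · refine (ae_restrict_iff' measurableSet_Ioi).2 (Eventually.of_forall fun σ hσ => ?_)
      have hσ : 0 < σ := hσ
      simp only [hsplit]
      exact (pow_gauss_integrable (by positivity) _).const_mul _
    · have h : IntegrableOn (fun σ : ℝ => 2 ^ (2 * n + 3)
          * Real.Gamma (((2 * (n + 1) : ℕ) + 1 : ℝ) / 2) / (8 * π)
          * (σ ^ (2 * n) * Real.exp (-(m ^ 2) * σ ^ 2))) (Ioi 0) :=
        ((pow_gauss_integrable (by positivity) _).const_mul _).integrableOn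
      refine IntegrableOn.congr_fun h (fun σ hσ => ?_) measurableSet_Ioi
      have hσ : 0 < σ := hσ
      simp only
      rw [← hin σ hσ]
      refine integral_congr_ae (Eventually.of_forall fun r => ?_)
      simp only
      have h1 := hk_nonneg m (r ^ 2) hσ
      rw [Real.norm_of_nonneg]
      have : 0 ≤ r ^ (2 * (n + 1)) := (even_two_mul _).pow_nonneg r
      positivity
  refine ⟨hint, ?_⟩
  have h1 : ∫ r : ℝ, r ^ (2 * (n + 1)) * gk1 m (r ^ 2)
      = ∫ σ in Ioi (0:ℝ), ∫ r : ℝ, r ^ (2 * (n + 1)) * (hk m (r ^ 2) σ / (4 * σ ^ 2)) := by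
    rw [integral_integral_swap hint]
    congr 1
    ext r
    rw [integral_const_mul, gk1]
  rw [h1]
  have h2 : ∫ σ in Ioi (0:ℝ), ∫ r : ℝ, r ^ (2 * (n + 1)) * (hk m (r ^ 2) σ / (4 * σ ^ 2))
      = ∫ σ in Ioi (0:ℝ), 2 ^ (2 * n + 3) * Real.Gamma (((2 * (n + 1) : ℕ) + 1 : ℝ) / 2) / (8 * π)
        * (σ ^ (2 * n) * Real.exp (-(m ^ 2) * σ ^ 2)) :=
    setIntegral_congr_fun measurableSet_Ioi fun σ hσ => hin σ hσ
  rw [h2, integral_const_mul, pow_gauss_Ioi (by positivity)]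

lemma mom_integrable {m : ℝ} (hm : 0 < m) (n : ℕ) :
    Integrable (fun r : ℝ => r ^ (2 * (n + 1)) * gk1 m (r ^ 2)) := by
  have := (mom_general hm n).1.integral_prod_right
  refine this.congr (Eventually.of_forall fun r => ?_)
  simp only
  rw [integral_const_mul, gk1]

lemma sq_rpow_neg {m : ℝ} (hm : 0 < m) (k : ℕ) :
    (m ^ 2) ^ (-((k:ℝ)) / 2) = 1 / m ^ k := by
  rw [show m ^ 2 = m ^ (2:ℝ) by rw [Real.rpow_two], ← Real.rpow_mul hm.le,
    show (2:ℝ) * (-(k:ℝ) / 2) = -(k:ℝ) by ring, Real.rpow_neg hm.le, Real.rpow_natCast, one_div]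

lemma mom4 {m : ℝ} (hm : 0 < m) : ∫ r : ℝ, r ^ 4 * gk1 m (r ^ 2) = 3 / (4 * m ^ 3) := by
  have h := (mom_general hm 1).2
  norm_num at h
  rw [h]
  have e1 : (m ^ 2) ^ (-(3 / 2) : ℝ) = 1 / m ^ 3 := by
    have := sq_rpow_neg hm 3
    rw [← this]; norm_num
  rw [e1, Gamma_three_half, Gamma_five_half]
  have : √π * √π = π := Real.mul_self_sqrt pi_pos.le
  field_simp
  rw [show √π ^ 2 = π by rw [sq]; exact this]
  ring

lemma mom6 {m : ℝ} (hm : 0 < m) : ∫ r : ℝ, r ^ 6 * gk1 m (r ^ 2) = 45 / (4 * m ^ 5) := by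
  have h := (mom_general hm 2).2
  norm_num at h
  rw [h]
  have e1 : (m ^ 2) ^ (-(5 / 2) : ℝ) = 1 / m ^ 5 := by
    have := sq_rpow_neg hm 5
    rw [← this]; norm_num
  rw [e1, Gamma_five_half, Gamma_seven_half]
  have : √π * √π = π := Real.mul_self_sqrt pi_pos.le
  field_simp
  rw [show √π ^ 2 = π by rw [sq]; exact this]
  ring

lemma mom4_int {m : ℝ} (hm : 0 < m) : Integrable (fun r : ℝ => r ^ 4 * gk1 m (r ^ 2)) :=
  mom_integrable hm 1

lemma mom6_int {m : ℝ} (hm : 0 < m) : Integrable (fun r : ℝ => r ^ 6 * gk1 m (r ^ 2)) :=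
  mom_integrable hm 2

/-- the profile `ρ` -/
noncomputable def rho (a m r : ℝ) : ℝ := a ^ 3 / 3 * (r ^ 4 * gk1 m (r ^ 2))

lemma rho_nonneg {a m : ℝ} (ha : 0 < a) (r : ℝ) : 0 ≤ rho a m r := by
  have := gk1_nonneg m (r ^ 2)
  unfold rho; positivity

lemma rho_even (a m r : ℝ) : rho a m (-r) = rho a m r := by
  rw [rho, rho]
  congr 1
  rw [neg_sq, show (-r) ^ 4 = r ^ 4 by ring]

lemma measurable_rho (a m : ℝ) : Measurable (rho a m) := by
  unfold rho
  exact (((by fun_prop : Measurable fun r : ℝ => r ^ 4)).mul ((measurable_gk1 m).comp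
    (by fun_prop))).const_mul _

lemma rho_integrable {a m : ℝ} (hm : 0 < m) : Integrable (rho a m) := (mom4_int hm).const_mul _

lemma rho_integral {a m : ℝ} (hm : 0 < m) : ∫ r, rho a m r = a ^ 3 / (4 * m ^ 3) := by
  unfold rho
  rw [integral_const_mul, mom4 hm]
  field_simp

lemma rho2_integrable {a m : ℝ} (hm : 0 < m) : Integrable (fun r => rho a m r * r ^ 2) := by
  refine ((mom6_int hm).const_mul (a ^ 3 / 3)).congr (Eventually.of_forall fun r => ?_)
  simp only [rho]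
  ring

lemma rho2_integral {a m : ℝ} (hm : 0 < m) : ∫ r, rho a m r * r ^ 2 = 15 * a ^ 3 / (4 * m ^ 5) := by
  have e : ∀ r, rho a m r * r ^ 2 = a ^ 3 / 3 * (r ^ 6 * gk1 m (r ^ 2)) := by
    intro r; rw [rho]; ring
  simp only [e]
  rw [integral_const_mul, mom6 hm]
  field_simp
  ring

lemma rho1_integrable {a m : ℝ} (ha : 0 < a) (hm : 0 < m) :
    Integrable (fun r => rho a m r * |r|) := by
  have h := ((rho_integrable (a := a) hm).add (rho2_integrable (a := a) hm))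
  refine Integrable.mono' h ?_ (Eventually.of_forall fun r => ?_)
  · exact ((measurable_rho a m).mul (by fun_prop)).aestronglyMeasurable
  · have h1 := rho_nonneg (m := m) ha r
    rw [Real.norm_of_nonneg (by positivity)]
    have h2 : |r| ≤ 1 + r ^ 2 := by
      rw [← sq_abs r]; nlinarith [sq_nonneg (|r| - 1)]
    calc rho a m r * |r| ≤ rho a m r * (1 + r ^ 2) := by gcongr
      _ = _ := by simp only [Pi.add_apply]; ring

lemma rho1_integral {a m : ℝ} (ha : 0 < a) (hm : 0 < m) :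
    ∫ r, rho a m r * |r| ≤ a ^ 2 / (8 * m ^ 3) + 15 * a ^ 4 / (8 * m ^ 5) := by
  have h1 : Integrable (fun r => rho a m r * (1 / (2 * a)) + rho a m r * r ^ 2 * (a / 2)) :=
    ((rho_integrable hm).mul_const _).add ((rho2_integrable hm).mul_const _)
  calc ∫ r, rho a m r * |r| ≤ ∫ r, (rho a m r * (1 / (2 * a)) + rho a m r * r ^ 2 * (a / 2)) := by
        refine integral_mono (rho1_integrable ha hm) h1 fun r => ?_
        simp only
        have h2 := rho_nonneg (m := m) ha r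
        have h3 : |r| ≤ 1 / (2 * a) + r ^ 2 * (a / 2) := by
          rw [← sq_abs r]
          have := sq_nonneg (a * |r| - 1)
          have h4 : 2 * a * |r| ≤ 1 + a ^ 2 * |r| ^ 2 := by nlinarith
          rw [div_add' _ _ _ (by positivity), le_div_iff₀ (by positivity)]
          nlinarith
        calc rho a m r * |r| ≤ rho a m r * (1 / (2 * a) + r ^ 2 * (a / 2)) := by gcongr
          _ = _ := by ring
    _ = _ := by
        rw [integral_add ((rho_integrable hm).mul_const _) ((rho2_integrable hm).mul_const _),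
          integral_mul_const, integral_mul_const, rho_integral hm, rho2_integral hm]
        field_simp
        norm_num

end Pool.Agent.Helper97.Scat
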