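import Pool.Agent.Helper97.Scat.Comb
import Pool.Agent.Helper97.Scat.Fred
import Pool.Agent.Helper97.Scat.Layer

/-!
# The operator of the scattering problem on the line and its limit
-/

open MeasureTheory Filter Topology Set Real
open scoped BoundedContinuousFunction

namespace Pool.Agent.Helper97.Scat

/-! ### moments of `gk` -/

lemma gk_mom2 {m : ℝ} (hm : 0 < m) :
    Integrable (fun r : ℝ => gk m (r ^ 2) * r ^ 2) ∧ ∫ r : ℝ, gk m (r ^ 2) * r ^ 2 = 1 / (2 * m ^ 3) := by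
  have hmeas : Measurable (fun p : ℝ × ℝ => hk m (p.2 ^ 2) p.1 * p.2 ^ 2) := by
    have h1 : Measurable (fun p : ℝ × ℝ => hk m (p.2 ^ 2) p.1) :=
      (measurable_hk m).comp (measurable_fst.prodMk (by fun_prop : Measurable fun p : ℝ × ℝ => p.2 ^ 2))
    exact h1.mul (by fun_prop)
  have hsplit : ∀ σ r : ℝ, hk m (r ^ 2) σ * r ^ 2
      = Real.exp (-(m ^ 2) * σ ^ 2) / (2 * π * σ)
        * (r ^ (2 * 1) * Real.exp (-(1 / (4 * σ ^ 2)) * r ^ 2)) := by
    intro σ r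
    rw [hk, sub_eq_add_neg, Real.exp_add]
    rw [show -(m ^ 2) * σ ^ 2 = -(m ^ 2 * σ ^ 2) by ring,
      show -(1 / (4 * σ ^ 2)) * r ^ 2 = -(r ^ 2 / (4 * σ ^ 2)) by ring]
    ring
  have hin : ∀ σ, 0 < σ → ∫ r : ℝ, hk m (r ^ 2) σ * r ^ 2
      = 2 / √π * (σ ^ 2 * Real.exp (-(m ^ 2) * σ ^ 2)) := by
    intro σ hσ
    simp only [hsplit]
    rw [integral_const_mul, pow_gauss_even (by positivity)]
    have hpw : (1 / (4 * σ ^ 2)) ^ (-((2 * 1 : ℕ) + 1 : ℝ) / 2) = (2 * σ) ^ 3 := by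
      rw [show (1 / (4 * σ ^ 2)) = ((2 * σ) ^ (2:ℝ))⁻¹ by
        rw [Real.rpow_two]; field_simp; ring]
      rw [← Real.rpow_neg (by positivity), ← Real.rpow_mul (by positivity), ← Real.rpow_natCast]
      congr 1
      push_cast
      ring
    have hG : Real.Gamma (((2 * 1 : ℕ) + 1 : ℝ) / 2) = √π / 2 := by
      rw [← Gamma_three_half]; congr 1; push_cast; ring
    rw [hpw, hG]
    have : √π * √π = π := Real.mul_self_sqrt pi_pos.le
    have h0 : √π ≠ 0 := (Real.sqrt_pos.2 pi_pos).ne'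
    field_simp
    rw [show √π ^ 2 = π by rw [sq]; exact this]
  have hint : Integrable (fun p : ℝ × ℝ => hk m (p.2 ^ 2) p.1 * p.2 ^ 2)
      ((volume.restrict (Ioi 0)).prod volume) := by
    rw [integrable_prod_iff hmeas.aestronglyMeasurable]
    constructor
    · refine (ae_restrict_iff' measurableSet_Ioi).2 (Eventually.of_forall fun σ hσ => ?_)
      have hσ : 0 < σ := hσ
      simp only [hsplit]
      exact (pow_gauss_integrable (by positivity) _).const_mul _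
    · have h : IntegrableOn (fun σ : ℝ => 2 / √π * (σ ^ 2 * Real.exp (-(m ^ 2) * σ ^ 2))) (Ioi 0) :=
        ((pow_gauss_integrable (by positivity) _).const_mul _).integrableOn
      refine IntegrableOn.congr_fun h (fun σ hσ => ?_) measurableSet_Ioi
      have hσ : 0 < σ := hσ
      simp only
      rw [← hin σ hσ]
      refine integral_congr_ae (Eventually.of_forall fun r => ?_)
      simp only
      have h1 := hk_nonneg m (r ^ 2) hσ
      rw [Real.norm_of_nonneg (by positivity)]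
  constructor
  · refine hint.integral_prod_right.congr (Eventually.of_forall fun r => ?_)
    simp only
    rw [integral_mul_const, gk]
  · have h1 : ∫ r : ℝ, gk m (r ^ 2) * r ^ 2
        = ∫ σ in Ioi (0:ℝ), ∫ r : ℝ, hk m (r ^ 2) σ * r ^ 2 := by
      rw [integral_integral_swap hint]
      congr 1
      ext r
      rw [integral_mul_const, gk]
    rw [h1]
    have h2 : ∫ σ in Ioi (0:ℝ), ∫ r : ℝ, hk m (r ^ 2) σ * r ^ 2
        = ∫ σ in Ioi (0:ℝ), 2 / √π * (σ ^ 2 * Real.exp (-(m ^ 2) * σ ^ 2)) :=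
      setIntegral_congr_fun measurableSet_Ioi fun σ hσ => hin σ hσ
    rw [h2, integral_const_mul, pow_gauss_Ioi (by positivity)]
    have e1 : (m ^ 2) ^ (-(((2:ℕ):ℝ) + 1) / 2) = 1 / m ^ 3 := by
      have := sq_rpow_neg hm 3
      rw [← this]; norm_num
    have hG : Real.Gamma ((((2:ℕ):ℝ) + 1) / 2) = √π / 2 := by
      rw [← Gamma_three_half]; congr 1; norm_num
    rw [e1, hG]
    have h0 : √π ≠ 0 := (Real.sqrt_pos.2 pi_pos).ne'
    field_simp

lemma gk_mom1 {m a : ℝ} (hm : 0 < m) (ha : 0 < a) :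
    Integrable (fun r : ℝ => gk m (r ^ 2) * |r|) ∧
      ∫ r : ℝ, gk m (r ^ 2) * |r| ≤ 1 / (4 * a * m) + a / (4 * m ^ 3) := by
  have hb : Integrable (fun r : ℝ => gk m (r ^ 2) * (1 / (2 * a)) + gk m (r ^ 2) * r ^ 2 * (a / 2)) :=
    ((N_integrable hm).mul_const _).add ((gk_mom2 hm).1.mul_const _)
  have hpt : ∀ r : ℝ, gk m (r ^ 2) * |r| ≤ gk m (r ^ 2) * (1 / (2 * a)) + gk m (r ^ 2) * r ^ 2 * (a / 2) := by
    intro r
    have h2 := gk_nonneg m (r ^ 2)
    have h3 : |r| ≤ 1 / (2 * a) + r ^ 2 * (a / 2) := by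
      rw [← sq_abs r]
      have := sq_nonneg (a * |r| - 1)
      rw [div_add' _ _ _ (by positivity), le_div_iff₀ (by positivity)]
      nlinarith
    calc gk m (r ^ 2) * |r| ≤ gk m (r ^ 2) * (1 / (2 * a) + r ^ 2 * (a / 2)) := by gcongr
      _ = _ := by ring
  have hi : Integrable (fun r : ℝ => gk m (r ^ 2) * |r|) := by
    refine Integrable.mono' hb ?_ (Eventually.of_forall fun r => ?_)
    · exact ((N_integrable hm).1.mul (by fun_prop))
    · rw [Real.norm_of_nonneg (mul_nonneg (gk_nonneg _ _) (abs_nonneg r))]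
      exact hpt r
  refine ⟨hi, (integral_mono hi hb hpt).trans (le_of_eq ?_)⟩
  rw [integral_add ((N_integrable hm).mul_const _) ((gk_mom2 hm).1.mul_const _),
    integral_mul_const, integral_mul_const, N_integral hm, (gk_mom2 hm).2]
  field_simp
  norm_num

/-- bounded functions with two bounded derivatives -/
structure C2 (N : ℝ) (φ φ' φ'' : ℝ → ℂ) : Prop where
  d0 : ∀ s, HasDerivAt φ (φ' s) s
  d1 : ∀ s, HasDerivAt φ' (φ'' s) s
  b0 : ∀ s, ‖φ s‖ ≤ N
  b1 : ∀ s, ‖φ' s‖ ≤ N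
  b2 : ∀ s, ‖φ'' s‖ ≤ N

lemma C2.CB {N : ℝ} {φ φ' φ'' : ℝ → ℂ} (h : C2 N φ φ' φ'') : CB N φ :=
  ⟨continuous_iff_continuousAt.2 fun s => (h.d0 s).continuousAt, h.b0⟩

lemma C2.nonneg {N : ℝ} {φ φ' φ'' : ℝ → ℂ} (h : C2 N φ φ' φ'') : 0 ≤ N := h.CB.nonneg

/-- symmetric second differences -/
lemma sym2 {F F' F'' : ℝ → ℂ} (h0 : ∀ y, HasDerivAt F (F' y) y) (h1 : ∀ y, HasDerivAt F' (F'' y) y)
    {B : ℝ} (hB : ∀ y, ‖F'' y‖ ≤ B) (y : ℝ) : ‖F y + F (-y) - 2 * F 0‖ ≤ 2 * B * |y| ^ 2 := by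
  have hneg : ∀ {G G' : ℝ → ℂ}, (∀ y, HasDerivAt G (G' y) y) →
      ∀ y, HasDerivAt (fun y => G (-y)) (-G' (-y)) y := by
    intro G G' hG y
    have := (hG (-y)).scomp y (hasDerivAt_neg y)
    simpa [Function.comp_def] using this
  have e1 : ∀ y, ‖F' y - F' (-y)‖ ≤ 2 * B * |y| ^ 1 := by
    refine mvt_pow (E := fun y => F' y - F' (-y)) (E' := fun y => F'' y + F'' (-y)) (by simp)
      (fun y => ?_) 0 (fun y => ?_)
    · refine ((h1 y).fun_sub (hneg h1 y)).congr_deriv ?_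
      ring
    · rw [pow_zero, mul_one]
      refine (norm_add_le _ _).trans ?_
      linarith [hB y, hB (-y)]
  refine mvt_pow (E := fun y => F y + F (-y) - 2 * F 0) (E' := fun y => F' y - F' (-y))
    (by simp [two_mul]) (fun y => ?_) 1 e1 y
  refine (((h0 y).fun_add (hneg h0 y)).sub_const _).congr_deriv ?_
  ring

section L0est
variable {a m k c : ℝ} (h : Reg a m k c)
include h

lemma Reg.am1 : |a / m - 1| ≤ 2 * k ^ 2 / a ^ 2 := by
  have h1 := h.ratio_ge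
  have ha := h.a_pos
  have hm := h.m_pos
  have hr : (a / m) ^ 2 = 1 + k ^ 2 / m ^ 2 := by
    rw [div_pow, ← h.rel]; field_simp
  have h7 : k ^ 2 / m ^ 2 ≤ 2 * k ^ 2 / a ^ 2 := by
    rw [div_le_div_iff₀ (by positivity) (by positivity)]
    have := h.a_sq_le
    nlinarith [sq_nonneg k]
  rw [abs_of_nonneg (by linarith)]
  nlinarith

lemma Reg.am : a / m ≤ 3 / 2 := by
  have h1 := h.ratio_sq
  have h2 := h.ratio_ge
  nlinarith

lemma L0_diff {φ : ℝ → ℂ} {M : ℝ} (hφ : CB M φ) (s : ℝ) :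
    L0 a m φ s - ((a / m : ℝ) : ℂ) * φ s
      = ((2 * a : ℝ) : ℂ) * ∫ r, (gk m (r ^ 2) : ℂ) * (φ (s - r) - φ s) := by
  have hm := h.m_pos
  have hN : Integrable (fun r : ℝ => (gk m (r ^ 2) : ℂ)) := (N_integrable hm).ofReal
  have e : ∫ r, (gk m (r ^ 2) : ℂ) * (φ (s - r) - φ s)
      = A0 m φ s - ((1 / (2 * m) : ℝ) : ℂ) * φ s := by
    rw [A0, ← N_integral hm, ← integral_complex_ofReal, ← integral_mul_const,
      ← integral_sub (A0_integrable hm hφ.1.aestronglyMeasurable hφ.2 s) (hN.mul_const _)]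
    congr 1; ext r; ring
  rw [e, L0]
  push_cast
  field_simp

/-- Lipschitz test functions -/
lemma L0_lip {φ : ℝ → ℂ} {M L : ℝ} (hφ : CB M φ) (hL : ∀ s t, ‖φ s - φ t‖ ≤ L * |s - t|) (s : ℝ) :
    ‖L0 a m φ s - φ s‖ ≤ (3 * L + 2 * k ^ 2 * M) / a := by
  have ha := h.a_pos
  have h1a := h.one_le
  have hm := h.m_pos
  have hM := hφ.nonneg
  have hL0 : 0 ≤ L := by
    have := (norm_nonneg _).trans (hL 1 0)
    simpa using this
  have hmom := gk_mom1 hm ha
  have h1 : ‖∫ r, (gk m (r ^ 2) : ℂ) * (φ (s - r) - φ s)‖ ≤ L * (1 / (4 * a * m) + a / (4 * m ^ 3)) := by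
    calc ‖∫ r, (gk m (r ^ 2) : ℂ) * (φ (s - r) - φ s)‖ ≤ ∫ r, L * (gk m (r ^ 2) * |r|) := by
          refine norm_integral_le_of_norm_le (hmom.1.const_mul L) (Eventually.of_forall fun r => ?_)
          rw [norm_mul, Complex.norm_real, Real.norm_of_nonneg (gk_nonneg _ _)]
          have := hL (s - r) s
          rw [show s - r - s = -r by ring, abs_neg] at this
          calc gk m (r ^ 2) * ‖φ (s - r) - φ s‖ ≤ gk m (r ^ 2) * (L * |r|) :=
                mul_le_mul_of_nonneg_left this (gk_nonneg _ _)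
            _ = _ := by ring
      _ ≤ _ := by
          rw [integral_const_mul]
          exact mul_le_mul_of_nonneg_left hmom.2 hL0
  have h2 : ‖L0 a m φ s - ((a / m : ℝ) : ℂ) * φ s‖ ≤ 3 * L / a := by
    rw [L0_diff h hφ, norm_mul, Complex.norm_real, Real.norm_of_nonneg (by positivity)]
    have r1 := h.am
    have r3 := h.ratio3
    calc 2 * a * ‖∫ r, (gk m (r ^ 2) : ℂ) * (φ (s - r) - φ s)‖
        ≤ 2 * a * (L * (1 / (4 * a * m) + a / (4 * m ^ 3))) := by gcongr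
      _ = L / a * (1 / 2 * (a / m) + 1 / 2 * (a / m) ^ 3) := by field_simp; ring
      _ ≤ L / a * (1 / 2 * (3 / 2) + 1 / 2 * 3) := by gcongr
      _ ≤ 3 * L / a := by
          rw [mul_div_assoc, mul_comm]
          gcongr
          norm_num
  have h3 : ‖((a / m : ℝ) : ℂ) * φ s - φ s‖ ≤ 2 * k ^ 2 * M / a := by
    have e : ((a / m : ℝ) : ℂ) * φ s - φ s = ((a / m - 1 : ℝ) : ℂ) * φ s := by push_cast; ring
    rw [e, norm_mul, Complex.norm_real, Real.norm_eq_abs]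
    calc |a / m - 1| * ‖φ s‖ ≤ (2 * k ^ 2 / a ^ 2) * M :=
          mul_le_mul h.am1 (hφ.2 s) (norm_nonneg _) (by positivity)
      _ ≤ (2 * k ^ 2 / a) * M := by
          have : a ≤ a ^ 2 := by nlinarith
          gcongr
      _ = _ := by ring
  have h4 := norm_add_le (L0 a m φ s - ((a / m : ℝ) : ℂ) * φ s) (((a / m : ℝ) : ℂ) * φ s - φ s)
  rw [sub_add_sub_cancel] at h4
  rw [add_div]
  linarith

/-- test functions with two bounded derivatives -/
lemma L0_C2 {φ φ' φ'' : ℝ → ℂ} {N : ℝ} (hφ : C2 N φ φ' φ'') (s : ℝ) :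
    ‖L0 a m φ s - φ s‖ ≤ (3 + 2 * k ^ 2) * N / a ^ 2 := by
  have ha := h.a_pos
  have hm := h.m_pos
  have hN := hφ.nonneg
  have hcb := hφ.CB
  have hmom := gk_mom2 hm
  have hN1 : Integrable (fun r : ℝ => (gk m (r ^ 2) : ℂ)) := (N_integrable hm).ofReal
  have i1 : Integrable (fun r => (gk m (r ^ 2) : ℂ) * (φ (s - r) - φ s)) := by
    have := (A0_integrable hm hcb.1.aestronglyMeasurable hcb.2 s).sub (hN1.mul_const (φ s))
    refine this.congr (Eventually.of_forall fun r => ?_)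
    simp only [Pi.sub_apply]; ring
  have e1 : ∫ r, (gk m (r ^ 2) : ℂ) * (φ (s - r) - φ s)
      = ∫ r, (gk m (r ^ 2) : ℂ) * ((1 / 2) * (φ (s + r) + φ (s + -r) - 2 * φ (s + 0))) := by
    have e2 : ∫ r, (gk m (r ^ 2) : ℂ) * (φ (s - r) - φ s)
        = ∫ r, (gk m (r ^ 2) : ℂ) * (φ (s + r) - φ s) := by
      rw [← integral_neg_eq_self]
      congr 1; ext r
      rw [neg_sq, sub_neg_eq_add]
    have i2 : Integrable (fun r => (gk m (r ^ 2) : ℂ) * (φ (s + r) - φ s)) := by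
      refine i1.comp_neg.congr (Eventually.of_forall fun r => ?_)
      simp only [neg_sq, sub_neg_eq_add]
    have e3 : ∫ r, (gk m (r ^ 2) : ℂ) * (φ (s - r) - φ s)
        = (1 / 2) * ((∫ r, (gk m (r ^ 2) : ℂ) * (φ (s - r) - φ s))
          + ∫ r, (gk m (r ^ 2) : ℂ) * (φ (s + r) - φ s)) := by
      rw [← e2]; ring
    rw [e3, ← integral_add i1 i2, ← integral_const_mul]
    congr 1; ext r
    rw [add_zero, sub_eq_add_neg]
    ring
  have hsh : ∀ {G G' : ℝ → ℂ}, (∀ y, HasDerivAt G (G' y) y) →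
      ∀ y, HasDerivAt (fun y => G (s + y)) (G' (s + y)) y := fun {G G'} hG y => by
    exact (hG (s + y)).comp_const_add s y
  have hpt : ∀ r, ‖φ (s + r) + φ (s + -r) - 2 * φ (s + 0)‖ ≤ 2 * N * |r| ^ 2 := fun r =>
    sym2 (hsh hφ.d0) (hsh hφ.d1) (fun y => hφ.b2 (s + y)) r
  have h1 : ‖∫ r, (gk m (r ^ 2) : ℂ) * (φ (s - r) - φ s)‖ ≤ N * (1 / (2 * m ^ 3)) := by
    rw [e1]
    calc ‖∫ r, (gk m (r ^ 2) : ℂ) * ((1 / 2) * (φ (s + r) + φ (s + -r) - 2 * φ (s + 0)))‖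
        ≤ ∫ r, N * (gk m (r ^ 2) * r ^ 2) := by
          refine norm_integral_le_of_norm_le (hmom.1.const_mul N) (Eventually.of_forall fun r => ?_)
          rw [norm_mul, norm_mul, Complex.norm_real, Real.norm_of_nonneg (gk_nonneg _ _)]
          have h2 : ‖(1 / 2 : ℂ)‖ = 1 / 2 := by norm_num
          have h3 := hpt r
          rw [sq_abs] at h3
          have h4 := gk_nonneg m (r ^ 2)
          rw [h2]
          calc gk m (r ^ 2) * (1 / 2 * ‖φ (s + r) + φ (s + -r) - 2 * φ (s + 0)‖)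
              ≤ gk m (r ^ 2) * (1 / 2 * (2 * N * r ^ 2)) := by gcongr
            _ = _ := by ring
      _ = _ := by rw [integral_const_mul, hmom.2]
  have h2 : ‖L0 a m φ s - ((a / m : ℝ) : ℂ) * φ s‖ ≤ 3 * N / a ^ 2 := by
    rw [L0_diff h hcb, norm_mul, Complex.norm_real, Real.norm_of_nonneg (by positivity)]
    have r3 := h.ratio3
    calc 2 * a * ‖∫ r, (gk m (r ^ 2) : ℂ) * (φ (s - r) - φ s)‖
        ≤ 2 * a * (N * (1 / (2 * m ^ 3))) := by gcongr
      _ = N / a ^ 2 * (a / m) ^ 3 := by field_simp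
      _ ≤ N / a ^ 2 * 3 := by gcongr
      _ = _ := by ring
  have h3 : ‖((a / m : ℝ) : ℂ) * φ s - φ s‖ ≤ 2 * k ^ 2 * N / a ^ 2 := by
    have e : ((a / m : ℝ) : ℂ) * φ s - φ s = ((a / m - 1 : ℝ) : ℂ) * φ s := by push_cast; ring
    rw [e, norm_mul, Complex.norm_real, Real.norm_eq_abs]
    calc |a / m - 1| * ‖φ s‖ ≤ (2 * k ^ 2 / a ^ 2) * N :=
          mul_le_mul h.am1 (hφ.b0 s) (norm_nonneg _) (by positivity)
      _ = _ := by ring
  have h4 := norm_add_le (L0 a m φ s - ((a / m : ℝ) : ℂ) * φ s) (((a / m : ℝ) : ℂ) * φ s - φ s)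
  rw [sub_add_sub_cancel] at h4
  have : (3 + 2 * k ^ 2) * N / a ^ 2 = 3 * N / a ^ 2 + 2 * k ^ 2 * N / a ^ 2 := by ring
  rw [this]
  linarith

end L0est

end Pool.Agent.Helper97.Scat
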