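import Pool.Agent.Helper97.Scat.Layer

/-!
# The Green function of `-Δ + m²` in the plane
-/

open MeasureTheory Filter Topology Set Real
open scoped ContDiff RealInnerProductSpace

namespace Pool.Agent.Helper97.Scat

/-- Gaussian weight -/
noncomputable def Wg (z : ℂ) : ℝ := Real.exp (-(1 / 4) * ‖z‖ ^ 2) / (4 * π)

/-- Laplacian through iterated directional derivatives -/
noncomputable def lap (φ : ℂ → ℝ) (p : ℂ) : ℝ :=
  fderiv ℝ (fun q => fderiv ℝ φ q 1) p 1 + fderiv ℝ (fun q => fderiv ℝ φ q Complex.I) p Complex.I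

lemma gauss_int {b : ℝ} (hb : 0 < b) : Integrable (fun z : ℂ => Real.exp (-b * ‖z‖ ^ 2)) := by
  have h := GaussianFourier.integrable_cexp_neg_mul_sq_norm_add (V := ℂ) (b := (b:ℂ)) (by simpa using hb) 0 0
  have h2 := h.re
  refine h2.congr (Eventually.of_forall fun z => ?_)
  simp only [zero_mul, add_zero]
  have : Complex.exp (-(b:ℂ) * (‖z‖:ℂ) ^ 2) = ((Real.exp (-b * ‖z‖ ^ 2) : ℝ) : ℂ) := by
    push_cast; rfl
  rw [this]
  rfl

lemma gauss_val {b : ℝ} (hb : 0 < b) : ∫ z : ℂ, Real.exp (-b * ‖z‖ ^ 2) = π / b := by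
  have h := GaussianFourier.integral_rexp_neg_mul_sq_norm (V := ℂ) hb
  rw [h, Complex.finrank_real_complex]
  norm_num

lemma Wg_nonneg (z : ℂ) : 0 ≤ Wg z := by unfold Wg; positivity

lemma Wg_integrable : Integrable Wg := (gauss_int (by norm_num : (0:ℝ) < 1 / 4)).div_const _

lemma Wg_integral : ∫ z, Wg z = 1 := by
  unfold Wg
  rw [integral_div, gauss_val (by norm_num : (0:ℝ) < 1 / 4)]
  have := pi_pos
  field_simp

lemma Wg_continuous : Continuous Wg := by unfold Wg; fun_prop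

lemma norm_Wg_integrable : Integrable (fun z : ℂ => ‖z‖ * Wg z) := by
  have h := (gauss_int (by norm_num : (0:ℝ) < 1 / 8)).const_mul (4 / (4 * π))
  refine h.mono' (by have := Wg_continuous; fun_prop) (Eventually.of_forall fun z => ?_)
  rw [Real.norm_of_nonneg (mul_nonneg (norm_nonneg _) (Wg_nonneg z)), Wg]
  have h1 : ‖z‖ ≤ 4 * Real.exp (1 / 8 * ‖z‖ ^ 2) := by
    have := Real.add_one_le_exp (1 / 8 * ‖z‖ ^ 2)
    nlinarith [sq_nonneg (‖z‖ - 2), norm_nonneg z]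
  have h2 : Real.exp (-(1 / 4) * ‖z‖ ^ 2) = Real.exp (-(1 / 8) * ‖z‖ ^ 2) * Real.exp (-(1 / 8) * ‖z‖ ^ 2) := by
    rw [← Real.exp_add]; ring_nf
  have h3 : Real.exp (1 / 8 * ‖z‖ ^ 2) * Real.exp (-(1 / 8) * ‖z‖ ^ 2) = 1 := by
    rw [← Real.exp_add]; ring_nf; simp
  have h4 : 0 < Real.exp (-(1 / 8) * ‖z‖ ^ 2) := Real.exp_pos _
  calc ‖z‖ * (Real.exp (-(1 / 4) * ‖z‖ ^ 2) / (4 * π))
      ≤ 4 * Real.exp (1 / 8 * ‖z‖ ^ 2) * (Real.exp (-(1 / 4) * ‖z‖ ^ 2) / (4 * π)) := by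
        apply mul_le_mul_of_nonneg_right h1 (by positivity)
    _ = 4 / (4 * π) * Real.exp (-(1 / 8) * ‖z‖ ^ 2) := by
        rw [h2]
        linear_combination (4 / (4 * π) * Real.exp (-(1 / 8) * ‖z‖ ^ 2)) * h3

lemma Wg_hasFDerivAt (z : ℂ) : HasFDerivAt Wg ((-(1 / 2) * Wg z) • innerSL ℝ z) z := by
  have h1 : HasFDerivAt (fun z : ℂ => ‖z‖ ^ 2) (2 • innerSL ℝ z) z := by
    have := (hasStrictFDerivAt_norm_sq z).hasFDerivAt
    simpa using this
  have h2 := ((h1.const_mul (-(1 / 4))).exp).const_mul (1 / (4 * π))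
  have e : Wg = fun z => 1 / (4 * π) * Real.exp (-(1 / 4) * ‖z‖ ^ 2) := by
    ext z; rw [Wg]; ring
  rw [e]
  refine h2.congr_fderiv ?_
  ext v
  simp
  ring

lemma Wg_fderiv (z v : ℂ) : fderiv ℝ Wg z v = -(1 / 2) * ⟪z, v⟫ * Wg z := by
  rw [(Wg_hasFDerivAt z).fderiv]
  simp
  ring

section ibp
variable {ψ : ℂ → ℝ} {B : ℝ}

lemma comp_fderiv (hψ : Differentiable ℝ ψ) (x : ℂ) (σ : ℝ) (z v : ℂ) :
    fderiv ℝ (fun z : ℂ => ψ (x + σ • z)) z v = σ * fderiv ℝ ψ (x + σ • z) v := by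
  have h1 : HasFDerivAt (fun z : ℂ => x + σ • z) (σ • ContinuousLinearMap.id ℝ ℂ) z :=
    ((hasFDerivAt_id z).const_smul σ).const_add x
  have h2 := ((hψ (x + σ • z)).hasFDerivAt.comp z h1).fderiv
  have e : (fun z : ℂ => ψ (x + σ • z)) = ψ ∘ fun z : ℂ => x + σ • z := rfl
  rw [e, h2]
  simp

lemma gauss_ibp (hψ : ContDiff ℝ 1 ψ) (hB : ∀ p, |ψ p| ≤ B) {v : ℂ} {B' : ℝ}
    (hB' : ∀ p, |fderiv ℝ ψ p v| ≤ B') (x : ℂ) (σ : ℝ) :
    ∫ z : ℂ, ⟪z, v⟫ * Wg z * ψ (x + σ • z) = 2 * σ * ∫ z : ℂ, Wg z * fderiv ℝ ψ (x + σ • z) v := by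
  have hψd : Differentiable ℝ ψ := hψ.differentiable (by norm_num)
  have hWc := Wg_continuous
  have hψc := hψ.continuous
  have hψ1 : Continuous fun p => fderiv ℝ ψ p v :=
    (hψ.continuous_fderiv (by norm_num)).clm_apply continuous_const
  have i1 : Integrable (fun z : ℂ => ⟪z, v⟫ * Wg z) := by
    refine (norm_Wg_integrable.const_mul ‖v‖).mono' (by fun_prop) (Eventually.of_forall fun z => ?_)
    rw [norm_mul, Real.norm_of_nonneg (Wg_nonneg z)]
    have := abs_real_inner_le_norm z v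
    have hW := Wg_nonneg z
    rw [Real.norm_eq_abs]
    nlinarith
  have key := integral_mul_fderiv_eq_neg_fderiv_mul_of_integrable (μ := (volume : Measure ℂ))
    (f := Wg) (g := fun z : ℂ => ψ (x + σ • z)) (v := v) ?_ ?_ ?_
    (fun z _ => (Wg_hasFDerivAt z).differentiableAt) (fun z _ => by fun_prop)
  · simp only [comp_fderiv hψd, Wg_fderiv] at key
    have e1 : ∫ z : ℂ, Wg z * (σ * fderiv ℝ ψ (x + σ • z) v)
        = σ * ∫ z : ℂ, Wg z * fderiv ℝ ψ (x + σ • z) v := by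
      rw [← integral_const_mul]; congr 1; ext z; ring
    have e2 : ∫ z : ℂ, -(1 / 2) * ⟪z, v⟫ * Wg z * ψ (x + σ • z)
        = -(1 / 2) * ∫ z : ℂ, ⟪z, v⟫ * Wg z * ψ (x + σ • z) := by
      rw [← integral_const_mul]; congr 1; ext z; ring
    rw [e1, e2] at key
    linarith
  · simp only [Wg_fderiv]
    have := ((i1.const_mul (-(1 / 2))).mul_bdd (c := B) (g := fun z : ℂ => ψ (x + σ • z))
      (by fun_prop) (Eventually.of_forall fun z => hB _))
    refine this.congr (Eventually.of_forall fun z => ?_)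
    simp only; ring
  · simp only [comp_fderiv hψd]
    refine Wg_integrable.mul_bdd (c := |σ| * B') ?_ (Eventually.of_forall fun z => ?_)
    · exact (continuous_const.mul (hψ1.comp (by fun_prop))).aestronglyMeasurable
    · rw [norm_mul]
      exact mul_le_mul_of_nonneg_left (hB' _) (abs_nonneg _)
  · exact Wg_integrable.mul_bdd (c := B) (by fun_prop) (Eventually.of_forall fun z => hB _)

end ibp

/-- test functions -/
structure IsTest (φ : ℂ → ℝ) : Prop where
  smooth : ContDiff ℝ ∞ φ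
  supp : HasCompactSupport φ

namespace IsTest
variable {φ : ℂ → ℝ} (h : IsTest φ)
include h

lemma bdd : ∃ B, ∀ p, |φ p| ≤ B := by
  obtain ⟨B, hB⟩ := h.supp.exists_bound_of_continuous h.smooth.continuous
  exact ⟨B, hB⟩

lemma dir (v : ℂ) : IsTest (fun p => fderiv ℝ φ p v) where
  smooth := (h.smooth.fderiv_right (m := ∞) (by norm_num)).clm_apply contDiff_const
  supp := h.supp.fderiv_apply (𝕜 := ℝ) v

lemma add {ψ : ℂ → ℝ} (h' : IsTest ψ) : IsTest (fun p => φ p + ψ p) where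
  smooth := h.smooth.add h'.smooth
  supp := h.supp.add h'.supp

lemma lap_test : IsTest (lap φ) := ((h.dir 1).dir 1).add ((h.dir Complex.I).dir Complex.I)

lemma const_mul (r : ℝ) : IsTest (fun p => r * φ p) where
  smooth := contDiff_const.mul h.smooth
  supp := h.supp.mul_left

lemma comp_add (x : ℂ) : IsTest (fun p => φ (p + x)) where
  smooth := h.smooth.comp (contDiff_id.add contDiff_const)
  supp := h.supp.comp_homeomorph (Homeomorph.addRight x)

lemma diff : Differentiable ℝ φ := h.smooth.differentiable (by norm_num)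

lemma cont : Continuous φ := h.smooth.continuous

lemma integrable : Integrable φ := h.cont.integrable_of_hasCompactSupport h.supp

end IsTest

section heat
variable {φ : ℂ → ℝ}

/-- Gaussian average -/
noncomputable def Phi (φ : ℂ → ℝ) (x : ℂ) (σ : ℝ) : ℝ := ∫ z, Wg z * φ (x + σ • z)

lemma Phi_integrable {B : ℝ} (hc : Continuous φ) (hB : ∀ p, |φ p| ≤ B) (x : ℂ) (σ : ℝ) :
    Integrable (fun z => Wg z * φ (x + σ • z)) :=
  Wg_integrable.mul_bdd (c := B) (by fun_prop) (Eventually.of_forall fun z => hB _)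

lemma Phi_bdd {B : ℝ} (hB : ∀ p, |φ p| ≤ B) (x : ℂ) (σ : ℝ) : |Phi φ x σ| ≤ B := by
  rw [Phi, ← Real.norm_eq_abs]
  calc ‖∫ z, Wg z * φ (x + σ • z)‖ ≤ ∫ z, Wg z * B := by
        refine norm_integral_le_of_norm_le (Wg_integrable.mul_const B) (Eventually.of_forall fun z => ?_)
        rw [norm_mul, Real.norm_of_nonneg (Wg_nonneg z)]
        exact mul_le_mul_of_nonneg_left (hB _) (Wg_nonneg z)
    _ = B := by rw [integral_mul_const, Wg_integral, one_mul]

lemma Phi_continuous {B : ℝ} (hc : Continuous φ) (hB : ∀ p, |φ p| ≤ B) (x : ℂ) :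
    Continuous (Phi φ x) := by
  refine continuous_of_dominated (bound := fun z => Wg z * B) ?_ ?_ (Wg_integrable.mul_const B) ?_
  · intro σ; exact (Phi_integrable hc hB x σ).1
  · intro σ
    refine Eventually.of_forall fun z => ?_
    rw [norm_mul, Real.norm_of_nonneg (Wg_nonneg z)]
    exact mul_le_mul_of_nonneg_left (hB _) (Wg_nonneg z)
  · refine Eventually.of_forall fun z => ?_
    fun_prop

lemma Phi_zero (x : ℂ) : Phi φ x 0 = φ x := by
  simp [Phi, integral_mul_const, Wg_integral]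

lemma fderiv_split (φ : ℂ → ℝ) (p z : ℂ) :
    fderiv ℝ φ p z = ⟪z, 1⟫ * fderiv ℝ φ p 1 + ⟪z, Complex.I⟫ * fderiv ℝ φ p Complex.I := by
  have h1 : z = z.re • (1:ℂ) + z.im • Complex.I := by
    apply Complex.ext <;> simp
  have h2 : ⟪z, (1:ℂ)⟫ = z.re := by simp [Complex.inner]
  have h3 : ⟪z, Complex.I⟫ = z.im := by simp [Complex.inner]
  rw [h2, h3]
  nth_rewrite 1 [h1]
  rw [map_add, map_smul, map_smul, smul_eq_mul, smul_eq_mul]

lemma Phi_hasDerivAt (h : IsTest φ) (x : ℂ) (σ : ℝ) :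
    HasDerivAt (Phi φ x) (2 * σ * Phi (lap φ) x σ) σ := by
  obtain ⟨B1, hB1⟩ := (h.dir 1).bdd
  obtain ⟨B2, hB2⟩ := (h.dir Complex.I).bdd
  obtain ⟨B11, hB11⟩ := ((h.dir 1).dir 1).bdd
  obtain ⟨B22, hB22⟩ := ((h.dir Complex.I).dir Complex.I).bdd
  obtain ⟨B, hB⟩ := h.bdd
  obtain ⟨B', hB'⟩ := (h.supp.fderiv (𝕜 := ℝ)).exists_bound_of_continuous
    (h.smooth.continuous_fderiv (by norm_num))
  have hWc := Wg_continuous
  have hc := h.cont
  have c1 := (h.dir 1).cont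
  have c2 := (h.dir Complex.I).cont
  have hfc : Continuous (fderiv ℝ φ) := h.smooth.continuous_fderiv (by norm_num)
  have key := (hasDerivAt_integral_of_dominated_loc_of_deriv_le (μ := (volume : Measure ℂ))
    (F := fun σ z => Wg z * φ (x + σ • z)) (F' := fun σ z => Wg z * fderiv ℝ φ (x + σ • z) z)
    (x₀ := σ) (s := univ) (bound := fun z => B' * (‖z‖ * Wg z)) univ_mem
    (Eventually.of_forall fun σ => (Phi_integrable hc hB x σ).1) (Phi_integrable hc hB x σ)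
    ?_ ?_ (norm_Wg_integrable.const_mul B') ?_).2
  · refine key.congr_deriv ?_
    have i1 : Integrable (fun z : ℂ => ⟪z, (1:ℂ)⟫ * Wg z * fderiv ℝ φ (x + σ • z) 1) := by
      refine (norm_Wg_integrable.const_mul B1).mono' (by fun_prop) (Eventually.of_forall fun z => ?_)
      rw [norm_mul, norm_mul, Real.norm_of_nonneg (Wg_nonneg z)]
      have h1 := abs_real_inner_le_norm z (1:ℂ)
      rw [norm_one, mul_one] at h1
      have hW := Wg_nonneg z
      have h2 := hB1 (x + σ • z)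
      rw [Real.norm_eq_abs, Real.norm_eq_abs]
      calc |⟪z, (1:ℂ)⟫| * Wg z * |fderiv ℝ φ (x + σ • z) 1| ≤ ‖z‖ * Wg z * B1 := by gcongr
        _ = _ := by ring
    have i2 : Integrable (fun z : ℂ => ⟪z, Complex.I⟫ * Wg z * fderiv ℝ φ (x + σ • z) Complex.I) := by
      refine (norm_Wg_integrable.const_mul B2).mono' (by fun_prop) (Eventually.of_forall fun z => ?_)
      rw [norm_mul, norm_mul, Real.norm_of_nonneg (Wg_nonneg z)]
      have h1 := abs_real_inner_le_norm z Complex.I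
      rw [Complex.norm_I, mul_one] at h1
      have hW := Wg_nonneg z
      have h2 := hB2 (x + σ • z)
      rw [Real.norm_eq_abs, Real.norm_eq_abs]
      calc |⟪z, Complex.I⟫| * Wg z * |fderiv ℝ φ (x + σ • z) Complex.I| ≤ ‖z‖ * Wg z * B2 := by gcongr
        _ = _ := by ring
    have e : ∀ z : ℂ, Wg z * fderiv ℝ φ (x + σ • z) z
        = ⟪z, (1:ℂ)⟫ * Wg z * fderiv ℝ φ (x + σ • z) 1
          + ⟪z, Complex.I⟫ * Wg z * fderiv ℝ φ (x + σ • z) Complex.I := fun z => by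
      rw [fderiv_split]; ring
    simp only [e]
    rw [integral_add i1 i2,
      gauss_ibp ((h.dir 1).smooth.of_le (by norm_num)) hB1 hB11 x σ,
      gauss_ibp ((h.dir Complex.I).smooth.of_le (by norm_num)) hB2 hB22 x σ, Phi, ← mul_add,
      ← integral_add (Phi_integrable ((h.dir 1).dir 1).cont hB11 x σ)
        (Phi_integrable ((h.dir Complex.I).dir Complex.I).cont hB22 x σ)]
    congr 2; ext z
    rw [lap]; ring
  · exact (by fun_prop : Continuous fun z : ℂ => Wg z * fderiv ℝ φ (x + σ • z) z).aestronglyMeasurable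
  · refine Eventually.of_forall fun z σ _ => ?_
    rw [norm_mul, Real.norm_of_nonneg (Wg_nonneg z)]
    have h1 := (fderiv ℝ φ (x + σ • z)).le_opNorm z
    have h2 := hB' (x + σ • z)
    have hW := Wg_nonneg z
    calc Wg z * ‖fderiv ℝ φ (x + σ • z) z‖ ≤ Wg z * (B' * ‖z‖) := by
          refine mul_le_mul_of_nonneg_left (h1.trans ?_) hW
          exact mul_le_mul_of_nonneg_right h2 (norm_nonneg _)
      _ = _ := by ring
  · refine Eventually.of_forall fun z σ _ => ?_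
    have h1 : HasDerivAt (fun σ : ℝ => x + σ • z) z σ := by
      have := ((hasDerivAt_id σ).smul_const z).const_add x
      simpa using this
    have h2 := ((h.diff (x + σ • z)).hasFDerivAt.comp_hasDerivAt σ h1).const_mul (Wg z)
    exact h2

/-- change of variables -/
lemma Phi_hk {m : ℝ} {g : ℂ → ℝ} (x : ℂ) {σ : ℝ} (hσ : 0 < σ) :
    ∫ u : ℂ, hk m (‖u‖ ^ 2) σ * g (x + u) = 2 * σ * Real.exp (-(m ^ 2 * σ ^ 2)) * Phi g x σ := by
  have h := Measure.integral_comp_smul (volume : Measure ℂ)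
    (fun u : ℂ => Real.exp (-(‖u‖ ^ 2 / (4 * σ ^ 2))) * g (x + u)) σ
  rw [Complex.finrank_real_complex, abs_of_nonneg (by positivity), smul_eq_mul] at h
  have e1 : ∫ u : ℂ, hk m (‖u‖ ^ 2) σ * g (x + u)
      = Real.exp (-(m ^ 2 * σ ^ 2)) / (2 * π * σ)
        * ∫ u : ℂ, Real.exp (-(‖u‖ ^ 2 / (4 * σ ^ 2))) * g (x + u) := by
    rw [← integral_const_mul]
    congr 1; ext u
    rw [hk, sub_eq_add_neg, Real.exp_add]
    ring
  have e2 : Phi g x σ = 1 / (4 * π) * ∫ z : ℂ, Real.exp (-(‖σ • z‖ ^ 2 / (4 * σ ^ 2))) * g (x + σ • z) := by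
    rw [Phi, ← integral_const_mul]
    congr 1; ext z
    have : ‖σ • z‖ ^ 2 / (4 * σ ^ 2) = 1 / 4 * ‖z‖ ^ 2 := by
      rw [norm_smul, Real.norm_of_nonneg hσ.le, mul_pow]
      field_simp
    rw [this, Wg]
    ring_nf
  rw [e1, e2, h]
  have := pi_pos
  field_simp
  ring

lemma G_meas (m : ℝ) : Measurable (fun p : ℝ × ℂ => hk m (‖p.2‖ ^ 2) p.1) := by
  unfold hk
  fun_prop

lemma sigma_integrable {m : ℝ} (hm : 0 < m) :
    Integrable (fun σ : ℝ => 2 * σ * Real.exp (-(m ^ 2 * σ ^ 2))) := by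
  have := (integrable_mul_exp_neg_mul_sq (b := m ^ 2) (by positivity)).const_mul 2
  refine this.congr (Eventually.of_forall fun σ => ?_)
  simp only
  ring_nf

lemma hk_int_plane (m : ℝ) {σ : ℝ} (hσ : 0 < σ) : Integrable (fun u : ℂ => hk m (‖u‖ ^ 2) σ) := by
  have h := (gauss_int (b := 1 / (4 * σ ^ 2)) (by positivity)).const_mul
    (Real.exp (-(m ^ 2 * σ ^ 2)) / (2 * π * σ))
  refine h.congr (Eventually.of_forall fun u => ?_)
  simp only
  rw [hk, sub_eq_add_neg, Real.exp_add]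
  ring_nf

lemma hk_val_plane (m : ℝ) {σ : ℝ} (hσ : 0 < σ) :
    ∫ u : ℂ, hk m (‖u‖ ^ 2) σ = 2 * σ * Real.exp (-(m ^ 2 * σ ^ 2)) := by
  have h := Phi_hk (m := m) (g := fun _ => 1) 0 hσ
  simp only [mul_one] at h
  rw [h, Phi]
  simp [Wg_integral]

lemma G_prod {m : ℝ} (hm : 0 < m) :
    Integrable (fun p : ℝ × ℂ => hk m (‖p.2‖ ^ 2) p.1) ((volume.restrict (Ioi 0)).prod volume) := by
  rw [integrable_prod_iff (G_meas m).aestronglyMeasurable]
  constructor
  · refine (ae_restrict_iff' measurableSet_Ioi).2 (Eventually.of_forall fun σ hσ => ?_)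
    exact hk_int_plane m hσ
  · refine IntegrableOn.congr_fun (sigma_integrable hm).integrableOn (fun σ hσ => ?_) measurableSet_Ioi
    simp only
    rw [← hk_val_plane m (show 0 < σ from hσ)]
    refine integral_congr_ae (Eventually.of_forall fun u => ?_)
    simp only
    rw [Real.norm_of_nonneg (hk_nonneg _ _ hσ)]

lemma G_integrable {m : ℝ} (hm : 0 < m) : Integrable (fun u : ℂ => gk m (‖u‖ ^ 2)) :=
  (G_prod hm).integral_prod_right

/-- the Green function inverts `-Δ + m²` on test functions -/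
lemma green {m : ℝ} (hm : 0 < m) (h : IsTest φ) (x : ℂ) :
    ∫ u : ℂ, gk m (‖u‖ ^ 2) * (m ^ 2 * φ (x + u) - lap φ (x + u)) = φ x := by
  obtain ⟨B, hB⟩ := h.bdd
  have hg : IsTest (fun p => m ^ 2 * φ p + (-1) * lap φ p) := (h.const_mul _).add (h.lap_test.const_mul _)
  obtain ⟨B', hB'⟩ := hg.bdd
  obtain ⟨B2, hB2⟩ := h.lap_test.bdd
  set g : ℂ → ℝ := fun p => m ^ 2 * φ p + (-1) * lap φ p with hgdef
  have hgc := hg.cont
  have e0 : ∀ u, gk m (‖u‖ ^ 2) * (m ^ 2 * φ (x + u) - lap φ (x + u)) = gk m (‖u‖ ^ 2) * g (x + u) := by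
    intro u; rw [hgdef]; ring
  simp only [e0]
  -- Fubini
  have hI : Integrable (fun p : ℝ × ℂ => hk m (‖p.2‖ ^ 2) p.1 * g (x + p.2))
      ((volume.restrict (Ioi 0)).prod volume) :=
    (G_prod hm).mul_bdd (c := B') (by fun_prop) (Eventually.of_forall fun p => hB' _)
  have e1 : ∫ u : ℂ, gk m (‖u‖ ^ 2) * g (x + u)
      = ∫ σ in Ioi (0:ℝ), ∫ u : ℂ, hk m (‖u‖ ^ 2) σ * g (x + u) := by
    rw [integral_integral_swap hI]
    congr 1; ext u
    rw [integral_mul_const, gk]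
  have e2 : ∫ σ in Ioi (0:ℝ), ∫ u : ℂ, hk m (‖u‖ ^ 2) σ * g (x + u)
      = ∫ σ in Ioi (0:ℝ), 2 * σ * Real.exp (-(m ^ 2 * σ ^ 2)) * Phi g x σ :=
    setIntegral_congr_fun measurableSet_Ioi fun σ hσ => Phi_hk x hσ
  rw [e1, e2]
  -- fundamental theorem of calculus
  have hPg : ∀ σ, Phi g x σ = m ^ 2 * Phi φ x σ - Phi (lap φ) x σ := by
    intro σ
    rw [Phi, Phi, Phi, ← integral_const_mul, ← integral_sub
      ((Phi_integrable h.cont hB x σ).const_mul _) (Phi_integrable h.lap_test.cont hB2 x σ)]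
    congr 1; ext z; rw [hgdef]; ring
  have hd : ∀ σ, HasDerivAt (fun σ => -(Real.exp (-(m ^ 2 * σ ^ 2)) * Phi φ x σ))
      (2 * σ * Real.exp (-(m ^ 2 * σ ^ 2)) * Phi g x σ) σ := by
    intro σ
    have h1 : HasDerivAt (fun σ : ℝ => Real.exp (-(m ^ 2 * σ ^ 2)))
        (Real.exp (-(m ^ 2 * σ ^ 2)) * (-(m ^ 2 * (2 * σ)))) σ := by
      have := (((hasDerivAt_pow 2 σ).const_mul (m ^ 2)).fun_neg).exp
      refine this.congr_deriv ?_
      push_cast
      ring_nf
    refine (h1.fun_mul (Phi_hasDerivAt h x σ)).fun_neg.congr_deriv ?_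
    rw [hPg]; ring
  have hPc := Phi_continuous hgc hB' x
  have hint : IntegrableOn (fun σ => 2 * σ * Real.exp (-(m ^ 2 * σ ^ 2)) * Phi g x σ) (Ioi 0) :=
    ((sigma_integrable hm).mul_bdd (c := B') hPc.aestronglyMeasurable
      (Eventually.of_forall fun σ => Phi_bdd hB' x σ)).integrableOn
  have hlim : Tendsto (fun σ => -(Real.exp (-(m ^ 2 * σ ^ 2)) * Phi φ x σ)) atTop (𝓝 0) := by
    have h1 : Tendsto (fun σ : ℝ => Real.exp (-(m ^ 2 * σ ^ 2))) atTop (𝓝 0) := by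
      refine Real.tendsto_exp_atBot.comp ?_
      refine tendsto_neg_atTop_atBot.comp ?_
      exact (tendsto_pow_atTop (by norm_num)).const_mul_atTop (by positivity)
    have h2 : Tendsto (fun σ => Real.exp (-(m ^ 2 * σ ^ 2)) * Phi φ x σ) atTop (𝓝 0) := by
      refine h1.zero_mul_isBoundedUnder_le ?_
      exact ⟨B, by simpa using Eventually.of_forall (f := atTop) fun σ => Phi_bdd hB x σ⟩
    simpa using h2.neg
  rw [integral_Ioi_of_hasDerivAt_of_tendsto (hd 0).continuousAt.continuousWithinAt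
    (fun σ _ => hd σ) hint hlim]
  simp [Phi_zero]

end heat

end Pool.Agent.Helper97.Scat
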