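import Pool.Agent.Helper97.Scat.Asym
import Pool.Agent.Helper97.Scat.Curve2

/-!
# The scattering matrices
-/

open MeasureTheory Filter Topology Set Real
open scoped ContDiff

namespace Pool.Agent.Helper97.Scat

/-- bounded solutions of `f = e_A + T f` -/
def LSol (k : ℝ) (T : (ℝ → ℂ) → ℝ → ℂ) (A : Fin 2 → ℂ) (f : ℝ → ℂ) : Prop :=
  (∃ M, CB M f) ∧ ∀ s, f s = eA k A s + T f s

/-- the linear operation giving the source -/
structure Src (Q : (ℝ → ℂ) → ℝ → ℂ) : Prop where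
  int : ∀ (M : ℝ) (f : ℝ → ℂ), CB M f → Integrable (Q f)
  add : ∀ (M N : ℝ) (f g : ℝ → ℂ), CB M f → CB N g → ∀ s, Q (fun s => f s + g s) s = Q f s + Q g s
  smul : ∀ (M : ℝ) (c : ℂ) (f : ℝ → ℂ), CB M f → ∀ s, Q (fun s => c * f s) s = c * Q f s

lemma fin2_decomp (A : Fin 2 → ℂ) : A = A 0 • uv 0 + A 1 • uv 1 := by
  ext i; fin_cases i <;> simp [uv]

lemma eA_lin (k : ℝ) (A B : Fin 2 → ℂ) (x y : ℂ) (s : ℝ) :
    eA k (x • A + y • B) s = x * eA k A s + y * eA k B s := by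
  simp only [eA, Pi.add_apply, Pi.smul_apply, smul_eq_mul]; ring

lemma LSol.lin {k C : ℝ} {T : (ℝ → ℂ) → ℝ → ℂ} (hT : BOp T C) {A B : Fin 2 → ℂ} {f g : ℝ → ℂ}
    (hf : LSol k T A f) (hg : LSol k T B g) (x y : ℂ) :
    LSol k T (x • A + y • B) (fun s => x * f s + y * g s) := by
  obtain ⟨⟨M, hM⟩, h1⟩ := hf
  obtain ⟨⟨N, hN⟩, h2⟩ := hg
  refine ⟨⟨_, (hM.const_mul x).add (hN.const_mul y)⟩, fun s => ?_⟩
  have h3 := hT.add _ _ _ _ (hM.const_mul x) (hN.const_mul y) s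
  rw [hT.smul _ x f hM, hT.smul _ y g hN] at h3
  rw [h3, eA_lin]
  have e1 := h1 s
  have e2 := h2 s
  linear_combination x * e1 + y * e2

lemma outA_lin {k : ℝ} {Q : (ℝ → ℂ) → ℝ → ℂ} (hQ : Src Q) {M N : ℝ} {f g : ℝ → ℂ} (hf : CB M f)
    (hg : CB N g) (A B : Fin 2 → ℂ) (x y : ℂ) :
    outA k (x • A + y • B) (Q fun s => x * f s + y * g s) = x • outA k A (Q f) + y • outA k B (Q g) := by
  have e1 : (Q fun s => x * f s + y * g s) = fun s => x * Q f s + y * Q g s := by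
    ext s
    rw [hQ.add _ _ _ _ (hf.const_mul x) (hg.const_mul y) s, hQ.smul _ x f hf, hQ.smul _ y g hg]
  have i1 := hQ.int _ f hf
  have i2 := hQ.int _ g hg
  have key : ∀ j : ℝ, ∫ t, ex j t * (x * Q f t + y * Q g t)
      = x * (∫ t, ex j t * Q f t) + y * ∫ t, ex j t * Q g t := by
    intro j
    rw [← integral_const_mul, ← integral_const_mul,
      ← integral_add ((integrable_ex_mul j i1).const_mul x) ((integrable_ex_mul j i2).const_mul y)]
    congr 1; ext t; ring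
  rw [e1]
  ext i
  fin_cases i
  · simp only [outA, key, Fin.zero_eta, Matrix.cons_val_zero, Pi.add_apply, Pi.smul_apply, smul_eq_mul]
    ring
  · simp only [outA, key, Fin.mk_one, Matrix.cons_val_one, Matrix.cons_val_zero, Pi.add_apply,
      Pi.smul_apply, smul_eq_mul]
    ring

/-- the scattering matrix of the line equation -/
lemma exists_matrix {k C : ℝ} {T Q : (ℝ → ℂ) → ℝ → ℂ} (hT : BOp T C) (hQ : Src Q)
    (hex : ∀ A, ∃ f, LSol k T A f)
    (huniq : ∀ (M : ℝ) (f : ℝ → ℂ), CB M f → (∀ s, f s = T f s) → ∀ s, f s = 0) :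
    ∃ S : Matrix (Fin 2) (Fin 2) ℂ, ∀ A f, LSol k T A f → outA k A (Q f) = S.mulVec A := by
  choose F hF using hex
  obtain ⟨M0, hM0⟩ := (hF (uv 0)).1
  obtain ⟨M1, hM1⟩ := (hF (uv 1)).1
  refine ⟨Matrix.of fun i j => outA k (uv j) (Q (F (uv j))) i, fun A f hf => ?_⟩
  have h1 := (hF (uv 0)).lin hT (hF (uv 1)) (A 0) (A 1)
  have h2 : LSol k T ((1:ℂ) • A + (-1:ℂ) • (A 0 • uv 0 + A 1 • uv 1)) _ := hf.lin hT h1 1 (-1)
  rw [← fin2_decomp] at h2
  have h3 : ∀ s, f s = A 0 * F (uv 0) s + A 1 * F (uv 1) s := by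
    obtain ⟨⟨M, hM⟩, h4⟩ := h2
    have h5 := huniq M _ hM (fun s => by
      have := h4 s
      have e : eA k ((1:ℂ) • A + (-1:ℂ) • A) s = 0 := by
        rw [eA_lin]; ring
      rw [e, zero_add] at this
      exact this)
    intro s
    have := h5 s
    linear_combination this
  have h6 : f = fun s => A 0 * F (uv 0) s + A 1 * F (uv 1) s := funext h3
  rw [h6]
  nth_rewrite 1 [fin2_decomp A]
  rw [outA_lin hQ hM0 hM1]
  ext i
  simp only [Pi.add_apply, Pi.smul_apply, smul_eq_mul, Matrix.mulVec, dotProduct, Matrix.of_apply,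
    Fin.sum_univ_two]
  ring

lemma leftWave_eq (p : ℝ) (A B : Fin 2 → ℂ) (s : ℝ) :
    leftWave p A B s = A 0 * ex p s + B 0 * ex (-p) s := by
  rw [leftWave, ex, ex]; push_cast; ring_nf

lemma rightWave_eq (p : ℝ) (A B : Fin 2 → ℂ) (s : ℝ) :
    rightWave p A B s = B 1 * ex p s + A 1 * ex (-p) s := by
  rw [rightWave, ex, ex]; push_cast; ring_nf

lemma wave_CB (k : ℝ) (c₁ c₂ : ℂ) : CB (‖c₁‖ + ‖c₂‖) (fun s => c₁ * ex k s + c₂ * ex (-k) s) := by
  have := ((CB_ex k).const_mul c₁).add ((CB_ex (-k)).const_mul c₂)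
  simpa using this

/-- a continuous function asymptotic to plane waves at both ends is bounded -/
lemma bdd_of_asym {f w₁ w₂ : ℝ → ℂ} (hf : Continuous f) {M₁ M₂ : ℝ} (h₁ : ∀ s, ‖w₁ s‖ ≤ M₁)
    (h₂ : ∀ s, ‖w₂ s‖ ≤ M₂) (hb : Tendsto (fun s => f s - w₁ s) atBot (𝓝 0))
    (ht : Tendsto (fun s => f s - w₂ s) atTop (𝓝 0)) : ∃ M, CB M f := by
  have e1 : ∀ᶠ s in atBot, ‖f s - w₁ s‖ < 1 := by
    have := hb.norm
    rw [norm_zero] at this
    exact (tendsto_order.1 this).2 1 one_pos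
  have e2 : ∀ᶠ s in atTop, ‖f s - w₂ s‖ < 1 := by
    have := ht.norm
    rw [norm_zero] at this
    exact (tendsto_order.1 this).2 1 one_pos
  obtain ⟨a, ha⟩ := eventually_atBot.1 e1
  obtain ⟨b, hb⟩ := eventually_atTop.1 e2
  obtain ⟨K, hK⟩ := (isCompact_Icc (a := a) (b := b)).exists_bound_of_continuousOn hf.continuousOn
  refine ⟨max K (max (M₁ + 1) (M₂ + 1)), hf, fun s => ?_⟩
  rcases le_total s a with hs | hs
  · have h3 := ha s hs
    have h4 : ‖f s‖ ≤ ‖f s - w₁ s‖ + ‖w₁ s‖ := by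
      have := norm_add_le (f s - w₁ s) (w₁ s); rwa [sub_add_cancel] at this
    have h5 := h₁ s
    exact le_trans (by linarith) ((le_max_left _ _).trans (le_max_right _ _))
  · rcases le_total s b with hs' | hs'
    · exact (hK s ⟨hs, hs'⟩).trans (le_max_left _ _)
    · have h3 := hb s hs'
      have h4 : ‖f s‖ ≤ ‖f s - w₂ s‖ + ‖w₂ s‖ := by
        have := norm_add_le (f s - w₂ s) (w₂ s); rwa [sub_add_cancel] at this
      have h5 := h₂ s
      exact le_trans (by linarith) ((le_max_right _ _).trans (le_max_right _ _))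

/-- matching of asymptotic waves -/
lemma match_waves {k : ℝ} (hk : k ≠ 0) {f : ℝ → ℂ} {c₁ c₂ d₁ d₂ : ℂ} {l : Filter ℝ} [l.NeBot]
    (hl : ∀ a : ℝ, Tendsto (fun s => s + a) l l)
    (h : Tendsto (fun s => f s - (c₁ * ex k s + c₂ * ex (-k) s)) l (𝓝 0))
    (h' : Tendsto (fun s => f s - (d₁ * ex k s + d₂ * ex (-k) s)) l (𝓝 0)) : c₁ = d₁ ∧ c₂ = d₂ := by
  have h1 := h'.sub h
  rw [sub_zero] at h1
  have h2 : Tendsto (fun s => (c₁ - d₁) * ex k s + (c₂ - d₂) * ex (-k) s) l (𝓝 0) := by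
    refine h1.congr fun s => ?_
    ring
  obtain ⟨h3, h4⟩ := waves_zero hk hl h2
  exact ⟨sub_eq_zero.1 h3, sub_eq_zero.1 h4⟩

lemma add_top (a : ℝ) : Tendsto (fun s : ℝ => s + a) atTop atTop :=
  tendsto_atTop_add_const_right _ _ tendsto_id

lemma add_bot (a : ℝ) : Tendsto (fun s : ℝ => s + a) atBot atBot :=
  tendsto_atBot_add_const_right _ _ tendsto_id

namespace Pot
variable {V : ℝ → ℝ} {R : ℝ} (P : Pot V R)
include P

lemma src : Src (fun f t => (V t : ℂ) * f t) where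
  int := fun M f hf => P.mul_integrable hf
  add := fun M N f g _ _ s => by ring
  smul := fun M c f _ s => by ring

/-- comparison solutions solve the integral equation -/
lemma comp_forward {κ : ℝ → ℝ} (hV : ∀ s, κ s ^ 2 / 4 = V s) {p : ℝ} (hp : 0 < p) {f : ℝ → ℂ}
    {A B : Fin 2 → ℂ} (h : IsComparisonSolution κ (p ^ 2) f A B) :
    LSol p (fun f => R0 p fun t => (V t : ℂ) * f t) A f ∧ B = outA p A (fun t => (V t : ℂ) * f t) := by
  have hsq : √(p ^ 2) = p := Real.sqrt_sq hp.le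
  have hl := h.left
  have hr := h.right
  rw [hsq] at hl hr
  simp only [leftWave_eq] at hl
  simp only [rightWave_eq] at hr
  obtain ⟨M, hM⟩ := bdd_of_asym h.smooth.continuous (wave_CB p (A 0) (B 0)).2
    (wave_CB p (B 1) (A 1)).2 hl hr
  have hi := P.mul_integrable hM
  have h2 : ContDiff ℝ 2 f := h.smooth
  have h1 : ContDiff ℝ 1 (deriv f) := ((contDiff_succ_iff_deriv (n := 1)).1 h2).2.2
  have d1 : ∀ s, HasDerivAt f (deriv f s) s := fun s => (h2.differentiable (by norm_num) s).hasDerivAt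
  have d2 : ∀ s, HasDerivAt (deriv f) (-(p:ℂ) ^ 2 * f s - (V s : ℂ) * f s) s := fun s => by
    refine (h1.differentiable (by norm_num) s).hasDerivAt.congr_deriv ?_
    have := h.ode s
    rw [hV] at this
    push_cast at this
    linear_combination -this
  obtain ⟨c₁, c₂, hc⟩ := R0_general hp.ne' hi (P.mul_cont hM) d1 d2
  have ht := R0_tendsto_atTop p hi
  have hb := R0_tendsto_atBot p hi
  have ht' : Tendsto (fun s => f s - ((c₁ + Complex.I / (2 * p) * ∫ t, ex (-p) t * ((V t : ℂ) * f t)) * ex p s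
      + c₂ * ex (-p) s)) atTop (𝓝 0) := by
    refine ht.congr fun s => ?_
    have := hc s
    linear_combination -this
  have hb' : Tendsto (fun s => f s - (c₁ * ex p s
      + (c₂ + Complex.I / (2 * p) * ∫ t, ex p t * ((V t : ℂ) * f t)) * ex (-p) s)) atBot (𝓝 0) := by
    refine hb.congr fun s => ?_
    have := hc s
    linear_combination -this
  obtain ⟨m1, m2⟩ := match_waves hp.ne' add_top hr ht'
  obtain ⟨m3, m4⟩ := match_waves hp.ne' add_bot hl hb'
  refine ⟨⟨⟨M, hM⟩, fun s => ?_⟩, ?_⟩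
  · rw [hc s, eA, m3, m2]
  · ext i
    fin_cases i
    · simp only [outA, Fin.zero_eta, Matrix.cons_val_zero]
      rw [m4, m2]
    · simp only [outA, Fin.mk_one, Matrix.cons_val_one]
      rw [m1, m3]
      rfl

lemma comp_backward {κ : ℝ → ℝ} (hV : ∀ s, κ s ^ 2 / 4 = V s) {p : ℝ} (hp : 0 < p) {f : ℝ → ℂ}
    {A : Fin 2 → ℂ} (h : LSol p (fun f => R0 p fun t => (V t : ℂ) * f t) A f) :
    IsComparisonSolution κ (p ^ 2) f A (outA p A (fun t => (V t : ℂ) * f t)) := by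
  obtain ⟨⟨M, hM⟩, hf⟩ := h
  have hsq : √(p ^ 2) = p := Real.sqrt_sq hp.le
  have hi := P.mul_integrable hM
  have hc := P.mul_cont hM
  have hVb : ∃ K, CB K (fun t => (V t : ℂ) * f t) := by
    obtain ⟨K, hK0, hK⟩ := bdd_of_zero (g := fun t => (V t : ℂ) * f t) (R := R) hc (fun s hs => by
      rw [P.supp s hs.le]; simp)
    exact ⟨K, hc, hK⟩
  obtain ⟨K, hK⟩ := hVb
  have hw := C2_wave hp.ne' A hi hK le_rfl
  have e : (fun s => eA p A s + R0 p (fun t => (V t : ℂ) * f t) s) = f := by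
    ext s; rw [hf s]
  rw [e] at hw
  have d1 := hw.d0
  have d2 := hw.d1
  have e1 : deriv f = fun s => (A 0 * (p * Complex.I * ex p s) + A 1 * (-p * Complex.I * ex (-p) s))
      + R0' p (fun t => (V t : ℂ) * f t) s := funext fun s => (d1 s).deriv
  have e2 : deriv (deriv f) = fun s => -(p:ℂ) ^ 2 * (eA p A s + R0 p (fun t => (V t : ℂ) * f t) s)
      - (V s : ℂ) * f s := by
    rw [e1]; exact funext fun s => (d2 s).deriv
  refine ⟨?_, fun s => ?_, ?_, ?_⟩
  · have c2 : Continuous (deriv (deriv f)) := by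
      rw [e2]
      have h1 : Continuous fun s => eA p A s + R0 p (fun t => (V t : ℂ) * f t) s := by
        rw [e]; exact hM.1
      exact (continuous_const.mul h1).sub hc
    have hd1 : Differentiable ℝ f := fun s => (d1 s).differentiableAt
    have hd2 : Differentiable ℝ (deriv f) := by
      rw [e1]; exact fun s => (d2 s).differentiableAt
    refine (contDiff_succ_iff_deriv (n := 1)).2 ⟨hd1, by simp, ?_⟩
    refine contDiff_one_iff_deriv.2 ⟨hd2, c2⟩
  · rw [e2, hV]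
    have := hf s
    push_cast
    linear_combination (-(p:ℂ) ^ 2) * this
  · rw [hsq]
    simp only [leftWave_eq]
    refine (R0_tendsto_atBot p hi).congr fun s => ?_
    have := hf s
    rw [eA] at this
    have e3 : outA p A (fun t => (V t : ℂ) * f t) 0
      = A 1 + (Complex.I / (2 * p)) * ∫ t, ex p t * ((V t : ℂ) * f t) := rfl
    rw [e3]
    linear_combination -this
  · rw [hsq]
    simp only [rightWave_eq]
    refine (R0_tendsto_atTop p hi).congr fun s => ?_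
    have := hf s
    rw [eA] at this
    have e3 : outA p A (fun t => (V t : ℂ) * f t) 1
      = A 0 + (Complex.I / (2 * p)) * ∫ t, ex (-p) t * ((V t : ℂ) * f t) := rfl
    rw [e3]
    linear_combination -this

/-- the scattering matrix of the comparison operator -/
lemma comp_matrix {κ : ℝ → ℝ} (hV : ∀ s, κ s ^ 2 / 4 = V s) {p : ℝ} (hp : 0 < p) :
    ∃ S, IsComparisonSMatrix κ (p ^ 2) S ∧
      ∀ A f, LSol p (fun f => R0 p fun t => (V t : ℂ) * f t) A f →
        outA p A (fun t => (V t : ℂ) * f t) = S.mulVec A := by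
  obtain ⟨N, hN1, hN⟩ := P.inverse hp.ne'
  have hex : ∀ A, ∃ f, LSol p (fun f => R0 p fun t => (V t : ℂ) * f t) A f := fun A => by
    obtain ⟨f, hf, hfe⟩ := P.exists_sol hp.ne' hN (by linarith) A
    exact ⟨f, ⟨_, hf⟩, hfe⟩
  obtain ⟨S, hS⟩ := exists_matrix (P.bop hp.ne') P.src hex
    (fun M f hf h => P.outgoing_zero hp.ne' hf h)
  refine ⟨S, fun A B => ⟨?_, ?_⟩, hS⟩
  · rintro ⟨f, hf⟩
    obtain ⟨h1, h2⟩ := P.comp_forward hV hp hf
    rw [h2, hS A f h1]
  · rintro rfl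
    obtain ⟨f, hf⟩ := hex A
    exact ⟨f, by rw [← hS A f hf]; exact P.comp_backward hV hp hf⟩

end Pot

end Pool.Agent.Helper97.Scat
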