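import Pool.Agent.Helper97.Scat.Comb

/-!
# One-sided estimates for the sharpness of the rate
-/

open MeasureTheory Filter Topology Set Real
open scoped RealInnerProductSpace

namespace Pool.Agent.Helper97.Scat

lemma Gamma_nine_half : Real.Gamma (9 / 2) = 105 * √π / 16 := by
  have := Real.Gamma_add_one (s := 7 / 2) (by norm_num)
  rw [Gamma_seven_half] at this
  rw [show (9 / 2 : ℝ) = 7 / 2 + 1 by norm_num, this]
  ring

lemma mom8 {m : ℝ} (hm : 0 < m) : ∫ r : ℝ, r ^ 8 * gk1 m (r ^ 2) = 1575 / (4 * m ^ 7) := by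
  have h := (mom_general hm 3).2
  norm_num at h
  rw [h]
  have e1 : (m ^ 2) ^ (-(7 / 2) : ℝ) = 1 / m ^ 7 := by
    have := sq_rpow_neg hm 7
    rw [← this]; norm_num
  rw [e1, Gamma_seven_half, Gamma_nine_half]
  have : √π * √π = π := Real.mul_self_sqrt pi_pos.le
  field_simp
  rw [show √π ^ 2 = π by rw [sq]; exact this]
  ring

lemma mom8_int {m : ℝ} (hm : 0 < m) : Integrable (fun r : ℝ => r ^ 8 * gk1 m (r ^ 2)) :=
  mom_integrable hm 3

lemma rho4_integrable {a m : ℝ} (hm : 0 < m) : Integrable (fun r => rho a m r * r ^ 4) := by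
  refine ((mom8_int hm).const_mul (a ^ 3 / 3)).congr (Eventually.of_forall fun r => ?_)
  simp only [rho]
  ring

lemma rho4_integral {a m : ℝ} (hm : 0 < m) : ∫ r, rho a m r * r ^ 4 = 525 * a ^ 3 / (4 * m ^ 7) := by
  have e : ∀ r, rho a m r * r ^ 4 = a ^ 3 / 3 * (r ^ 8 * gk1 m (r ^ 2)) := by
    intro r; rw [rho]; ring
  simp only [e]
  rw [integral_const_mul, mom8 hm]
  field_simp
  ring

/-- upper bound of the cosine by a square -/
lemma cos_le_sq (x : ℝ) : Real.cos x ≤ (1 - x ^ 2 / 4) ^ 2 := by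
  -- second derivative argument
  have d1 : ∀ x, HasDerivAt (fun x => Real.sin x - x + x ^ 3 / 6) (Real.cos x - 1 + x ^ 2 / 2) x := by
    intro x
    refine (((Real.hasDerivAt_sin x).fun_sub (hasDerivAt_id x)).fun_add
      ((hasDerivAt_pow 3 x).div_const 6)).congr_deriv ?_
    push_cast; ring
  have m1 : Monotone (fun x => Real.sin x - x + x ^ 3 / 6) :=
    monotone_of_deriv_nonneg (fun x => (d1 x).differentiableAt) (fun x => by
      rw [(d1 x).deriv]
      have := Real.one_sub_sq_div_two_le_cos (x := x)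
      linarith)
  have d2 : ∀ x, HasDerivAt (fun x => 1 - x ^ 2 / 2 + x ^ 4 / 24 - Real.cos x)
      (Real.sin x - x + x ^ 3 / 6) x := by
    intro x
    refine ((((hasDerivAt_const x (1:ℝ)).fun_sub ((hasDerivAt_pow 2 x).div_const 2)).fun_add
      ((hasDerivAt_pow 4 x).div_const 24)).fun_sub (Real.hasDerivAt_cos x)).congr_deriv ?_
    push_cast; ring
  have key : ∀ x, 0 ≤ x → Real.cos x ≤ 1 - x ^ 2 / 2 + x ^ 4 / 24 := by
    intro x hx
    have m2 : MonotoneOn (fun x => 1 - x ^ 2 / 2 + x ^ 4 / 24 - Real.cos x) (Ici 0) := by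
      refine monotoneOn_of_deriv_nonneg (convex_Ici 0)
        (fun x _ => (d2 x).continuousAt.continuousWithinAt)
        (fun x _ => (d2 x).differentiableAt.differentiableWithinAt) (fun x hx => ?_)
      rw [interior_Ici] at hx
      rw [(d2 x).deriv]
      have := m1 (le_of_lt (show 0 < x from hx))
      simpa using this
    have := m2 (mem_Ici.2 le_rfl) (mem_Ici.2 hx) hx
    simp only [ne_eq, OfNat.ofNat_ne_zero, not_false_eq_true, zero_pow, zero_div, sub_zero, add_zero,
      Real.cos_zero, sub_self] at this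
    linarith
  have h : Real.cos x ≤ 1 - x ^ 2 / 2 + x ^ 4 / 24 := by
    rcases le_total 0 x with hx | hx
    · exact key x hx
    · have := key (-x) (by linarith)
      rw [Real.cos_neg] at this
      refine this.trans (le_of_eq ?_)
      ring
  have h4 : 0 ≤ x ^ 4 := by positivity
  nlinarith

namespace Data
variable {γ g1 g2 g3 g4 : ℝ → ℂ} {R c K : ℝ} (D : Data γ g1 g2 g3 g4 R c K)
include D

/-- pointwise Jensen inequality -/
lemma shift_pt (x z : ℝ) :
    ‖g1 (x + z) - g1 x‖ ^ 2 ≤ z ^ 2 * ∫ θ in Ioc (0:ℝ) 1, ‖g2 (x + θ * z)‖ ^ 2 := by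
  have hc := D.continuous2
  have h1 : g1 (x + z) - g1 x = (z:ℂ) * ∫ θ in (0:ℝ)..1, g2 (x + θ * z) := by
    have h2 : ∀ θ ∈ uIcc (0:ℝ) 1, HasDerivAt (fun θ : ℝ => g1 (x + θ * z)) ((z:ℂ) * g2 (x + θ * z)) θ := by
      intro θ _
      have h3 : HasDerivAt (fun θ : ℝ => x + θ * z) z θ := by
        simpa using ((hasDerivAt_id θ).mul_const z).const_add x
      refine ((D.d1 (x + θ * z)).scomp θ h3).congr_deriv ?_
      simp
    have h4 := intervalIntegral.integral_eq_sub_of_hasDerivAt h2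
      (Continuous.intervalIntegrable (by fun_prop) _ _)
    rw [intervalIntegral.integral_const_mul] at h4
    rw [h4]; simp
  rw [h1, intervalIntegral.integral_of_le zero_le_one, norm_mul, mul_pow, Complex.norm_real,
    Real.norm_eq_abs, sq_abs]
  refine mul_le_mul_of_nonneg_left ?_ (sq_nonneg z)
  have i1 : IntegrableOn (fun θ : ℝ => ‖g2 (x + θ * z)‖) (Ioc 0 1) :=
    (Continuous.integrableOn_Icc (by fun_prop)).mono_set Ioc_subset_Icc_self
  have i2 : IntegrableOn (fun θ : ℝ => ‖g2 (x + θ * z)‖ ^ 2) (Ioc 0 1) :=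
    (Continuous.integrableOn_Icc (by fun_prop)).mono_set Ioc_subset_Icc_self
  set n := ∫ θ in Ioc (0:ℝ) 1, ‖g2 (x + θ * z)‖ with hn
  have h5 : ‖∫ θ in Ioc (0:ℝ) 1, g2 (x + θ * z)‖ ≤ n := norm_integral_le_integral_norm _
  have h6 : 0 ≤ ∫ θ in Ioc (0:ℝ) 1, (‖g2 (x + θ * z)‖ - n) ^ 2 := integral_nonneg fun θ => sq_nonneg _
  have h7 : ∫ θ in Ioc (0:ℝ) 1, (‖g2 (x + θ * z)‖ - n) ^ 2
      = (∫ θ in Ioc (0:ℝ) 1, ‖g2 (x + θ * z)‖ ^ 2) - n ^ 2 := by
    have e : ∀ θ : ℝ, (‖g2 (x + θ * z)‖ - n) ^ 2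
        = ‖g2 (x + θ * z)‖ ^ 2 - 2 * n * ‖g2 (x + θ * z)‖ + n ^ 2 := fun θ => by ring
    simp only [e]
    have i3 : IntegrableOn (fun θ : ℝ => ‖g2 (x + θ * z)‖ ^ 2 - 2 * n * ‖g2 (x + θ * z)‖) (Ioc 0 1) :=
      i2.sub (i1.const_mul _)
    rw [integral_add i3 (integrableOn_const (by simp)),
      integral_sub i2 (i1.const_mul _), integral_const_mul, ← hn, setIntegral_const]
    simp only [Measure.real, Real.volume_Ioc, sub_zero, ENNReal.ofReal_one, ENNReal.toReal_one,
      smul_eq_mul, one_mul]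
    ring
  have h8 := pow_le_pow_left₀ (norm_nonneg _) h5 2
  linarith

lemma shift_integrable (z : ℝ) : Integrable (fun x => ‖g1 (x + z) - g1 x‖ ^ 2) := by
  have hc := D.continuous1
  refine Continuous.integrable_of_hasCompactSupport (by fun_prop) ?_
  refine HasCompactSupport.of_support_subset_isCompact
    (isCompact_Icc (a := -(R + |z|)) (b := R + |z|)) ?_
  intro x hx
  by_contra hne
  apply hx
  have hx' : R + |z| < |x| := by
    by_contra hlt
    push Not at hlt
    exact hne (abs_le.1 hlt)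
  have hz := abs_nonneg z
  have hz1 := le_abs_self z
  have hz2 := neg_abs_le z
  rcases lt_abs.1 hx' with h | h
  · have e1 := D.g1_right (s := x) (by linarith)
    have e2 := D.g1_right (s := x + z) (by linarith)
    simp [e1, e2]
  · have e1 := D.g1_left (s := x) (by linarith)
    have e2 := D.g1_left (s := x + z) (by linarith)
    simp [e1, e2]

/-- `L²` modulus of continuity of the tangent -/
lemma shift_sq (z : ℝ) : ∫ x, ‖g1 (x + z) - g1 x‖ ^ 2 ≤ z ^ 2 * ∫ x, ‖g2 x‖ ^ 2 := by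
  have hc := D.continuous2
  have hm : AEStronglyMeasurable (fun p : ℝ × ℝ => ‖g2 (p.1 + p.2 * z)‖ ^ 2)
      ((volume : Measure ℝ).prod ((volume : Measure ℝ).restrict (Ioc 0 1))) :=
    (by fun_prop : Continuous fun p : ℝ × ℝ => ‖g2 (p.1 + p.2 * z)‖ ^ 2).aestronglyMeasurable
  have hI : Integrable (fun p : ℝ × ℝ => ‖g2 (p.1 + p.2 * z)‖ ^ 2)
      ((volume : Measure ℝ).prod ((volume : Measure ℝ).restrict (Ioc 0 1))) := by
    rw [integrable_prod_iff' hm]
    constructor
    · exact Eventually.of_forall fun θ => D.g2_sq_integrable.comp_add_right (θ * z)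
    · have e : ∀ θ : ℝ, ∫ x, ‖‖g2 (x + θ * z)‖ ^ 2‖ = ∫ x, ‖g2 x‖ ^ 2 := by
        intro θ
        rw [← integral_add_right_eq_self (fun x => ‖g2 x‖ ^ 2) (θ * z)]
        congr 1; ext x
        rw [Real.norm_of_nonneg (by positivity)]
      simp only [e]
      exact integrableOn_const (by simp)
  calc ∫ x, ‖g1 (x + z) - g1 x‖ ^ 2
      ≤ ∫ x, z ^ 2 * ∫ θ in Ioc (0:ℝ) 1, ‖g2 (x + θ * z)‖ ^ 2 :=
        integral_mono (D.shift_integrable z) (hI.integral_prod_left.const_mul _)
          (fun x => D.shift_pt x z)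
    _ = z ^ 2 * ∫ x, ‖g2 x‖ ^ 2 := by
        rw [integral_const_mul, integral_integral_swap hI]
        congr 1
        have e : ∀ θ : ℝ, ∫ x, ‖g2 (x + θ * z)‖ ^ 2 = ∫ x, ‖g2 x‖ ^ 2 := fun θ =>
          integral_add_right_eq_self (fun x => ‖g2 x‖ ^ 2) (θ * z)
        simp only [e]
        rw [setIntegral_const]
        simp [Measure.real]

/-- integral form of the defect of the chord -/
lemma Q_le_I (x : ℝ) {h : ℝ} (hh : 0 ≤ h) : Qd γ (x + h) (x + -h)
    ≤ 2 * h * ∫ z in Ioc (0:ℝ) h, (‖g1 (x + z) - g1 x‖ ^ 2 + ‖g1 (x + -z) - g1 x‖ ^ 2) := by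
  have hc := D.continuous1
  rw [D.Q_formula]
  have h1 := intervalIntegral.integral_eq_sub_of_hasDerivAt (a := 0) (b := h) (fun z _ => D.dI x z)
    (Continuous.intervalIntegrable (by fun_prop) _ _)
  rw [intervalIntegral.integral_of_le hh] at h1
  rw [h1]
  have := sq_nonneg ‖γ (x + h) - γ (x + -h) - 2 * h * g1 x‖
  simp only [add_zero, neg_zero, sub_self, Complex.ofReal_zero, mul_zero, zero_mul, inner_zero_right,
    sub_zero]
  linarith

/-- the integrated defect -/
lemma Q_int {h : ℝ} (hh : 0 ≤ h) :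
    ∫ x, Qd γ (x + h) (x + -h) ≤ 4 / 3 * (∫ x, ‖g2 x‖ ^ 2) * h ^ 4 := by
  have hc := D.continuous1
  have hc0 := D.continuous
  set N := ∫ x, ‖g2 x‖ ^ 2 with hN
  have hN0 : 0 ≤ N := integral_nonneg fun x => by positivity
  set F : ℝ × ℝ → ℝ := fun p => ‖g1 (p.1 + p.2) - g1 p.1‖ ^ 2 + ‖g1 (p.1 + -p.2) - g1 p.1‖ ^ 2 with hF
  have hm : AEStronglyMeasurable F
      ((volume : Measure ℝ).prod ((volume : Measure ℝ).restrict (Ioc 0 h))) :=
    (by fun_prop : Continuous F).aestronglyMeasurable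
  have hs : ∀ z, Integrable (fun x => F (x, z)) := fun z =>
    (D.shift_integrable z).add (D.shift_integrable (-z))
  have hsb : ∀ z, ∫ x, F (x, z) ≤ 2 * z ^ 2 * N := fun z => by
    have h1 := D.shift_sq z
    have h2 := D.shift_sq (-z)
    rw [neg_sq] at h2
    have : ∫ x, F (x, z) = (∫ x, ‖g1 (x + z) - g1 x‖ ^ 2) + ∫ x, ‖g1 (x + -z) - g1 x‖ ^ 2 :=
      integral_add (D.shift_integrable z) (D.shift_integrable (-z))
    rw [this]; linarith
  have hF0 : ∀ p, 0 ≤ F p := fun p => by positivity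
  have e0 : ∀ z, ∫ x, ‖F (x, z)‖ = ∫ x, F (x, z) := fun z => by
    congr 1; ext x; rw [Real.norm_of_nonneg (hF0 _)]
  have hI : Integrable F ((volume : Measure ℝ).prod ((volume : Measure ℝ).restrict (Ioc 0 h))) := by
    rw [integrable_prod_iff' hm]
    constructor
    · exact Eventually.of_forall hs
    · simp only [e0]
      have hb : IntegrableOn (fun z : ℝ => 2 * z ^ 2 * N) (Ioc 0 h) :=
        (Continuous.integrableOn_Icc (by fun_prop)).mono_set Ioc_subset_Icc_self
      refine hb.mono' ?_ (Eventually.of_forall fun z => ?_)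
      · have := hm.prod_swap.integral_prod_right'
        exact this
      · rw [Real.norm_of_nonneg (integral_nonneg fun x => hF0 _)]
        exact hsb z
  have hQi : ∫ x, Qd γ (x + h) (x + -h) ≤ ∫ x, 2 * h * ∫ z in Ioc (0:ℝ) h, F (x, z) := by
    refine integral_mono_of_nonneg (Eventually.of_forall fun x => D.Q_nonneg _ _)
      (hI.integral_prod_left.const_mul _) (Eventually.of_forall fun x => D.Q_le_I x hh)
  refine hQi.trans ?_
  rw [integral_const_mul, integral_integral_swap hI]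
  have h1 : ∫ z in Ioc (0:ℝ) h, ∫ x, F (x, z) ≤ ∫ z in Ioc (0:ℝ) h, 2 * z ^ 2 * N := by
    refine setIntegral_mono_on hI.integral_prod_right ?_ measurableSet_Ioc fun z _ => hsb z
    exact (Continuous.integrableOn_Icc (by fun_prop)).mono_set Ioc_subset_Icc_self
  have h2 : ∫ z in Ioc (0:ℝ) h, 2 * z ^ 2 * N = 2 / 3 * h ^ 3 * N := by
    rw [← intervalIntegral.integral_of_le hh, intervalIntegral.integral_mul_const,
      intervalIntegral.integral_const_mul, integral_pow]
    push_cast; ring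
  rw [h2] at h1
  calc 2 * h * _ ≤ 2 * h * (2 / 3 * h ^ 3 * N) := mul_le_mul_of_nonneg_left h1 (by positivity)
    _ = _ := by ring

end Data

end Pool.Agent.Helper97.Scat
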