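import Pool.Agent.Helper97.Scat.Ka

/-!
# Scattering on the line: amplitudes and their error
-/

open MeasureTheory Filter Topology Set Real
open scoped BoundedContinuousFunction

namespace Pool.Agent.Helper97.Scat

/-- incoming wave -/
noncomputable def eA (k : ℝ) (A : Fin 2 → ℂ) (s : ℝ) : ℂ := A 0 * ex k s + A 1 * ex (-k) s

/-- size of an amplitude vector -/
noncomputable def nA (A : Fin 2 → ℂ) : ℝ := ‖A 0‖ + ‖A 1‖

lemma nA_nonneg (A : Fin 2 → ℂ) : 0 ≤ nA A := by unfold nA; positivity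

lemma eA_CB (k : ℝ) (A : Fin 2 → ℂ) : CB (nA A) (eA k A) := by
  have h := ((CB_ex k).const_mul (A 0)).add ((CB_ex (-k)).const_mul (A 1))
  simp only [mul_one] at h
  exact h

/-- outgoing amplitudes generated by the incoming wave `A` and the source `q` -/
noncomputable def outA (k : ℝ) (A : Fin 2 → ℂ) (q : ℝ → ℂ) : Fin 2 → ℂ :=
  ![A 1 + (Complex.I / (2 * k)) * ∫ t, ex k t * q t, A 0 + (Complex.I / (2 * k)) * ∫ t, ex (-k) t * q t]

/-- elementary incoming waves -/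
def uv (j : Fin 2) : Fin 2 → ℂ := Pi.single j 1

lemma eA_uv0 (k : ℝ) : eA k (uv 0) = ex k := by
  ext s; simp [eA, uv]

lemma eA_uv1 (k : ℝ) : eA k (uv 1) = ex (-k) := by
  ext s; simp [eA, uv]

lemma outA_apply (k : ℝ) (A : Fin 2 → ℂ) (q : ℝ → ℂ) (j : Fin 2) :
    outA k A q j = A (1 - j) + (Complex.I / (2 * k)) * ∫ t, eA k (uv j) t * q t := by
  fin_cases j
  · simp [outA, eA_uv0]
  · simp [outA, eA_uv1]

section symm
variable {k : ℝ} {p q : ℝ → ℂ}

lemma R0_prod_integrable (hp : Integrable p) (hq : Integrable q) :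
    Integrable (fun z : ℝ × ℝ => p z.1 * (rk k (z.1 - z.2) * q z.2))
      ((volume : Measure ℝ).prod volume) := by
  have h1 : Integrable (fun z : ℝ × ℝ => p z.1 * q z.2) ((volume : Measure ℝ).prod volume) :=
    hp.mul_prod hq
  have h2 : AEStronglyMeasurable (fun z : ℝ × ℝ => rk k (z.1 - z.2)) ((volume : Measure ℝ).prod volume) := by
    have := continuous_rk k
    exact (by fun_prop : Continuous fun z : ℝ × ℝ => rk k (z.1 - z.2)).aestronglyMeasurable
  refine (h1.bdd_mul (c := 1 / (2 * |k|)) h2 (Eventually.of_forall fun z => (norm_rk k _).le)).congr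
    (Eventually.of_forall fun z => ?_)
  simp only
  ring

lemma R0_symm (hp : Integrable p) (hq : Integrable q) :
    ∫ s, p s * R0 k q s = ∫ s, q s * R0 k p s := by
  have h1 : ∫ s, p s * R0 k q s = ∫ s, ∫ t, p s * (rk k (s - t) * q t) := by
    congr 1; ext s
    rw [R0_eq_integral, integral_const_mul]
  rw [h1, integral_integral_swap (R0_prod_integrable hp hq)]
  congr 1; ext t
  rw [R0_eq_integral, ← integral_const_mul]
  congr 1; ext s
  rw [rk_symm]
  ring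

end symm

/-- `w = e_A + R₀ q` has two bounded derivatives -/
lemma C2_wave {k : ℝ} (hk : k ≠ 0) (A : Fin 2 → ℂ) {q : ℝ → ℂ} {I1 I2 : ℝ} (hq : Integrable q)
    (hc : CB I2 q) (hI : ∫ t, ‖q t‖ ≤ I1) :
    C2 ((1 + |k| + k ^ 2) * (nA A + (1 / (2 * |k|) + 1 / 2) * I1) + I2)
      (fun s => eA k A s + R0 k q s)
      (fun s => (A 0 * (k * Complex.I * ex k s) + A 1 * (-k * Complex.I * ex (-k) s)) + R0' k q s)
      (fun s => -(k:ℂ) ^ 2 * (eA k A s + R0 k q s) - q s) := by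
  have hk' : 0 < |k| := abs_pos.2 hk
  have hI1 : 0 ≤ I1 := (integral_nonneg fun _ => norm_nonneg _).trans hI
  have hI2 := hc.nonneg
  have hn := nA_nonneg A
  have hk2 : 0 ≤ k ^ 2 := sq_nonneg k
  have b0 : ∀ s, ‖eA k A s + R0 k q s‖ ≤ nA A + 1 / (2 * |k|) * I1 := fun s =>
    (norm_add_le _ _).trans (add_le_add ((eA_CB k A).2 s) ((norm_R0_le k hq s).trans
      (mul_le_mul_of_nonneg_left hI (by positivity))))
  have p1 : 0 ≤ 1 / (2 * |k|) * I1 := by positivity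
  refine ⟨fun s => ?_, fun s => ?_, fun s => ?_, fun s => ?_, fun s => ?_⟩
  · have h1 := ((ex_hasDerivAt k s).const_mul (A 0)).fun_add ((ex_hasDerivAt (-k) s).const_mul (A 1))
    refine (h1.fun_add (R0_hasDerivAt hk hq hc.1 s)).congr_deriv ?_
    push_cast; ring
  · have h1 := (((ex_hasDerivAt k s).const_mul (k * Complex.I)).const_mul (A 0)).fun_add
      (((ex_hasDerivAt (-k) s).const_mul (-k * Complex.I)).const_mul (A 1))
    refine (h1.fun_add (R0'_hasDerivAt hq hc.1 s)).congr_deriv ?_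
    have hI := Complex.I_sq
    rw [eA]
    push_cast
    linear_combination (A 0 * k ^ 2 * ex k s + A 1 * k ^ 2 * ex (-k) s) * hI
  · refine (b0 s).trans ?_
    nlinarith [mul_nonneg hk'.le hn, mul_nonneg hk'.le p1, mul_nonneg hk2 hn, mul_nonneg hk2 p1,
      mul_nonneg hk'.le hI1, mul_nonneg hk2 hI1]
  · have h1 : ‖A 0 * (k * Complex.I * ex k s) + A 1 * (-k * Complex.I * ex (-k) s)‖ ≤ |k| * nA A := by
      refine (norm_add_le _ _).trans (le_of_eq ?_)
      simp only [norm_mul, norm_ex, norm_neg, Complex.norm_I, Complex.norm_real, Real.norm_eq_abs, nA]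
      ring
    have h2 := (norm_R0'_le (k := k) hq s).trans (mul_le_mul_of_nonneg_left hI (by norm_num))
    refine (norm_add_le _ _).trans ((add_le_add h1 h2).trans ?_)
    nlinarith [mul_nonneg hk'.le hn, mul_nonneg hk'.le p1, mul_nonneg hk2 hn, mul_nonneg hk2 p1,
      mul_nonneg hk'.le hI1, mul_nonneg hk2 hI1]
  · have h1 : ‖-(k:ℂ) ^ 2 * (eA k A s + R0 k q s)‖ ≤ k ^ 2 * (nA A + 1 / (2 * |k|) * I1) := by
      rw [norm_mul, norm_neg, norm_pow, Complex.norm_real, Real.norm_eq_abs, sq_abs]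
      exact mul_le_mul_of_nonneg_left (b0 s) hk2
    refine (norm_sub_le _ _).trans ((add_le_add h1 (hc.2 s)).trans ?_)
    nlinarith [mul_nonneg hk'.le hn, mul_nonneg hk'.le p1, mul_nonneg hk2 hn, mul_nonneg hk2 p1,
      mul_nonneg hk'.le hI1, mul_nonneg hk2 hI1]

/-- second differences of `φ(s) w(t)` -/
lemma second_diff {N₁ N₂ : ℝ} {φ φ' φ'' w w' w'' : ℝ → ℂ} (hφ : C2 N₁ φ φ' φ'') (hw : C2 N₂ w w' w'')
    (x y : ℝ) : ‖φ (x + y) * w (x - y) + φ (x - y) * w (x + y) - 2 * (φ x * w x)‖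
      ≤ 8 * (N₁ * N₂) * y ^ 2 := by
  have hp : ∀ {G G' : ℝ → ℂ}, (∀ y, HasDerivAt G (G' y) y) →
      ∀ y, HasDerivAt (fun y => G (x + y)) (G' (x + y)) y := fun {G G'} hG y =>
    (hG (x + y)).comp_const_add x y
  have hm : ∀ {G G' : ℝ → ℂ}, (∀ y, HasDerivAt G (G' y) y) →
      ∀ y, HasDerivAt (fun y => G (x - y)) (-G' (x - y)) y := fun {G G'} hG y => by
    exact (hG (x - y)).comp_const_sub x y
  have h0 : ∀ y, HasDerivAt (fun y => φ (x + y) * w (x - y))
      (φ' (x + y) * w (x - y) - φ (x + y) * w' (x - y)) y := fun y => by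
    refine ((hp hφ.d0 y).fun_mul (hm hw.d0 y)).congr_deriv ?_
    ring
  have h1 : ∀ y, HasDerivAt (fun y => φ' (x + y) * w (x - y) - φ (x + y) * w' (x - y))
      (φ'' (x + y) * w (x - y) - 2 * (φ' (x + y) * w' (x - y)) + φ (x + y) * w'' (x - y)) y := fun y => by
    refine (((hp hφ.d1 y).fun_mul (hm hw.d0 y)).fun_sub
      ((hp hφ.d0 y).fun_mul (hm hw.d1 y))).congr_deriv ?_
    ring
  have hN1 := hφ.nonneg
  have hN2 := hw.nonneg
  have hb : ∀ y, ‖φ'' (x + y) * w (x - y) - 2 * (φ' (x + y) * w' (x - y)) + φ (x + y) * w'' (x - y)‖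
      ≤ 4 * (N₁ * N₂) := fun y => by
    have e1 : ‖φ'' (x + y) * w (x - y)‖ ≤ N₁ * N₂ := by
      rw [norm_mul]; exact mul_le_mul (hφ.b2 _) (hw.b0 _) (norm_nonneg _) hN1
    have e2 : ‖2 * (φ' (x + y) * w' (x - y))‖ ≤ 2 * (N₁ * N₂) := by
      rw [norm_mul, norm_mul]
      have : ‖(2:ℂ)‖ = 2 := by norm_num
      rw [this]
      exact mul_le_mul_of_nonneg_left (mul_le_mul (hφ.b1 _) (hw.b1 _) (norm_nonneg _) hN1) (by norm_num)
    have e3 : ‖φ (x + y) * w'' (x - y)‖ ≤ N₁ * N₂ := by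
      rw [norm_mul]; exact mul_le_mul (hφ.b0 _) (hw.b2 _) (norm_nonneg _) hN1
    have e4 := norm_add_le (φ'' (x + y) * w (x - y) - 2 * (φ' (x + y) * w' (x - y)))
      (φ (x + y) * w'' (x - y))
    have e5 := norm_sub_le (φ'' (x + y) * w (x - y)) (2 * (φ' (x + y) * w' (x - y)))
    linarith
  have := sym2 h0 h1 hb y
  rw [sq_abs] at this
  simp only [add_zero, sub_zero, sub_neg_eq_add] at this
  rw [← sub_eq_add_neg] at this
  refine this.trans (le_of_eq ?_)
  ring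

namespace Data
variable {γ g1 g2 g3 g4 : ℝ → ℂ} {R c K : ℝ} (D : Data γ g1 g2 g3 g4 R c K)
include D

/-- the bilinear form error for functions with two derivatives -/
lemma bil_error {a m k N₁ N₂ : ℝ} (h : Reg a m k c) {φ φ' φ'' w w' w'' : ℝ → ℂ}
    (hφ : C2 N₁ φ φ' φ'') (hw : C2 N₂ w w' w'') :
    ‖(∫ s, φ s * Vop a m γ w s) - ∫ s, (Vc g2 s : ℂ) * (φ s * w s)‖
      ≤ (9 * Cw c R k * (K ^ 2 + K ^ 4) + 2 * (3 + 2 * k ^ 2) * (C0 c R * K ^ 2)) * (N₁ * N₂) / a ^ 2 := by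
  have ha := h.a_pos
  have hN1 := hφ.nonneg
  have hN2 := hw.nonneg
  have hφc := hφ.CB
  have hwc := hw.CB
  have c1 := hφc.1
  have c2 := hwc.1
  have hF : Continuous (Function.uncurry fun s t => φ s * w t) := by unfold Function.uncurry; fun_prop
  have hFM : ∀ s t, ‖φ s * w t‖ ≤ N₁ * N₂ := fun s t => by
    rw [norm_mul]; exact mul_le_mul (hφc.2 s) (hwc.2 t) (norm_nonneg _) hN1
  have h1 := D.weak2 h hF hFM (fun x y => second_diff hφ hw x y)
  have h2 := D.pair_rem h (E := (3 + 2 * k ^ 2) * N₁ / a ^ 2) (by positivity) hwc (L0_C2 h hφ)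
  have e : (∫ s, φ s * Vop a m γ w s) - ∫ s, (Vc g2 s : ℂ) * (φ s * w s)
      = ((∫ s, ∫ t, ((2 * a ^ 2 * Dk a m γ s t : ℝ) : ℂ) * (φ s * w t))
          - ∫ x, ((‖g2 x‖ ^ 2 / 4 : ℝ) : ℂ) * (φ x * w x))
        + (a:ℂ) ^ 2 * (∫ x, (L0 a m φ x - φ x) * Dop a m γ w x) := by
    rw [D.pair_Vop h hφc hwc]
    have : ∫ s, (Vc g2 s : ℂ) * (φ s * w s) = ∫ x, ((‖g2 x‖ ^ 2 / 4 : ℝ) : ℂ) * (φ x * w x) := rfl
    rw [this]
    ring
  rw [e]
  refine (norm_add_le _ _).trans ((add_le_add h1 h2).trans (le_of_eq ?_))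
  ring

/-- error of the amplitudes -/
lemma amp_error {a m k M N₁ N₂ : ℝ} (h : Reg a m k c) {A A' : Fin 2 → ℂ} {f φ : ℝ → ℂ}
    (hf : CB M f) (hfeq : ∀ s, f s = eA k A s + Kop k a m γ f s)
    {φ' φ'' w' w'' : ℝ → ℂ} (hφ : C2 N₁ φ φ' φ'')
    (hφeq : ∀ s, φ s = eA k A' s + R0 k (fun t => (Vc g2 t : ℂ) * φ t) s)
    (hw : C2 N₂ (fun s => eA k A s + R0 k (Vop a m γ f) s) w' w'') :
    ‖(∫ s, eA k A' s * Vop a m γ f s) - ∫ s, eA k A s * ((Vc g2 s : ℂ) * φ s)‖
      ≤ (9 * Cw c R k * (K ^ 2 + K ^ 4) + 2 * (3 + 2 * k ^ 2) * (C0 c R * K ^ 2)) * (N₁ * N₂) / a ^ 2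
        + N₁ * (25 / 2 * (C0 c R * K ^ 2) ^ 2 * M) / a ^ 2 := by
  have ha := h.a_pos
  have hM := hf.nonneg
  have hN1 := hφ.nonneg
  have hφc := hφ.CB
  have hwc := hw.CB
  have hh := D.hop_CB h hf
  have P := D.pot
  have hVi := D.Vop_integrable h hf
  have hVφ := P.mul_integrable hφc
  set w : ℝ → ℂ := fun s => eA k A s + R0 k (Vop a m γ f) s with hwdef
  -- f = w + h
  have hfw : f = fun s => w s + hop a m γ f s := by
    ext s
    rw [hfeq s, Kop, hwdef]; ring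
  -- the identity
  have i1 : Integrable (fun s => φ s * Vop a m γ f s) :=
    hVi.bdd_mul (c := N₁) hφc.1.aestronglyMeasurable (Eventually.of_forall hφc.2)
  have i2 : Integrable (fun s => w s * ((Vc g2 s : ℂ) * φ s)) :=
    hVφ.bdd_mul (c := N₂) hwc.1.aestronglyMeasurable (Eventually.of_forall hwc.2)
  have i3 : Integrable (fun s => eA k A' s * Vop a m γ f s) :=
    hVi.bdd_mul (c := nA A') (eA_CB k A').1.aestronglyMeasurable (Eventually.of_forall (eA_CB k A').2)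
  have i4 : Integrable (fun s => eA k A s * ((Vc g2 s : ℂ) * φ s)) :=
    hVφ.bdd_mul (c := nA A) (eA_CB k A).1.aestronglyMeasurable (Eventually.of_forall (eA_CB k A).2)
  have e1 : ∫ s, φ s * Vop a m γ f s = (∫ s, eA k A' s * Vop a m γ f s)
      + ∫ s, Vop a m γ f s * R0 k (fun t => (Vc g2 t : ℂ) * φ t) s := by
    have e2 : ∀ s, φ s * Vop a m γ f s - eA k A' s * Vop a m γ f s
        = Vop a m γ f s * R0 k (fun t => (Vc g2 t : ℂ) * φ t) s := fun s => by
      rw [← sub_mul]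
      nth_rewrite 1 [hφeq s]
      ring
    have e3 : (∫ s, φ s * Vop a m γ f s) - ∫ s, eA k A' s * Vop a m γ f s
        = ∫ s, Vop a m γ f s * R0 k (fun t => (Vc g2 t : ℂ) * φ t) s := by
      rw [← integral_sub i1 i3]
      congr 1; ext s; exact e2 s
    linear_combination e3
  have e4 : ∫ s, w s * ((Vc g2 s : ℂ) * φ s) = (∫ s, eA k A s * ((Vc g2 s : ℂ) * φ s))
      + ∫ s, ((Vc g2 s : ℂ) * φ s) * R0 k (Vop a m γ f) s := by
    have e3 : (∫ s, w s * ((Vc g2 s : ℂ) * φ s)) - ∫ s, eA k A s * ((Vc g2 s : ℂ) * φ s)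
        = ∫ s, ((Vc g2 s : ℂ) * φ s) * R0 k (Vop a m γ f) s := by
      rw [← integral_sub i2 i4]
      congr 1; ext s
      rw [hwdef]; ring
    linear_combination e3
  have e5 := R0_symm (k := k) hVi hVφ
  have e6 : (∫ s, eA k A' s * Vop a m γ f s) - ∫ s, eA k A s * ((Vc g2 s : ℂ) * φ s)
      = (∫ s, φ s * Vop a m γ f s) - ∫ s, w s * ((Vc g2 s : ℂ) * φ s) := by
    linear_combination e4 - e1 - e5
  have e7 : ∫ s, w s * ((Vc g2 s : ℂ) * φ s) = ∫ s, (Vc g2 s : ℂ) * (φ s * w s) := by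
    congr 1; ext s; ring
  -- split f = w + h
  have e8 : ∫ s, φ s * Vop a m γ f s = (∫ s, φ s * Vop a m γ w s) + ∫ s, φ s * Vop a m γ (hop a m γ f) s := by
    have i5 : Integrable (fun s => φ s * Vop a m γ w s) :=
      (D.Vop_integrable h hwc).bdd_mul (c := N₁) hφc.1.aestronglyMeasurable (Eventually.of_forall hφc.2)
    have i6 : Integrable (fun s => φ s * Vop a m γ (hop a m γ f) s) :=
      (D.Vop_integrable h hh).bdd_mul (c := N₁) hφc.1.aestronglyMeasurable (Eventually.of_forall hφc.2)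
    rw [← integral_add i5 i6]
    congr 1; ext s
    have : Vop a m γ f s = Vop a m γ w s + Vop a m γ (hop a m γ f) s := by
      have h3 := congrFun (D.hop_add h hwc hh) s
      rw [← hfw] at h3
      rw [Vop, h3, Vop, Vop]; ring
    rw [this]; ring
  have h1 := D.bil_error h hφ hw
  have h2 : ‖∫ s, φ s * Vop a m γ (hop a m γ f) s‖ ≤ N₁ * (25 / 2 * (C0 c R * K ^ 2) ^ 2 * M) / a ^ 2 := by
    calc ‖∫ s, φ s * Vop a m γ (hop a m γ f) s‖ ≤ ∫ s, N₁ * ‖Vop a m γ (hop a m γ f) s‖ := by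
          refine norm_integral_le_of_norm_le ((D.Vop_integrable h hh).norm.const_mul _)
            (Eventually.of_forall fun s => ?_)
          rw [norm_mul]
          exact mul_le_mul_of_nonneg_right (hφc.2 s) (norm_nonneg _)
      _ ≤ N₁ * (5 * (C0 c R * K ^ 2 * (5 / 2 * (C0 c R * K ^ 2 / a ^ 2 * M)))) := by
          rw [integral_const_mul]
          exact mul_le_mul_of_nonneg_left (D.Vop_norm_integral h hh) hN1
      _ = _ := by ring
  rw [e6, e7, e8]
  have e9 : (∫ s, φ s * Vop a m γ w s) + (∫ s, φ s * Vop a m γ (hop a m γ f) s)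
      - ∫ s, (Vc g2 s : ℂ) * (φ s * w s)
      = ((∫ s, φ s * Vop a m γ w s) - ∫ s, (Vc g2 s : ℂ) * (φ s * w s))
        + ∫ s, φ s * Vop a m γ (hop a m γ f) s := by ring
  rw [e9]
  exact (norm_add_le _ _).trans (add_le_add h1 h2)

end Data

namespace Pot
variable {V : ℝ → ℝ} {R : ℝ} (P : Pot V R)
include P

/-- symmetry of the comparison amplitudes -/
lemma comp_symm {k M N : ℝ} {A A' : Fin 2 → ℂ} {f φ : ℝ → ℂ} (hf : CB M f) (hφ : CB N φ)
    (hfeq : ∀ s, f s = eA k A s + R0 k (fun t => (V t : ℂ) * f t) s)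
    (hφeq : ∀ s, φ s = eA k A' s + R0 k (fun t => (V t : ℂ) * φ t) s) :
    ∫ s, eA k A' s * ((V s : ℂ) * f s) = ∫ s, eA k A s * ((V s : ℂ) * φ s) := by
  have hVf := P.mul_integrable hf
  have hVφ := P.mul_integrable hφ
  have e1 : ∫ s, eA k A' s * ((V s : ℂ) * f s) = (∫ s, φ s * ((V s : ℂ) * f s))
      - ∫ s, ((V s : ℂ) * f s) * R0 k (fun t => (V t : ℂ) * φ t) s := by
    have i1 : Integrable (fun s => φ s * ((V s : ℂ) * f s)) :=
      hVf.bdd_mul (c := N) hφ.1.aestronglyMeasurable (Eventually.of_forall hφ.2)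
    have i2 : Integrable (fun s => ((V s : ℂ) * f s) * R0 k (fun t => (V t : ℂ) * φ t) s) := by
      have hc : AEStronglyMeasurable (R0 k (fun t => (V t : ℂ) * φ t)) volume := by
        have : R0 k (fun t => (V t : ℂ) * φ t) = fun s => φ s - eA k A' s := by
          ext s; rw [hφeq s]; ring
        rw [this]
        exact (hφ.1.sub (eA_CB k A').1).aestronglyMeasurable
      exact hVf.mul_bdd (c := 1 / (2 * |k|) * ∫ t, ‖(V t : ℂ) * φ t‖) hc
        (Eventually.of_forall fun s => norm_R0_le k hVφ s)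
    rw [← integral_sub i1 i2]
    congr 1; ext s
    rw [hφeq s]; ring
  have e2 : ∫ s, eA k A s * ((V s : ℂ) * φ s) = (∫ s, φ s * ((V s : ℂ) * f s))
      - ∫ s, ((V s : ℂ) * φ s) * R0 k (fun t => (V t : ℂ) * f t) s := by
    have i1 : Integrable (fun s => φ s * ((V s : ℂ) * f s)) :=
      hVf.bdd_mul (c := N) hφ.1.aestronglyMeasurable (Eventually.of_forall hφ.2)
    have i2 : Integrable (fun s => ((V s : ℂ) * φ s) * R0 k (fun t => (V t : ℂ) * f t) s) := by
      have hc : AEStronglyMeasurable (R0 k (fun t => (V t : ℂ) * f t)) volume := by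
        have : R0 k (fun t => (V t : ℂ) * f t) = fun s => f s - eA k A s := by
          ext s; rw [hfeq s]; ring
        rw [this]
        exact (hf.1.sub (eA_CB k A).1).aestronglyMeasurable
      exact hVφ.mul_bdd (c := 1 / (2 * |k|) * ∫ t, ‖(V t : ℂ) * f t‖) hc
        (Eventually.of_forall fun s => norm_R0_le k hVf s)
    rw [← integral_sub i1 i2]
    congr 1; ext s
    rw [hfeq s]; ring
  rw [e1, e2, R0_symm hVf hVφ]

end Pot

end Pool.Agent.Helper97.Scat
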