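import Pool.Agent.Helper97.Scat.Sharp1
import Pool.Agent.Helper97.Scat.Sol

/-!
# The Born term of the transmission amplitude
-/

open MeasureTheory Filter Topology Set Real

namespace Pool.Agent.Helper97.Scat

lemma ex_re (k s : ℝ) : (ex k s).re = Real.cos (k * s) := by
  rw [ex, show (k:ℂ) * Complex.I * s = ((k * s : ℝ) : ℂ) * Complex.I by push_cast; ring,
    Complex.exp_ofReal_mul_I_re]

lemma Qd_symm (γ : ℝ → ℂ) (s t : ℝ) : Qd γ s t = Qd γ t s := by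
  rw [Qd, Qd, norm_sub_rev]; ring

namespace Data
variable {γ g1 g2 g3 g4 : ℝ → ℂ} {R c K : ℝ} (D : Data γ g1 g2 g3 g4 R c K)
include D

lemma Q_int' (r : ℝ) : ∫ x, Qd γ (x + r / 2) (x + -(r / 2)) ≤ (∫ x, ‖g2 x‖ ^ 2) * r ^ 4 / 12 := by
  have key : ∀ r : ℝ, 0 ≤ r → ∫ x, Qd γ (x + r / 2) (x + -(r / 2)) ≤ (∫ x, ‖g2 x‖ ^ 2) * r ^ 4 / 12 := by
    intro r hr
    refine (D.Q_int (h := r / 2) (by positivity)).trans (le_of_eq ?_)
    ring
  rcases le_total 0 r with hr | hr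
  · exact key r hr
  · have h1 := key (-r) (by linarith)
    have e : ∀ x, Qd γ (x + -r / 2) (x + -(-r / 2)) = Qd γ (x + r / 2) (x + -(r / 2)) := by
      intro x
      rw [Qd_symm, show x + -(-r / 2) = x + r / 2 by ring, show x + -r / 2 = x + -(r / 2) by ring]
    simp only [e] at h1
    refine h1.trans (le_of_eq ?_)
    ring

lemma D1_int {a m : ℝ} (ha : 0 < a) (hm : 0 < m) (hcm : 8 ≤ c * m) {F : ℝ → ℝ → ℂ} {M : ℝ}
    (hF : AEStronglyMeasurable (Function.uncurry F) ((volume : Measure ℝ).prod volume))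
    (hM : ∀ s t, ‖F s t‖ ≤ M) :
    Integrable (Function.uncurry fun s t => ((2 * a ^ 2 * D1 a m γ s t : ℝ) : ℂ) * F s t)
      ((volume : Measure ℝ).prod volume) := by
  have hc := D.hc
  have h1 := (D.Dk_dom ha hm hcm).integrable (by positivity) hm hc hF hM
  have h2 := (D.Dk1_dom ha hm hcm).integrable (by positivity) hm hc hF hM
  refine ((h1.sub h2).const_mul ((2 * a ^ 2 : ℝ) : ℂ)).congr (Eventually.of_forall fun p => ?_)
  simp only [Function.uncurry, Pi.sub_apply]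
  push_cast
  ring

/-- upper bound of the first order part of the Born term -/
lemma born_main {a m p : ℝ} (ha : 0 < a) (hm : 0 < m) (hcm : 8 ≤ c * m) :
    (∫ s, ∫ t, ((2 * a ^ 2 * D1 a m γ s t : ℝ) : ℂ) * (ex (-p) s * ex p t)).re
      ≤ (∫ x, ‖g2 x‖ ^ 2) * (a ^ 3 / (4 * m ^ 3) - 15 * p ^ 2 * a ^ 3 / (8 * m ^ 5)
        + 525 * p ^ 4 * a ^ 3 / (64 * m ^ 7)) := by
  set N := ∫ x, ‖g2 x‖ ^ 2 with hN
  have hN0 : 0 ≤ N := integral_nonneg fun x => by positivity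
  have c1 := continuous_ex p
  have c2 := continuous_ex (-p)
  have hF : Continuous (Function.uncurry fun s t => ex (-p) s * ex p t) := by
    unfold Function.uncurry; fun_prop
  have hM : ∀ s t, ‖ex (-p) s * ex p t‖ ≤ 1 := fun s t => by
    rw [norm_mul, norm_ex, norm_ex, one_mul]
  have hI := D.D1_int ha hm hcm hF.aestronglyMeasurable hM
  rw [shear_swap hI (1 / 2)]
  set q : ℝ → ℝ := fun r => ∫ x, Qd γ (x + r / 2) (x + -(r / 2)) with hq
  have hq0 : ∀ r, 0 ≤ q r := fun r => integral_nonneg fun x => D.Q_nonneg _ _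
  have hqle : ∀ r, q r ≤ N * r ^ 4 / 12 := fun r => D.Q_int' r
  have e1 : ∀ r : ℝ, ∫ x, ((2 * a ^ 2 * D1 a m γ (x + 1 / 2 * r) (x + 1 / 2 * r - r) : ℝ) : ℂ)
      * (ex (-p) (x + 1 / 2 * r) * ex p (x + 1 / 2 * r - r))
      = ((4 * a ^ 3 * gk1 m (r ^ 2) * q r : ℝ) : ℂ) * ex (-p) r := by
    intro r
    have e2 : ∀ x : ℝ, ((2 * a ^ 2 * D1 a m γ (x + 1 / 2 * r) (x + 1 / 2 * r - r) : ℝ) : ℂ)
      * (ex (-p) (x + 1 / 2 * r) * ex p (x + 1 / 2 * r - r))
        = (((4 * a ^ 3 * gk1 m (r ^ 2) : ℝ) : ℂ) * ex (-p) r) * ((Qd γ (x + r / 2) (x + -(r / 2)) : ℝ) : ℂ) := by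
      intro x
      have e3 : ex (-p) (x + 1 / 2 * r) * ex p (x + 1 / 2 * r - r) = ex (-p) r := by
        have h1 : x + 1 / 2 * r - r = (x + 1 / 2 * r) + (-r) := by ring
        rw [h1, ex_add p, ex_neg]
        have h2 := ex_mul_ex_neg p (x + 1 / 2 * r)
        linear_combination ex (-p) r * h2
      rw [e3, D1, show x + 1 / 2 * r - (x + 1 / 2 * r - r) = r by ring,
        show x + 1 / 2 * r - r = x + -(r / 2) by ring, show x + 1 / 2 * r = x + r / 2 by ring]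
      push_cast
      ring
    simp only [e2]
    rw [integral_const_mul, integral_complex_ofReal, hq]
    push_cast
    ring
  simp only [e1]
  -- the majorant
  have i0 := rho_integrable (a := a) hm
  have i2 := rho2_integrable (a := a) hm
  have i4 := rho4_integrable (a := a) hm
  have imaj : Integrable (fun r => N * (rho a m r - p ^ 2 / 2 * (rho a m r * r ^ 2)
      + p ^ 4 / 16 * (rho a m r * r ^ 4))) :=
    ((i0.sub (i2.const_mul _)).add (i4.const_mul _)).const_mul _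
  have emaj : ∫ r, N * (rho a m r - p ^ 2 / 2 * (rho a m r * r ^ 2)
      + p ^ 4 / 16 * (rho a m r * r ^ 4))
      = N * (a ^ 3 / (4 * m ^ 3) - 15 * p ^ 2 * a ^ 3 / (8 * m ^ 5)
        + 525 * p ^ 4 * a ^ 3 / (64 * m ^ 7)) := by
    have i02 : Integrable (fun r => rho a m r - p ^ 2 / 2 * (rho a m r * r ^ 2)) :=
      i0.sub (i2.const_mul _)
    rw [integral_const_mul, integral_add i02 (i4.const_mul _), integral_sub i0 (i2.const_mul _),
      integral_const_mul, integral_const_mul, rho_integral hm, rho2_integral hm, rho4_integral hm]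
    congr 1
    field_simp
    ring
  have hmaj : ∀ r, N * (rho a m r - p ^ 2 / 2 * (rho a m r * r ^ 2)
      + p ^ 4 / 16 * (rho a m r * r ^ 4)) = N * rho a m r * (1 - (p * r) ^ 2 / 4) ^ 2 := fun r => by ring
  rw [← emaj]
  by_cases hint : Integrable (fun r => ((4 * a ^ 3 * gk1 m (r ^ 2) * q r : ℝ) : ℂ) * ex (-p) r)
  · have hre : (∫ r, ((4 * a ^ 3 * gk1 m (r ^ 2) * q r : ℝ) : ℂ) * ex (-p) r).re
        = ∫ r, (((4 * a ^ 3 * gk1 m (r ^ 2) * q r : ℝ) : ℂ) * ex (-p) r).re :=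
      (integral_re hint).symm
    rw [hre]
    refine integral_mono hint.re imaj fun r => ?_
    simp only
    rw [hmaj, Complex.re_ofReal_mul, ex_re]
    have h1 : Real.cos (-p * r) ≤ (1 - (p * r) ^ 2 / 4) ^ 2 := by
      have := cos_le_sq (-p * r)
      rwa [show (-p * r) ^ 2 = (p * r) ^ 2 by ring] at this
    have h2 := gk1_nonneg m (r ^ 2)
    have h3 := hq0 r
    calc 4 * a ^ 3 * gk1 m (r ^ 2) * q r * Real.cos (-p * r)
        ≤ 4 * a ^ 3 * gk1 m (r ^ 2) * q r * (1 - (p * r) ^ 2 / 4) ^ 2 := by gcongr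
      _ ≤ 4 * a ^ 3 * gk1 m (r ^ 2) * (N * r ^ 4 / 12) * (1 - (p * r) ^ 2 / 4) ^ 2 := by
          have := hqle r
          gcongr
      _ = _ := by rw [rho]; ring
  · rw [integral_undef hint, Complex.zero_re]
    refine integral_nonneg fun r => ?_
    simp only [Pi.zero_apply]
    rw [hmaj]
    have := rho_nonneg (m := m) ha r
    positivity

omit D in
/-- the numerical inequality -/
lemma _root_.Pool.Agent.Helper97.Scat.born_num {a m p : ℝ} (ha : 0 < a) (hm : 0 < m)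
    (hmk : m ^ 2 + p ^ 2 = a ^ 2) (hp : 100 * p ^ 2 ≤ m ^ 2) :
    a ^ 3 / (4 * m ^ 3) - 15 * p ^ 2 * a ^ 3 / (8 * m ^ 5) + 525 * p ^ 4 * a ^ 3 / (64 * m ^ 7) - 1 / 4
      ≤ -(p ^ 2 / a ^ 2) := by
  set x := p ^ 2 / m ^ 2 with hx
  set y := a / m with hy
  have hx0 : 0 ≤ x := by positivity
  have hx1 : x ≤ 1 / 100 := by rw [hx, div_le_iff₀ (by positivity)]; linarith
  have hy2 : y ^ 2 = 1 + x := by rw [hy, hx, div_pow, ← hmk]; field_simp
  have hy1 : 1 ≤ y := by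
    have : 0 < y := by positivity
    nlinarith
  have hy3 : y ^ 3 ≤ (1 + x) ^ 2 := by
    calc y ^ 3 ≤ y ^ 4 := pow_le_pow_right₀ hy1 (by norm_num)
      _ = (1 + x) ^ 2 := by rw [← hy2]; ring
  have e1 : a ^ 3 / (4 * m ^ 3) - 15 * p ^ 2 * a ^ 3 / (8 * m ^ 5) + 525 * p ^ 4 * a ^ 3 / (64 * m ^ 7)
      = y ^ 3 * (1 / 4 - 15 / 8 * x + 525 / 64 * x ^ 2) := by
    rw [hy, hx]; field_simp
  have h1 : p ^ 2 / a ^ 2 ≤ x := by
    rw [hx]
    have : m ^ 2 ≤ a ^ 2 := by nlinarith [sq_nonneg p]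
    gcongr
  have h2 : 0 ≤ 1 / 4 - 15 / 8 * x + 525 / 64 * x ^ 2 := by nlinarith [sq_nonneg x]
  have h3 : y ^ 3 * (1 / 4 - 15 / 8 * x + 525 / 64 * x ^ 2)
      ≤ (1 + x) ^ 2 * (1 / 4 - 15 / 8 * x + 525 / 64 * x ^ 2) := mul_le_mul_of_nonneg_right hy3 h2
  rw [e1]
  have h4 : (1 + x) ^ 2 * (1 / 4 - 15 / 8 * x + 525 / 64 * x ^ 2) ≤ 1 / 4 - x := by
    have e : (1 + x) ^ 2 * (1 / 4 - 15 / 8 * x + 525 / 64 * x ^ 2)
        = 1 / 4 - 11 / 8 * x + x ^ 2 * (1 / 4 - 15 / 4 + 525 / 64 + (525 / 32 - 15 / 8) * x + 525 / 64 * x ^ 2) := by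
      ring
    rw [e]
    have h5 : 1 / 4 - 15 / 4 + 525 / 64 + (525 / 32 - 15 / 8) * x + 525 / 64 * x ^ 2 ≤ 10 := by
      nlinarith [sq_nonneg x]
    have h6 : x ^ 2 * (1 / 4 - 15 / 4 + 525 / 64 + (525 / 32 - 15 / 8) * x + 525 / 64 * x ^ 2)
        ≤ x ^ 2 * 10 := mul_le_mul_of_nonneg_left h5 (sq_nonneg x)
    nlinarith
  linarith

/-- the constant of the second order kernel -/
noncomputable def _root_.Pool.Agent.Helper97.Scat.CQ (c R : ℝ) : ℝ :=
  300000 * Real.exp (2 * R) / c ^ 9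

/-- the Born term -/
lemma born {a m p : ℝ} (h : Reg a m p c) (hp : 100 * p ^ 2 ≤ m ^ 2) :
    ((∫ s, ex (-p) s * Vop a m γ (ex p) s) - ∫ s, (Vc g2 s : ℂ) * (ex (-p) s * ex p s)).re
      ≤ -((∫ x, ‖g2 x‖ ^ 2) * p ^ 2 / a ^ 2) + CQ c R * K ^ 4 / a ^ 2 := by
  have ha := h.a_pos
  have hm := h.m_pos
  have hc := D.hc
  set N := ∫ x, ‖g2 x‖ ^ 2 with hN
  have hN0 : 0 ≤ N := integral_nonneg fun x => by positivity
  have c1 := continuous_ex p
  have c2 := continuous_ex (-p)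
  have hF : Continuous (Function.uncurry fun s t => ex (-p) s * ex p t) := by
    unfold Function.uncurry; fun_prop
  have hM : ∀ s t, ‖ex (-p) s * ex p t‖ ≤ 1 := fun s t => by
    rw [norm_mul, norm_ex, norm_ex, one_mul]
  have hpair := D.pair_Vop h (CB_ex (-p)) (CB_ex p)
  have hz : ∀ s, (L0 a m (ex (-p)) s - ex (-p) s) * Dop a m γ (ex p) s = 0 := fun s => by
    rw [L0_ex_neg hm ha h.rel, sub_self, zero_mul]
  simp only [hz, integral_zero, mul_zero, add_zero] at hpair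
  rw [hpair]
  have i1 := D.D1_int ha hm h.cm hF.aestronglyMeasurable hM
  have i2' := (D.Dk1_dom ha hm h.cm).integrable (by positivity) hm hc hF.aestronglyMeasurable hM
  have i2 : Integrable (Function.uncurry fun s t => ((2 * a ^ 2 * (Dk a m γ s t - D1 a m γ s t) : ℝ) : ℂ)
      * (ex (-p) s * ex p t)) ((volume : Measure ℝ).prod volume) := by
    refine (i2'.const_mul ((2 * a ^ 2 : ℝ) : ℂ)).congr (Eventually.of_forall fun z => ?_)
    simp only [Function.uncurry]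
    push_cast; ring
  have e1 : ∫ s, ∫ t, ((2 * a ^ 2 * Dk a m γ s t : ℝ) : ℂ) * (ex (-p) s * ex p t)
      = (∫ s, ∫ t, ((2 * a ^ 2 * D1 a m γ s t : ℝ) : ℂ) * (ex (-p) s * ex p t))
        + ∫ s, ∫ t, ((2 * a ^ 2 * (Dk a m γ s t - D1 a m γ s t) : ℝ) : ℂ) * (ex (-p) s * ex p t) := by
    have h0 := integral_integral_add i1 i2
    simp only [Function.uncurry] at h0
    rw [← h0]
    congr 1; ext s
    congr 1; ext t
    push_cast; ring
  have hb := (D.Dk1_dom ha hm h.cm).bound (by positivity) hm hc hF.aestronglyMeasurable hM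
  have e2 : ∫ s, ∫ t, ((2 * a ^ 2 * (Dk a m γ s t - D1 a m γ s t) : ℝ) : ℂ) * (ex (-p) s * ex p t)
      = ((2 * a ^ 2 : ℝ) : ℂ) * ∫ s, ∫ t, ((Dk a m γ s t - D1 a m γ s t : ℝ) : ℂ) * (ex (-p) s * ex p t) := by
    rw [← integral_const_mul]
    congr 1; ext s
    rw [← integral_const_mul]
    congr 1; ext t
    push_cast; ring
  have h2 : ‖∫ s, ∫ t, ((2 * a ^ 2 * (Dk a m γ s t - D1 a m γ s t) : ℝ) : ℂ) * (ex (-p) s * ex p t)‖
      ≤ CQ c R * K ^ 4 / a ^ 2 := by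
    rw [e2, norm_mul, Complex.norm_real, Real.norm_of_nonneg (by positivity)]
    refine (mul_le_mul_of_nonneg_left hb (by positivity)).trans ?_
    have h3 : 2 * a ^ 2 * (6144 * a * K ^ 4 / (c ^ 8 * m ^ 4) * 1 * (4 * Real.exp (2 * R) / (m * c)))
        = 49152 * Real.exp (2 * R) / c ^ 9 * K ^ 4 * (a ^ 3 / m ^ 5) := by
      field_simp
      ring
    rw [h3]
    have h4 := h.r35
    have hKK : 0 ≤ K ^ 4 := by positivity
    calc 49152 * Real.exp (2 * R) / c ^ 9 * K ^ 4 * (a ^ 3 / m ^ 5)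
        ≤ 49152 * Real.exp (2 * R) / c ^ 9 * K ^ 4 * (6 / a ^ 2) := by gcongr
      _ = 294912 * (Real.exp (2 * R) / c ^ 9 * K ^ 4 / a ^ 2) := by ring
      _ ≤ 300000 * (Real.exp (2 * R) / c ^ 9 * K ^ 4 / a ^ 2) := by
          have : 0 ≤ Real.exp (2 * R) / c ^ 9 * K ^ 4 / a ^ 2 := by positivity
          linarith
      _ = _ := by rw [CQ]; ring
  have h3 : (∫ s, ∫ t, ((2 * a ^ 2 * (Dk a m γ s t - D1 a m γ s t) : ℝ) : ℂ) * (ex (-p) s * ex p t)).re
      ≤ CQ c R * K ^ 4 / a ^ 2 := (Complex.re_le_norm _).trans h2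
  have h4 : (∫ s, (Vc g2 s : ℂ) * (ex (-p) s * ex p s)) = ((N / 4 : ℝ) : ℂ) := by
    have e3 : ∀ s, (Vc g2 s : ℂ) * (ex (-p) s * ex p s) = ((‖g2 s‖ ^ 2 / 4 : ℝ) : ℂ) := fun s => by
      have := ex_mul_ex_neg p s
      rw [mul_comm (ex (-p) s), this, mul_one, Vc]
    simp only [e3]
    rw [integral_complex_ofReal, integral_div]
  have h5 := D.born_main (p := p) ha hm h.cm
  have h6 := born_num ha hm h.rel hp
  rw [e1, h4, Complex.sub_re, Complex.add_re, Complex.ofReal_re]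
  have h7 := mul_le_mul_of_nonneg_left h6 hN0
  rw [← hN] at h5
  have h8 : N * -(p ^ 2 / a ^ 2) = -(N * p ^ 2 / a ^ 2) := by ring
  rw [h8] at h7
  linarith

end Data

end Pool.Agent.Helper97.Scat
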