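import Pool.Agent.Helper97.Scat.Sharp2
import Pool.Agent.Helper97.Scat.Main1

/-!
# Lower bound for the difference of the transmission amplitudes
-/

open MeasureTheory Filter Topology Set Real

namespace Pool.Agent.Helper97.Scat

lemma C2_ex {p : ℝ} (hp : 0 < p) (k : ℝ) (hk : |k| = p) :
    C2 (1 + p + p ^ 2) (ex k) (fun s => k * Complex.I * ex k s) (fun s => -(k:ℂ) ^ 2 * ex k s) := by
  have hk2 : k ^ 2 = p ^ 2 := by rw [← hk, sq_abs]
  refine ⟨ex_hasDerivAt k, fun s => ?_, fun s => ?_, fun s => ?_, fun s => ?_⟩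
  · refine ((ex_hasDerivAt k s).const_mul (k * Complex.I)).congr_deriv ?_
    have hI := Complex.I_sq
    linear_combination (k ^ 2 * ex k s) * hI
  · rw [norm_ex]; nlinarith
  · rw [norm_mul, norm_mul, norm_ex, Complex.norm_I, Complex.norm_real, Real.norm_eq_abs, hk]
    nlinarith
  · rw [norm_mul, norm_neg, norm_ex, norm_pow, Complex.norm_real, Real.norm_eq_abs, hk]
    nlinarith

lemma C2_R0 {k : ℝ} (hk : k ≠ 0) {q : ℝ → ℂ} {I1 I2 : ℝ} (hq : Integrable q)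
    (hc : CB I2 q) (hI : ∫ t, ‖q t‖ ≤ I1) :
    C2 ((1 + |k| + k ^ 2) * ((1 / (2 * |k|) + 1 / 2) * I1) + I2)
      (R0 k q) (R0' k q) (fun s => -(k:ℂ) ^ 2 * R0 k q s - q s) := by
  have h := C2_wave hk (fun _ => 0) hq hc hI
  simp only [eA, nA, zero_mul, zero_add, norm_zero, add_zero] at h
  exact h

section consts

/-- auxiliary constants -/
noncomputable def kap (p : ℝ) : ℝ := 1 + p + p ^ 2
noncomputable def Bw (c R p : ℝ) : ℝ := kap p * ((1 / (2 * p) + 1 / 2) * (20 * C0 c R)) + 10 * C0 c R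
noncomputable def Bφ (R p : ℝ) : ℝ := kap p * ((1 / (2 * p) + 1 / 2) * R) + 1 / 2
noncomputable def Bb (c R p : ℝ) : ℝ := 18 * Cw c R p + 2 * (3 + 2 * p ^ 2) * C0 c R
noncomputable def CT (c R p : ℝ) : ℝ :=
  Bb c R p * Bφ R p * (kap p + Bw c R p) + Bb c R p * kap p * Bw c R p + 100 * C0 c R ^ 2 + CQ c R

end consts

namespace Data
variable {γ g1 g2 g3 g4 : ℝ → ℂ} {R c K : ℝ} (D : Data γ g1 g2 g3 g4 R c K)
include D

omit D in
/-- the error form -/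
noncomputable def _root_.Pool.Agent.Helper97.Scat.bil (a m : ℝ) (γ g2 : ℝ → ℂ) (φ w : ℝ → ℂ) : ℂ :=
  (∫ s, φ s * Vop a m γ w s) - ∫ s, (Vc g2 s : ℂ) * (φ s * w s)

lemma Vphi_int {M N : ℝ} {φ w : ℝ → ℂ} (hφ : CB M φ) (hw : CB N w) :
    Integrable (fun s => (Vc g2 s : ℂ) * (φ s * w s)) := by
  refine D.pot.mul_integrable (M := M * N) ⟨hφ.1.mul hw.1, fun s => ?_⟩
  rw [norm_mul]
  exact mul_le_mul (hφ.2 s) (hw.2 s) (norm_nonneg _) hφ.nonneg

lemma phiVop_int {a m k M N : ℝ} (h : Reg a m k c) {φ w : ℝ → ℂ} (hφ : CB M φ) (hw : CB N w) :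
    Integrable (fun s => φ s * Vop a m γ w s) :=
  (D.Vop_integrable h hw).bdd_mul (c := M) hφ.1.aestronglyMeasurable (Eventually.of_forall hφ.2)

lemma Vop_sub {a m k M N : ℝ} (h : Reg a m k c) {f g : ℝ → ℂ} (hf : CB M f) (hg : CB N g) (s : ℝ) :
    Vop a m γ (fun s => f s - g s) s = Vop a m γ f s - Vop a m γ g s := by
  have h1 := (D.kop_src h).add _ _ _ _ hf (hg.const_mul (-1)) s
  rw [(D.kop_src h).smul _ (-1) g hg] at h1
  have e : (fun s => f s + (-1) * g s) = fun s => f s - g s := by ext s; ring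
  rw [e] at h1
  rw [h1]; ring

lemma bil_sub_left {a m k M₁ M₂ N : ℝ} (h : Reg a m k c) {φ₁ φ₂ w : ℝ → ℂ} (h₁ : CB M₁ φ₁)
    (h₂ : CB M₂ φ₂) (hw : CB N w) :
    bil a m γ g2 φ₁ w - bil a m γ g2 φ₂ w = bil a m γ g2 (fun s => φ₁ s - φ₂ s) w := by
  rw [bil, bil, bil]
  have e1 : ∫ s, (φ₁ s - φ₂ s) * Vop a m γ w s
      = (∫ s, φ₁ s * Vop a m γ w s) - ∫ s, φ₂ s * Vop a m γ w s := by
    rw [← integral_sub (D.phiVop_int h h₁ hw) (D.phiVop_int h h₂ hw)]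
    congr 1; ext s; ring
  have e2 : ∫ s, (Vc g2 s : ℂ) * ((φ₁ s - φ₂ s) * w s)
      = (∫ s, (Vc g2 s : ℂ) * (φ₁ s * w s)) - ∫ s, (Vc g2 s : ℂ) * (φ₂ s * w s) := by
    rw [← integral_sub (D.Vphi_int h₁ hw) (D.Vphi_int h₂ hw)]
    congr 1; ext s; ring
  rw [e1, e2]; ring

lemma bil_sub_right {a m k M N₁ N₂ : ℝ} (h : Reg a m k c) {φ w₁ w₂ : ℝ → ℂ} (hφ : CB M φ)
    (h₁ : CB N₁ w₁) (h₂ : CB N₂ w₂) :
    bil a m γ g2 φ w₁ - bil a m γ g2 φ w₂ = bil a m γ g2 φ (fun s => w₁ s - w₂ s) := by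
  rw [bil, bil, bil]
  have e1 : ∫ s, φ s * Vop a m γ (fun s => w₁ s - w₂ s) s
      = (∫ s, φ s * Vop a m γ w₁ s) - ∫ s, φ s * Vop a m γ w₂ s := by
    rw [← integral_sub (D.phiVop_int h hφ h₁) (D.phiVop_int h hφ h₂)]
    congr 1; ext s; rw [D.Vop_sub h h₁ h₂]; ring
  have e2 : ∫ s, (Vc g2 s : ℂ) * (φ s * (w₁ s - w₂ s))
      = (∫ s, (Vc g2 s : ℂ) * (φ s * w₁ s)) - ∫ s, (Vc g2 s : ℂ) * (φ s * w₂ s) := by
    rw [← integral_sub (D.Vphi_int hφ h₁) (D.Vphi_int hφ h₂)]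
    congr 1; ext s; ring
  rw [e1, e2]; ring

/-- the exact identity for the amplitude difference -/
lemma amp_identity {a m k M N₁ : ℝ} (h : Reg a m k c) {A A' : Fin 2 → ℂ} {f φ : ℝ → ℂ}
    (hf : CB M f) (hfeq : ∀ s, f s = eA k A s + Kop k a m γ f s) (hφc : CB N₁ φ)
    (hφeq : ∀ s, φ s = eA k A' s + R0 k (fun t => (Vc g2 t : ℂ) * φ t) s) {N₂ : ℝ}
    (hwc : CB N₂ (fun s => eA k A s + R0 k (Vop a m γ f) s)) :
    (∫ s, eA k A' s * Vop a m γ f s) - ∫ s, eA k A s * ((Vc g2 s : ℂ) * φ s)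
      = bil a m γ g2 φ (fun s => eA k A s + R0 k (Vop a m γ f) s)
        + ∫ s, φ s * Vop a m γ (hop a m γ f) s := by
  have hh := D.hop_CB h hf
  have P := D.pot
  have hVi := D.Vop_integrable h hf
  have hVφ := P.mul_integrable hφc
  set w : ℝ → ℂ := fun s => eA k A s + R0 k (Vop a m γ f) s with hwdef
  have hfw : f = fun s => w s + hop a m γ f s := by
    ext s
    rw [hfeq s, Kop, hwdef]; ring
  have i1 : Integrable (fun s => φ s * Vop a m γ f s) :=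
    hVi.bdd_mul (c := N₁) hφc.1.aestronglyMeasurable (Eventually.of_forall hφc.2)
  have i2 : Integrable (fun s => w s * ((Vc g2 s : ℂ) * φ s)) :=
    hVφ.bdd_mul (c := N₂) hwc.1.aestronglyMeasurable (Eventually.of_forall hwc.2)
  have i3 : Integrable (fun s => eA k A' s * Vop a m γ f s) :=
    hVi.bdd_mul (c := nA A') (eA_CB k A').1.aestronglyMeasurable (Eventually.of_forall (eA_CB k A').2)
  have i4 : Integrable (fun s => eA k A s * ((Vc g2 s : ℂ) * φ s)) :=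
    hVφ.bdd_mul (c := nA A) (eA_CB k A).1.aestronglyMeasurable (Eventually.of_forall (eA_CB k A).2)
  have e1 : ∫ s, φ s * Vop a m γ f s = (∫ s, eA k A' s * Vop a m γ f s)
      + ∫ s, Vop a m γ f s * R0 k (fun t => (Vc g2 t : ℂ) * φ t) s := by
    have e2 : ∀ s, φ s * Vop a m γ f s - eA k A' s * Vop a m γ f s
        = Vop a m γ f s * R0 k (fun t => (Vc g2 t : ℂ) * φ t) s := fun s => by
      rw [← sub_mul]
      nth_rewrite 1 [hφeq s]
      ring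
    have e3 : (∫ s, φ s * Vop a m γ f s) - ∫ s, eA k A' s * Vop a m γ f s
        = ∫ s, Vop a m γ f s * R0 k (fun t => (Vc g2 t : ℂ) * φ t) s := by
      rw [← integral_sub i1 i3]
      congr 1; ext s; exact e2 s
    linear_combination e3
  have e4 : ∫ s, w s * ((Vc g2 s : ℂ) * φ s) = (∫ s, eA k A s * ((Vc g2 s : ℂ) * φ s))
      + ∫ s, ((Vc g2 s : ℂ) * φ s) * R0 k (Vop a m γ f) s := by
    have e3 : (∫ s, w s * ((Vc g2 s : ℂ) * φ s)) - ∫ s, eA k A s * ((Vc g2 s : ℂ) * φ s)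
        = ∫ s, ((Vc g2 s : ℂ) * φ s) * R0 k (Vop a m γ f) s := by
      rw [← integral_sub i2 i4]
      congr 1; ext s
      rw [hwdef]; ring
    linear_combination e3
  have e5 := R0_symm (k := k) hVi hVφ
  have e7 : ∫ s, w s * ((Vc g2 s : ℂ) * φ s) = ∫ s, (Vc g2 s : ℂ) * (φ s * w s) := by
    congr 1; ext s; ring
  have e8 : ∫ s, φ s * Vop a m γ f s = (∫ s, φ s * Vop a m γ w s) + ∫ s, φ s * Vop a m γ (hop a m γ f) s := by
    rw [← integral_add (D.phiVop_int h hφc hwc) (D.phiVop_int h hφc hh)]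
    congr 1; ext s
    have : Vop a m γ f s = Vop a m γ w s + Vop a m γ (hop a m γ f) s := by
      have h3 := congrFun (D.hop_add h hwc hh) s
      rw [← hfw] at h3
      rw [Vop, h3, Vop, Vop]; ring
    rw [this]; ring
  rw [bil]
  linear_combination e4 - e1 - e5 + e8 - e7

/-- the main lower bound -/
lemma born_total {a m p : ℝ} (h : Reg a m p c) (hp : 0 < p) (hpm : 100 * p ^ 2 ≤ m ^ 2) (hK : K ≤ 1)
    {f φ : ℝ → ℂ} (hf : CB 4 f) (hfeq : ∀ s, f s = eA p (uv 0) s + Kop p a m γ f s) (hφ : CB 2 φ)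
    (hφeq : ∀ s, φ s = eA p (uv 1) s + R0 p (fun t => (Vc g2 t : ℂ) * φ t) s) :
    ((∫ s, eA p (uv 1) s * Vop a m γ f s) - ∫ s, eA p (uv 0) s * ((Vc g2 s : ℂ) * φ s)).re
      ≤ -((∫ x, ‖g2 x‖ ^ 2) * p ^ 2 / a ^ 2) + CT c R p * K ^ 4 / a ^ 2 := by
  have ha := h.a_pos
  have hK0 := D.hK
  have hR := D.hR
  have hC0 := D.C0_nonneg
  have hCw := D.Cw_nonneg p
  have habs : |p| = p := abs_of_pos hp
  have hkap : 0 ≤ kap p := by unfold kap; positivity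
  have hBw : 0 ≤ Bw c R p := by unfold Bw; positivity
  have hBφ : 0 ≤ Bφ R p := by unfold Bφ; positivity
  have hBb : 0 ≤ Bb c R p := by unfold Bb; positivity
  have hK2 : K ^ 2 ≤ 1 := pow_le_one₀ hK0 hK
  -- C² bounds
  have hVi := D.Vop_integrable h hf
  have hVφc : CB (K ^ 2 / 4 * 2) (fun t => (Vc g2 t : ℂ) * φ t) := by
    refine ⟨D.pot.mul_cont hφ, fun t => ?_⟩
    rw [norm_mul, Complex.norm_real, Real.norm_eq_abs]
    exact mul_le_mul (D.Vc_le t) (hφ.2 t) (norm_nonneg _) (by positivity)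
  have hVφI : ∫ t, ‖(Vc g2 t : ℂ) * φ t‖ ≤ R * K ^ 2 / 2 * 2 :=
    (D.pot.mul_norm_integral hφ).trans (mul_le_mul_of_nonneg_right D.Vc_integral (by norm_num))
  have hq1 := C2_R0 hp.ne' (D.pot.mul_integrable hφ) hVφc hVφI
  have hq2 := C2_R0 hp.ne' hVi (D.Vop_CB h hf) (D.Vop_norm_integral h hf)
  rw [habs] at hq1 hq2
  have hφ1 : C2 (K ^ 2 * Bφ R p) (R0 p fun t => (Vc g2 t : ℂ) * φ t) _ _ :=
    hq1.mono (le_of_eq (by unfold Bφ kap; ring))
  have hw1 : C2 (K ^ 2 * Bw c R p) (R0 p (Vop a m γ f)) _ _ :=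
    hq2.mono (le_of_eq (by unfold Bw kap; ring))
  have he0 := C2_ex hp p habs
  have he1 := C2_ex hp (-p) (by rw [abs_neg, habs])
  -- the function w
  have hwC2 := C2_wave hp.ne' (uv 0) hVi (D.Vop_CB h hf) (D.Vop_norm_integral h hf)
  rw [habs, nA_uv] at hwC2
  have hw2 : C2 (kap p + Bw c R p) (fun s => eA p (uv 0) s + R0 p (Vop a m γ f) s) _ _ :=
    hwC2.mono (by
      have e : (1 + p + p ^ 2) * (1 + (1 / (2 * p) + 1 / 2) * (5 * (C0 c R * K ^ 2 * 4)))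
          + 5 / 2 * (C0 c R * K ^ 2 * 4) = kap p + K ^ 2 * Bw c R p := by unfold Bw kap; ring
      rw [e]
      nlinarith)
  have hid := D.amp_identity h hf hfeq hφ hφeq hw2.CB
  rw [hid]
  set w : ℝ → ℂ := fun s => eA p (uv 0) s + R0 p (Vop a m γ f) s with hw
  -- decomposition
  have hd1 : bil a m γ g2 φ w = bil a m γ g2 (ex (-p)) (ex p)
      + bil a m γ g2 (R0 p fun t => (Vc g2 t : ℂ) * φ t) w
      + bil a m γ g2 (ex (-p)) (R0 p (Vop a m γ f)) := by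
    have s1 := D.bil_sub_left h hφ he1.CB hw2.CB
    have s2 := D.bil_sub_right h he1.CB hw2.CB he0.CB
    have f1 : (fun s => φ s - ex (-p) s) = R0 p fun t => (Vc g2 t : ℂ) * φ t := by
      ext s; rw [hφeq s, eA_uv1]; ring
    have f2 : (fun s => w s - ex p s) = R0 p (Vop a m γ f) := by
      ext s; rw [hw]; simp only; rw [eA_uv0]; ring
    rw [f1] at s1
    rw [f2] at s2
    linear_combination s1 + s2
  have hb1 := D.bil_error h hφ1 hw2
  have hb2 := D.bil_error h he1 hw1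
  have hconst : 9 * Cw c R p * (K ^ 2 + K ^ 4) + 2 * (3 + 2 * p ^ 2) * (C0 c R * K ^ 2)
      ≤ K ^ 2 * Bb c R p := by
    have h4 : K ^ 4 ≤ K ^ 2 := by nlinarith [sq_nonneg K]
    have h5 : 9 * Cw c R p * (K ^ 2 + K ^ 4) ≤ 9 * Cw c R p * (K ^ 2 + K ^ 2) := by gcongr
    unfold Bb
    linarith
  have hbb1 : ‖bil a m γ g2 (R0 p fun t => (Vc g2 t : ℂ) * φ t) w‖
      ≤ Bb c R p * Bφ R p * (kap p + Bw c R p) * K ^ 4 / a ^ 2 := by
    refine hb1.trans ?_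
    calc _ ≤ (K ^ 2 * Bb c R p) * (K ^ 2 * Bφ R p * (kap p + Bw c R p)) / a ^ 2 := by gcongr
      _ = _ := by ring
  have hbb2 : ‖bil a m γ g2 (ex (-p)) (R0 p (Vop a m γ f))‖ ≤ Bb c R p * kap p * Bw c R p * K ^ 4 / a ^ 2 := by
    refine hb2.trans ?_
    calc _ ≤ (K ^ 2 * Bb c R p) * ((1 + p + p ^ 2) * (K ^ 2 * Bw c R p)) / a ^ 2 := by gcongr
      _ = _ := by unfold kap; ring
  have hh := D.hop_CB h hf
  have hbb3 : ‖∫ s, φ s * Vop a m γ (hop a m γ f) s‖ ≤ 100 * C0 c R ^ 2 * K ^ 4 / a ^ 2 := by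
    calc ‖∫ s, φ s * Vop a m γ (hop a m γ f) s‖ ≤ ∫ s, 2 * ‖Vop a m γ (hop a m γ f) s‖ := by
          refine norm_integral_le_of_norm_le ((D.Vop_integrable h hh).norm.const_mul _)
            (Eventually.of_forall fun s => ?_)
          rw [norm_mul]
          exact mul_le_mul_of_nonneg_right (hφ.2 s) (norm_nonneg _)
      _ ≤ 2 * (5 * (C0 c R * K ^ 2 * (5 / 2 * (C0 c R * K ^ 2 / a ^ 2 * 4)))) := by
          rw [integral_const_mul]
          exact mul_le_mul_of_nonneg_left (D.Vop_norm_integral h hh) (by norm_num)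
      _ = _ := by ring
  have hborn := D.born h hpm
  rw [hd1]
  simp only [Complex.add_re]
  have r1 := (Complex.re_le_norm (bil a m γ g2 (R0 p fun t => (Vc g2 t : ℂ) * φ t) w)).trans hbb1
  have r2 := (Complex.re_le_norm (bil a m γ g2 (ex (-p)) (R0 p (Vop a m γ f)))).trans hbb2
  have r3 := (Complex.re_le_norm (∫ s, φ s * Vop a m γ (hop a m γ f) s)).trans hbb3
  have r4 : (bil a m γ g2 (ex (-p)) (ex p)).re
      ≤ -((∫ x, ‖g2 x‖ ^ 2) * p ^ 2 / a ^ 2) + CQ c R * K ^ 4 / a ^ 2 := hborn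
  have e : CT c R p * K ^ 4 / a ^ 2 = Bb c R p * Bφ R p * (kap p + Bw c R p) * K ^ 4 / a ^ 2
      + Bb c R p * kap p * Bw c R p * K ^ 4 / a ^ 2 + 100 * C0 c R ^ 2 * K ^ 4 / a ^ 2
      + CQ c R * K ^ 4 / a ^ 2 := by unfold CT; ring
  rw [e]
  linarith

end Data

end Pool.Agent.Helper97.Scat
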