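import Pool.Agent.Helper97.Scat.Sharp3

/-!
# Sharpness of the rate for slightly bent curves
-/

open MeasureTheory Filter Topology Set Real
open scoped ContDiff

namespace Pool.Agent.Helper97.Scat

/-- inverse bound for small potentials -/
lemma Pot.inverse_small {V : ℝ → ℝ} {R : ℝ} (P : Pot V R) {k : ℝ} (hk : k ≠ 0)
    (hV : 1 / (2 * |k|) * ∫ t, |V t| ≤ 1 / 2) (g : X) :
    ‖g‖ ≤ 2 * ‖g - (P.bop hk).clm g‖ := by
  have h1 : ‖(P.bop hk).clm g‖ ≤ 1 / 2 * ‖g‖ := by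
    have h2 : ‖(P.bop hk).clm g‖ ≤ (1 / (2 * |k|) * ∫ t, |V t|) * ‖g‖ :=
      mkX_norm _ ((P.bop hk).map ‖g‖ g (X_CB g))
    exact h2.trans (mul_le_mul_of_nonneg_right hV (norm_nonneg _))
  have h3 := norm_sub_norm_le g ((P.bop hk).clm g)
  linarith

namespace Data
variable {γ g1 g2 g3 g4 : ℝ → ℂ} {R c K : ℝ} (D : Data γ g1 g2 g3 g4 R c K)
include D

lemma sharp {p : ℝ} (hp : 0 < p) (hK : K ≤ 1) (hRK : R * K ^ 2 ≤ 2 * p)
    (hN : CT c R p * K ^ 4 ≤ 1 / 2 * (∫ x, ‖g2 x‖ ^ 2) * p ^ 2)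
    {S : Matrix (Fin 2) (Fin 2) ℂ}
    (hS : ∀ A f, LSol p (fun f => R0 p fun t => (Vc g2 t : ℂ) * f t) A f →
        outA p A (fun t => (Vc g2 t : ℂ) * f t) = S.mulVec A)
    {a : ℝ} (h1 : 1 ≤ a) (h2 : 11 * p ≤ a) (h3 : 12 / c ≤ a) (h4 : 4 * CK c R p K ≤ a) :
    ∃ Sα, IsLeakySMatrix γ (2 * a) (p ^ 2 - (2 * a) ^ 2 / 4) Sα ∧
      (∫ x, ‖g2 x‖ ^ 2) * p / (4 * a ^ 2) ≤ ‖Sα 1 0 - S 1 0‖ := by
  have habs : |p| = p := abs_of_pos hp
  have hreg : Reg a (mm a p) p c := reg_of_large D.hc h1 (by rw [habs]; linarith) h3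
  have ha := hreg.a_pos
  have hinv : ∀ g : X, ‖g‖ ≤ 2 * ‖g - (D.pot.bop hp.ne').clm g‖ := by
    refine D.pot.inverse_small hp.ne' ?_
    have := D.Vc_integral
    rw [habs, div_mul_eq_mul_div, one_mul, div_le_iff₀ (by positivity)]
    linarith
  have h4' : 2 * 2 * CK c R p K ≤ a := by linarith
  obtain ⟨Sα, hSα, hSα'⟩ := D.leaky_matrix hreg hp (by norm_num) hinv h4'
  refine ⟨Sα, hSα, ?_⟩
  obtain ⟨f, hf, hfe⟩ := D.exists_line hreg hp.ne' (by norm_num) hinv h4' (uv 0)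
  obtain ⟨f₀, hf₀, hf₀e⟩ := D.pot.exists_sol hp.ne' hinv (by norm_num) (uv 0)
  obtain ⟨φ, hφ, hφe⟩ := D.pot.exists_sol hp.ne' hinv (by norm_num) (uv 1)
  have hpm : 100 * p ^ 2 ≤ mm a p ^ 2 := by
    have := hreg.rel
    nlinarith
  have hb := D.born_total hreg hp hpm hK (f := f) (φ := φ)
    (by rw [nA_uv] at hf; norm_num at hf; exact hf) hfe (by rw [nA_uv] at hφ; norm_num at hφ; exact hφ) hφe
  have hsym := D.pot.comp_symm hf₀ hφ hf₀e hφe
  have e1 : Sα 1 0 = 1 + (Complex.I / (2 * p)) * ∫ t, eA p (uv 1) t * Vop a (mm a p) γ f t := by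
    rw [← mulVec_uv Sα, ← hSα' _ f ⟨⟨_, hf⟩, hfe⟩, outA_apply]
    simp [uv]
  have e2 : S 1 0 = 1 + (Complex.I / (2 * p)) * ∫ t, eA p (uv 1) t * ((Vc g2 t : ℂ) * f₀ t) := by
    rw [← mulVec_uv S, ← hS _ f₀ ⟨⟨_, hf₀⟩, hf₀e⟩, outA_apply]
    simp [uv]
  rw [e1, e2, hsym]
  set X := (∫ s, eA p (uv 1) s * Vop a (mm a p) γ f s)
    - ∫ s, eA p (uv 0) s * ((Vc g2 s : ℂ) * φ s) with hX
  have e3 : 1 + (Complex.I / (2 * p)) * (∫ t, eA p (uv 1) t * Vop a (mm a p) γ f t)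
      - (1 + (Complex.I / (2 * p)) * ∫ s, eA p (uv 0) s * ((Vc g2 s : ℂ) * φ s))
      = (Complex.I / (2 * p)) * X := by rw [hX]; ring
  rw [e3, norm_mul]
  have e4 : ‖Complex.I / (2 * (p:ℂ))‖ = 1 / (2 * p) := by rw [norm_div]; simp [abs_of_pos hp]
  rw [e4]
  have h5 : -X.re ≤ ‖X‖ := by
    have := Complex.abs_re_le_norm X
    have h6 := neg_le_abs X.re
    linarith
  have h6 : CT c R p * K ^ 4 / a ^ 2 ≤ 1 / 2 * (∫ x, ‖g2 x‖ ^ 2) * p ^ 2 / a ^ 2 := by gcongr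
  have h7 : 1 / 2 * (∫ x, ‖g2 x‖ ^ 2) * p ^ 2 / a ^ 2 ≤ ‖X‖ := by
    have e5 : (∫ x, ‖g2 x‖ ^ 2) * p ^ 2 / a ^ 2 = 1 / 2 * (∫ x, ‖g2 x‖ ^ 2) * p ^ 2 / a ^ 2
        + 1 / 2 * (∫ x, ‖g2 x‖ ^ 2) * p ^ 2 / a ^ 2 := by ring
    linarith
  calc (∫ x, ‖g2 x‖ ^ 2) * p / (4 * a ^ 2)
      = 1 / (2 * p) * (1 / 2 * (∫ x, ‖g2 x‖ ^ 2) * p ^ 2 / a ^ 2) := by field_simp; ring
    _ ≤ 1 / (2 * p) * ‖X‖ := mul_le_mul_of_nonneg_left h7 (by positivity)

end Data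

section family

/-- the bump -/
noncomputable def bmp : ContDiffBump (0 : ℝ) := ⟨1, 2, one_pos, one_lt_two⟩

/-- the angle -/
noncomputable def th (s : ℝ) : ℝ := bmp s
noncomputable def th1 : ℝ → ℝ := deriv th
noncomputable def th2 : ℝ → ℝ := deriv th1
noncomputable def th3 : ℝ → ℝ := deriv th2

lemma th_smooth : ContDiff ℝ ∞ th := bmp.contDiff
lemma th1_smooth : ContDiff ℝ ∞ th1 := (contDiff_infty_iff_deriv.1 th_smooth).2
lemma th2_smooth : ContDiff ℝ ∞ th2 := (contDiff_infty_iff_deriv.1 th1_smooth).2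
lemma th3_smooth : ContDiff ℝ ∞ th3 := (contDiff_infty_iff_deriv.1 th2_smooth).2

lemma th_d (s : ℝ) : HasDerivAt th (th1 s) s :=
  ((contDiff_infty_iff_deriv.1 th_smooth).1 s).hasDerivAt
lemma th1_d (s : ℝ) : HasDerivAt th1 (th2 s) s :=
  ((contDiff_infty_iff_deriv.1 th1_smooth).1 s).hasDerivAt
lemma th2_d (s : ℝ) : HasDerivAt th2 (th3 s) s :=
  ((contDiff_infty_iff_deriv.1 th2_smooth).1 s).hasDerivAt

lemma th_abs (s : ℝ) : |th s| ≤ 1 := by
  have h0 : 0 ≤ th s := bmp.nonneg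
  rw [abs_of_nonneg h0]; exact bmp.le_one

lemma th_zero {s : ℝ} (hs : 2 ≤ |s|) : th s = 0 := by
  apply bmp.zero_of_le_dist
  rw [dist_zero_right, Real.norm_eq_abs]
  exact hs

lemma th_one {s : ℝ} (hs : |s| ≤ 1) : th s = 1 := by
  apply bmp.one_of_mem_closedBall
  rw [mem_closedBall_zero_iff, Real.norm_eq_abs]
  exact hs

lemma th_supp : HasCompactSupport th := bmp.hasCompactSupport

lemma th1_supp : HasCompactSupport th1 := th_supp.deriv
lemma th2_supp : HasCompactSupport th2 := th1_supp.deriv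
lemma th3_supp : HasCompactSupport th3 := th2_supp.deriv

lemma th1_zero {s : ℝ} (hs : 2 ≤ |s|) : th1 s = 0 := by
  have h := th_d s
  -- by continuity from outside
  have key : ∀ s, 2 < |s| → th1 s = 0 := by
    intro s hs
    have ho : IsOpen {s : ℝ | 2 < |s|} := isOpen_lt continuous_const continuous_abs
    have he : th =ᶠ[𝓝 s] fun _ => 0 := by
      filter_upwards [ho.mem_nhds hs] with t ht
      exact th_zero (le_of_lt ht)
    rw [th1, he.deriv_eq]; simp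
  rcases hs.eq_or_lt with h2 | h2
  · have hcl : IsClosed {s : ℝ | th1 s = 0} := isClosed_eq th1_smooth.continuous continuous_const
    have hmem : s ∈ closure {s : ℝ | 2 < |s|} := by
      have hs0 : s ≠ 0 := by rintro rfl; simp at h2
      rw [Metric.mem_closure_iff]
      intro ε hε
      refine ⟨s * (1 + ε / 4), ?_, ?_⟩
      · change 2 < |s * (1 + ε / 4)|
        rw [abs_mul, ← h2, abs_of_pos (by positivity)]
        linarith
      · rw [Real.dist_eq, show s - s * (1 + ε / 4) = -(s * (ε / 4)) by ring, abs_neg, abs_mul, ← h2,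
          abs_of_pos (by positivity)]
        linarith
    exact hcl.closure_subset_iff.2 (fun t ht => key t ht) hmem
  · exact key s h2

lemma th1_sq_pos : 0 < ∫ s, th1 s ^ 2 := by
  have hc : Continuous fun s => th1 s ^ 2 := th1_smooth.continuous.pow 2
  have hs : HasCompactSupport fun s => th1 s ^ 2 := by
    have h1 := th1_supp.mul_left (f := th1)
    have e : (fun s => th1 s ^ 2) = th1 * th1 := by ext s; simp [sq]
    rw [e]; exact h1
  have hne : ∃ s, th1 s ≠ 0 := by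
    by_contra h
    push Not at h
    have h1 := is_const_of_deriv_eq_zero (f := th) (fun s => (th_d s).differentiableAt)
      (fun s => h s) 0 2
    rw [th_one (by simp), th_zero (by simp)] at h1
    exact one_ne_zero h1
  obtain ⟨s, hs0⟩ := hne
  exact hc.integral_pos_of_hasCompactSupport_nonneg_nonzero hs (fun s => sq_nonneg _)
    (x := s) (pow_ne_zero 2 hs0)

/-- a common bound of the derivatives -/
lemma th_bound : ∃ B : ℝ, 1 ≤ B ∧ ∀ s, |th1 s| ≤ B ∧ |th2 s| ≤ B ∧ |th3 s| ≤ B := by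
  obtain ⟨B1, h1⟩ := th1_supp.exists_bound_of_continuous th1_smooth.continuous
  obtain ⟨B2, h2⟩ := th2_supp.exists_bound_of_continuous th2_smooth.continuous
  obtain ⟨B3, h3⟩ := th3_supp.exists_bound_of_continuous th3_smooth.continuous
  refine ⟨max 1 (max B1 (max B2 B3)), le_max_left _ _, fun s => ⟨?_, ?_, ?_⟩⟩
  · exact (h1 s).trans ((le_max_left _ _).trans (le_max_right _ _))
  · exact (h2 s).trans ((le_max_left _ _).trans ((le_max_right _ _).trans (le_max_right _ _)))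
  · exact (h3 s).trans ((le_max_right _ _).trans ((le_max_right _ _).trans (le_max_right _ _)))

variable (ε : ℝ)

/-- the tangent -/
noncomputable def q1 (s : ℝ) : ℂ := Complex.exp ((ε * th s : ℝ) * Complex.I)
/-- the curve -/
noncomputable def q0 (s : ℝ) : ℂ := ∫ t in (0:ℝ)..s, q1 ε t
noncomputable def q2 (s : ℝ) : ℂ := (ε * th1 s : ℝ) * Complex.I * q1 ε s
noncomputable def q3 (s : ℝ) : ℂ := ((ε * th2 s : ℝ) * Complex.I - (ε * th1 s : ℝ) ^ 2) * q1 ε s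
noncomputable def q4 (s : ℝ) : ℂ :=
  ((ε * th3 s : ℝ) * Complex.I - 3 * (ε * th1 s : ℝ) * (ε * th2 s : ℝ)
    - (ε * th1 s : ℝ) ^ 3 * Complex.I) * q1 ε s

lemma q1_norm (s : ℝ) : ‖q1 ε s‖ = 1 := Complex.norm_exp_ofReal_mul_I _

lemma q1_smooth : ContDiff ℝ ∞ (q1 ε) := by
  have h1 : ContDiff ℝ ∞ fun s => ((ε * th s : ℝ) : ℂ) :=
    Complex.ofRealCLM.contDiff.comp (contDiff_const.mul th_smooth)
  exact (h1.mul contDiff_const).cexp

lemma q0_d (s : ℝ) : HasDerivAt (q0 ε) (q1 ε s) s :=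
  intervalIntegral.integral_hasDerivAt_right ((q1_smooth ε).continuous.intervalIntegrable _ _)
    (q1_smooth ε).continuous.stronglyMeasurable.stronglyMeasurableAtFilter (q1_smooth ε).continuous.continuousAt

lemma q1_d (s : ℝ) : HasDerivAt (q1 ε) (q2 ε s) s := by
  have h1 : HasDerivAt (fun s => ((ε * th s : ℝ) : ℂ) * Complex.I) ((ε * th1 s : ℝ) * Complex.I) s :=
    (((th_d s).const_mul ε).ofReal_comp).mul_const Complex.I
  refine h1.cexp.congr_deriv ?_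
  rw [q2, q1]; ring

lemma q2_d (s : ℝ) : HasDerivAt (q2 ε) (q3 ε s) s := by
  have h1 : HasDerivAt (fun s => ((ε * th1 s : ℝ) : ℂ) * Complex.I) ((ε * th2 s : ℝ) * Complex.I) s :=
    (((th1_d s).const_mul ε).ofReal_comp).mul_const Complex.I
  refine (h1.fun_mul (q1_d ε s)).congr_deriv ?_
  rw [q3, q2]
  have hI := Complex.I_sq
  linear_combination ((ε * th1 s : ℝ) : ℂ) ^ 2 * q1 ε s * hI

lemma q3_d (s : ℝ) : HasDerivAt (q3 ε) (q4 ε s) s := by
  have h1 : HasDerivAt (fun s => ((ε * th2 s : ℝ) : ℂ) * Complex.I) ((ε * th3 s : ℝ) * Complex.I) s :=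
    (((th2_d s).const_mul ε).ofReal_comp).mul_const Complex.I
  have h2 : HasDerivAt (fun s => ((ε * th1 s : ℝ) : ℂ) ^ 2)
      (2 * ((ε * th1 s : ℝ) : ℂ) * ((ε * th2 s : ℝ) : ℂ)) s := by
    refine ((((th1_d s).const_mul ε).ofReal_comp).fun_pow 2).congr_deriv ?_
    push_cast; ring
  refine ((h1.fun_sub h2).fun_mul (q1_d ε s)).congr_deriv ?_
  rw [q4, q2]
  have hI := Complex.I_sq
  linear_combination ((ε * th1 s : ℝ) : ℂ) * ((ε * th2 s : ℝ) : ℂ) * q1 ε s * hI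

variable {ε}

lemma q2_norm (hε : 0 ≤ ε) (s : ℝ) : ‖q2 ε s‖ = ε * |th1 s| := by
  rw [q2, norm_mul, norm_mul, q1_norm, Complex.norm_I, Complex.norm_real, Real.norm_eq_abs, abs_mul,
    abs_of_nonneg hε]
  ring

lemma q_re (s t : ℝ) (hε : 0 ≤ ε) (hε1 : ε ≤ 1) (hst : t ≤ s) :
    1 / 2 * (s - t) ≤ (q0 ε s - q0 ε t).re := by
  have hre : ∀ x, HasDerivAt (fun x => (q0 ε x).re - 1 / 2 * x) (Real.cos (ε * th x) - 1 / 2) x := by
    intro x
    have h1 : HasDerivAt (fun x => (q0 ε x).re) (q1 ε x).re x :=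
      Complex.reCLM.hasFDerivAt.comp_hasDerivAt x (q0_d ε x)
    have h2 : (q1 ε x).re = Real.cos (ε * th x) := Complex.exp_ofReal_mul_I_re _
    rw [h2] at h1
    refine (h1.fun_sub ((hasDerivAt_id x).const_mul (1 / 2))).congr_deriv ?_
    ring
  have hmono : Monotone (fun x => (q0 ε x).re - 1 / 2 * x) := by
    refine monotone_of_deriv_nonneg (fun x => (hre x).differentiableAt) fun x => ?_
    rw [(hre x).deriv]
    have h1 := Real.one_sub_sq_div_two_le_cos (x := ε * th x)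
    have h2 : (ε * th x) ^ 2 ≤ 1 := by
      rw [← sq_abs, abs_mul, abs_of_nonneg hε]
      have h3 : ε * |th x| ≤ 1 * 1 := mul_le_mul hε1 (th_abs x) (abs_nonneg _) zero_le_one
      have h4 : 0 ≤ ε * |th x| := by positivity
      nlinarith
    linarith
  have := hmono hst
  simp only at this
  rw [Complex.sub_re]
  linarith

lemma q_chord (hε : 0 ≤ ε) (hε1 : ε ≤ 1) (s t : ℝ) : 1 / 2 * |s - t| ≤ ‖q0 ε s - q0 ε t‖ := by
  rcases le_total t s with h | h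
  · rw [abs_of_nonneg (by linarith)]
    exact (q_re s t hε hε1 h).trans (Complex.re_le_norm _)
  · rw [abs_of_nonpos (by linarith), norm_sub_rev]
    have := (q_re t s hε hε1 h).trans (Complex.re_le_norm _)
    linarith

lemma q_data (hε : 0 ≤ ε) (hε1 : ε ≤ 1) {B : ℝ} (hB1 : 1 ≤ B)
    (hB : ∀ s, |th1 s| ≤ B ∧ |th2 s| ≤ B ∧ |th3 s| ≤ B) :
    Data (q0 ε) (q1 ε) (q2 ε) (q3 ε) (q4 ε) 2 (1 / 2) (ε * (5 * B ^ 3)) := by
  have hB2 : B ≤ B ^ 2 := by nlinarith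
  have hB3 : B ^ 2 ≤ B ^ 3 := by nlinarith [sq_nonneg B]
  have a1 : ∀ s, ‖((ε * th1 s : ℝ) : ℂ)‖ ≤ ε * B := fun s => by
    rw [Complex.norm_real, Real.norm_eq_abs, abs_mul, abs_of_nonneg hε]
    exact mul_le_mul_of_nonneg_left (hB s).1 hε
  have a2 : ∀ s, ‖((ε * th2 s : ℝ) : ℂ)‖ ≤ ε * B := fun s => by
    rw [Complex.norm_real, Real.norm_eq_abs, abs_mul, abs_of_nonneg hε]
    exact mul_le_mul_of_nonneg_left (hB s).2.1 hε
  have a3 : ∀ s, ‖((ε * th3 s : ℝ) : ℂ)‖ ≤ ε * B := fun s => by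
    rw [Complex.norm_real, Real.norm_eq_abs, abs_mul, abs_of_nonneg hε]
    exact mul_le_mul_of_nonneg_left (hB s).2.2 hε
  have hεB : 0 ≤ ε * B := by positivity
  have e2 : ε ^ 2 ≤ ε := by nlinarith
  have e3 : ε ^ 3 ≤ ε := by nlinarith [sq_nonneg ε]
  have m1 : (ε * B) ^ 2 ≤ ε * B ^ 2 := by
    rw [mul_pow]; exact mul_le_mul_of_nonneg_right e2 (by positivity)
  have m2 : (ε * B) ^ 3 ≤ ε * B ^ 3 := by
    rw [mul_pow]; exact mul_le_mul_of_nonneg_right e3 (by positivity)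
  have n1 : ε * B ≤ ε * B ^ 3 := mul_le_mul_of_nonneg_left (hB2.trans hB3) hε
  have n2 : ε * B ^ 2 ≤ ε * B ^ 3 := mul_le_mul_of_nonneg_left hB3 hε
  exact {
    d0 := q0_d ε
    d1 := q1_d ε
    d2 := q2_d ε
    d3 := q3_d ε
    unit := q1_norm ε
    b2 := fun s => by
      rw [q2_norm hε]
      have := mul_le_mul_of_nonneg_left (hB s).1 hε
      nlinarith
    b3 := fun s => by
      rw [q3, norm_mul, q1_norm, mul_one]
      refine (norm_sub_le _ _).trans ?_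
      rw [norm_mul, Complex.norm_I, mul_one, norm_pow]
      have h1 := a2 s
      have h2 := pow_le_pow_left₀ (norm_nonneg _) (a1 s) 2
      nlinarith
    b4 := fun s => by
      rw [q4, norm_mul, q1_norm, mul_one]
      refine (norm_sub_le _ _).trans ((add_le_add (norm_sub_le _ _) le_rfl).trans ?_)
      rw [norm_mul, norm_mul, norm_mul, norm_mul, Complex.norm_I, mul_one, mul_one, norm_pow]
      have h0 : ‖(3:ℂ)‖ = 3 := by norm_num
      rw [h0]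
      have h1 := a3 s
      have h2 : ‖((ε * th1 s : ℝ) : ℂ)‖ * ‖((ε * th2 s : ℝ) : ℂ)‖ ≤ (ε * B) * (ε * B) :=
        mul_le_mul (a1 s) (a2 s) (norm_nonneg _) hεB
      have h3 := pow_le_pow_left₀ (norm_nonneg _) (a1 s) 3
      nlinarith
    supp := fun s hs => by rw [q2, th1_zero hs]; simp
    hR := by norm_num
    hc := by norm_num
    chord := q_chord hε hε1 }

lemma q_curve (hε : 0 ≤ ε) (hε1 : ε ≤ 1) : IsLeakyCurve (q0 ε) (-1) 1 := by
  have hd : deriv (q0 ε) = q1 ε := funext fun s => (q0_d ε s).deriv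
  have h0 : ContDiff ℝ ∞ (q0 ε) :=
    contDiff_infty_iff_deriv.2 ⟨fun s => (q0_d ε s).differentiableAt, by rw [hd]; exact q1_smooth ε⟩
  obtain ⟨B, hB1, hB⟩ := th_bound
  have D := q_data hε hε1 hB1 hB
  refine ⟨h0.of_le (by norm_cast), fun s => ?_, fun s t hst => ?_, 2, by norm_num, fun s hs => ?_,
    fun s hs => ?_⟩
  · rw [hd]; exact q1_norm ε s
  · have := q_chord hε hε1 s t
    rw [hst, sub_self, norm_zero] at this
    have h1 : |s - t| = 0 := le_antisymm (by linarith) (abs_nonneg _)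
    exact sub_eq_zero.1 (abs_eq_zero.1 h1)
  · have := D.γ_left hs
    rw [this]
    have h1 : q1 ε (-2) = 1 := by rw [q1, th_zero (by simp)]; simp
    rw [h1]; push_cast; ring
  · have := D.γ_right hs
    rw [this]
    have h1 : q1 ε 2 = 1 := by rw [q1, th_zero (by simp)]; simp
    rw [h1]

end family

lemma CT_nonneg {γ g1 g2 g3 g4 : ℝ → ℂ} {R c K : ℝ} (D : Data γ g1 g2 g3 g4 R c K) {p : ℝ}
    (hp : 0 < p) : 0 ≤ CT c R p := by
  have hR := D.hR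
  have hc := D.hc
  have hC0 := D.C0_nonneg
  have hCw := D.Cw_nonneg p
  have hkap : 0 ≤ kap p := by unfold kap; positivity
  have hBw : 0 ≤ Bw c R p := by unfold Bw; positivity
  have hBφ : 0 ≤ Bφ R p := by unfold Bφ; positivity
  have hBb : 0 ≤ Bb c R p := by unfold Bb; positivity
  have hCQ : 0 ≤ CQ c R := by unfold CQ; positivity
  unfold CT; positivity

theorem main2 {k : ℝ} (hk : k ≠ 0) :
    ∃ (γ : ℝ → ℂ) (u v : ℂ), IsLeakyCurve γ u v ∧ u ≠ v ∧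
      ∃ S : Matrix (Fin 2) (Fin 2) ℂ, IsComparisonSMatrix (curvature γ) (k ^ 2) S ∧
        ∃ b α₀ : ℝ, 0 < b ∧ 0 < α₀ ∧ ∀ α : ℝ, α₀ ≤ α →
          ∃ Sα : Matrix (Fin 2) (Fin 2) ℂ, IsLeakySMatrix γ α (k ^ 2 - α ^ 2 / 4) Sα ∧
            b / α ^ 2 ≤ ‖Sα 1 0 - S 1 0‖ := by
  set p := |k| with hp'
  have hp : 0 < p := abs_pos.2 hk
  have hk2 : k ^ 2 = p ^ 2 := by rw [hp', sq_abs]
  rw [hk2]
  obtain ⟨B, hB1, hB⟩ := th_bound
  have hN1 := th1_sq_pos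
  set N₁ := ∫ s, th1 s ^ 2 with hN₁
  set K₁ := 5 * B ^ 3 with hK₁
  have hK₁0 : 0 < K₁ := by positivity
  have hCT : 0 ≤ CT (1 / 2) 2 p := CT_nonneg (q_data (ε := 0) le_rfl zero_le_one hB1 hB) hp
  -- choice of the bending parameter
  set ε := min 1 (min (1 / (K₁ + 1)) (min (p / (K₁ ^ 2 + 1))
    (N₁ * p ^ 2 / (2 * (CT (1 / 2) 2 p * K₁ ^ 4 + 1))))) with hε
  have hε0 : 0 < ε := by
    refine lt_min one_pos (lt_min (by positivity) (lt_min (by positivity) (by positivity)))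
  have hε1 : ε ≤ 1 := min_le_left _ _
  have hε2 : ε * (K₁ + 1) ≤ 1 := by
    have : ε ≤ 1 / (K₁ + 1) := (min_le_right _ _).trans (min_le_left _ _)
    rwa [le_div_iff₀ (by positivity)] at this
  have hε3 : ε * (K₁ ^ 2 + 1) ≤ p := by
    have : ε ≤ p / (K₁ ^ 2 + 1) :=
      (min_le_right _ _).trans ((min_le_right _ _).trans (min_le_left _ _))
    rwa [le_div_iff₀ (by positivity)] at this
  have hε4 : ε * (2 * (CT (1 / 2) 2 p * K₁ ^ 4 + 1)) ≤ N₁ * p ^ 2 := by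
    have : ε ≤ N₁ * p ^ 2 / (2 * (CT (1 / 2) 2 p * K₁ ^ 4 + 1)) :=
      (min_le_right _ _).trans ((min_le_right _ _).trans (min_le_right _ _))
    rwa [le_div_iff₀ (by positivity)] at this
  have D := q_data hε0.le hε1 hB1 hB
  have hV : ∀ s, curvature (q0 ε) s ^ 2 / 4 = Vc (q2 ε) s := fun s => by
    rw [curvature_sq D.d0 D.d1 D.unit, Vc]
  obtain ⟨S, hS, hS'⟩ := D.pot.comp_matrix hV hp
  have hNε : ∫ x, ‖q2 ε x‖ ^ 2 = ε ^ 2 * N₁ := by
    rw [hN₁, ← integral_const_mul]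
    congr 1; ext s
    rw [q2_norm hε0.le, mul_pow, sq_abs]
  have hK : ε * K₁ ≤ 1 := by nlinarith
  have hεε : ε ^ 2 ≤ ε := by nlinarith
  have hRK : 2 * (ε * K₁) ^ 2 ≤ 2 * p := by
    have h1 : (ε * K₁) ^ 2 ≤ ε * K₁ ^ 2 := by
      rw [mul_pow]; exact mul_le_mul_of_nonneg_right hεε (by positivity)
    nlinarith
  have hCTK : CT (1 / 2) 2 p * (ε * K₁) ^ 4 ≤ 1 / 2 * (∫ x, ‖q2 ε x‖ ^ 2) * p ^ 2 := by
    rw [hNε]
    have h1 : CT (1 / 2) 2 p * (ε * K₁) ^ 4 = ε ^ 2 * (ε ^ 2 * (CT (1 / 2) 2 p * K₁ ^ 4)) := by ring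
    have h2 : ε ^ 2 * (CT (1 / 2) 2 p * K₁ ^ 4) ≤ ε * (CT (1 / 2) 2 p * K₁ ^ 4) :=
      mul_le_mul_of_nonneg_right hεε (by positivity)
    have h3 : ε * (CT (1 / 2) 2 p * K₁ ^ 4) ≤ 1 / 2 * (N₁ * p ^ 2) := by nlinarith
    rw [h1]
    calc ε ^ 2 * (ε ^ 2 * (CT (1 / 2) 2 p * K₁ ^ 4)) ≤ ε ^ 2 * (1 / 2 * (N₁ * p ^ 2)) :=
          mul_le_mul_of_nonneg_left (h2.trans h3) (by positivity)
      _ = _ := by ring
  have hCK := D.CK_nonneg hp.ne'
  refine ⟨q0 ε, -1, 1, q_curve hε0.le hε1, by norm_num, S, hS, ε ^ 2 * N₁ * p,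
    2 * (1 + 11 * p + 12 / (1 / 2) + 4 * CK (1 / 2) 2 p (ε * K₁)), by positivity, by positivity,
    fun α hα => ?_⟩
  have q1 : (0:ℝ) ≤ 12 / (1 / 2) := by norm_num
  obtain ⟨Sα, h1, h2⟩ := D.sharp hp hK hRK hCTK hS' (a := α / 2) (by linarith) (by linarith)
    (by linarith) (by linarith)
  have e : 2 * (α / 2) = α := by ring
  rw [e] at h1
  refine ⟨Sα, h1, (le_of_eq ?_).trans h2⟩
  have hα0 : 0 < α := by linarith
  rw [hNε]
  field_simp
  ring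

end Pool.Agent.Helper97.Scat
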