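import Pool.Agent.Helper97.Scat.Leaky

/-!
# Leads pointing in the same direction: no generalized eigenfunctions asymptotic to guided waves
-/

open MeasureTheory Filter Topology Set Real
open scoped ContDiff

namespace Pool.Agent.Helper97.Scat

lemma ushape_right {γ : ℝ → ℂ} {v : ℂ} {R c a m k M : ℝ} (hR : 0 ≤ R) (hv : ‖v‖ = 1)
    (hγ : Continuous γ) (harc : ∀ s t, ‖γ s - γ t‖ ≤ |s - t|)
    (hleft : ∀ s, s ≤ -R → γ s = γ (-R) + ((-R - s : ℝ) : ℂ) * v)
    (hright : ∀ s, R ≤ s → γ s = γ R + ((s - R : ℝ) : ℂ) * v)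
    (hc : 0 < c) (hN : Near γ c) (hm : 0 < m) (ha : 0 < a) (hmk : m ^ 2 + k ^ 2 = a ^ 2) (hk : k ≠ 0)
    {f : ℝ → ℂ} (hf : CB M f) (hfe : ∀ s, f s = ((2 * a : ℝ) : ℂ) * lay m γ f (γ s))
    {c₁ c₂ d₁ d₂ : ℂ}
    (ht : Tendsto (fun s => f s - (c₁ * ex k s + c₂ * ex (-k) s)) atTop (𝓝 0))
    (hb : Tendsto (fun s => f s - (d₁ * ex k s + d₂ * ex (-k) s)) atBot (𝓝 0)) :
    d₁ = 0 ∧ d₂ = 0 := by
  have hf' : CB M (fun s => f (-s)) := ⟨hf.1.comp continuous_neg, fun s => hf.2 _⟩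
  have hb' : Tendsto (fun s => f (-s) - (d₂ * ex k s + d₁ * ex (-k) s)) atTop (𝓝 0) := by
    refine (hb.comp tendsto_neg_atTop_atBot).congr fun s => ?_
    simp only [Function.comp, ex_neg, neg_neg]
    ring
  set ζ : ℂ := (γ R - γ (-R)) * (starRingEnd ℂ) v with hζ
  have hvv : (starRingEnd ℂ) v * v = 1 := by
    rw [mul_comm, Complex.mul_conj, Complex.normSq_eq_norm_sq, hv]; simp
  have hζv : γ R - γ (-R) = ζ * v := by rw [hζ, mul_assoc, hvv, mul_one]
  have key : Tendsto (fun s => (Real.exp (-(a * |ζ.im|)) : ℂ)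
      * (d₂ * ex k (s + ζ.re) + d₁ * ex (-k) (s + ζ.re))) atTop (𝓝 0) := by
    rw [Metric.tendsto_nhds]
    intro ε hε
    have hε5 : 0 < ε / 5 := by positivity
    have h1 := half_line hm ha hmk hf ht R hε5
    have h3 := (half_line hm ha hmk hf' hb' R hε5)
    have h3' := (add_top ζ.re).eventually h3
    have h2 := far_small (κ := 1 / 2) hm (by norm_num) γ (measurableSet_Ioc (a := -R) (b := R))
      (fun x hx => hx.2) hf (show 0 < ε / 5 / (2 * a) by positivity)
    have h4 : ∀ᶠ s in atTop, ‖f s - (c₁ * ex k s + c₂ * ex (-k) s)‖ < ε / 5 := by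
      have := ht.norm
      rw [norm_zero] at this
      exact (tendsto_order.1 this).2 _ hε5
    filter_upwards [h1, h2, h3', h4, Ici_mem_atTop (7 * R)] with s hs1 hs2 hs3 hs4 hs5
    simp only [mem_Ici] at hs5
    have hsR : R ≤ s := by linarith
    have hi := lay_integrable hm hc hγ hN hf.1.aestronglyMeasurable hf.2 (γ s)
    set F : ℝ → ℂ := fun σ => (gk m (‖γ s - γ σ‖ ^ 2) : ℂ) * f σ with hF
    have e1 : lay m γ f (γ s) = ((∫ σ in Iic (-R), F σ) + ∫ σ in Ioc (-R) R, F σ) + ∫ σ in Ioi R, F σ := by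
      have e2 : lay m γ f (γ s) = (∫ σ in Iic R, F σ) + ∫ σ in Ioi R, F σ :=
        (intervalIntegral.integral_Iic_add_Ioi hi.integrableOn hi.integrableOn).symm
      have e3 : ∫ σ in Iic R, F σ = (∫ σ in Iic (-R), F σ) + ∫ σ in Ioc (-R) R, F σ := by
        rw [← Iic_union_Ioc_eq_Iic (show -R ≤ R by linarith),
          setIntegral_union (Iic_disjoint_Ioc le_rfl) measurableSet_Ioc hi.integrableOn hi.integrableOn]
      rw [e2, e3]
    have e4 : ∫ σ in Ioi R, F σ = ∫ σ in Ioi R, (gk m ((s - σ) ^ 2 + 0 ^ 2) : ℂ) * f σ := by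
      refine setIntegral_congr_fun measurableSet_Ioi fun σ hσ => ?_
      simp only [mem_Ioi] at hσ
      have e5 : γ s - γ σ = ((s - σ : ℝ) : ℂ) * v := by
        rw [hright s hsR, hright σ hσ.le]; push_cast; ring
      rw [hF]
      simp only
      rw [e5, norm_mul, hv, mul_one, Complex.norm_real, Real.norm_eq_abs, sq_abs]
      simp
    have e6 : ∫ σ in Iic (-R), F σ
        = ∫ σ in Ioi R, (gk m ((s + ζ.re - σ) ^ 2 + ζ.im ^ 2) : ℂ) * f (-σ) := by
      rw [← integral_comp_neg_Ioi]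
      refine setIntegral_congr_fun measurableSet_Ioi fun σ hσ => ?_
      simp only [mem_Ioi] at hσ
      have e5 : γ s - γ (-σ) = (((s + ζ.re - σ : ℝ) : ℂ) + ζ.im * Complex.I) * v := by
        have e7 : γ s - γ (-σ) = (γ R - γ (-R)) + ((s - σ : ℝ) : ℂ) * v := by
          rw [hright s hsR, hleft (-σ) (by linarith)]; push_cast; ring
        rw [e7, hζv]
        nth_rewrite 1 [← Complex.re_add_im ζ]
        push_cast; ring
      rw [hF]
      simp only
      rw [e5, norm_mul, hv, mul_one, ← Complex.normSq_eq_norm_sq, Complex.normSq_add_mul_I]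
    have h6 : ∀ σ ∈ Ioc (-R) R, 1 / 2 * (s - σ) ≤ ‖γ s - γ σ‖ := by
      intro σ hσ
      have h7 : ‖γ s - γ R‖ = s - R := by
        rw [hright s hsR, add_sub_cancel_left, norm_mul, hv, mul_one, Complex.norm_real,
          Real.norm_of_nonneg (by linarith)]
      have h8 := harc R σ
      rw [abs_of_nonneg (by linarith [hσ.2])] at h8
      have h9 : ‖γ s - γ R‖ ≤ ‖γ s - γ σ‖ + ‖γ R - γ σ‖ := by
        have := norm_sub_le (γ s - γ σ) (γ R - γ σ)
        rwa [sub_sub_sub_cancel_right] at this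
      have := hσ.1
      linarith
    have h7 := hs2 (γ s) h6
    have h8 := hs1 0
    have h9 := hs3 ζ.im
    have h10 := hfe s
    rw [e1, e4, e6] at h10
    simp only [abs_zero, mul_zero, neg_zero, Real.exp_zero, Complex.ofReal_one, one_mul] at h8
    rw [dist_zero_right]
    have e8 : (Real.exp (-(a * |ζ.im|)) : ℂ) * (d₂ * ex k (s + ζ.re) + d₁ * ex (-k) (s + ζ.re))
        = (f s - (c₁ * ex k s + c₂ * ex (-k) s))
          - (((2 * a : ℝ) : ℂ) * (∫ σ in Ioi R, (gk m ((s - σ) ^ 2 + 0 ^ 2) : ℂ) * f σ)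
            - (c₁ * ex k s + c₂ * ex (-k) s))
          - (((2 * a : ℝ) : ℂ) * (∫ σ in Ioi R, (gk m ((s + ζ.re - σ) ^ 2 + ζ.im ^ 2) : ℂ) * f (-σ))
            - (Real.exp (-(a * |ζ.im|)) : ℂ) * (d₂ * ex k (s + ζ.re) + d₁ * ex (-k) (s + ζ.re)))
          - ((2 * a : ℝ) : ℂ) * ∫ σ in Ioc (-R) R, F σ := by
      linear_combination -h10
    have h11 : ‖((2 * a : ℝ) : ℂ) * ∫ σ in Ioc (-R) R, F σ‖ ≤ ε / 5 := by
      rw [norm_mul, Complex.norm_real, Real.norm_of_nonneg (by positivity)]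
      calc 2 * a * _ ≤ 2 * a * (ε / 5 / (2 * a)) := mul_le_mul_of_nonneg_left h7 (by positivity)
        _ = ε / 5 := by field_simp
    rw [e8]
    refine lt_of_le_of_lt ((norm_sub_le _ _).trans (add_le_add ((norm_sub_le _ _).trans
      (add_le_add (norm_sub_le _ _) le_rfl)) le_rfl)) ?_
    calc _ < ε / 5 + ε / 5 + ε / 5 + ε / 5 := add_lt_add_of_lt_of_le (add_lt_add_of_lt_of_le
          (add_lt_add_of_lt_of_le hs4 h8) h9) h11
      _ ≤ ε := by linarith
  have key2 : Tendsto (fun s => (d₂ * ex k ζ.re) * ex k s + (d₁ * ex (-k) ζ.re) * ex (-k) s)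
      atTop (𝓝 0) := by
    have hne : (Real.exp (-(a * |ζ.im|)) : ℂ) ≠ 0 := by
      exact_mod_cast (Real.exp_pos _).ne'
    have := key.const_mul (Real.exp (-(a * |ζ.im|)) : ℂ)⁻¹
    rw [mul_zero] at this
    refine this.congr fun s => ?_
    rw [← mul_assoc, inv_mul_cancel₀ hne, one_mul, ex_add, ex_add]
    ring
  obtain ⟨h1, h2⟩ := waves_zero hk add_top key2
  have hne : ∀ j r : ℝ, ex j r ≠ 0 := fun j r => by
    intro h0
    have := norm_ex j r
    rw [h0, norm_zero] at this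
    norm_num at this
  exact ⟨(mul_eq_zero.1 h2).resolve_right (hne _ _), (mul_eq_zero.1 h1).resolve_right (hne _ _)⟩

namespace Pre
variable {γ g1 g2 g3 g4 : ℝ → ℂ} {u v : ℂ} {R K : ℝ}

lemma ushape (P : Pre γ g1 g2 g3 g4 u u R K) {α p : ℝ} (hp : 0 < p) (hα : 2 * p < α) {ψ : ℂ → ℂ}
    {A B : Fin 2 → ℂ} (hs : IsScatteringSolution γ α (p ^ 2 - α ^ 2 / 4) ψ A B) : A = 0 ∧ B = 0 := by
  obtain ⟨c, hc, hN⟩ := P.near
  set a := α / 2 with ha'
  have hαa : α = 2 * a := by rw [ha']; ring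
  have ha : 0 < a := by rw [ha']; linarith
  have hpa : p < a := by rw [ha']; linarith
  set m := √(a ^ 2 - p ^ 2) with hm'
  have hpos : 0 < a ^ 2 - p ^ 2 := by nlinarith
  have hm : 0 < m := Real.sqrt_pos.2 hpos
  have hmk : m ^ 2 + p ^ 2 = a ^ 2 := by rw [hm', Real.sq_sqrt hpos.le]; ring
  rw [hαa] at hs
  obtain ⟨M, hM⟩ := hs.bounded
  set f₀ : ℝ → ℂ := fun s => ψ (γ s) with hf₀
  have hf₀c : CB M f₀ := ⟨hs.continuous.comp P.continuous, fun s => hM _⟩
  have hrep := representation hm hc P.continuous hN hs.continuous hM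
    (α := 2 * a) (fun φ hφ => (weak_iff hmk hs.continuous hM γ hφ).1 (hs.weak φ hφ.smooth hφ.supp))
  have hfe : ∀ s, f₀ s = ((2 * a : ℝ) : ℂ) * lay m γ f₀ (γ s) := fun s => hrep (γ s)
  have hsa : 0 < √a := Real.sqrt_pos.2 ha
  have hsa' : ((√a : ℝ) : ℂ) ≠ 0 := by exact_mod_cast hsa.ne'
  have hl : Tendsto (fun s => f₀ s - ((√a * A 0) * ex p s + (√a * B 0) * ex (-p) s)) atBot (𝓝 0) := by
    rw [Metric.tendsto_nhds]
    intro ε hε
    filter_upwards [hs.left 0 (ε / 2) (by positivity)] with s hs'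
    have := hs' 0 (by simp)
    rw [momentum_eq hp, leftWave_eq, profile_eq] at this
    simp only [Complex.ofReal_zero, zero_mul, add_zero, abs_zero, mul_zero, neg_zero, Real.exp_zero,
      mul_one] at this
    rw [dist_zero_right]
    refine lt_of_le_of_lt (le_of_eq ?_) (lt_of_le_of_lt this (by linarith))
    congr 1; ring
  have hr : Tendsto (fun s => f₀ s - ((√a * B 1) * ex p s + (√a * A 1) * ex (-p) s)) atTop (𝓝 0) := by
    rw [Metric.tendsto_nhds]
    intro ε hε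
    filter_upwards [hs.right 0 (ε / 2) (by positivity)] with s hs'
    have := hs' 0 (by simp)
    rw [momentum_eq hp, rightWave_eq, profile_eq] at this
    simp only [Complex.ofReal_zero, zero_mul, add_zero, abs_zero, mul_zero, neg_zero, Real.exp_zero,
      mul_one] at this
    rw [dist_zero_right]
    refine lt_of_le_of_lt (le_of_eq ?_) (lt_of_le_of_lt this (by linarith))
    congr 1; ring
  obtain ⟨h1, h2⟩ := ushape_right P.hR P.hu P.continuous (arc_le' P.d0 P.unit) P.left P.right hc hN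
    hm ha hmk hp.ne' hf₀c hfe hr hl
  -- the reversed curve
  have P' := P.rev
  obtain ⟨c', hc', hN'⟩ := P'.near
  have hf' : CB M (fun s => f₀ (-s)) := ⟨hf₀c.1.comp continuous_neg, fun s => hf₀c.2 _⟩
  have hfe' : ∀ s, f₀ (-s) = ((2 * a : ℝ) : ℂ) * lay m (fun s => γ (-s)) (fun s => f₀ (-s)) (γ (-s)) :=
    fun s => by rw [lay_rev]; exact hfe (-s)
  have hl' : Tendsto (fun s => f₀ (-s) - ((√a * B 0) * ex p s + (√a * A 0) * ex (-p) s)) atTop (𝓝 0) := by
    refine (hl.comp tendsto_neg_atTop_atBot).congr fun s => ?_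
    simp only [Function.comp, ex_neg, neg_neg]
    ring
  have hr' : Tendsto (fun s => f₀ (-s) - ((√a * A 1) * ex p s + (√a * B 1) * ex (-p) s)) atBot (𝓝 0) := by
    refine (hr.comp tendsto_neg_atBot_atTop).congr fun s => ?_
    simp only [Function.comp, ex_neg, neg_neg]
    ring
  obtain ⟨h3, h4⟩ := ushape_right P'.hR P'.hu P'.continuous (arc_le' P'.d0 P'.unit) P'.left P'.right
    hc' hN' hm ha hmk hp.ne' hf' hfe' hl' hr'
  constructor
  · ext i
    fin_cases i
    · exact (mul_eq_zero.1 h1).resolve_left hsa'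
    · exact (mul_eq_zero.1 h3).resolve_left hsa'
  · ext i
    fin_cases i
    · exact (mul_eq_zero.1 h2).resolve_left hsa'
    · exact (mul_eq_zero.1 h4).resolve_left hsa'

end Pre

end Pool.Agent.Helper97.Scat
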