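import Pool.Agent.Helper97.Scat.Mom

/-!
# Weak convergence of the bending kernel to the curvature potential
-/

open MeasureTheory Filter Topology Set Real

namespace Pool.Agent.Helper97.Scat

lemma mp_shear : MeasurePreserving (fun z : ℝ × ℝ => (z.1, z.1 - z.2))
    ((volume : Measure ℝ).prod volume) ((volume : Measure ℝ).prod volume) :=
  (MeasurePreserving.id (volume : Measure ℝ)).skew_product (g := fun x y => x - y)
    (measurable_fst.sub measurable_snd)
    (Eventually.of_forall fun s => (Measure.measurePreserving_sub_left volume s).map_eq)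

lemma shear_integrable {G : ℝ → ℝ → ℂ}
    (hG : Integrable (Function.uncurry G) ((volume : Measure ℝ).prod volume)) :
    Integrable (fun z : ℝ × ℝ => G z.1 (z.1 - z.2)) ((volume : Measure ℝ).prod volume) :=
  mp_shear.integrable_comp_of_integrable hG

lemma shear_swap {G : ℝ → ℝ → ℂ}
    (hG : Integrable (Function.uncurry G) ((volume : Measure ℝ).prod volume)) (θ : ℝ) :
    ∫ s, ∫ t, G s t = ∫ r, ∫ x, G (x + θ * r) (x + θ * r - r) := by
  have h1 : ∫ s, ∫ t, G s t = ∫ s, ∫ r, G s (s - r) := by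
    congr 1; ext s
    rw [integral_sub_left_eq_self (fun t => G s t) _ s]
  rw [h1, integral_integral_swap (shear_integrable hG)]
  congr 1; ext r
  rw [integral_add_right_eq_self (fun s => G s (s - r)) (θ * r)]

lemma integral_lin3 {f g h : ℝ → ℂ} (hf : Integrable f) (hg : Integrable g) (hh : Integrable h)
    (a b c : ℂ) : ∫ x, (a * f x + b * g x - c * h x) = a * (∫ x, f x) + b * (∫ x, g x) - c * ∫ x, h x := by
  have i1 : Integrable (fun x => a * f x + b * g x) := (hf.const_mul a).add (hg.const_mul b)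
  rw [integral_sub i1 (hh.const_mul c), integral_add (hf.const_mul a) (hg.const_mul b),
    integral_const_mul, integral_const_mul, integral_const_mul]

section weight
variable {m c R : ℝ}

lemma base_integrable (hm : 0 < m) (hc : 0 < c) :
    Integrable (fun p : ℝ × ℝ => Real.exp (-|p.1|) * Jm m c (p.1 - p.2))
      ((volume : Measure ℝ).prod volume) := by
  have h1 : Integrable (fun s : ℝ => Real.exp (-|s|)) := by
    have := integrable_exp_abs one_pos 0
    simpa using this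
  have h2 := Integrable.mul_prod h1 (Jm_integrable hm hc)
  exact mp_shear.integrable_comp_of_integrable h2

lemma integral_exp_neg_abs : ∫ s : ℝ, Real.exp (-|s|) = 2 := by
  have := integral_exp_abs one_pos 0
  simpa using this

lemma base_integral (hm : 0 < m) (hc : 0 < c) :
    ∫ p : ℝ × ℝ, Real.exp (-|p.1|) * Jm m c (p.1 - p.2) ∂((volume : Measure ℝ).prod volume)
      = 4 / (m * c) := by
  rw [integral_prod _ (base_integrable hm hc)]
  simp only
  have : ∀ s : ℝ, ∫ t : ℝ, Real.exp (-|s|) * Jm m c (s - t) = Real.exp (-|s|) * (2 / (m * c)) := by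
    intro s
    rw [integral_const_mul, integral_sub_left_eq_self (fun t => Jm m c t) _ s, Jm_integral hm hc]
  simp only [this]
  rw [integral_mul_const, integral_exp_neg_abs]
  ring

lemma Wt_le (m c R s t : ℝ) :
    Wt m c R s t ≤ Real.exp (2 * R) * (Real.exp (-|s|) * Jm m c (s - t)) := by
  have h1 : Real.exp (-|t|) ≤ 1 := Real.exp_le_one_iff.2 (by simp)
  have h2 := Jm_nonneg m c (s - t)
  have h3 := Real.exp_pos (2 * R)
  have h4 := Real.exp_pos (-|s|)
  rw [Wt]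
  calc Real.exp (2 * R) * Real.exp (-|s|) * Real.exp (-|t|) * Jm m c (s - t)
      ≤ Real.exp (2 * R) * Real.exp (-|s|) * 1 * Jm m c (s - t) := by gcongr
    _ = _ := by ring

lemma Wt_symm (m c R s t : ℝ) : Wt m c R s t = Wt m c R t s := by
  rw [Wt, Wt, show s - t = -(t - s) by ring, Jm_even]; ring

/-- a kernel dominated by the weight -/
def Dom (m c R C : ℝ) (κ : ℝ → ℝ → ℝ) : Prop :=
  Measurable (fun p : ℝ × ℝ => κ p.1 p.2) ∧ ∀ s t, |κ s t| ≤ C * Wt m c R s t

section dom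
variable {C M : ℝ} {κ : ℝ → ℝ → ℝ}

lemma Dom.C_nonneg (h : Dom m c R C κ) (hW : ∃ s t, 0 < Wt m c R s t) : 0 ≤ C := by
  obtain ⟨s, t, hst⟩ := hW
  have := (abs_nonneg _).trans (h.2 s t)
  by_contra hC
  push Not at hC
  nlinarith

lemma Dom.integrable (h : Dom m c R C κ) (hC : 0 ≤ C) (hm : 0 < m) (hc : 0 < c) {F : ℝ → ℝ → ℂ}
    (hF : AEStronglyMeasurable (Function.uncurry F) ((volume : Measure ℝ).prod volume))
    (hM : ∀ s t, ‖F s t‖ ≤ M) :
    Integrable (Function.uncurry fun s t => (κ s t : ℂ) * F s t)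
      ((volume : Measure ℝ).prod volume) := by
  have hM0 : 0 ≤ M := (norm_nonneg _).trans (hM 0 0)
  have hb := ((base_integrable hm hc).const_mul (Real.exp (2 * R))).const_mul (C * M)
  refine Integrable.mono' hb ?_ (Eventually.of_forall fun p => ?_)
  · exact (Complex.measurable_ofReal.comp h.1).aestronglyMeasurable.mul hF
  · simp only [Function.uncurry]
    rw [norm_mul, Complex.norm_real, Real.norm_eq_abs]
    calc |κ p.1 p.2| * ‖F p.1 p.2‖ ≤ (C * Wt m c R p.1 p.2) * M :=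
          mul_le_mul (h.2 _ _) (hM _ _) (norm_nonneg _) (mul_nonneg hC (Wt_nonneg _ _ _ _ _))
      _ ≤ (C * (Real.exp (2 * R) * (Real.exp (-|p.1|) * Jm m c (p.1 - p.2)))) * M := by
          have := Wt_le m c R p.1 p.2
          gcongr
      _ = _ := by ring

lemma Dom.bound (h : Dom m c R C κ) (hC : 0 ≤ C) (hm : 0 < m) (hc : 0 < c) {F : ℝ → ℝ → ℂ}
    (hF : AEStronglyMeasurable (Function.uncurry F) ((volume : Measure ℝ).prod volume))
    (hM : ∀ s t, ‖F s t‖ ≤ M) :
    ‖∫ s, ∫ t, (κ s t : ℂ) * F s t‖ ≤ C * M * (4 * Real.exp (2 * R) / (m * c)) := by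
  have hI := h.integrable hC hm hc hF hM
  have hM0 : 0 ≤ M := (norm_nonneg _).trans (hM 0 0)
  have e : ∫ s, ∫ t, (κ s t : ℂ) * F s t
      = ∫ p : ℝ × ℝ, (κ p.1 p.2 : ℂ) * F p.1 p.2 ∂((volume : Measure ℝ).prod volume) :=
    (integral_prod _ hI).symm
  rw [e]
  have hb := ((base_integrable hm hc).const_mul (Real.exp (2 * R))).const_mul (C * M)
  calc ‖∫ p : ℝ × ℝ, (κ p.1 p.2 : ℂ) * F p.1 p.2 ∂((volume : Measure ℝ).prod volume)‖
      ≤ ∫ p : ℝ × ℝ, C * M * (Real.exp (2 * R) * (Real.exp (-|p.1|) * Jm m c (p.1 - p.2)))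
          ∂((volume : Measure ℝ).prod volume) := by
        refine norm_integral_le_of_norm_le hb (Eventually.of_forall fun p => ?_)
        rw [norm_mul, Complex.norm_real, Real.norm_eq_abs]
        calc |κ p.1 p.2| * ‖F p.1 p.2‖ ≤ (C * Wt m c R p.1 p.2) * M :=
              mul_le_mul (h.2 _ _) (hM _ _) (norm_nonneg _) (mul_nonneg hC (Wt_nonneg _ _ _ _ _))
          _ ≤ (C * (Real.exp (2 * R) * (Real.exp (-|p.1|) * Jm m c (p.1 - p.2)))) * M := by
              have := Wt_le m c R p.1 p.2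
              gcongr
          _ = _ := by ring
    _ = _ := by
        rw [integral_const_mul, integral_const_mul, base_integral hm hc]
        ring

/-- the integral operator of a dominated kernel -/
noncomputable def kop (κ : ℝ → ℝ → ℝ) (f : ℝ → ℂ) (s : ℝ) : ℂ := ∫ t, (κ s t : ℂ) * f t

lemma Wt_section_integrable (hm : 0 < m) (hc : 0 < c) (s : ℝ) :
    Integrable (fun t => Real.exp (2 * R) * (Real.exp (-|s|) * Jm m c (s - t))) :=
  (((Jm_integrable hm hc).comp_sub_left s).const_mul _).const_mul _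

lemma Dom.section_integrable (h : Dom m c R C κ) (hC : 0 ≤ C) (hm : 0 < m) (hc : 0 < c) {f : ℝ → ℂ}
    (hf : AEStronglyMeasurable f volume) (hM : ∀ s, ‖f s‖ ≤ M) (s : ℝ) :
    Integrable (fun t => (κ s t : ℂ) * f t) := by
  have hM0 : 0 ≤ M := (norm_nonneg _).trans (hM 0)
  have hb := (Wt_section_integrable (R := R) hm hc s).const_mul (C * M)
  refine Integrable.mono' hb ?_ (Eventually.of_forall fun t => ?_)
  · exact (Complex.measurable_ofReal.comp (h.1.comp
      (measurable_const.prodMk measurable_id))).aestronglyMeasurable.mul hf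
  · rw [norm_mul, Complex.norm_real, Real.norm_eq_abs]
    calc |κ s t| * ‖f t‖ ≤ (C * Wt m c R s t) * M :=
          mul_le_mul (h.2 _ _) (hM _) (norm_nonneg _) (mul_nonneg hC (Wt_nonneg _ _ _ _ _))
      _ ≤ (C * (Real.exp (2 * R) * (Real.exp (-|s|) * Jm m c (s - t)))) * M := by
          have := Wt_le m c R s t
          gcongr
      _ = _ := by ring

lemma Dom.kop_le (h : Dom m c R C κ) (hC : 0 ≤ C) (hm : 0 < m) (hc : 0 < c) {f : ℝ → ℂ}
    (hM : ∀ s, ‖f s‖ ≤ M) (s : ℝ) :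
    ‖kop κ f s‖ ≤ C * M * (2 * Real.exp (2 * R) / (m * c)) * Real.exp (-|s|) := by
  have hM0 : 0 ≤ M := (norm_nonneg _).trans (hM 0)
  have hb := (Wt_section_integrable (R := R) hm hc s).const_mul (C * M)
  calc ‖kop κ f s‖ ≤ ∫ t, C * M * (Real.exp (2 * R) * (Real.exp (-|s|) * Jm m c (s - t))) := by
        refine norm_integral_le_of_norm_le hb (Eventually.of_forall fun t => ?_)
        rw [norm_mul, Complex.norm_real, Real.norm_eq_abs]
        calc |κ s t| * ‖f t‖ ≤ (C * Wt m c R s t) * M :=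
              mul_le_mul (h.2 _ _) (hM _) (norm_nonneg _) (mul_nonneg hC (Wt_nonneg _ _ _ _ _))
          _ ≤ (C * (Real.exp (2 * R) * (Real.exp (-|s|) * Jm m c (s - t)))) * M := by
              have := Wt_le m c R s t
              gcongr
          _ = _ := by ring
    _ = _ := by
        rw [integral_const_mul, integral_const_mul, integral_const_mul,
          integral_sub_left_eq_self (fun t => Jm m c t) _ s, Jm_integral hm hc]
        ring

lemma Dom.kop_meas (h : Dom m c R C κ) {f : ℝ → ℂ} (hf : AEStronglyMeasurable f volume) :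
    AEStronglyMeasurable (kop κ f) volume := by
  have : AEStronglyMeasurable (fun p : ℝ × ℝ => (κ p.1 p.2 : ℂ) * f p.2)
      ((volume : Measure ℝ).prod volume) :=
    (Complex.measurable_ofReal.comp h.1).aestronglyMeasurable.mul hf.comp_snd
  exact this.integral_prod_right'

lemma Dom.kop_integrable (h : Dom m c R C κ) (hC : 0 ≤ C) (hm : 0 < m) (hc : 0 < c) {f : ℝ → ℂ}
    (hf : AEStronglyMeasurable f volume) (hM : ∀ s, ‖f s‖ ≤ M) : Integrable (kop κ f) := by
  have h1 : Integrable (fun s : ℝ => Real.exp (-|s|)) := by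
    have := integrable_exp_abs one_pos 0
    simpa using this
  exact Integrable.mono' (h1.const_mul _) (h.kop_meas hf)
    (Eventually.of_forall fun s => h.kop_le hC hm hc hM s)

end dom

end weight

namespace Data
variable {γ g1 g2 g3 g4 : ℝ → ℂ} {R c K : ℝ} (D : Data γ g1 g2 g3 g4 R c K)
include D

lemma Dk_meas (a m : ℝ) : Measurable (fun p : ℝ × ℝ => Dk a m γ p.1 p.2) := by
  have h1 : Measurable (fun p : ℝ × ℝ => ‖γ p.1 - γ p.2‖ ^ 2) := by
    have := D.continuous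
    exact (by fun_prop : Continuous fun p : ℝ × ℝ => ‖γ p.1 - γ p.2‖ ^ 2).measurable
  have h2 : Measurable (fun p : ℝ × ℝ => (p.1 - p.2) ^ 2) := by fun_prop
  exact (((measurable_gk m).comp h1).sub ((measurable_gk m).comp h2)).const_mul _

lemma D1_meas (a m : ℝ) : Measurable (fun p : ℝ × ℝ => D1 a m γ p.1 p.2) := by
  have h1 : Measurable (fun p : ℝ × ℝ => Qd γ p.1 p.2) := by
    have := D.continuous
    unfold Qd
    exact (by fun_prop : Continuous fun p : ℝ × ℝ => (p.1 - p.2) ^ 2 - ‖γ p.1 - γ p.2‖ ^ 2).measurable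
  have h2 : Measurable (fun p : ℝ × ℝ => (p.1 - p.2) ^ 2) := by fun_prop
  exact (h1.mul ((measurable_gk1 m).comp h2)).const_mul _

lemma Mk_meas (a m : ℝ) : Measurable (fun p : ℝ × ℝ => Mk a m g2 p.1 p.2) := by
  have h1 : Measurable (fun p : ℝ × ℝ => ‖g2 ((p.1 + p.2) / 2)‖ ^ 2 * (p.1 - p.2) ^ 4 / 12) := by
    have := D.continuous2
    exact (by fun_prop : Continuous fun p : ℝ × ℝ =>
      ‖g2 ((p.1 + p.2) / 2)‖ ^ 2 * (p.1 - p.2) ^ 4 / 12).measurable
  have h2 : Measurable (fun p : ℝ × ℝ => (p.1 - p.2) ^ 2) := by fun_prop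
  exact (h1.mul ((measurable_gk1 m).comp h2)).const_mul _

lemma Dk_dom {a m : ℝ} (ha : 0 < a) (hm : 0 < m) (hcm : 8 ≤ c * m) :
    Dom m c R (32 * a * K ^ 2 / (c ^ 4 * m ^ 2)) (Dk a m γ) :=
  ⟨D.Dk_meas a m, fun s t => by
    have := D.Dk_le ha hm hcm s t
    rw [abs_of_nonneg this.1]; exact this.2⟩

lemma Dk1_dom {a m : ℝ} (ha : 0 < a) (hm : 0 < m) (hcm : 8 ≤ c * m) :
    Dom m c R (6144 * a * K ^ 4 / (c ^ 8 * m ^ 4)) (fun s t => Dk a m γ s t - D1 a m γ s t) :=
  ⟨(D.Dk_meas a m).sub (D.D1_meas a m), D.Dk_sub_D1 ha hm hcm⟩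

lemma D1M_dom {a m : ℝ} (ha : 0 < a) (hm : 0 < m) (hcm : 8 ≤ c * m) :
    Dom m c R (3072 * a * K ^ 2 / (c ^ 6 * m ^ 4)) (fun s t => D1 a m γ s t - Mk a m g2 s t) :=
  ⟨(D.D1_meas a m).sub (D.Mk_meas a m), D.D1_sub_Mk ha hm hcm⟩

lemma DkM_dom {a m : ℝ} (ha : 0 < a) (hm : 0 < m) (hcm : 8 ≤ c * m) :
    Dom m c R (6144 * a * K ^ 4 / (c ^ 8 * m ^ 4) + 3072 * a * K ^ 2 / (c ^ 6 * m ^ 4))
      (fun s t => Dk a m γ s t - Mk a m g2 s t) := by
  refine ⟨(D.Dk_meas a m).sub (D.Mk_meas a m), fun s t => ?_⟩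
  have h1 := D.Dk_sub_D1 ha hm hcm s t
  have h2 := D.D1_sub_Mk ha hm hcm s t
  have h3 := abs_add_le (Dk a m γ s t - D1 a m γ s t) (D1 a m γ s t - Mk a m g2 s t)
  rw [sub_add_sub_cancel] at h3
  rw [add_mul]
  linarith

lemma Mk_dom {a m : ℝ} (ha : 0 < a) (hm : 0 < m) (hcm : 8 ≤ c * m) :
    Dom m c R (32 * a * K ^ 2 / (c ^ 4 * m ^ 2)
      + (6144 * a * K ^ 4 / (c ^ 8 * m ^ 4) + 3072 * a * K ^ 2 / (c ^ 6 * m ^ 4))) (Mk a m g2) := by
  refine ⟨D.Mk_meas a m, fun s t => ?_⟩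
  have h1 := (D.DkM_dom ha hm hcm).2 s t
  have h2 := (D.Dk_dom ha hm hcm).2 s t
  have h3 := abs_sub (Dk a m γ s t) (Dk a m γ s t - Mk a m g2 s t)
  rw [sub_sub_cancel] at h3
  simp only at h1
  rw [add_mul]
  linarith

omit D in
lemma Mk_eq (a m s t : ℝ) : 2 * a ^ 2 * Mk a m g2 s t = ‖g2 ((s + t) / 2)‖ ^ 2 * rho a m (s - t) := by
  rw [Mk, rho]; ring

lemma g2_sq_integrable : Integrable (fun x => ‖g2 x‖ ^ 2) := by
  have hc := D.continuous2
  refine Continuous.integrable_of_hasCompactSupport (by fun_prop) ?_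
  refine HasCompactSupport.of_support_subset_isCompact (isCompact_Icc (a := -R) (b := R)) ?_
  intro x hx
  by_contra hne
  apply hx
  have : R ≤ |x| := by
    by_contra hlt
    push Not at hlt
    exact hne ⟨(abs_lt.1 hlt).1.le, (abs_lt.1 hlt).2.le⟩
  simp [D.supp x this]

lemma g2_sq_integral : ∫ x, ‖g2 x‖ ^ 2 ≤ 2 * R * K ^ 2 := by
  have hR := D.hR
  have hK := D.hK
  have h1 : ∀ x, ‖g2 x‖ ^ 2 ≤ (Icc (-R) R).indicator (fun _ => K ^ 2) x := by
    intro x
    by_cases hx : x ∈ Icc (-R) R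
    · rw [indicator_of_mem hx]
      exact pow_le_pow_left₀ (norm_nonneg _) (D.b2 x) 2
    · rw [indicator_of_notMem hx]
      have : R ≤ |x| := by
        by_contra hlt
        push Not at hlt
        exact hx ⟨(abs_lt.1 hlt).1.le, (abs_lt.1 hlt).2.le⟩
      rw [D.supp x this]; simp
  calc ∫ x, ‖g2 x‖ ^ 2 ≤ ∫ x, (Icc (-R) R).indicator (fun _ => K ^ 2) x := by
        refine integral_mono D.g2_sq_integrable ?_ h1
        exact (integrable_indicator_iff measurableSet_Icc).2 (integrableOn_const (by simp))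
    _ = 2 * R * K ^ 2 := by
        rw [integral_indicator measurableSet_Icc, setIntegral_const]
        simp only [smul_eq_mul]
        rw [Measure.real, Real.volume_Icc, ENNReal.toReal_ofReal (by linarith)]
        ring

/-- the main part in centre of mass coordinates -/
lemma main_coord {a m M : ℝ} (ha : 0 < a) (hm : 0 < m) (hcm : 8 ≤ c * m) {F : ℝ → ℝ → ℂ}
    (hF : AEStronglyMeasurable (Function.uncurry F) ((volume : Measure ℝ).prod volume))
    (hM : ∀ s t, ‖F s t‖ ≤ M) (θ : ℝ) :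
    ∫ s, ∫ t, ((2 * a ^ 2 * Mk a m g2 s t : ℝ) : ℂ) * F s t
      = ∫ r, (rho a m r : ℂ) * ∫ x, ((‖g2 (x + θ * r - r / 2)‖ ^ 2 : ℝ) : ℂ)
          * F (x + θ * r) (x + θ * r - r) := by
  have hc := D.hc
  have hI := (D.Mk_dom ha hm hcm).integrable (by positivity) hm hc hF hM
  have hI2 : Integrable (Function.uncurry fun s t => ((2 * a ^ 2 * Mk a m g2 s t : ℝ) : ℂ) * F s t)
      ((volume : Measure ℝ).prod volume) := by
    refine (hI.const_mul ((2 * a ^ 2 : ℝ) : ℂ)).congr (Eventually.of_forall fun p => ?_)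
    simp only [Function.uncurry]
    push_cast
    ring
  rw [shear_swap hI2 θ]
  congr 1; ext r
  rw [← integral_const_mul]
  congr 1; ext x
  rw [Mk_eq]
  rw [show (x + θ * r + (x + θ * r - r)) / 2 = x + θ * r - r / 2 by ring,
    show x + θ * r - (x + θ * r - r) = r by ring]
  push_cast
  ring

lemma inner_bound {F : ℝ → ℂ} {B : ℝ} (hB : ∀ x, ‖F x‖ ≤ B) :
    ‖∫ x, ((‖g2 x‖ ^ 2 : ℝ) : ℂ) * F x‖ ≤ B * (2 * R * K ^ 2) := by
  have hB0 : 0 ≤ B := (norm_nonneg _).trans (hB 0)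
  calc ‖∫ x, ((‖g2 x‖ ^ 2 : ℝ) : ℂ) * F x‖ ≤ ∫ x, ‖g2 x‖ ^ 2 * B := by
        refine norm_integral_le_of_norm_le (D.g2_sq_integrable.mul_const B)
          (Eventually.of_forall fun x => ?_)
        rw [norm_mul, Complex.norm_real, Real.norm_of_nonneg (by positivity)]
        exact mul_le_mul_of_nonneg_left (hB x) (by positivity)
    _ ≤ _ := by
        rw [integral_mul_const, mul_comm]
        exact mul_le_mul_of_nonneg_left D.g2_sq_integral hB0

lemma inner_integrable {F : ℝ → ℂ} {B : ℝ} (hF : AEStronglyMeasurable F volume)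
    (hB : ∀ x, ‖F x‖ ≤ B) : Integrable (fun x => ((‖g2 x‖ ^ 2 : ℝ) : ℂ) * F x) :=
  D.g2_sq_integrable.ofReal.mul_bdd (c := B) hF (Eventually.of_forall hB)

/-- second order weak estimate for the main part -/
lemma main_second {a m M L : ℝ} (ha : 0 < a) (hm : 0 < m) (hcm : 8 ≤ c * m) {F : ℝ → ℝ → ℂ}
    (hF : Continuous (Function.uncurry F)) (hM : ∀ s t, ‖F s t‖ ≤ M)
    (hL : ∀ x h, ‖F (x + h) (x - h) + F (x - h) (x + h) - 2 * F x x‖ ≤ L * h ^ 2) :
    ‖(∫ s, ∫ t, ((2 * a ^ 2 * Mk a m g2 s t : ℝ) : ℂ) * F s t)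
      - ((a ^ 3 / (4 * m ^ 3) : ℝ) : ℂ) * ∫ x, ((‖g2 x‖ ^ 2 : ℝ) : ℂ) * F x x‖
      ≤ 15 * L * R * K ^ 2 * a ^ 3 / (16 * m ^ 5) := by
  have hc := D.hc
  have hL0 : 0 ≤ L := by
    have := (norm_nonneg _).trans (hL 0 1)
    simpa using this
  set Φ : ℝ → ℂ := fun r => ∫ x, ((‖g2 x‖ ^ 2 : ℝ) : ℂ) * F (x + r / 2) (x - r / 2) with hΦ
  have hF' : ∀ r : ℝ, Continuous (fun x => F (x + r / 2) (x - r / 2)) := fun r =>
    hF.comp (by fun_prop : Continuous fun x : ℝ => (x + r / 2, x - r / 2))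
  have hFd : Continuous (fun x => F x x) := hF.comp (by fun_prop : Continuous fun x : ℝ => (x, x))
  have hΦb : ∀ r, ‖Φ r‖ ≤ M * (2 * R * K ^ 2) := fun r => D.inner_bound (fun x => hM _ _)
  have hΦm : AEStronglyMeasurable Φ volume := by
    have : Continuous (fun p : ℝ × ℝ => ((‖g2 p.2‖ ^ 2 : ℝ) : ℂ) * F (p.2 + p.1 / 2) (p.2 - p.1 / 2)) := by
      have h1 := D.continuous2
      have h2 : Continuous (fun p : ℝ × ℝ => F (p.2 + p.1 / 2) (p.2 - p.1 / 2)) :=
        hF.comp (by fun_prop : Continuous fun p : ℝ × ℝ => (p.2 + p.1 / 2, p.2 - p.1 / 2))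
      fun_prop
    exact (this.aestronglyMeasurable (μ := (volume : Measure ℝ).prod volume)).integral_prod_right'
  have e1 : ∫ s, ∫ t, ((2 * a ^ 2 * Mk a m g2 s t : ℝ) : ℂ) * F s t = ∫ r, (rho a m r : ℂ) * Φ r := by
    rw [D.main_coord ha hm hcm hF.aestronglyMeasurable hM (1 / 2)]
    congr 1; ext r
    congr 1
    simp only [hΦ]
    congr 1; ext x
    rw [show x + 1 / 2 * r - r / 2 = x by ring, show x + 1 / 2 * r = x + r / 2 by ring,
      show x + r / 2 - r = x - r / 2 by ring]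
  have iρ : Integrable (fun r => (rho a m r : ℂ) * Φ r) :=
    (rho_integrable hm).ofReal.mul_bdd (c := M * (2 * R * K ^ 2)) hΦm (Eventually.of_forall hΦb)
  have e2 : ∫ r, (rho a m r : ℂ) * Φ r = ∫ r, (rho a m r : ℂ) * Φ (-r) := by
    rw [← integral_neg_eq_self (fun r => (rho a m r : ℂ) * Φ r)]
    congr 1; ext r
    rw [rho_even]
  have iρ2 : Integrable (fun r => (rho a m r : ℂ) * Φ (-r)) := by
    have := iρ.comp_neg
    refine this.congr (Eventually.of_forall fun r => ?_)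
    simp only [rho_even]
  have e3 : ((a ^ 3 / (4 * m ^ 3) : ℝ) : ℂ) = ∫ r, (rho a m r : ℂ) := by
    rw [integral_complex_ofReal, rho_integral hm]
  set I0 : ℂ := ∫ x, ((‖g2 x‖ ^ 2 : ℝ) : ℂ) * F x x with hI0
  have e4 : (∫ r, (rho a m r : ℂ) * Φ r) - ((a ^ 3 / (4 * m ^ 3) : ℝ) : ℂ) * I0
      = ∫ r, (rho a m r : ℂ) * ((1 / 2) * (Φ r + Φ (-r) - 2 * I0)) := by
    have h5 : ∫ r, (rho a m r : ℂ) * ((1 / 2) * (Φ r + Φ (-r) - 2 * I0))
        = ∫ r, ((1 / 2) * ((rho a m r : ℂ) * Φ r) + (1 / 2) * ((rho a m r : ℂ) * Φ (-r))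
          - I0 * (rho a m r : ℂ)) := by
      congr 1; ext r; ring
    have iρ0 : Integrable (fun r => (rho a m r : ℂ)) := (rho_integrable hm).ofReal
    rw [h5, integral_lin3 iρ iρ2 iρ0, ← e2, e3]
    ring
  rw [e1, e4]
  have hpt : ∀ r, ‖Φ r + Φ (-r) - 2 * I0‖ ≤ L * (r / 2) ^ 2 * (2 * R * K ^ 2) := by
    intro r
    have i1 := D.inner_integrable (hF' r).aestronglyMeasurable (fun x => hM _ _)
    have i2 := D.inner_integrable (hF' (-r)).aestronglyMeasurable (fun x => hM _ _)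
    have i3 := D.inner_integrable hFd.aestronglyMeasurable (fun x => hM _ _)
    have e5 : Φ r + Φ (-r) - 2 * I0 = ∫ x, ((‖g2 x‖ ^ 2 : ℝ) : ℂ)
        * (F (x + r / 2) (x - r / 2) + F (x - r / 2) (x + r / 2) - 2 * F x x) := by
      have h6 := integral_lin3 i1 i2 i3 1 1 2
      simp only [one_mul] at h6
      simp only [hΦ, hI0]
      rw [← h6]
      congr 1; ext x
      rw [show x + -r / 2 = x - r / 2 by ring, show x - -r / 2 = x + r / 2 by ring]
      ring
    rw [e5]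
    exact D.inner_bound (fun x => hL x (r / 2))
  calc ‖∫ r, (rho a m r : ℂ) * ((1 / 2) * (Φ r + Φ (-r) - 2 * I0))‖
      ≤ ∫ r, rho a m r * r ^ 2 * (L * R * K ^ 2 / 4) := by
        refine norm_integral_le_of_norm_le ((rho2_integrable hm).mul_const _)
          (Eventually.of_forall fun r => ?_)
        rw [norm_mul, norm_mul, Complex.norm_real, Real.norm_of_nonneg (rho_nonneg ha r)]
        have h1 := rho_nonneg (m := m) ha r
        have h2 : ‖(1 / 2 : ℂ)‖ = 1 / 2 := by norm_num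
        rw [h2]
        calc rho a m r * (1 / 2 * ‖Φ r + Φ (-r) - 2 * I0‖)
            ≤ rho a m r * (1 / 2 * (L * (r / 2) ^ 2 * (2 * R * K ^ 2))) := by
              have := hpt r
              gcongr
          _ = _ := by ring
    _ = _ := by
        rw [integral_mul_const, rho2_integral hm]
        ring

lemma g2_sq_diff (x h : ℝ) : |‖g2 (x + h)‖ ^ 2 - ‖g2 x‖ ^ 2|
    ≤ 2 * K ^ 2 * |h| * ((Icc (-R) R).indicator (fun _ => (1:ℝ)) x
      + (Icc (-R) R).indicator (fun _ => (1:ℝ)) (x + h)) := by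
  have hK := D.hK
  have hout : ∀ y : ℝ, y ∉ Icc (-R) R → g2 y = 0 := by
    intro y hy
    apply D.supp
    by_contra hlt
    push Not at hlt
    exact hy ⟨(abs_lt.1 hlt).1.le, (abs_lt.1 hlt).2.le⟩
  have hd2 : ∀ z, HasDerivAt (fun z => g2 (x + z) - g2 x) (g3 (x + z)) z := fun z => by
    have := (D.d2 (x + z)).comp_const_add x z
    simpa using this.sub_const (g2 x)
  have h1 : ‖g2 (x + h) - g2 x‖ ≤ K * |h| := by
    have := mvt_pow (E := fun z => g2 (x + z) - g2 x) (E' := fun z => g3 (x + z)) (by simp)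
      hd2 0 (fun z => by simpa using D.b3 _) h
    simpa using this
  have h2 : |‖g2 (x + h)‖ ^ 2 - ‖g2 x‖ ^ 2| ≤ 2 * K ^ 2 * |h| := by
    have e : ‖g2 (x + h)‖ ^ 2 - ‖g2 x‖ ^ 2 = (‖g2 (x + h)‖ - ‖g2 x‖) * (‖g2 (x + h)‖ + ‖g2 x‖) := by ring
    rw [e, abs_mul]
    have h3 : |‖g2 (x + h)‖ - ‖g2 x‖| ≤ K * |h| := (abs_norm_sub_norm_le _ _).trans h1
    have h4 : |‖g2 (x + h)‖ + ‖g2 x‖| ≤ 2 * K := by
      rw [abs_of_nonneg (by positivity)]
      linarith [D.b2 (x + h), D.b2 x]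
    calc |‖g2 (x + h)‖ - ‖g2 x‖| * |‖g2 (x + h)‖ + ‖g2 x‖| ≤ (K * |h|) * (2 * K) := by gcongr
      _ = _ := by ring
  have hnn : 0 ≤ 2 * K ^ 2 * |h| := by positivity
  by_cases hx : x ∈ Icc (-R) R
  · rw [indicator_of_mem hx]
    have : 0 ≤ (Icc (-R) R).indicator (fun _ => (1:ℝ)) (x + h) := indicator_nonneg (by simp) _
    nlinarith
  · by_cases hxh : x + h ∈ Icc (-R) R
    · rw [indicator_of_mem hxh, indicator_of_notMem hx]
      linarith
    · rw [indicator_of_notMem hx, indicator_of_notMem hxh, hout x hx, hout _ hxh]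
      simp

omit D in
lemma ind_integrable (R : ℝ) : Integrable ((Icc (-R) R).indicator (fun _ => (1:ℝ))) :=
  (integrable_indicator_iff measurableSet_Icc).2 (integrableOn_const (by simp))

omit D in
lemma ind_integral {R : ℝ} (hR : 0 ≤ R) : ∫ x, (Icc (-R) R).indicator (fun _ => (1:ℝ)) x = 2 * R := by
  rw [integral_indicator measurableSet_Icc, setIntegral_const]
  simp only [smul_eq_mul]
  rw [Measure.real, Real.volume_Icc, ENNReal.toReal_ofReal (by linarith)]
  ring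

/-- first order weak estimate for the main part -/
lemma main_first {a m M1 M2 L : ℝ} (ha : 0 < a) (hm : 0 < m) (hcm : 8 ≤ c * m) {φ f : ℝ → ℂ}
    (hφ : CB M1 φ) (hf : CB M2 f) (hL : ∀ s t, ‖φ s - φ t‖ ≤ L * |s - t|) :
    ‖(∫ s, ∫ t, ((2 * a ^ 2 * Mk a m g2 s t : ℝ) : ℂ) * (φ s * f t))
      - ((a ^ 3 / (4 * m ^ 3) : ℝ) : ℂ) * ∫ x, ((‖g2 x‖ ^ 2 : ℝ) : ℂ) * (φ x * f x)‖
      ≤ M2 * R * K ^ 2 * (2 * L + 4 * M1) * (a ^ 2 / (8 * m ^ 3) + 15 * a ^ 4 / (8 * m ^ 5)) := by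
  have hc := D.hc
  have hR := D.hR
  have hK := D.hK
  have hM1 := hφ.nonneg
  have hM2 := hf.nonneg
  have hL0 : 0 ≤ L := by
    have := (norm_nonneg _).trans (hL 1 0)
    simpa using this
  have hφc := hφ.1
  have hfc := hf.1
  have h2c := D.continuous2
  have hFc : Continuous (Function.uncurry fun s t => φ s * f t) := by
    unfold Function.uncurry; fun_prop
  have hFM : ∀ s t, ‖φ s * f t‖ ≤ M1 * M2 := fun s t => by
    rw [norm_mul]; exact mul_le_mul (hφ.2 s) (hf.2 t) (norm_nonneg _) hM1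
  rw [D.main_coord ha hm hcm hFc.aestronglyMeasurable hFM 1]
  set Φ : ℝ → ℂ := fun r => ∫ x, ((‖g2 (x + 1 * r - r / 2)‖ ^ 2 : ℝ) : ℂ)
          * (φ (x + 1 * r) * f (x + 1 * r - r)) with hΦ
  set I0 : ℂ := ∫ x, ((‖g2 x‖ ^ 2 : ℝ) : ℂ) * (φ x * f x) with hI0
  have i0 : Integrable (fun x => ((‖g2 x‖ ^ 2 : ℝ) : ℂ) * (φ x * f x)) :=
    D.inner_integrable (by fun_prop) (fun x => hFM x x)
  have ir : ∀ r, Integrable (fun x => ((‖g2 (x + 1 * r - r / 2)‖ ^ 2 : ℝ) : ℂ)
          * (φ (x + 1 * r) * f (x + 1 * r - r))) := by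
    intro r
    have h1 : Integrable (fun x => ‖g2 (x + 1 * r - r / 2)‖ ^ 2) := by
      have := D.g2_sq_integrable.comp_add_right (r - r / 2)
      refine this.congr (Eventually.of_forall fun x => ?_)
      simp only
      congr 3
      ring
    refine h1.ofReal.mul_bdd (c := M1 * M2) (by fun_prop) (Eventually.of_forall fun x => ?_)
    exact hFM _ _
  have hpt : ∀ r, ‖Φ r - I0‖ ≤ |r| * (M2 * R * K ^ 2 * (2 * L + 4 * M1)) := by
    intro r
    have e1 : Φ r - I0 = ∫ x, (((‖g2 (x + r / 2)‖ ^ 2 : ℝ) : ℂ) * φ (x + r)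
        - ((‖g2 x‖ ^ 2 : ℝ) : ℂ) * φ x) * f x := by
      rw [hΦ, hI0]
      simp only
      rw [← integral_sub (ir r) i0]
      congr 1; ext x
      rw [show x + 1 * r - r / 2 = x + r / 2 by ring, show x + 1 * r = x + r by ring,
        show x + r - r = x by ring]
      ring
    rw [e1]
    have ib1 : Integrable (fun x => ‖g2 (x + r / 2)‖ ^ 2) := D.g2_sq_integrable.comp_add_right (r / 2)
    have ib2 := ind_integrable R
    have ib3 := (ind_integrable R).comp_add_right (r / 2)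
    have ib23 : Integrable (fun x => (Icc (-R) R).indicator (fun _ => (1:ℝ)) x
          + (Icc (-R) R).indicator (fun _ => (1:ℝ)) (x + r / 2)) := ib2.add ib3
    have ib : Integrable (fun x => M2 * (‖g2 (x + r / 2)‖ ^ 2 * (L * |r|)
        + M1 * (2 * K ^ 2 * |r / 2|) * ((Icc (-R) R).indicator (fun _ => (1:ℝ)) x
          + (Icc (-R) R).indicator (fun _ => (1:ℝ)) (x + r / 2)))) :=
      ((ib1.mul_const _).add (ib23.const_mul _)).const_mul _
    calc ‖∫ x, (((‖g2 (x + r / 2)‖ ^ 2 : ℝ) : ℂ) * φ (x + r)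
        - ((‖g2 x‖ ^ 2 : ℝ) : ℂ) * φ x) * f x‖
        ≤ ∫ x, M2 * (‖g2 (x + r / 2)‖ ^ 2 * (L * |r|)
        + M1 * (2 * K ^ 2 * |r / 2|) * ((Icc (-R) R).indicator (fun _ => (1:ℝ)) x
          + (Icc (-R) R).indicator (fun _ => (1:ℝ)) (x + r / 2))) := by
          refine norm_integral_le_of_norm_le ib (Eventually.of_forall fun x => ?_)
          rw [norm_mul, mul_comm]
          have e2 : ((‖g2 (x + r / 2)‖ ^ 2 : ℝ) : ℂ) * φ (x + r) - ((‖g2 x‖ ^ 2 : ℝ) : ℂ) * φ x
              = ((‖g2 (x + r / 2)‖ ^ 2 : ℝ) : ℂ) * (φ (x + r) - φ x)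
                + ((‖g2 (x + r / 2)‖ ^ 2 - ‖g2 x‖ ^ 2 : ℝ) : ℂ) * φ x := by push_cast; ring
          have h3 : ‖((‖g2 (x + r / 2)‖ ^ 2 : ℝ) : ℂ) * φ (x + r) - ((‖g2 x‖ ^ 2 : ℝ) : ℂ) * φ x‖
              ≤ ‖g2 (x + r / 2)‖ ^ 2 * (L * |r|)
        + M1 * (2 * K ^ 2 * |r / 2|) * ((Icc (-R) R).indicator (fun _ => (1:ℝ)) x
          + (Icc (-R) R).indicator (fun _ => (1:ℝ)) (x + r / 2)) := by
            rw [e2]
            refine (norm_add_le _ _).trans (add_le_add ?_ ?_)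
            · rw [norm_mul, Complex.norm_real, Real.norm_of_nonneg (by positivity)]
              have := hL (x + r) x
              rw [show x + r - x = r by ring] at this
              exact mul_le_mul_of_nonneg_left this (by positivity)
            · rw [norm_mul, Complex.norm_real, Real.norm_eq_abs]
              calc |‖g2 (x + r / 2)‖ ^ 2 - ‖g2 x‖ ^ 2| * ‖φ x‖
                  ≤ (2 * K ^ 2 * |r / 2| * ((Icc (-R) R).indicator (fun _ => (1:ℝ)) x
                    + (Icc (-R) R).indicator (fun _ => (1:ℝ)) (x + r / 2))) * M1 :=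
                    mul_le_mul (D.g2_sq_diff x (r / 2)) (hφ.2 x) (norm_nonneg _)
                      ((abs_nonneg _).trans (D.g2_sq_diff x (r / 2)))
                _ = _ := by ring
          exact mul_le_mul (hf.2 x) h3 (norm_nonneg _) hM2
      _ = M2 * ((∫ x, ‖g2 x‖ ^ 2) * (L * |r|) + M1 * (2 * K ^ 2 * |r / 2|) * (2 * R + 2 * R)) := by
          rw [integral_const_mul, integral_add (ib1.mul_const _) (ib23.const_mul _),
            integral_mul_const, integral_const_mul]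
          have e5 : ∫ x, ‖g2 (x + r / 2)‖ ^ 2 = ∫ x, ‖g2 x‖ ^ 2 :=
            integral_add_right_eq_self (fun x => ‖g2 x‖ ^ 2) (r / 2)
          have e6 : ∫ x, ((Icc (-R) R).indicator (fun _ => (1:ℝ)) x
              + (Icc (-R) R).indicator (fun _ => (1:ℝ)) (x + r / 2)) = 2 * R + 2 * R := by
            rw [integral_add ib2 ib3, integral_add_right_eq_self
              (fun x => (Icc (-R) R).indicator (fun _ => (1:ℝ)) x) (r / 2), ind_integral hR]
          rw [e5, e6]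
      _ ≤ M2 * ((2 * R * K ^ 2) * (L * |r|) + M1 * (2 * K ^ 2 * |r / 2|) * (2 * R + 2 * R)) := by
          have := D.g2_sq_integral
          gcongr
      _ = _ := by
          rw [abs_div, abs_two]; ring
  have hΦb : ∀ r, ‖Φ r‖ ≤ M1 * M2 * (2 * R * K ^ 2) := by
    intro r
    have e : Φ r = ∫ x, ((‖g2 x‖ ^ 2 : ℝ) : ℂ) * (φ (x + r / 2) * f (x - r / 2)) := by
      rw [hΦ]
      simp only
      rw [← integral_add_right_eq_self (fun x => ((‖g2 x‖ ^ 2 : ℝ) : ℂ)
        * (φ (x + r / 2) * f (x - r / 2))) (r - r / 2)]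
      congr 1; ext x
      rw [show x + 1 * r - r / 2 = x + (r - r / 2) by ring, show x + 1 * r = x + (r - r / 2) + r / 2 by ring,
        show x + (r - r / 2) + r / 2 - r = x + (r - r / 2) - r / 2 by ring]
    rw [e]
    exact D.inner_bound fun x => hFM _ _
  have hΦm : AEStronglyMeasurable Φ volume := by
    have : Continuous (fun p : ℝ × ℝ => ((‖g2 (p.2 + 1 * p.1 - p.1 / 2)‖ ^ 2 : ℝ) : ℂ)
          * (φ (p.2 + 1 * p.1) * f (p.2 + 1 * p.1 - p.1))) := by fun_prop
    exact (this.aestronglyMeasurable (μ := (volume : Measure ℝ).prod volume)).integral_prod_right'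
  have iρ : Integrable (fun r => (rho a m r : ℂ) * Φ r) :=
    (rho_integrable hm).ofReal.mul_bdd (c := M1 * M2 * (2 * R * K ^ 2)) hΦm (Eventually.of_forall hΦb)
  have iρ0 : Integrable (fun r => (rho a m r : ℂ)) := (rho_integrable hm).ofReal
  have e3 : ((a ^ 3 / (4 * m ^ 3) : ℝ) : ℂ) = ∫ r, (rho a m r : ℂ) := by
    rw [integral_complex_ofReal, rho_integral hm]
  have e4 : (∫ r, (rho a m r : ℂ) * Φ r) - ((a ^ 3 / (4 * m ^ 3) : ℝ) : ℂ) * I0
      = ∫ r, (rho a m r : ℂ) * (Φ r - I0) := by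
    rw [e3, ← integral_mul_const, ← integral_sub iρ (iρ0.mul_const _)]
    congr 1; ext r; ring
  rw [e4]
  calc ‖∫ r, (rho a m r : ℂ) * (Φ r - I0)‖
      ≤ ∫ r, rho a m r * |r| * (M2 * R * K ^ 2 * (2 * L + 4 * M1)) := by
        refine norm_integral_le_of_norm_le ((rho1_integrable ha hm).mul_const _)
          (Eventually.of_forall fun r => ?_)
        rw [norm_mul, Complex.norm_real, Real.norm_of_nonneg (rho_nonneg ha r), mul_assoc]
        exact mul_le_mul_of_nonneg_left (hpt r) (rho_nonneg ha r)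
    _ ≤ _ := by
        rw [integral_mul_const, mul_comm]
        exact mul_le_mul_of_nonneg_left (rho1_integral ha hm) (by positivity)

end Data

end Pool.Agent.Helper97.Scat
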